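/-
MP_72c0ec_gt (Santalo's shadow perimeter inequality), helper9.
The regular tetrahedron is a strict maximum in a neighbourhood: definitions.
-/
import Pool.Agent.H.MP_72c0ec_gt.Sym.Surf
import Pool.Agent.H.MP_72c0ec_gt.Final

set_option autoImplicit false

namespace SanLoc

open San SanSym MeasureTheory Set Metric Real

/-- The cross product. -/
noncomputable def cr (x y : E3) : E3 :=
  !₂[x 1 * y 2 - x 2 * y 1, x 2 * y 0 - x 0 * y 2, x 0 * y 1 - x 1 * y 0]

/-- Six times the signed volume of the tetrahedron with the vertices `P j`. -/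
noncomputable def tv (P : Fin 4 → E3) : ℝ := inner ℝ (cr (P 1 - P 0) (P 2 - P 0)) (P 3 - P 0)

/-- The outward normal of the face opposite to `P j`, its length is twice the area of the face
(if `tv P > 0`). -/
noncomputable def NN (P : Fin 4 → E3) : Fin 4 → E3 :=
  ![cr (P 1 - P 0) (P 2 - P 0) + cr (P 2 - P 0) (P 3 - P 0) + cr (P 3 - P 0) (P 1 - P 0),
    -cr (P 2 - P 0) (P 3 - P 0), -cr (P 3 - P 0) (P 1 - P 0), -cr (P 1 - P 0) (P 2 - P 0)]

/-- `P` are the vertices of a tetrahedron, `N j` is an outward normal of the face opposite to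
`P j`. -/
structure IsTet (P N : Fin 4 → E3) (v : ℝ) : Prop where
  pos : 0 < v
  sumN : N 0 + N 1 + N 2 + N 3 = 0
  height : ∀ j k, k ≠ j → (inner ℝ (N j) (P k) : ℝ) = inner ℝ (N j) (P j) + v
  expand : ∀ x : E3, x = ∑ k, (-((inner ℝ (N k) x : ℝ) / v)) • P k

/-- A nearly regular tetrahedron with edges nearly `1`. -/
structure Near (η : ℝ) (P N : Fin 4 → E3) (v : ℝ) : Prop extends IsTet P N v where
  nn : ∀ j, |‖N j‖ ^ 2 - 3 / 4| ≤ η
  ni : ∀ j k, j ≠ k → |(inner ℝ (N j) (N k) : ℝ) + 1 / 4| ≤ η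
  ee : ∀ j k, j ≠ k → |‖P j - P k‖ ^ 2 - 1| ≤ η
  vv : |v ^ 2 - 1 / 2| ≤ η

/-- The area of the parallelogram with the sides `p`, `q`. -/
noncomputable def wd (p q : E3) : ℝ := √(‖p‖ ^ 2 * ‖q‖ ^ 2 - (inner ℝ p q : ℝ) ^ 2)

/-- The density of the arc length measure of the arc from `p` to `q` in the parameter `μ` of
`p + μ q`, divided by `‖p + μ q‖`. -/
noncomputable def Wt (p q : E3) (μ : ℝ) : ℝ := wd p q / ‖p + μ • q‖ ^ 3

/-- The integral of the positively homogeneous function `g` over the arc of the unit circle between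
the directions of `p + a q` and `p + b q`. -/
noncomputable def J (g : E3 → ℝ) (p q : E3) (a b : ℝ) : ℝ := ∫ μ in a..b, g (p + μ • q) * Wt p q μ

/-- Continuous, nonnegative, positively homogeneous and subadditive functions. -/
structure Sublin (G : E3 → ℝ) : Prop where
  cont : Continuous G
  nonneg : ∀ v, 0 ≤ G v
  hom : ∀ (c : ℝ) (v : E3), 0 ≤ c → G (c • v) = c * G v
  add : ∀ v w, G (v + w) ≤ G v + G w

/-- The support function of `K` with respect to the point `p`. -/
noncomputable def gg (K : Set E3) (p v : E3) : ℝ := supp K v - inner ℝ p v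

/-- The support function with respect to `p` of the part of `K` near `p`. -/
noncomputable def ph (K : Set E3) (p v : E3) : ℝ := gg (K ∩ closedBall p (1 / 1000)) p v

/-- The gain function of the edge `p q`. -/
noncomputable def Mx (K : Set E3) (p q v : E3) : ℝ := max (gg K p v) (ph K p v + ph K q v)

/-- The situation of the local theorem. -/
structure Loc (K : Set E3) (P N : Fin 4 → E3) (v : ℝ) : Prop where
  near : Near (1 / 10 ^ 5) P N v
  comp : IsCompact K
  conv : Convex ℝ K
  mem : ∀ j, P j ∈ K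
  pos : ∀ j, ∀ x ∈ K, (0:ℝ) ≤ inner ℝ (N j) (x - P j)
  low : ∀ j k, k ≠ j → ∀ x ∈ K, (inner ℝ (N k) (x - P j) : ℝ) ≤ 1 / 10 ^ 8

/-- The increase of the perimeter of the shadow along the edge `P j P k` (`l`, `m` are the other two
indices). -/
noncomputable def dL (K : Set E3) (P N : Fin 4 → E3) (j k l m : Fin 4) : ℝ :=
  J (gg K (P j)) (N l) (N m) 0 1 + J (gg K (P j)) (N m) (N l) 0 1 +
    (J (gg K (P l)) (N m) (N j + N k) 0 1 + J (gg K (P l)) (N j + N k) (N m) 0 1) +
    (J (gg K (P m)) (N l) (N j + N k) 0 1 + J (gg K (P m)) (N j + N k) (N l) 0 1)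

/-- The gain along the edge `P j P k` (`l`, `m` are the other two indices). -/
noncomputable def HH (K : Set E3) (P N : Fin 4 → E3) (j k l m : Fin 4) : ℝ :=
  J (Mx K (P j) (P k)) (N l) (N m) 0 1 + J (Mx K (P j) (P k)) (N m) (N l) 0 1

/-- The total gain. -/
noncomputable def GG (K : Set E3) (P N : Fin 4 → E3) : ℝ :=
  HH K P N 0 1 2 3 + HH K P N 0 2 1 3 + HH K P N 0 3 1 2 + HH K P N 1 2 0 3 + HH K P N 1 3 0 2 +
    HH K P N 2 3 0 1

/-- The perimeter of the shadow along the edge `P j P k` of the tetrahedron. -/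
noncomputable def LT (P N : Fin 4 → E3) (j k l m : Fin 4) : ℝ :=
  (‖N l‖ + ‖N m‖ + ‖N l + N m‖) / ‖P k - P j‖

/-- Half the sum of the lengths of the normals: the area of the surface of the tetrahedron. -/
noncomputable def F0 (N : Fin 4 → E3) : ℝ := (‖N 0‖ + ‖N 1‖ + ‖N 2‖ + ‖N 3‖) / 2

end SanLoc
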