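/-
MP_72c0ec_gt, helper9: polar coordinates for homogeneous functions.
-/
import Pool.Agent.H.MP_72c0ec_gt.Loc.Base

set_option autoImplicit false

namespace SanLoc

open San SanSym MeasureTheory Set Metric Real

/-- Polar coordinates: for `h : ℝ × ℝ → ℝ` positively homogeneous of degree one:
`∫ exp(-|z|²) h(z) dz = √π / 4 ∫_0^{2π} h(cos t, sin t) dt`.
(`integral_comp_polarCoord_symm`; the radial integral is `radial_square` of `Sym/Sphere.lean`, the
argument is the same as in the proof of `gauss_cyl` there; the interval `(-π, π)` of `polarCoord` is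
replaced by `(0, 2π)` by periodicity. Measurability and the bound are given in case they help.) -/
theorem polar_hom {h : ℝ × ℝ → ℝ} (hm : Measurable h)
    (hh : ∀ (c : ℝ) (z : ℝ × ℝ), 0 < c → h (c • z) = c * h z) {C : ℝ}
    (hb : ∀ z : ℝ × ℝ, |h z| ≤ C * √(z.1 ^ 2 + z.2 ^ 2)) :
    ∫ z : ℝ × ℝ, exp (-(z.1 ^ 2 + z.2 ^ 2)) * h z =
      √π / 4 * ∫ t in (0:ℝ)..(2 * π), h (cos t, sin t) := by
  rw [← integral_comp_polarCoord_symm, polarCoord_target, Measure.volume_eq_prod]
  have hcongr : ∫ p in Ioi (0:ℝ) ×ˢ Ioo (-π) π, p.1 •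
      (exp (-((polarCoord.symm p).1 ^ 2 + (polarCoord.symm p).2 ^ 2)) *
        h (polarCoord.symm p)) ∂(volume.prod volume) =
      ∫ p in Ioi (0:ℝ) ×ˢ Ioo (-π) π, (p.1 * (p.1 * exp (-p.1 ^ 2))) *
        h (cos p.2, sin p.2) ∂(volume.prod volume) := by
    refine setIntegral_congr_fun (measurableSet_Ioi.prod measurableSet_Ioo) (fun p hp => ?_)
    have hp0 : 0 < p.1 := hp.1
    simp only [polarCoord_symm_apply, smul_eq_mul]
    have h1 : (p.1 * cos p.2) ^ 2 + (p.1 * sin p.2) ^ 2 = p.1 ^ 2 := by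
      have := sin_sq_add_cos_sq p.2
      nlinarith
    have h2 : ((p.1 * cos p.2, p.1 * sin p.2) : ℝ × ℝ) = p.1 • (cos p.2, sin p.2) := rfl
    rw [h1, h2, hh _ _ hp0]
    ring
  refine hcongr.trans ?_
  rw [setIntegral_prod_mul (fun r : ℝ => r * (r * exp (-r ^ 2)))
    (fun t : ℝ => h (cos t, sin t)), radial_square]
  congr 1
  have hper : Function.Periodic (fun t : ℝ => h (cos t, sin t)) (2 * π) := by
    intro t
    simp only [cos_add_two_pi, sin_add_two_pi]
  have h2 := hper.intervalIntegral_add_eq (-π) 0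
  rw [zero_add, show -π + 2 * π = π by ring] at h2
  rw [← h2, intervalIntegral.integral_of_le (by linarith [pi_pos]),
    integral_Ioc_eq_integral_Ioo]

end SanLoc
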