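/-
MP_72c0ec_gt, helper9: elementary properties of `wd`, `Wt`, `J`.
-/
import Pool.Agent.H.MP_72c0ec_gt.Loc.Base

set_option autoImplicit false

namespace SanLoc

open San SanSym MeasureTheory Set Metric Real

theorem wd_swap (p q : E3) : wd q p = wd p q := by
  unfold wd
  rw [real_inner_comm p q, mul_comm (‖q‖ ^ 2)]

/-- `‖q‖² ‖p + q‖² - ⟪q, p + q⟫² = ‖p‖² ‖q‖² - ⟪p, q⟫²`. -/
theorem wd_neg_add (p q : E3) : wd q (-(p + q)) = wd p q := by
  unfold wd
  have h1 : ‖-(p + q)‖ ^ 2 = ‖p‖ ^ 2 + 2 * (inner ℝ p q : ℝ) + ‖q‖ ^ 2 := by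
    rw [norm_neg, norm_add_sq_real]
  have h2 : (inner ℝ q (-(p + q)) : ℝ) = -((inner ℝ p q : ℝ) + ‖q‖ ^ 2) := by
    rw [inner_neg_right, inner_add_right, real_inner_self_eq_norm_sq, real_inner_comm]
  rw [h1, h2]
  congr 1
  ring

/-- If `p + μ q = 0` then `‖p‖² ‖q‖² = ⟪p, q⟫²`. -/
theorem norm_pos_of_wd {p q : E3} (h : 0 < wd p q) (μ : ℝ) : 0 < ‖p + μ • q‖ := by
  rw [norm_pos_iff]
  intro h0
  have hp : p = (-μ) • q := by
    rw [neg_smul]
    exact eq_neg_of_add_eq_zero_left h0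
  have h1 : wd p q = 0 := by
    unfold wd
    rw [hp, norm_smul, real_inner_smul_left, real_inner_self_eq_norm_sq, mul_pow,
      Real.norm_eq_abs, sq_abs]
    rw [show (-μ) ^ 2 * ‖q‖ ^ 2 * ‖q‖ ^ 2 - (-μ * ‖q‖ ^ 2) ^ 2 = 0 by ring, Real.sqrt_zero]
  exact h.ne' h1

theorem Wt_nonneg (p q : E3) (μ : ℝ) : 0 ≤ Wt p q μ :=
  div_nonneg (Real.sqrt_nonneg _) (pow_nonneg (norm_nonneg _) 3)

theorem Wd_lin_cont (p q : E3) : Continuous fun μ : ℝ => p + μ • q :=
  continuous_const.add (continuous_id.smul continuous_const)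

theorem Wt_continuous {p q : E3} (h : 0 < wd p q) : Continuous (Wt p q) := by
  unfold Wt
  exact continuous_const.div ((Wd_lin_cont p q).norm.pow 3)
    fun μ => pow_ne_zero 3 (norm_pos_of_wd h μ).ne'

theorem J_cont {g : E3 → ℝ} (hg : Continuous g) {p q : E3} (h : 0 < wd p q) :
    Continuous fun μ : ℝ => g (p + μ • q) * Wt p q μ :=
  (hg.comp (Wd_lin_cont p q)).mul (Wt_continuous h)

theorem J_nonneg {g : E3 → ℝ} (hg : ∀ v, 0 ≤ g v) (p q : E3) {a b : ℝ} (hab : a ≤ b) :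
    0 ≤ J g p q a b :=
  intervalIntegral.integral_nonneg hab fun _ _ => mul_nonneg (hg _) (Wt_nonneg _ _ _)

theorem J_split {g : E3 → ℝ} (hg : Continuous g) {p q : E3} (h : 0 < wd p q) (a b c : ℝ) :
    J g p q a b + J g p q b c = J g p q a c :=
  intervalIntegral.integral_add_adjacent_intervals ((J_cont hg h).intervalIntegrable _ _)
    ((J_cont hg h).intervalIntegrable _ _)

theorem J_mono {g g' : E3 → ℝ} (hg : Continuous g) (hg' : Continuous g') {p q : E3}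
    (h : 0 < wd p q) {a b : ℝ} (hab : a ≤ b)
    (hle : ∀ μ ∈ Icc a b, g (p + μ • q) ≤ g' (p + μ • q)) : J g p q a b ≤ J g' p q a b :=
  intervalIntegral.integral_mono_on hab ((J_cont hg h).intervalIntegrable _ _)
    ((J_cont hg' h).intervalIntegrable _ _)
    fun μ hμ => mul_le_mul_of_nonneg_right (hle μ hμ) (Wt_nonneg _ _ _)

/-- Only the values on the arc matter (no continuity needed). -/
theorem J_congr {g g' : E3 → ℝ} {p q : E3} {a b : ℝ} (hab : a ≤ b)
    (he : ∀ μ ∈ Icc a b, g (p + μ • q) = g' (p + μ • q)) : J g p q a b = J g' p q a b := by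
  unfold J
  refine intervalIntegral.integral_congr fun μ hμ => ?_
  rw [uIcc_of_le hab] at hμ
  change g (p + μ • q) * Wt p q μ = g' (p + μ • q) * Wt p q μ
  rw [he μ hμ]

end SanLoc
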