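/-
MP_72c0ec_gt, helper9: the Gaussian integral over a sector.
-/
import Pool.Agent.H.MP_72c0ec_gt.Loc.Wd

set_option autoImplicit false

namespace SanLoc

open San SanSym MeasureTheory Set Metric Real

theorem Sector_norm_sq (p q : E3) (a b : ℝ) : ‖a • p + b • q‖ ^ 2 =
    a ^ 2 * ‖p‖ ^ 2 + 2 * (a * b) * (inner ℝ p q : ℝ) + b ^ 2 * ‖q‖ ^ 2 := by
  rw [@norm_add_sq_real, norm_smul, norm_smul, real_inner_smul_left, real_inner_smul_right,
    mul_pow, mul_pow, Real.norm_eq_abs, Real.norm_eq_abs, sq_abs, sq_abs]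
  ring

theorem Sector_wd_sq (p q : E3) : wd p q ^ 2 = ‖p‖ ^ 2 * ‖q‖ ^ 2 - (inner ℝ p q : ℝ) ^ 2 := by
  unfold wd
  refine Real.sq_sqrt (sub_nonneg.2 ?_)
  have h := abs_real_inner_le_norm p q
  have h2 := pow_le_pow_left₀ (abs_nonneg _) h 2
  rwa [sq_abs, mul_pow] at h2

theorem Sector_lower (p q : E3) (a b : ℝ) :
    wd p q ^ 2 * (a ^ 2 + b ^ 2) ≤ (‖p‖ ^ 2 + ‖q‖ ^ 2) * ‖a • p + b • q‖ ^ 2 := by
  rw [Sector_wd_sq, Sector_norm_sq]
  nlinarith [sq_nonneg (‖p‖ ^ 2 * a + (inner ℝ p q : ℝ) * b),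
    sq_nonneg ((inner ℝ p q : ℝ) * a + ‖q‖ ^ 2 * b)]

/-- The quadratic form is bounded from below. -/
theorem Sector_coercive {p q : E3} (hpq : 0 < wd p q) :
    ∃ c : ℝ, 0 < c ∧ ∀ a b : ℝ, c * (a ^ 2 + b ^ 2) ≤ ‖a • p + b • q‖ ^ 2 := by
  have hS : 0 < ‖p‖ ^ 2 + ‖q‖ ^ 2 := by
    by_contra hcon
    have h1 : ‖p‖ ^ 2 + ‖q‖ ^ 2 = 0 := le_antisymm (not_lt.1 hcon) (by positivity)
    have h2 := Sector_lower p q 1 0
    rw [h1, zero_mul] at h2
    have h3 : 0 < wd p q ^ 2 := by positivity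
    nlinarith
  refine ⟨wd p q ^ 2 / (‖p‖ ^ 2 + ‖q‖ ^ 2), by positivity, fun a b => ?_⟩
  rw [div_mul_eq_mul_div, div_le_iff₀ hS, mul_comm (‖a • p + b • q‖ ^ 2)]
  exact Sector_lower p q a b

theorem Sector_bound {g : E3 → ℝ} {C : ℝ} (hb : ∀ v, |g v| ≤ C * ‖v‖) (p q : E3) (a b : ℝ) :
    |g (a • p + b • q)| ≤ |C| * ‖p‖ * |a| + |C| * ‖q‖ * |b| := by
  have h1 : C * ‖a • p + b • q‖ ≤ |C| * ‖a • p + b • q‖ :=
    mul_le_mul_of_nonneg_right (le_abs_self C) (norm_nonneg _)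
  have h2 : ‖a • p + b • q‖ ≤ |a| * ‖p‖ + |b| * ‖q‖ := by
    refine (norm_add_le _ _).trans ?_
    rw [norm_smul, norm_smul, Real.norm_eq_abs, Real.norm_eq_abs]
  have h3 := mul_le_mul_of_nonneg_left h2 (abs_nonneg C)
  have h4 := hb (a • p + b • q)
  linarith

/-- The radial integral. -/
theorem Sector_radial {s : ℝ} (hs : 0 < s) :
    ∫ a in Ioi (0:ℝ), a ^ 2 * exp (-(a ^ 2 * s ^ 2)) = √π / 4 / s ^ 3 := by
  have h1 := integral_comp_mul_left_Ioi (fun r : ℝ => r * (r * exp (-r ^ 2))) 0 hs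
  rw [mul_zero, radial_square, smul_eq_mul] at h1
  have h2 : ∫ a in Ioi (0:ℝ), a ^ 2 * exp (-(a ^ 2 * s ^ 2)) =
      (s ^ 2)⁻¹ * ∫ x in Ioi (0:ℝ), s * x * (s * x * exp (-(s * x) ^ 2)) := by
    rw [← integral_const_mul]
    refine setIntegral_congr_fun measurableSet_Ioi fun x _ => ?_
    have h3 : -(s * x) ^ 2 = -(x ^ 2 * s ^ 2) := by ring
    rw [h3]
    field_simp
  rw [h2, h1]
  field_simp

theorem Sector_radial_int {s : ℝ} (hs : 0 < s) :
    IntegrableOn (fun a : ℝ => a ^ 2 * exp (-(a ^ 2 * s ^ 2))) (Ioi 0) := by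
  have h := integrableOn_rpow_mul_exp_neg_mul_sq (b := s ^ 2) (by positivity) (s := 2)
    (by norm_num)
  refine h.congr_fun (fun x _ => ?_) measurableSet_Ioi
  simp only
  rw [show (2:ℝ) = ((2:ℕ):ℝ) by norm_num, rpow_natCast]
  congr 2
  ring

/-- Integrability. `c := min` of `‖a p + b q‖² / (a² + b²)` is positive (`a p + b q ≠ 0` because
`wd p q > 0`), so the integrand is bounded by `C (‖p‖ + ‖q‖) (|a| + |b|) exp(-c (a² + b²))`. -/
theorem sector_integrable {g : E3 → ℝ} (hg : Measurable g) {C : ℝ} (hb : ∀ v, |g v| ≤ C * ‖v‖)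
    {p q : E3} (hpq : 0 < wd p q) :
    Integrable fun z : ℝ × ℝ => exp (-‖z.1 • p + z.2 • q‖ ^ 2) * g (z.1 • p + z.2 • q) := by
  obtain ⟨c, hc, hlow⟩ := Sector_coercive hpq
  have he : Integrable fun x : ℝ => exp (-c * x ^ 2) := integrable_exp_neg_mul_sq hc
  have hx : Integrable fun x : ℝ => |x| * exp (-c * x ^ 2) := by
    refine (integrable_mul_exp_neg_mul_sq hc).abs.congr (Filter.Eventually.of_forall fun x => ?_)
    simp only
    rw [abs_mul, abs_of_pos (exp_pos _)]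
  have hdom : Integrable fun z : ℝ × ℝ =>
      |C| * ‖p‖ * (|z.1| * exp (-c * z.1 ^ 2) * exp (-c * z.2 ^ 2)) +
        |C| * ‖q‖ * (exp (-c * z.1 ^ 2) * (|z.2| * exp (-c * z.2 ^ 2))) :=
    ((hx.mul_prod he).const_mul _).add ((he.mul_prod hx).const_mul _)
  have hcont : Continuous fun z : ℝ × ℝ => z.1 • p + z.2 • q := by fun_prop
  refine hdom.mono' ?_ (Filter.Eventually.of_forall fun z => ?_)
  · exact ((by fun_prop : Continuous fun z : ℝ × ℝ =>
      exp (-‖z.1 • p + z.2 • q‖ ^ 2)).measurable.mul (hg.comp hcont.measurable)).aestronglyMeasurable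
  · rw [Real.norm_eq_abs, abs_mul, abs_of_pos (exp_pos _)]
    have h1 : exp (-‖z.1 • p + z.2 • q‖ ^ 2) ≤ exp (-c * z.1 ^ 2) * exp (-c * z.2 ^ 2) := by
      rw [← exp_add]
      refine exp_le_exp.2 ?_
      have := hlow z.1 z.2
      linarith
    have h2 := Sector_bound hb p q z.1 z.2
    refine (mul_le_mul h1 h2 (abs_nonneg _) (by positivity)).trans (le_of_eq ?_)
    ring

/-- One sector: with `b = μ a` (Fubini, substitution in the inner integral, then
`∫_0^∞ a² exp(-a² s²) da = √π / (4 s³)`, `radial_square` of `Sym/Sphere.lean` rescaled)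
`∫_{0 < b < a} exp(-‖a p + b q‖²) g(a p + b q) = ∫_0^1 ∫_0^∞ a² exp(-a² ‖p + μ q‖²) g(p + μ q) da dμ
  = √π / 4 ∫_0^1 g(p + μ q) / ‖p + μ q‖³ dμ`. Here `‖p + μ q‖ > 0` because `wd p q > 0`. -/
theorem sector {g : E3 → ℝ} (hg : Measurable g)
    (hh : ∀ (c : ℝ) (v : E3), 0 < c → g (c • v) = c * g v) {C : ℝ} (hb : ∀ v, |g v| ≤ C * ‖v‖)
    {p q : E3} (hpq : 0 < wd p q) :
    wd p q * (∫ z in {z : ℝ × ℝ | 0 < z.2 ∧ z.2 < z.1},
      exp (-‖z.1 • p + z.2 • q‖ ^ 2) * g (z.1 • p + z.2 • q)) = √π / 4 * J g p q 0 1 := by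
  obtain ⟨c, hc, hlow⟩ := Sector_coercive hpq
  set f : ℝ × ℝ → ℝ := fun z => exp (-‖z.1 • p + z.2 • q‖ ^ 2) * g (z.1 • p + z.2 • q) with hf
  have hfi : Integrable f := sector_integrable hg hb hpq
  have hS : MeasurableSet {z : ℝ × ℝ | 0 < z.2 ∧ z.2 < z.1} :=
    (measurableSet_lt measurable_const measurable_snd).inter
      (measurableSet_lt measurable_snd measurable_fst)
  -- the inner integral
  have hinner : ∀ a : ℝ, ∫ b, ({z : ℝ × ℝ | 0 < z.2 ∧ z.2 < z.1}.indicator f) (a, b) =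
      (Ioi (0:ℝ)).indicator (fun a => ∫ μ in Ioc (0:ℝ) 1,
        a ^ 2 * exp (-(a ^ 2 * ‖p + μ • q‖ ^ 2)) * g (p + μ • q)) a := by
    intro a
    by_cases ha : 0 < a
    · rw [indicator_of_mem (mem_Ioi.2 ha)]
      have h1 : ∀ b, ({z : ℝ × ℝ | 0 < z.2 ∧ z.2 < z.1}.indicator f) (a, b) =
          (Ioo (0:ℝ) a).indicator (fun b => f (a, b)) b := by
        intro b
        by_cases hb' : 0 < b ∧ b < a
        · rw [indicator_of_mem (show (a, b) ∈ {z : ℝ × ℝ | 0 < z.2 ∧ z.2 < z.1} from hb'),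
            indicator_of_mem (show b ∈ Ioo (0:ℝ) a from hb')]
        · rw [indicator_of_notMem (show (a, b) ∉ {z : ℝ × ℝ | 0 < z.2 ∧ z.2 < z.1} from hb'),
            indicator_of_notMem (show b ∉ Ioo (0:ℝ) a from hb')]
      rw [integral_congr_ae (Filter.Eventually.of_forall h1), integral_indicator measurableSet_Ioo,
        ← integral_Ioc_eq_integral_Ioo, ← intervalIntegral.integral_of_le ha.le,
        ← intervalIntegral.integral_of_le (zero_le_one' ℝ)]
      have h2 := intervalIntegral.smul_integral_comp_mul_right (a := 0) (b := 1)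
        (fun b => f (a, b)) a
      rw [zero_mul, one_mul, smul_eq_mul] at h2
      rw [← h2, ← intervalIntegral.integral_const_mul]
      refine intervalIntegral.integral_congr fun μ _ => ?_
      simp only [hf]
      have h3 : a • p + (μ * a) • q = a • (p + μ • q) := by
        rw [smul_add, smul_smul, mul_comm a μ]
      rw [h3, hh a _ ha, norm_smul, mul_pow, Real.norm_eq_abs, sq_abs]
      ring
    · rw [indicator_of_notMem (show a ∉ Ioi (0:ℝ) from ha)]
      have h1 : ∀ b, ({z : ℝ × ℝ | 0 < z.2 ∧ z.2 < z.1}.indicator f) (a, b) = 0 := by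
        intro b
        refine indicator_of_notMem ?_ _
        rintro ⟨h2, h3⟩
        exact ha (h2.trans h3)
      rw [integral_congr_ae (Filter.Eventually.of_forall h1), integral_zero]
  -- the swap
  have hcontp : Continuous fun z : ℝ × ℝ => p + z.2 • q := by fun_prop
  have hsw : Integrable (Function.uncurry fun a μ : ℝ =>
      a ^ 2 * exp (-(a ^ 2 * ‖p + μ • q‖ ^ 2)) * g (p + μ • q))
      ((volume.restrict (Ioi (0:ℝ))).prod (volume.restrict (Ioc (0:ℝ) 1))) := by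
    have hd : Integrable (fun z : ℝ × ℝ => z.1 ^ 2 * exp (-(z.1 ^ 2 * (√c) ^ 2)) *
        (|C| * ‖p‖ + |C| * ‖q‖))
        ((volume.restrict (Ioi (0:ℝ))).prod (volume.restrict (Ioc (0:ℝ) 1))) :=
      (Sector_radial_int (Real.sqrt_pos.2 hc)).mul_prod
        (integrable_const (|C| * ‖p‖ + |C| * ‖q‖))
    refine hd.mono' ?_ ?_
    · exact ((by fun_prop : Continuous fun z : ℝ × ℝ =>
        z.1 ^ 2 * exp (-(z.1 ^ 2 * ‖p + z.2 • q‖ ^ 2))).measurable.mul
          (hg.comp hcontp.measurable)).aestronglyMeasurable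
    · rw [Measure.prod_restrict]
      refine (ae_restrict_iff' (measurableSet_Ioi.prod measurableSet_Ioc)).2
        (Filter.Eventually.of_forall ?_)
      rintro ⟨a, μ⟩ ⟨ha, hμ⟩
      have hμ0 : 0 < μ := hμ.1
      have hμ1 : μ ≤ 1 := hμ.2
      simp only [Function.uncurry]
      rw [Real.norm_eq_abs, abs_mul, abs_mul, abs_of_pos (exp_pos _), abs_of_nonneg (sq_nonneg a)]
      have h1 := hlow 1 μ
      rw [one_smul] at h1
      have h2 : c ≤ ‖p + μ • q‖ ^ 2 := by nlinarith [mul_nonneg hc.le (sq_nonneg μ)]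
      have h3 : exp (-(a ^ 2 * ‖p + μ • q‖ ^ 2)) ≤ exp (-(a ^ 2 * (√c) ^ 2)) := by
        rw [Real.sq_sqrt hc.le]
        exact exp_le_exp.2 (neg_le_neg (mul_le_mul_of_nonneg_left h2 (sq_nonneg a)))
      have h4 := Sector_bound hb p q 1 μ
      rw [one_smul, abs_one, mul_one, abs_of_pos hμ0] at h4
      have h5 : |C| * ‖q‖ * μ ≤ |C| * ‖q‖ := mul_le_of_le_one_right (by positivity) hμ1
      exact mul_le_mul (mul_le_mul_of_nonneg_left h3 (sq_nonneg a)) (by linarith) (abs_nonneg _)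
        (by positivity)
  have h1 : ∫ z in {z : ℝ × ℝ | 0 < z.2 ∧ z.2 < z.1}, f z =
      ∫ μ in Ioc (0:ℝ) 1, √π / 4 / ‖p + μ • q‖ ^ 3 * g (p + μ • q) := by
    rw [← integral_indicator hS, Measure.volume_eq_prod, integral_prod _ (hfi.indicator hS)]
    rw [integral_congr_ae (Filter.Eventually.of_forall hinner),
      integral_indicator measurableSet_Ioi, integral_integral_swap hsw]
    refine setIntegral_congr_fun measurableSet_Ioc fun μ _ => ?_
    rw [integral_mul_const, Sector_radial (norm_pos_of_wd hpq μ)]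
  rw [h1, J, intervalIntegral.integral_of_le (zero_le_one' ℝ), ← integral_const_mul,
    ← integral_const_mul]
  refine setIntegral_congr_fun measurableSet_Ioc fun μ _ => ?_
  simp only [Wt]
  ring

end SanLoc
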