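/-
MP_72c0ec_gt, helper9: the plane as a union of six sectors.
-/
import Pool.Agent.H.MP_72c0ec_gt.Loc.Base

set_option autoImplicit false

namespace SanLoc

open San SanSym MeasureTheory Set Metric Real

theorem Six_swap : MeasurePreserving (fun z : ℝ × ℝ => (z.2, z.1)) volume volume :=
  Measure.measurePreserving_swap (μ := (volume : Measure ℝ)) (ν := (volume : Measure ℝ))

theorem Six_four : MeasurePreserving (fun z : ℝ × ℝ => (-z.1, z.2 - z.1)) volume volume := by
  have h1 : MeasurePreserving (fun z : ℝ × ℝ => (z.1, -z.1 + z.2)) volume volume :=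
    measurePreserving_prod_neg_add (volume : Measure ℝ) (volume : Measure ℝ)
  have h2 : MeasurePreserving (fun z : ℝ × ℝ => (-z.1, z.2)) volume volume :=
    (Measure.measurePreserving_neg (volume : Measure ℝ)).prod
      (MeasurePreserving.id (volume : Measure ℝ))
  have h3 := h2.comp h1
  refine (?_ : (fun z : ℝ × ℝ => (-z.1, z.2 - z.1)) = _) ▸ h3
  funext z
  simp only [Function.comp_apply, Prod.mk.injEq, true_and]
  ring

theorem Six_three : MeasurePreserving (fun z : ℝ × ℝ => (-z.2, z.1 - z.2)) volume volume :=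
  Six_four.comp Six_swap

theorem Six_six : MeasurePreserving (fun z : ℝ × ℝ => (z.2 - z.1, -z.1)) volume volume :=
  Six_swap.comp Six_four

theorem Six_five : MeasurePreserving (fun z : ℝ × ℝ => (z.1 - z.2, -z.2)) volume volume :=
  Six_swap.comp Six_three

theorem Six_piece {Φ : ℝ × ℝ → ℝ} {T : ℝ × ℝ → ℝ × ℝ} (hT : MeasurePreserving T volume volume)
    (hc : Continuous T) (hi : Function.Injective T) {A : Set (ℝ × ℝ)}
    (hA : ∀ z, T z ∈ A ↔ 0 < z.2 ∧ z.2 < z.1) :
    ∫ z in {z : ℝ × ℝ | 0 < z.2 ∧ z.2 < z.1}, Φ (T z) = ∫ z in A, Φ z := by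
  have h := hT.setIntegral_preimage_emb (hc.measurableEmbedding hi) Φ A
  have h2 : T ⁻¹' A = {z : ℝ × ℝ | 0 < z.2 ∧ z.2 < z.1} := by
    ext z
    exact hA z
  rw [h2] at h
  exact h

theorem Six_null : ∀ᵐ z : ℝ × ℝ, z.2 ≠ 0 := by
  rw [ae_iff]
  have : {z : ℝ × ℝ | ¬ z.2 ≠ 0} = univ ×ˢ {0} := by
    ext z
    simp
  rw [this, Measure.volume_eq_prod, Measure.prod_prod]
  simp

theorem Six_null1 : ∀ᵐ z : ℝ × ℝ, z.1 ≠ 0 :=
  Six_swap.quasiMeasurePreserving.ae Six_null

theorem Six_null2 : ∀ᵐ z : ℝ × ℝ, z.2 - z.1 ≠ 0 :=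
  Six_four.quasiMeasurePreserving.ae Six_null

/-- The plane `{(α, β)}` is the disjoint union, up to a null set, of the six regions given by the strict
orderings of `α, β, 0`; each of them is the image of `{0 < b < a}` under a linear map of determinant
`±1`:
`α > β > 0`: `(α, β) = (a, b)`; `β > α > 0`: `(b, a)`; `β > 0 > α`: `(-b, a - b)`;
`0 > β > α`: `(-a, b - a)`; `0 > α > β`: `(b - a, -a)`; `α > 0 > β`: `(a - b, -b)`.
Proof: the null sets are the three lines `α = β`, `α = 0`, `β = 0`; on each region use the change of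
variables for the linear equivalence (a measure preserving map, `|det| = 1`; the maps are compositions
of `(a, b) ↦ (b, a)`, `(a, b) ↦ (-a, b)`, and shears `(a, b) ↦ (a, b + c a)`). -/
theorem six_regions {Φ : ℝ × ℝ → ℝ} (hΦ : Integrable Φ) :
    ∫ z : ℝ × ℝ, Φ z = (∫ z in {z : ℝ × ℝ | 0 < z.2 ∧ z.2 < z.1}, Φ (z.1, z.2)) +
      (∫ z in {z : ℝ × ℝ | 0 < z.2 ∧ z.2 < z.1}, Φ (z.2, z.1)) +
      ((∫ z in {z : ℝ × ℝ | 0 < z.2 ∧ z.2 < z.1}, Φ (-z.2, z.1 - z.2)) +
        (∫ z in {z : ℝ × ℝ | 0 < z.2 ∧ z.2 < z.1}, Φ (-z.1, z.2 - z.1))) +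
      ((∫ z in {z : ℝ × ℝ | 0 < z.2 ∧ z.2 < z.1}, Φ (z.1 - z.2, -z.2)) +
        (∫ z in {z : ℝ × ℝ | 0 < z.2 ∧ z.2 < z.1}, Φ (z.2 - z.1, -z.1))) := by
  have e2 := Six_piece (Φ := Φ) Six_swap (by fun_prop)
    (fun z w h => by
      simp only [Prod.mk.injEq] at h
      exact Prod.ext h.2 h.1)
    (A := {z : ℝ × ℝ | 0 < z.1 ∧ z.1 < z.2}) (fun z => Iff.rfl)
  have e3 := Six_piece (Φ := Φ) Six_three (by fun_prop)
    (fun z w h => by
      simp only [Prod.mk.injEq] at h
      exact Prod.ext (by linarith [h.1, h.2]) (by linarith [h.1, h.2]))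
    (A := {z : ℝ × ℝ | z.1 < 0 ∧ 0 < z.2}) (fun z => by
      simp only [mem_ofPred_eq]
      constructor <;> rintro ⟨h1, h2⟩ <;> constructor <;> linarith)
  have e4 := Six_piece (Φ := Φ) Six_four (by fun_prop)
    (fun z w h => by
      simp only [Prod.mk.injEq] at h
      exact Prod.ext (by linarith [h.1, h.2]) (by linarith [h.1, h.2]))
    (A := {z : ℝ × ℝ | z.1 < z.2 ∧ z.2 < 0}) (fun z => by
      simp only [mem_ofPred_eq]
      constructor <;> rintro ⟨h1, h2⟩ <;> constructor <;> linarith)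
  have e5 := Six_piece (Φ := Φ) Six_five (by fun_prop)
    (fun z w h => by
      simp only [Prod.mk.injEq] at h
      exact Prod.ext (by linarith [h.1, h.2]) (by linarith [h.1, h.2]))
    (A := {z : ℝ × ℝ | 0 < z.1 ∧ z.2 < 0}) (fun z => by
      simp only [mem_ofPred_eq]
      constructor <;> rintro ⟨h1, h2⟩ <;> constructor <;> linarith)
  have e6 := Six_piece (Φ := Φ) Six_six (by fun_prop)
    (fun z w h => by
      simp only [Prod.mk.injEq] at h
      exact Prod.ext (by linarith [h.1, h.2]) (by linarith [h.1, h.2]))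
    (A := {z : ℝ × ℝ | z.2 < z.1 ∧ z.1 < 0}) (fun z => by
      simp only [mem_ofPred_eq]
      constructor <;> rintro ⟨h1, h2⟩ <;> constructor <;> linarith)
  rw [e2, e3, e4, e5, e6]
  have m1 : MeasurableSet {z : ℝ × ℝ | 0 < z.2 ∧ z.2 < z.1} :=
    (measurableSet_lt measurable_const measurable_snd).inter
      (measurableSet_lt measurable_snd measurable_fst)
  have m2 : MeasurableSet {z : ℝ × ℝ | 0 < z.1 ∧ z.1 < z.2} :=
    (measurableSet_lt measurable_const measurable_fst).inter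
      (measurableSet_lt measurable_fst measurable_snd)
  have m3 : MeasurableSet {z : ℝ × ℝ | z.1 < 0 ∧ 0 < z.2} :=
    (measurableSet_lt measurable_fst measurable_const).inter
      (measurableSet_lt measurable_const measurable_snd)
  have m4 : MeasurableSet {z : ℝ × ℝ | z.1 < z.2 ∧ z.2 < 0} :=
    (measurableSet_lt measurable_fst measurable_snd).inter
      (measurableSet_lt measurable_snd measurable_const)
  have m5 : MeasurableSet {z : ℝ × ℝ | 0 < z.1 ∧ z.2 < 0} :=
    (measurableSet_lt measurable_const measurable_fst).inter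
      (measurableSet_lt measurable_snd measurable_const)
  have m6 : MeasurableSet {z : ℝ × ℝ | z.2 < z.1 ∧ z.1 < 0} :=
    (measurableSet_lt measurable_snd measurable_fst).inter
      (measurableSet_lt measurable_fst measurable_const)
  have hae : Φ =ᵐ[volume] {z : ℝ × ℝ | 0 < z.2 ∧ z.2 < z.1}.indicator Φ +
        {z : ℝ × ℝ | 0 < z.1 ∧ z.1 < z.2}.indicator Φ +
      ({z : ℝ × ℝ | z.1 < 0 ∧ 0 < z.2}.indicator Φ +
        {z : ℝ × ℝ | z.1 < z.2 ∧ z.2 < 0}.indicator Φ) +
      ({z : ℝ × ℝ | 0 < z.1 ∧ z.2 < 0}.indicator Φ +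
        {z : ℝ × ℝ | z.2 < z.1 ∧ z.1 < 0}.indicator Φ) := by
    filter_upwards [Six_null, Six_null1, Six_null2] with z hz0 hz1 hz2
    simp only [Pi.add_apply, indicator_apply, mem_ofPred_eq]
    have hz3 : z.1 ≠ z.2 := fun h => hz2 (by rw [h, sub_self])
    rcases lt_or_gt_of_ne hz1 with h1 | h1 <;> rcases lt_or_gt_of_ne hz0 with h2 | h2 <;>
      rcases lt_or_gt_of_ne hz3 with h3 | h3 <;>
      simp [h1, h2, h3, not_lt.2 h1.le, not_lt.2 h2.le, not_lt.2 h3.le] <;> linarith
  have i1 := hΦ.indicator m1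
  have i2 := hΦ.indicator m2
  have i3 := hΦ.indicator m3
  have i4 := hΦ.indicator m4
  have i5 := hΦ.indicator m5
  have i6 := hΦ.indicator m6
  rw [integral_congr_ae hae, integral_add' ((i1.add i2).add (i3.add i4)) (i5.add i6),
    integral_add' (i1.add i2) (i3.add i4), integral_add' i1 i2, integral_add' i3 i4,
    integral_add' i5 i6, integral_indicator m1, integral_indicator m2, integral_indicator m3,
    integral_indicator m4, integral_indicator m5, integral_indicator m6]

end SanLoc
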