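/-
MP_72c0ec_gt, helper9: the integral over a circle as a sum over six arcs.
-/
import Pool.Agent.H.MP_72c0ec_gt.Loc.Polar
import Pool.Agent.H.MP_72c0ec_gt.Loc.Six
import Pool.Agent.H.MP_72c0ec_gt.Loc.Sector

set_option autoImplicit false

namespace SanLoc

open San SanSym MeasureTheory Set Metric Real

/-- The norm in the plane of two orthonormal vectors. -/
theorem Circle_norm_sq {e₁ e₂ : E3} (he : Orthonormal ℝ ![e₁, e₂]) (a b : ℝ) :
    ‖a • e₁ + b • e₂‖ ^ 2 = a ^ 2 + b ^ 2 := by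
  have h1 : ‖e₁‖ = 1 := he.1 0
  have h2 : ‖e₂‖ = 1 := he.1 1
  have h3 : inner ℝ e₁ e₂ = (0:ℝ) := he.2 (i := 0) (j := 1) (by simp)
  rw [norm_add_sq_real, norm_smul, norm_smul, h1, h2, real_inner_smul_left, real_inner_smul_right,
    h3, mul_one, mul_one, Real.norm_eq_abs, Real.norm_eq_abs, sq_abs, sq_abs]
  ring

/-- The inner product in the plane of two orthonormal vectors. -/
theorem Circle_inner {e₁ e₂ : E3} (he : Orthonormal ℝ ![e₁, e₂]) (a b c d : ℝ) :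
    (inner ℝ (a • e₁ + b • e₂) (c • e₁ + d • e₂) : ℝ) = a * c + b * d := by
  have h1 : ‖e₁‖ = 1 := he.1 0
  have h2 : ‖e₂‖ = 1 := he.1 1
  have h3 : inner ℝ e₁ e₂ = (0:ℝ) := he.2 (i := 0) (j := 1) (by simp)
  have h4 : inner ℝ e₂ e₁ = (0:ℝ) := by rw [real_inner_comm]; exact h3
  rw [inner_add_left, inner_add_right, inner_add_right, real_inner_smul_left, real_inner_smul_left,
    real_inner_smul_left, real_inner_smul_left, real_inner_smul_right, real_inner_smul_right,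
    real_inner_smul_right, real_inner_smul_right, real_inner_self_eq_norm_sq,
    real_inner_self_eq_norm_sq, h1, h2, h3, h4]
  ring

/-- Change of variables in the plane. -/
theorem Circle_change (F : ℝ × ℝ → ℝ) (hF : Measurable F) (a b c d : ℝ) (hD : a * d - b * c ≠ 0) :
    |a * d - b * c| * ∫ z : ℝ × ℝ, F (a * z.1 + b * z.2, c * z.1 + d * z.2) = ∫ z : ℝ × ℝ, F z := by
  set L : (ℝ × ℝ) →ₗ[ℝ] (ℝ × ℝ) :=
    Matrix.toLin (Module.Basis.finTwoProd ℝ) (Module.Basis.finTwoProd ℝ) !![a, b; c, d] with hL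
  have hdet : LinearMap.det L = a * d - b * c := by
    rw [hL, LinearMap.det_toLin, Matrix.det_fin_two_of]
  have hLa : ∀ z : ℝ × ℝ, L z = (a * z.1 + b * z.2, c * z.1 + d * z.2) := fun z => by
    rw [hL]; exact Matrix.toLin_finTwoProd_apply a b c d z
  have hne : LinearMap.det L ≠ 0 := by rw [hdet]; exact hD
  have hmap := Measure.map_linearMap_addHaar_eq_smul_addHaar (μ := (volume : Measure (ℝ × ℝ))) hne
  have hLm : Measurable L := (LinearMap.continuous_of_finiteDimensional L).measurable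
  have h1 : ∫ z, F z ∂(Measure.map L (volume : Measure (ℝ × ℝ))) = ∫ z : ℝ × ℝ, F (L z) :=
    integral_map hLm.aemeasurable hF.aestronglyMeasurable
  rw [hmap, integral_smul_measure, hdet, ENNReal.toReal_ofReal (abs_nonneg _), abs_inv,
    smul_eq_mul] at h1
  have h2 : ∫ z : ℝ × ℝ, F (L z) = ∫ z : ℝ × ℝ, F (a * z.1 + b * z.2, c * z.1 + d * z.2) := by
    refine integral_congr_ae (Filter.Eventually.of_forall fun z => ?_)
    simp only [hLa]
  rw [← h2, ← h1, ← mul_assoc, mul_inv_cancel₀ (abs_ne_zero.2 hD), one_mul]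

/-- **The integral over the circle as a sum over six arcs.** `r = -(p + q)`. Proof. Let
`h(z) = g(z.1 e₁ + z.2 e₂)`; `polar_hom` expresses the left side by
`A = ∫ exp(-|z|²) h(z) dz`, `|z|² = ‖z.1 e₁ + z.2 e₂‖²`. Write `p = p₁ e₁ + p₂ e₂`, `q = q₁ e₁ + q₂ e₂`,
`|p₁ q₂ - p₂ q₁| = wd p q > 0`. The linear change of variables `z = α (p₁, p₂) + β (q₁, q₂)` gives
`A = wd p q ∫ Φ(α, β)`, `Φ(α, β) = exp(-‖α p + β q‖²) g(α p + β q)`
(`MeasureTheory.integral_comp_...` / `integral_image_eq_integral_abs_det_fderiv_smul` or the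
`addHaar` formula for linear maps). Apply `six_regions` (`sector_integrable`); the six regions
are `a p + b q`, `a q + b p`, `-b p + (a - b) q = a q + b r`, `-a p + (b - a) q = a r + b q`,
`(a - b) p - b q = a p + b r`, `(b - a) p - a q = a r + b p`. Apply `sector` (`wd_neg_add`, `wd_swap`: all
six factors `wd` are equal). -/
theorem circle_split {g : E3 → ℝ} (hg : Measurable g)
    (hh : ∀ (c : ℝ) (v : E3), 0 < c → g (c • v) = c * g v) {C : ℝ} (hb : ∀ v, |g v| ≤ C * ‖v‖)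
    {e₁ e₂ p q : E3} (he : Orthonormal ℝ ![e₁, e₂])
    (hp : p = (inner ℝ e₁ p : ℝ) • e₁ + (inner ℝ e₂ p : ℝ) • e₂)
    (hq : q = (inner ℝ e₁ q : ℝ) • e₁ + (inner ℝ e₂ q : ℝ) • e₂) (hpq : 0 < wd p q) :
    ∫ t in (0:ℝ)..(2 * π), g (cos t • e₁ + sin t • e₂) =
      J g p q 0 1 + J g q p 0 1 + (J g q (-(p + q)) 0 1 + J g (-(p + q)) q 0 1) +
        (J g p (-(p + q)) 0 1 + J g (-(p + q)) p 0 1) := by
  obtain ⟨p₁, hp₁⟩ : ∃ x : ℝ, x = inner ℝ e₁ p := ⟨_, rfl⟩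
  obtain ⟨p₂, hp₂⟩ : ∃ x : ℝ, x = inner ℝ e₂ p := ⟨_, rfl⟩
  obtain ⟨q₁, hq₁⟩ : ∃ x : ℝ, x = inner ℝ e₁ q := ⟨_, rfl⟩
  obtain ⟨q₂, hq₂⟩ : ∃ x : ℝ, x = inner ℝ e₂ q := ⟨_, rfl⟩
  rw [← hp₁, ← hp₂] at hp
  rw [← hq₁, ← hq₂] at hq
  clear hp₁ hp₂ hq₁ hq₂
  -- the determinant
  have hwd : wd p q = |p₁ * q₂ - q₁ * p₂| := by
    unfold wd
    have e1 : ‖p‖ ^ 2 = p₁ ^ 2 + p₂ ^ 2 := by rw [hp, Circle_norm_sq he]
    have e2 : ‖q‖ ^ 2 = q₁ ^ 2 + q₂ ^ 2 := by rw [hq, Circle_norm_sq he]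
    have e3 : (inner ℝ p q : ℝ) = p₁ * q₁ + p₂ * q₂ := by rw [hp, hq, Circle_inner he]
    rw [e1, e2, e3, show (p₁ ^ 2 + p₂ ^ 2) * (q₁ ^ 2 + q₂ ^ 2) - (p₁ * q₁ + p₂ * q₂) ^ 2 =
      (p₁ * q₂ - q₁ * p₂) ^ 2 by ring, Real.sqrt_sq_eq_abs]
  have hD : p₁ * q₂ - q₁ * p₂ ≠ 0 := by
    intro h0
    rw [hwd, h0, abs_zero] at hpq
    exact lt_irrefl _ hpq
  -- the function in coordinates
  set h : ℝ × ℝ → ℝ := fun z => g (z.1 • e₁ + z.2 • e₂) with hdef
  have hmeas : Measurable h := by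
    refine hg.comp (Continuous.measurable ?_)
    fun_prop
  have hpol := polar_hom (h := h) hmeas
    (fun c z hc => by
      have : (c • z).1 • e₁ + (c • z).2 • e₂ = c • (z.1 • e₁ + z.2 • e₂) := by
        rw [Prod.smul_fst, Prod.smul_snd, smul_eq_mul, smul_eq_mul, smul_add, smul_smul, smul_smul]
      simp only [hdef]
      rw [this]
      exact hh c _ hc) (C := C)
    (fun z => by
      have : ‖z.1 • e₁ + z.2 • e₂‖ = √(z.1 ^ 2 + z.2 ^ 2) := by
        rw [← Circle_norm_sq he, Real.sqrt_sq (norm_nonneg _)]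
      rw [← this]
      exact hb _)
  -- the change of variables
  have hch := Circle_change (fun z => exp (-(z.1 ^ 2 + z.2 ^ 2)) * h z)
    (((by fun_prop : Continuous fun z : ℝ × ℝ => exp (-(z.1 ^ 2 + z.2 ^ 2))).measurable).mul hmeas)
    p₁ q₁ p₂ q₂ hD
  have hvec : ∀ z : ℝ × ℝ, (p₁ * z.1 + q₁ * z.2) • e₁ + (p₂ * z.1 + q₂ * z.2) • e₂ =
      z.1 • p + z.2 • q := by
    intro z
    rw [hp, hq]
    module
  have hint : ∫ z : ℝ × ℝ, exp (-((p₁ * z.1 + q₁ * z.2) ^ 2 + (p₂ * z.1 + q₂ * z.2) ^ 2)) *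
      h (p₁ * z.1 + q₁ * z.2, p₂ * z.1 + q₂ * z.2) =
      ∫ z : ℝ × ℝ, exp (-‖z.1 • p + z.2 • q‖ ^ 2) * g (z.1 • p + z.2 • q) := by
    refine integral_congr_ae (Filter.Eventually.of_forall fun z => ?_)
    simp only [hdef]
    rw [← Circle_norm_sq he, hvec]
  have hmain : wd p q * (∫ z : ℝ × ℝ, exp (-‖z.1 • p + z.2 • q‖ ^ 2) * g (z.1 • p + z.2 • q)) =
      √π / 4 * ∫ t in (0:ℝ)..(2 * π), g (cos t • e₁ + sin t • e₂) := by
    rw [hwd, ← hint]
    exact hch.trans hpol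
  -- the six regions
  have hqp : 0 < wd q p := by rw [wd_swap]; exact hpq
  have hqr : wd q (-(p + q)) = wd p q := wd_neg_add p q
  have hrq : wd (-(p + q)) q = wd p q := by rw [wd_swap]; exact hqr
  have hpr : wd p (-(p + q)) = wd p q := by rw [add_comm p q, wd_neg_add q p, wd_swap]
  have hrp : wd (-(p + q)) p = wd p q := by rw [wd_swap]; exact hpr
  have s1 := sector hg hh hb hpq
  have s2 := sector hg hh hb hqp
  have s3 := sector hg hh hb (p := q) (q := -(p + q)) (by rw [hqr]; exact hpq)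
  have s4 := sector hg hh hb (p := -(p + q)) (q := q) (by rw [hrq]; exact hpq)
  have s5 := sector hg hh hb (p := p) (q := -(p + q)) (by rw [hpr]; exact hpq)
  have s6 := sector hg hh hb (p := -(p + q)) (q := p) (by rw [hrp]; exact hpq)
  rw [wd_swap] at s2
  rw [hqr] at s3
  rw [hrq] at s4
  rw [hpr] at s5
  rw [hrp] at s6
  have hsix := six_regions (sector_integrable hg hb hpq)
  have c2 : ∀ z : ℝ × ℝ, z.2 • p + z.1 • q = z.1 • q + z.2 • p := fun z => add_comm _ _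
  have c3 : ∀ z : ℝ × ℝ, (-z.2) • p + (z.1 - z.2) • q = z.1 • q + z.2 • (-(p + q)) := fun z => by
    module
  have c4 : ∀ z : ℝ × ℝ, (-z.1) • p + (z.2 - z.1) • q = z.1 • (-(p + q)) + z.2 • q := fun z => by
    module
  have c5 : ∀ z : ℝ × ℝ, (z.1 - z.2) • p + (-z.2) • q = z.1 • p + z.2 • (-(p + q)) := fun z => by
    module
  have c6 : ∀ z : ℝ × ℝ, (z.2 - z.1) • p + (-z.1) • q = z.1 • (-(p + q)) + z.2 • p := fun z => by
    module
  simp only [c2, c3, c4, c5, c6] at hsix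
  have hpi : (0:ℝ) < √π / 4 := by positivity
  have hfin : √π / 4 * (∫ t in (0:ℝ)..(2 * π), g (cos t • e₁ + sin t • e₂)) =
      √π / 4 * (J g p q 0 1 + J g q p 0 1 + (J g q (-(p + q)) 0 1 + J g (-(p + q)) q 0 1) +
        (J g p (-(p + q)) 0 1 + J g (-(p + q)) p 0 1)) := by
    rw [← hmain, hsix]
    simp only [mul_add]
    rw [s1, s2, s3, s4, s5, s6]
  exact mul_left_cancel₀ hpi.ne' hfin

end SanLoc
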