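/-
MP_72c0ec_gt, helper9: the densities for nearly regular normals.
-/
import Pool.Agent.H.MP_72c0ec_gt.Loc.Wd

set_option autoImplicit false

namespace SanLoc

open San SanSym MeasureTheory Set Metric Real

/-- Three normals of a nearly regular tetrahedron. -/
structure Tri3 (A B C : E3) : Prop where
  a : |‖A‖ ^ 2 - 3 / 4| ≤ 1 / 10 ^ 5
  b : |‖B‖ ^ 2 - 3 / 4| ≤ 1 / 10 ^ 5
  c : |‖C‖ ^ 2 - 3 / 4| ≤ 1 / 10 ^ 5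
  ab : |(inner ℝ A B : ℝ) + 1 / 4| ≤ 1 / 10 ^ 5
  ac : |(inner ℝ A C : ℝ) + 1 / 4| ≤ 1 / 10 ^ 5
  bc : |(inner ℝ B C : ℝ) + 1 / 4| ≤ 1 / 10 ^ 5

theorem Tri3.swap {A B C : E3} (h : Tri3 A B C) : Tri3 A C B :=
  ⟨h.a, h.c, h.b, h.ac, h.ab, by rw [real_inner_comm]; exact h.bc⟩

theorem Tri3.rot {A B C : E3} (h : Tri3 A B C) : Tri3 B C A :=
  ⟨h.b, h.c, h.a, h.bc, by rw [real_inner_comm]; exact h.ab, by rw [real_inner_comm]; exact h.ac⟩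

theorem Weights_up {S N Q : ℝ} (hQ : 0 < Q) (hN : (1 - 1 / 5000) * Q ≤ N)
    (hS : S ≤ (1 + 1 / 5000) * (1 / 2)) :
    √S / √N ^ 3 ≤ 1001 / 1000 * (√(1 / 2) / √Q ^ 3) := by
  have hc : 0 < √(1 / 2 : ℝ) := Real.sqrt_pos.2 (by norm_num)
  have hd : 0 < √Q := Real.sqrt_pos.2 hQ
  have ha : √S ≤ √(1 / 2) * (1 + 1 / 5000) := by
    rw [Real.sqrt_le_left (by positivity)]
    rw [mul_pow, Real.sq_sqrt (by norm_num)]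
    nlinarith
  have hb : √Q * (1 - 1 / 5000) ≤ √N := by
    apply Real.le_sqrt_of_sq_le
    rw [mul_pow, Real.sq_sqrt hQ.le]
    nlinarith
  have hb0 : 0 < √Q * (1 - 1 / 5000) := by
    apply mul_pos hd; norm_num
  have hb3 : (√Q * (1 - 1 / 5000)) ^ 3 ≤ √N ^ 3 := pow_le_pow_left₀ hb0.le hb 3
  have hN3 : 0 < √N ^ 3 := lt_of_lt_of_le (by positivity) hb3
  rw [div_le_iff₀ hN3]
  have h1 : 1001 / 1000 * (√(1 / 2) / √Q ^ 3) * (√Q * (1 - 1 / 5000)) ^ 3 ≤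
      1001 / 1000 * (√(1 / 2) / √Q ^ 3) * √N ^ 3 :=
    mul_le_mul_of_nonneg_left hb3 (by positivity)
  refine le_trans ?_ h1
  have h2 : 1001 / 1000 * (√(1 / 2) / √Q ^ 3) * (√Q * (1 - 1 / 5000)) ^ 3 =
      √(1 / 2) * (1001 / 1000 * (1 - 1 / 5000) ^ 3) := by
    field_simp
  rw [h2]
  refine le_trans ha (mul_le_mul_of_nonneg_left (by norm_num) hc.le)

theorem Weights_lo {S N Q : ℝ} (hQ : 0 < Q) (hN0 : 0 < N) (hN : N ≤ (1 + 1 / 5000) * Q)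
    (hS : (1 - 1 / 5000) * (1 / 2) ≤ S) :
    999 / 1000 * (√(1 / 2) / √Q ^ 3) ≤ √S / √N ^ 3 := by
  have hc : 0 < √(1 / 2 : ℝ) := Real.sqrt_pos.2 (by norm_num)
  have hd : 0 < √Q := Real.sqrt_pos.2 hQ
  have hn : 0 < √N := Real.sqrt_pos.2 hN0
  have ha : √(1 / 2) * (1 - 1 / 5000) ≤ √S := by
    apply Real.le_sqrt_of_sq_le
    rw [mul_pow, Real.sq_sqrt (by norm_num)]
    nlinarith
  have hb : √N ≤ √Q * (1 + 1 / 5000) := by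
    rw [Real.sqrt_le_left (by positivity)]
    rw [mul_pow, Real.sq_sqrt hQ.le]
    nlinarith
  have hb3 : √N ^ 3 ≤ (√Q * (1 + 1 / 5000)) ^ 3 := pow_le_pow_left₀ hn.le hb 3
  have hN3 : 0 < √N ^ 3 := by positivity
  rw [le_div_iff₀ hN3]
  have h1 : 999 / 1000 * (√(1 / 2) / √Q ^ 3) * √N ^ 3 ≤
      999 / 1000 * (√(1 / 2) / √Q ^ 3) * (√Q * (1 + 1 / 5000)) ^ 3 :=
    mul_le_mul_of_nonneg_left hb3 (by positivity)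
  refine le_trans h1 ?_
  have h2 : 999 / 1000 * (√(1 / 2) / √Q ^ 3) * (√Q * (1 + 1 / 5000)) ^ 3 =
      √(1 / 2) * (999 / 1000 * (1 + 1 / 5000) ^ 3) := by
    field_simp
  rw [h2]
  refine le_trans (mul_le_mul_of_nonneg_left (by norm_num) hc.le) ha

theorem Weights_norm (p q : E3) (μ : ℝ) :
    ‖p + μ • q‖ = √(‖p‖ ^ 2 + 2 * μ * (inner ℝ p q : ℝ) + μ ^ 2 * ‖q‖ ^ 2) := by
  rw [← Real.sqrt_sq (norm_nonneg (p + μ • q)), norm_add_sq_real, inner_smul_right, norm_smul,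
    mul_pow, Real.norm_eq_abs, sq_abs]
  congr 1
  ring

theorem Weights_S {x y z : ℝ} (hx : |x - 3 / 4| ≤ 1 / 10 ^ 5) (hy : |y - 3 / 4| ≤ 1 / 10 ^ 5)
    (hz : |z + 1 / 4| ≤ 1 / 10 ^ 5) :
    (1 - 1 / 5000) * (1 / 2) ≤ x * y - z ^ 2 ∧ x * y - z ^ 2 ≤ (1 + 1 / 5000) * (1 / 2) := by
  rw [abs_le] at hx hy hz
  obtain ⟨hx1, hx2⟩ := hx
  obtain ⟨hy1, hy2⟩ := hy
  obtain ⟨hz1, hz2⟩ := hz
  have h1 : (3 / 4 - 1 / 10 ^ 5) * (3 / 4 - 1 / 10 ^ 5) ≤ x * y :=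
    mul_le_mul (by linarith) (by linarith) (by norm_num) (by linarith)
  have h2 : x * y ≤ (3 / 4 + 1 / 10 ^ 5) * (3 / 4 + 1 / 10 ^ 5) :=
    mul_le_mul (by linarith) (by linarith) (by linarith) (by norm_num)
  have h3 : z ^ 2 ≤ (1 / 4 + 1 / 10 ^ 5) ^ 2 := by
    rw [← neg_sq z]
    exact pow_le_pow_left₀ (by linarith) (by linarith) 2
  have h4 : (1 / 4 - 1 / 10 ^ 5) ^ 2 ≤ z ^ 2 := by
    rw [← neg_sq z]
    exact pow_le_pow_left₀ (by norm_num) (by linarith) 2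
  norm_num at h1 h2 h3 h4 ⊢
  constructor <;> linarith

theorem Weights_S' {x y z : ℝ} (hx : |x - 3 / 4| ≤ 1 / 10 ^ 5) (hy : |y - 1| ≤ 4 / 10 ^ 5)
    (hz : |z + 1 / 2| ≤ 2 / 10 ^ 5) :
    (1 - 1 / 5000) * (1 / 2) ≤ x * y - z ^ 2 ∧ x * y - z ^ 2 ≤ (1 + 1 / 5000) * (1 / 2) := by
  rw [abs_le] at hx hy hz
  obtain ⟨hx1, hx2⟩ := hx
  obtain ⟨hy1, hy2⟩ := hy
  obtain ⟨hz1, hz2⟩ := hz
  have h1 : (3 / 4 - 1 / 10 ^ 5) * (1 - 4 / 10 ^ 5) ≤ x * y :=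
    mul_le_mul (by linarith) (by linarith) (by norm_num) (by linarith)
  have h2 : x * y ≤ (3 / 4 + 1 / 10 ^ 5) * (1 + 4 / 10 ^ 5) :=
    mul_le_mul (by linarith) (by linarith) (by linarith) (by norm_num)
  have h3 : z ^ 2 ≤ (1 / 2 + 2 / 10 ^ 5) ^ 2 := by
    rw [← neg_sq z]
    exact pow_le_pow_left₀ (by linarith) (by linarith) 2
  have h4 : (1 / 2 - 2 / 10 ^ 5) ^ 2 ≤ z ^ 2 := by
    rw [← neg_sq z]
    exact pow_le_pow_left₀ (by norm_num) (by linarith) 2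
  norm_num at h1 h2 h3 h4 ⊢
  constructor <;> linarith

theorem Weights_sum {A B C : E3} (h : Tri3 A B C) :
    |‖B + C‖ ^ 2 - 1| ≤ 4 / 10 ^ 5 ∧ |(inner ℝ A (B + C) : ℝ) + 1 / 2| ≤ 2 / 10 ^ 5 := by
  obtain ⟨-, hb, hc, hab, hac, hbc⟩ := h
  rw [norm_add_sq_real, inner_add_right]
  rw [abs_le] at hb hc hab hac hbc
  constructor <;> rw [abs_le] <;> constructor <;> linarith [hb.1, hb.2, hc.1, hc.2, hab.1, hab.2,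
    hac.1, hac.2, hbc.1, hbc.2]

/-- `wd² = ‖A‖² ‖B‖² - ⟪A, B⟫²` is near `9/16 - 1/16 = 1/2`. -/
theorem Tri3.wd_pos {A B C : E3} (h : Tri3 A B C) : 0 < wd A B := by
  refine Real.sqrt_pos.2 (lt_of_lt_of_le ?_ (Weights_S h.a h.b h.ab).1)
  norm_num

/-- `‖A‖² ‖B + C‖² - ⟪A, B + C⟫²` is near `3/4 · 1 - 1/4 = 1/2`. -/
theorem Tri3.wd_pos' {A B C : E3} (h : Tri3 A B C) : 0 < wd A (B + C) ∧ 0 < wd (B + C) A := by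
  have h1 : 0 < wd A (B + C) := by
    refine Real.sqrt_pos.2 (lt_of_lt_of_le ?_ (Weights_S' h.a (Weights_sum h).1
      (Weights_sum h).2).1)
    norm_num
  exact ⟨h1, by rw [wd_swap A (B + C)]; exact h1⟩

/-- Lower bound of the density on a side, `‖A + μ B‖² ≈ 3/4 - μ/2 + 3/4 μ² ≥ 2/3`. Proof: put
`η = 1/10⁵`. `wd A B² ≥ 1/2 - 3 η`; `‖A + μ B‖² = ‖A‖² + 2 μ ⟪A, B⟫ + μ² ‖B‖² ≤ q + 4 η ≤ q (1 + 6 η)`,
so `wd ≥ √(1/2) (1 - 6 η)`, `‖A + μ B‖³ ≤ √q³ (1 + 6 η)²`, a factor much closer to `1` than `999/1000`. -/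
theorem Tri3.side {A B C : E3} (h : Tri3 A B C) {μ : ℝ} (h0 : 0 ≤ μ) (h1 : μ ≤ 1) :
    999 / 1000 * (√(1 / 2) / √(3 / 4 - μ / 2 + 3 / 4 * μ ^ 2) ^ 3) ≤ Wt A B μ := by
  have ha := abs_le.1 h.a
  have hb := abs_le.1 h.b
  have hab := abs_le.1 h.ab
  have hm2 : μ ^ 2 ≤ 1 := by nlinarith
  have hQ : 2 / 3 ≤ 3 / 4 - μ / 2 + 3 / 4 * μ ^ 2 := by nlinarith [sq_nonneg (3 * μ - 1)]
  have e1 : μ * ((inner ℝ A B : ℝ) + 1 / 4) ≤ μ * (1 / 10 ^ 5) :=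
    mul_le_mul_of_nonneg_left hab.2 h0
  have e1' : μ * (-(1 / 10 ^ 5)) ≤ μ * ((inner ℝ A B : ℝ) + 1 / 4) :=
    mul_le_mul_of_nonneg_left hab.1 h0
  have e2 : μ ^ 2 * (‖B‖ ^ 2 - 3 / 4) ≤ μ ^ 2 * (1 / 10 ^ 5) :=
    mul_le_mul_of_nonneg_left hb.2 (sq_nonneg _)
  have e2' : μ ^ 2 * (-(1 / 10 ^ 5)) ≤ μ ^ 2 * (‖B‖ ^ 2 - 3 / 4) :=
    mul_le_mul_of_nonneg_left hb.1 (sq_nonneg _)
  unfold Wt wd
  rw [Weights_norm]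
  refine Weights_lo (by linarith) ?_ ?_ (Weights_S h.a h.b h.ab).1
  · norm_num at ha e1' e2' ⊢
    nlinarith
  · norm_num at ha e1 e2 ⊢
    nlinarith

/-- Upper bound of the density on a ray, `‖A + β (B + C)‖² ≈ 3/4 - β + β² ≥ 1/2`. -/
theorem Tri3.ray {A B C : E3} (h : Tri3 A B C) {β : ℝ} (h0 : 0 ≤ β) (h1 : β ≤ 1) :
    Wt A (B + C) β ≤ 1001 / 1000 * (√(1 / 2) / √(3 / 4 - β + β ^ 2) ^ 3) := by
  have ha := abs_le.1 h.a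
  have hb := abs_le.1 (Weights_sum h).1
  have hab := abs_le.1 (Weights_sum h).2
  have hm2 : β ^ 2 ≤ 1 := by nlinarith
  have hQ : 1 / 2 ≤ 3 / 4 - β + β ^ 2 := by nlinarith [sq_nonneg (2 * β - 1)]
  have e1' : β * (-(2 / 10 ^ 5)) ≤ β * ((inner ℝ A (B + C) : ℝ) + 1 / 2) :=
    mul_le_mul_of_nonneg_left hab.1 h0
  have e2' : β ^ 2 * (-(4 / 10 ^ 5)) ≤ β ^ 2 * (‖B + C‖ ^ 2 - 1) :=
    mul_le_mul_of_nonneg_left hb.1 (sq_nonneg _)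
  unfold Wt wd
  rw [Weights_norm]
  refine Weights_up (by linarith) ?_ (Weights_S' h.a (Weights_sum h).1 (Weights_sum h).2).2
  norm_num at ha e1' e2' ⊢
  nlinarith

/-- Upper bound of the density on the other part of the ray, `‖B + C + γ A‖² ≈ 1 - γ + 3/4 γ² ≥ 2/3`. -/
theorem Tri3.mid {A B C : E3} (h : Tri3 A B C) {γ : ℝ} (h0 : 0 ≤ γ) (h1 : γ ≤ 1) :
    Wt (B + C) A γ ≤ 1001 / 1000 * (√(1 / 2) / √(1 - γ + 3 / 4 * γ ^ 2) ^ 3) := by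
  have ha := abs_le.1 h.a
  have hb := abs_le.1 (Weights_sum h).1
  have hab := abs_le.1 (Weights_sum h).2
  have hm2 : γ ^ 2 ≤ 1 := by nlinarith
  have hQ : 2 / 3 ≤ 1 - γ + 3 / 4 * γ ^ 2 := by nlinarith [sq_nonneg (3 * γ - 2)]
  have e1' : γ * (-(2 / 10 ^ 5)) ≤ γ * ((inner ℝ A (B + C) : ℝ) + 1 / 2) :=
    mul_le_mul_of_nonneg_left hab.1 h0
  have e2' : γ ^ 2 * (-(1 / 10 ^ 5)) ≤ γ ^ 2 * (‖A‖ ^ 2 - 3 / 4) :=
    mul_le_mul_of_nonneg_left ha.1 (sq_nonneg _)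
  have hS := (Weights_S' h.a (Weights_sum h).1 (Weights_sum h).2).2
  unfold Wt wd
  rw [Weights_norm, real_inner_comm]
  refine Weights_up (by linarith) ?_ (by rw [mul_comm (‖B + C‖ ^ 2)]; exact hS)
  norm_num at hb e1' e2' ⊢
  nlinarith

end SanLoc
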