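/-
MP_72c0ec_gt, helper9: numerical inequalities for the densities.
-/
import Pool.Agent.H.MP_72c0ec_gt.Loc.Weights

set_option autoImplicit false

namespace SanLoc

open San SanSym MeasureTheory Set Metric Real

/-- For `β ≤ 1/200`. Proof: `Tri3.ray`, `Tri3.side` at `μ = 2 β`, and
`(3/4 - β + 3 β²) / (3/4 - β + β²) ≤ 1 + 2 β² / (7/10) ≤ 1001/1000`; the `3/2`-th power is at most
`(1001/1000)²`; `1001/999 * (1001/1000)² ≤ 26/25`. -/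
theorem Tri3.wt_a {A B C : E3} (h : Tri3 A B C) {β : ℝ} (h0 : 0 ≤ β) (h1 : β ≤ 1 / 200) :
    Wt A (B + C) β ≤ 26 / 25 * Wt A B (2 * β) := by
  have hr := h.ray h0 (by linarith : β ≤ 1)
  have hs := h.side (μ := 2 * β) (by linarith) (by linarith)
  have e1 : (3 / 4 - 2 * β / 2 + 3 / 4 * (2 * β) ^ 2 : ℝ) = 3 / 4 - β + 3 * β ^ 2 := by ring
  rw [e1] at hs
  refine hr.trans ?_
  refine le_trans ?_ (mul_le_mul_of_nonneg_left hs (by norm_num))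
  have hq1 : (0 : ℝ) < 3 / 4 - β + β ^ 2 := by nlinarith
  have hq2 : (0 : ℝ) < 3 / 4 - β + 3 * β ^ 2 := by nlinarith
  have hs1 : 0 < √(3 / 4 - β + β ^ 2) := Real.sqrt_pos.2 hq1
  have hs2 : 0 < √(3 / 4 - β + 3 * β ^ 2) := Real.sqrt_pos.2 hq2
  have hle : √(3 / 4 - β + 3 * β ^ 2) ≤ 1001 / 1000 * √(3 / 4 - β + β ^ 2) := by
    rw [Real.sqrt_le_left (by positivity), mul_pow, Real.sq_sqrt hq1.le]
    nlinarith
  have hle3 : √(3 / 4 - β + 3 * β ^ 2) ^ 3 ≤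
      (1001 / 1000) ^ 3 * √(3 / 4 - β + β ^ 2) ^ 3 := by
    rw [← mul_pow]
    exact pow_le_pow_left₀ hs2.le hle 3
  have hc : (0 : ℝ) < √(1 / 2) := Real.sqrt_pos.2 (by norm_num)
  have h3 : √(1 / 2) / √(3 / 4 - β + β ^ 2) ^ 3 ≤
      (1001 / 1000) ^ 3 * (√(1 / 2) / √(3 / 4 - β + 3 * β ^ 2) ^ 3) := by
    rw [mul_div_assoc', div_le_div_iff₀ (by positivity) (by positivity)]
    calc √(1 / 2) * √(3 / 4 - β + 3 * β ^ 2) ^ 3
        ≤ √(1 / 2) * ((1001 / 1000) ^ 3 * √(3 / 4 - β + β ^ 2) ^ 3) :=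
          mul_le_mul_of_nonneg_left hle3 hc.le
      _ = (1001 / 1000) ^ 3 * √(1 / 2) * √(3 / 4 - β + β ^ 2) ^ 3 := by ring
  have h4 : 0 < √(1 / 2) / √(3 / 4 - β + 3 * β ^ 2) ^ 3 := by positivity
  calc 1001 / 1000 * (√(1 / 2) / √(3 / 4 - β + β ^ 2) ^ 3)
      ≤ 1001 / 1000 * ((1001 / 1000) ^ 3 * (√(1 / 2) / √(3 / 4 - β + 3 * β ^ 2) ^ 3)) :=
        mul_le_mul_of_nonneg_left h3 (by norm_num)
    _ ≤ 26 / 25 * (999 / 1000 * (√(1 / 2) / √(3 / 4 - β + 3 * β ^ 2) ^ 3)) := by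
        rw [← mul_assoc, ← mul_assoc]
        exact mul_le_mul_of_nonneg_right (by norm_num) h4.le

/-- The function `(1 - β) / (2 - β) * ((3/4 - β/2 + 3/4 β²) / (3/4 - β + β²)) ^ (3/2)` is at most `0.5683` on
`[0, 1]` (maximum near `β = 0.345`; values: `0 ↦ 0.5`, `0.1 ↦ 0.517`, `0.2 ↦ 0.545`, `0.3 ↦ 0.566`,
`0.345 ↦ 0.5682`, `0.4 ↦ 0.565`, `0.5 ↦ 0.537`, `0.75 ↦ 0.337`, `1 ↦ 0`). Squaring, the claim with
`k = 29/50 * 999/1001 > 0.578` is the polynomial inequality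
`(1 - β)² (3/4 - β/2 + 3/4 β²)³ ≤ k² (2 - β)² (3/4 - β + β²)³` on `[0, 1]` (margin `3 %` relative); split
`[0, 1]` into a few intervals and use `nlinarith`/`polyrith` style certificates, or expand at the
nodes (a polynomial of degree `8`). -/
theorem num_b {β : ℝ} (h0 : 0 ≤ β) (h1 : β ≤ 1) :
    (1 - β) ^ 2 * (3 / 4 - β / 2 + 3 / 4 * β ^ 2) ^ 3 ≤
      334 / 1000 * ((2 - β) ^ 2 * (3 / 4 - β + β ^ 2) ^ 3) := by
  rw [← sub_nonneg]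
  rcases le_total β (1 / 2) with h2 | h2
  · have key : 334 / 1000 * ((2 - β) ^ 2 * (3 / 4 - β + β ^ 2) ^ 3) -
        (1 - β) ^ 2 * (3 / 4 - β / 2 + 3 / 4 * β ^ 2) ^ 3 =
        4536 / 125 * β ^ 0 * (1 / 2 - β) ^ 8 +
        18198 / 125 * β ^ 1 * (1 / 2 - β) ^ 7 +
        120501 / 500 * β ^ 2 * (1 / 2 - β) ^ 6 +
        25171 / 125 * β ^ 3 * (1 / 2 - β) ^ 5 +
        10178 / 125 * β ^ 4 * (1 / 2 - β) ^ 4 +
        4093 / 250 * β ^ 5 * (1 / 2 - β) ^ 3 +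
        6531 / 500 * β ^ 6 * (1 / 2 - β) ^ 2 +
        11791 / 1000 * β ^ 7 * (1 / 2 - β) ^ 1 +
        26009 / 8000 * β ^ 8 * (1 / 2 - β) ^ 0 := by
      ring
    have hy : 0 ≤ 1 / 2 - β := sub_nonneg.2 h2
    rw [key]
    generalize 1 / 2 - β = y at hy
    positivity
  · have key : 334 / 1000 * ((2 - β) ^ 2 * (3 / 4 - β + β ^ 2) ^ 3) -
        (1 - β) ^ 2 * (3 / 4 - β / 2 + 3 / 4 * β ^ 2) ^ 3 =
        26009 / 8000 * (β - 1 / 2) ^ 0 * (1 - β) ^ 8 +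
        40227 / 1000 * (β - 1 / 2) ^ 1 * (1 - β) ^ 7 +
        106057 / 500 * (β - 1 / 2) ^ 2 * (1 - β) ^ 6 +
        75804 / 125 * (β - 1 / 2) ^ 3 * (1 - β) ^ 5 +
        260301 / 250 * (β - 1 / 2) ^ 4 * (1 - β) ^ 4 +
        27703 / 25 * (β - 1 / 2) ^ 5 * (1 - β) ^ 3 +
        357277 / 500 * (β - 1 / 2) ^ 6 * (1 - β) ^ 2 +
        31563 / 125 * (β - 1 / 2) ^ 7 * (1 - β) ^ 1 +
        4509 / 125 * (β - 1 / 2) ^ 8 * (1 - β) ^ 0 := by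
      ring
    have hx : 0 ≤ β - 1 / 2 := sub_nonneg.2 h2
    have hy : 0 ≤ 1 - β := sub_nonneg.2 h1
    rw [key]
    generalize 1 - β = y at hy
    generalize β - 1 / 2 = x at hx
    positivity

/-- From `Tri3.ray`, `Tri3.side`, `num_b`: `(29/50 * 999/1001)² ≥ 334/1000`. -/
theorem Tri3.wt_b {A B C : E3} (h : Tri3 A B C) {β : ℝ} (h0 : 0 ≤ β) (h1 : β ≤ 1) :
    (1 - β) / (2 - β) * Wt A (B + C) β ≤ 29 / 50 * Wt A B β := by
  have hr := h.ray h0 h1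
  have hs := h.side h0 h1
  have hq1 : (0 : ℝ) < 3 / 4 - β + β ^ 2 := by nlinarith [sq_nonneg (β - 1 / 2)]
  have hq2 : (0 : ℝ) < 3 / 4 - β / 2 + 3 / 4 * β ^ 2 := by nlinarith [sq_nonneg (β - 1 / 3)]
  have hs1 : 0 < √(3 / 4 - β + β ^ 2) := Real.sqrt_pos.2 hq1
  have hs2 : 0 < √(3 / 4 - β / 2 + 3 / 4 * β ^ 2) := Real.sqrt_pos.2 hq2
  have h2 : 0 < 2 - β := by linarith
  have h3 : 0 ≤ 1 - β := by linarith
  have e1 : (√(3 / 4 - β + β ^ 2) ^ 3) ^ 2 = (3 / 4 - β + β ^ 2) ^ 3 := by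
    rw [← pow_mul, show 3 * 2 = 2 * 3 from rfl, pow_mul, Real.sq_sqrt hq1.le]
  have e2 : (√(3 / 4 - β / 2 + 3 / 4 * β ^ 2) ^ 3) ^ 2 =
      (3 / 4 - β / 2 + 3 / 4 * β ^ 2) ^ 3 := by
    rw [← pow_mul, show 3 * 2 = 2 * 3 from rfl, pow_mul, Real.sq_sqrt hq2.le]
  have hm : (1 - β) * √(3 / 4 - β / 2 + 3 / 4 * β ^ 2) ^ 3 ≤
      29 / 50 * 999 / 1001 * ((2 - β) * √(3 / 4 - β + β ^ 2) ^ 3) := by
    rw [← pow_le_pow_iff_left₀ (by positivity) (by positivity) (two_ne_zero), mul_pow, mul_pow,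
      mul_pow, e1, e2]
    refine (num_b h0 h1).trans ?_
    exact mul_le_mul_of_nonneg_right (by norm_num) (by positivity)
  have hc : (0 : ℝ) < √(1 / 2) := Real.sqrt_pos.2 (by norm_num)
  calc (1 - β) / (2 - β) * Wt A (B + C) β
      ≤ (1 - β) / (2 - β) * (1001 / 1000 * (√(1 / 2) / √(3 / 4 - β + β ^ 2) ^ 3)) :=
        mul_le_mul_of_nonneg_left hr (by positivity)
    _ ≤ 29 / 50 * (999 / 1000 * (√(1 / 2) / √(3 / 4 - β / 2 + 3 / 4 * β ^ 2) ^ 3)) := by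
        have e3 : (1 - β) / (2 - β) * (1001 / 1000 * (√(1 / 2) / √(3 / 4 - β + β ^ 2) ^ 3)) =
            (1001 / 1000 * √(1 / 2) * (1 - β)) / ((2 - β) * √(3 / 4 - β + β ^ 2) ^ 3) := by
          field_simp
        have e4 : 29 / 50 * (999 / 1000 * (√(1 / 2) / √(3 / 4 - β / 2 + 3 / 4 * β ^ 2) ^ 3)) =
            (29 / 50 * (999 / 1000) * √(1 / 2)) / √(3 / 4 - β / 2 + 3 / 4 * β ^ 2) ^ 3 := by
          field_simp
        rw [e3, e4, div_le_div_iff₀ (by positivity) (by positivity)]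
        calc 1001 / 1000 * √(1 / 2) * (1 - β) * √(3 / 4 - β / 2 + 3 / 4 * β ^ 2) ^ 3
            = 1001 / 1000 * √(1 / 2) * ((1 - β) * √(3 / 4 - β / 2 + 3 / 4 * β ^ 2) ^ 3) := by ring
          _ ≤ 1001 / 1000 * √(1 / 2) *
              (29 / 50 * 999 / 1001 * ((2 - β) * √(3 / 4 - β + β ^ 2) ^ 3)) :=
              mul_le_mul_of_nonneg_left hm (by positivity)
          _ = 29 / 50 * (999 / 1000) * √(1 / 2) * ((2 - β) * √(3 / 4 - β + β ^ 2) ^ 3) := by ring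
    _ ≤ 29 / 50 * Wt A B β := mul_le_mul_of_nonneg_left hs (by norm_num)

theorem WeightsB_deriv {u v w k l x : ℝ} (hq : 0 < u + v * x + w * x ^ 2) :
    HasDerivAt (fun y => (k * y + l) / √(u + v * y + w * y ^ 2))
      ((k * (u + v * x + w * x ^ 2) - (k * x + l) * ((v + 2 * w * x) / 2)) *
        (1 / √(u + v * x + w * x ^ 2) ^ 3)) x := by
  have hs : 0 < √(u + v * x + w * x ^ 2) := Real.sqrt_pos.2 hq
  have h1 : HasDerivAt (fun y : ℝ => k * y + l) k x := by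
    simpa using ((hasDerivAt_id x).const_mul k).add_const l
  have h2 : HasDerivAt (fun y : ℝ => u + v * y + w * y ^ 2) (v + 2 * w * x) x := by
    have h3 := (((hasDerivAt_id x).const_mul v).const_add u).add
      (((hasDerivAt_id x).pow 2).const_mul w)
    refine (h3.congr_deriv ?_)
    simp
    ring
  have h4 := h1.div (h2.sqrt hq.ne') hs.ne'
  refine h4.congr_deriv ?_
  have e : √(u + v * x + w * x ^ 2) ^ 2 = u + v * x + w * x ^ 2 := Real.sq_sqrt hq.le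
  have e' : u + v * x + w * x ^ 2 = √(u + v * x + w * x ^ 2) ^ 2 := e.symm
  generalize hz : √(u + v * x + w * x ^ 2) = z at *
  rw [← e]
  field_simp

/-- The two integrals. Antiderivatives: with `q = 1 - γ + 3/4 γ²`,
`d/dγ [(a γ + b) / √q] = (1 - γ) / √q³` for `a = 1/2`, `b = 1`:
`a q - (a γ + b) (3/4 γ - 1/2) = a - a γ + 3/4 a γ² - 3/4 a γ² + a/2 γ - 3/4 b γ + b/2
 = (a + b/2) - (a/2 + 3/4 b) γ = 1 - γ`. So the integral over `[0, 1]` is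
`(3/2) / √(3/4) - 1 = √3 - 1 = 0.7320...`. -/
theorem int_mid {a b : ℝ} (h0 : 0 ≤ a) (hab : a ≤ b) (h1 : b ≤ 1) :
    ∫ γ in a..b, (1 - γ) * (1 / √(1 - γ + 3 / 4 * γ ^ 2) ^ 3) =
      (b / 2 + 1) / √(1 - b + 3 / 4 * b ^ 2) - (a / 2 + 1) / √(1 - a + 3 / 4 * a ^ 2) := by
  have hq : ∀ x : ℝ, 0 < 1 + -1 * x + 3 / 4 * x ^ 2 := by
    intro x
    nlinarith [sq_nonneg (x - 2 / 3)]
  have hd : ∀ x ∈ uIcc a b, HasDerivAt (fun y : ℝ => (1 / 2 * y + 1) / √(1 + -1 * y + 3 / 4 * y ^ 2))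
      ((1 - x) * (1 / √(1 + -1 * x + 3 / 4 * x ^ 2) ^ 3)) x := by
    intro x _
    refine (WeightsB_deriv (u := 1) (v := -1) (w := 3 / 4) (k := 1 / 2) (l := 1) (hq x)).congr_deriv ?_
    congr 1
    ring
  have hc : Continuous fun x : ℝ => (1 - x) * (1 / √(1 + -1 * x + 3 / 4 * x ^ 2) ^ 3) := by
    refine (continuous_const.sub continuous_id).mul ?_
    refine continuous_const.div (by fun_prop) ?_
    intro x
    exact (pow_pos (Real.sqrt_pos.2 (hq x)) 3).ne'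
  have h := intervalIntegral.integral_eq_sub_of_hasDerivAt hd (hc.intervalIntegrable a b)
  have e : ∀ x : ℝ, 1 - x + 3 / 4 * x ^ 2 = 1 + -1 * x + 3 / 4 * x ^ 2 := fun x => by ring
  have e' : ∀ x : ℝ, x / 2 + 1 = 1 / 2 * x + 1 := fun x => by ring
  simp only [e, e']
  exact h

/-- With `q = 3/4 - μ/2 + 3/4 μ²`, `d/dμ [(2 μ - 2) / √q] = (1 + μ) / √q³`:
`2 q - (2 μ - 2) (3/4 μ - 1/4) = 3/2 - μ + 3/2 μ² - 3/2 μ² + μ/2 + 3/2 μ - 1/2 = 1 + μ`. So the integral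
over `[1/125, 1]` is `(2 - 2/125) / √(3/4 - 1/250 + 3/4/125²) ≥ 2.29`. -/
theorem int_side : 229 / 100 ≤ ∫ μ in (1 / 125 : ℝ)..1,
    (1 + μ) * (1 / √(3 / 4 - μ / 2 + 3 / 4 * μ ^ 2) ^ 3) := by
  have hq : ∀ x : ℝ, 0 < 3 / 4 + -(1 / 2) * x + 3 / 4 * x ^ 2 := by
    intro x
    nlinarith [sq_nonneg (x - 1 / 3)]
  have hd : ∀ x ∈ uIcc (1 / 125 : ℝ) 1,
      HasDerivAt (fun y : ℝ => (2 * y + -2) / √(3 / 4 + -(1 / 2) * y + 3 / 4 * y ^ 2))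
      ((1 + x) * (1 / √(3 / 4 + -(1 / 2) * x + 3 / 4 * x ^ 2) ^ 3)) x := by
    intro x _
    refine (WeightsB_deriv (u := 3 / 4) (v := -(1 / 2)) (w := 3 / 4) (k := 2) (l := -2)
      (hq x)).congr_deriv ?_
    congr 1
    ring
  have hc : Continuous fun x : ℝ =>
      (1 + x) * (1 / √(3 / 4 + -(1 / 2) * x + 3 / 4 * x ^ 2) ^ 3) := by
    refine (continuous_const.add continuous_id).mul ?_
    refine continuous_const.div (by fun_prop) ?_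
    intro x
    exact (pow_pos (Real.sqrt_pos.2 (hq x)) 3).ne'
  have h := intervalIntegral.integral_eq_sub_of_hasDerivAt hd (hc.intervalIntegrable (1 / 125) 1)
  have e : ∀ x : ℝ, 3 / 4 - x / 2 + 3 / 4 * x ^ 2 = 3 / 4 + -(1 / 2) * x + 3 / 4 * x ^ 2 :=
    fun x => by ring
  simp only [e]
  rw [h]
  have h0 : 0 < √(3 / 4 + -(1 / 2) * (1 / 125) + 3 / 4 * (1 / 125 : ℝ) ^ 2) :=
    Real.sqrt_pos.2 (hq _)
  have h1 : √(3 / 4 + -(1 / 2) * (1 / 125) + 3 / 4 * (1 / 125 : ℝ) ^ 2) ≤ 866 / 1000 := by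
    rw [Real.sqrt_le_left (by norm_num)]
    norm_num
  have h2 : (2 * (1 : ℝ) + -2) / √(3 / 4 + -(1 / 2) * 1 + 3 / 4 * 1 ^ 2) = 0 := by
    norm_num
  rw [h2, zero_sub, ← neg_div, le_div_iff₀ h0]
  nlinarith

end SanLoc
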