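/-
MP_72c0ec_gt, helper9: integrals over the medians of a triangle of normals are bounded by integrals
over its sides.
-/
import Pool.Agent.H.MP_72c0ec_gt.Loc.WeightsB

set_option autoImplicit false

namespace SanLoc

open San SanSym MeasureTheory Set Metric Real

theorem Ray_comb {G : E3 → ℝ} (hG : Sublin G) {s t : ℝ} (hs : 0 ≤ s) (ht : 0 ≤ t) (v w : E3) :
    G (s • v + t • w) ≤ s * G v + t * G w := by
  have := hG.add (s • v) (t • w)
  rwa [hG.hom s v hs, hG.hom t w ht] at this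

theorem Ray_int {f g1 g2 : ℝ → ℝ} {a b c : ℝ} (hab : a ≤ b) (hf : Continuous f)
    (h1 : Continuous g1) (h2 : Continuous g2) (h : ∀ x ∈ Icc a b, f x ≤ c * (g1 x + g2 x)) :
    ∫ x in a..b, f x ≤ c * ((∫ x in a..b, g1 x) + ∫ x in a..b, g2 x) := by
  rw [← intervalIntegral.integral_add (h1.intervalIntegrable _ _) (h2.intervalIntegrable _ _),
    ← intervalIntegral.integral_const_mul]
  refine intervalIntegral.integral_mono_on hab (hf.intervalIntegrable _ _)
    (Continuous.intervalIntegrable (by fun_prop) _ _) h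

/-- Near the vertex. -/
theorem ray_a {A B C : E3} (h : Tri3 A B C) {G : E3 → ℝ} (hG : Sublin G) {a b : ℝ} (h0 : 0 ≤ a)
    (hab : a ≤ b) (h1 : b ≤ 1 / 200) :
    J G A (B + C) a b ≤ 13 / 50 * (J G A B (2 * a) (2 * b) + J G A C (2 * a) (2 * b)) := by
  have hc := J_cont hG.cont h.wd_pos'.1
  have hB := J_cont hG.cont h.wd_pos
  have hC := J_cont hG.cont h.swap.wd_pos
  have key := Ray_int (f := fun β : ℝ => G (A + β • (B + C)) * Wt A (B + C) β)
    (g1 := fun β : ℝ => G (A + (2 * β) • B) * Wt A B (2 * β))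
    (g2 := fun β : ℝ => G (A + (2 * β) • C) * Wt A C (2 * β)) (c := 13 / 25) hab hc
    (hB.comp (continuous_const.mul continuous_id)) (hC.comp (continuous_const.mul continuous_id))
    (by
      intro β hβ
      have hβ0 : 0 ≤ β := h0.trans hβ.1
      have hβ1 : β ≤ 1 / 200 := hβ.2.trans h1
      have e1 : A + β • (B + C) = (1 / 2 : ℝ) • (A + (2 * β) • B) + (1 / 2 : ℝ) • (A + (2 * β) • C) := by
        module
      have hg : G (A + β • (B + C)) ≤ 1 / 2 * G (A + (2 * β) • B) + 1 / 2 * G (A + (2 * β) • C) := by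
        rw [e1]
        exact Ray_comb hG (by norm_num) (by norm_num) _ _
      have hw1 := h.wt_a hβ0 hβ1
      have hw2 := h.swap.wt_a hβ0 hβ1
      rw [add_comm C B] at hw2
      have hw0 := Wt_nonneg A (B + C) β
      have hG1 := hG.nonneg (A + (2 * β) • B)
      have hG2 := hG.nonneg (A + (2 * β) • C)
      have s1 := mul_le_mul_of_nonneg_right hg hw0
      have s2 := mul_le_mul_of_nonneg_left hw1 hG1
      have s3 := mul_le_mul_of_nonneg_left hw2 hG2
      beta_reduce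
      nlinarith)
  have i1 : (∫ β in a..b, G (A + (2 * β) • B) * Wt A B (2 * β)) = 2⁻¹ * J G A B (2 * a) (2 * b) := by
    have := intervalIntegral.integral_comp_mul_left (a := a) (b := b)
      (fun μ : ℝ => G (A + μ • B) * Wt A B μ) (c := 2) (by norm_num)
    rw [smul_eq_mul] at this
    exact this
  have i2 : (∫ β in a..b, G (A + (2 * β) • C) * Wt A C (2 * β)) = 2⁻¹ * J G A C (2 * a) (2 * b) := by
    have := intervalIntegral.integral_comp_mul_left (a := a) (b := b)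
      (fun μ : ℝ => G (A + μ • C) * Wt A C μ) (c := 2) (by norm_num)
    rw [smul_eq_mul] at this
    exact this
  rw [i1, i2] at key
  unfold J at key ⊢
  linarith

/-- The rest of the ray. -/
theorem ray_b {A B C : E3} (h : Tri3 A B C) {G : E3 → ℝ} (hG : Sublin G) (h0 : G (A + B + C) = 0)
    {a : ℝ} (ha : 0 ≤ a) (ha1 : a ≤ 1) :
    J G A (B + C) a 1 ≤ 29 / 50 * (J G A B a 1 + J G A C a 1) := by
  have hc := J_cont hG.cont h.wd_pos'.1
  have hB := J_cont hG.cont h.wd_pos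
  have hC := J_cont hG.cont h.swap.wd_pos
  refine Ray_int (c := 29 / 50) ha1 hc hB hC ?_
  intro β hβ
  have hβ0 : 0 ≤ β := ha.trans hβ.1
  have hβ1 : β ≤ 1 := hβ.2
  have h2 : 0 < 2 - β := by linarith
  have hr : 0 ≤ (1 - β) / (2 - β) := div_nonneg (by linarith) h2.le
  have e1 : A + β • (B + C) = (1 : ℝ) • ((((1 - β) / (2 - β))) • (A + β • B) +
      ((1 - β) / (2 - β)) • (A + β • C)) + (β / (2 - β)) • (A + B + C) := by
    have f1 : (1 - β) / (2 - β) + (1 - β) / (2 - β) + β / (2 - β) = 1 := by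
      field_simp
      ring
    have f2 : (1 - β) / (2 - β) * β + β / (2 - β) = β := by
      field_simp
      ring
    have f3 : (1 : ℝ) • ((((1 - β) / (2 - β))) • (A + β • B) +
      ((1 - β) / (2 - β)) • (A + β • C)) + (β / (2 - β)) • (A + B + C) =
        ((1 - β) / (2 - β) + (1 - β) / (2 - β) + β / (2 - β)) • A +
        ((1 - β) / (2 - β) * β + β / (2 - β)) • B + ((1 - β) / (2 - β) * β + β / (2 - β)) • C := by
      module
    rw [f3, f1, f2]
    module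
  have hg : G (A + β • (B + C)) ≤
      (1 - β) / (2 - β) * G (A + β • B) + (1 - β) / (2 - β) * G (A + β • C) := by
    rw [e1]
    refine (Ray_comb hG (by norm_num) (div_nonneg hβ0 h2.le) _ _).trans ?_
    rw [h0, mul_zero, add_zero, one_mul]
    exact Ray_comb hG hr hr _ _
  have hw1 := h.wt_b hβ0 hβ1
  have hw2 := h.swap.wt_b hβ0 hβ1
  rw [add_comm C B] at hw2
  have hw0 := Wt_nonneg A (B + C) β
  have hG1 := hG.nonneg (A + β • B)
  have hG2 := hG.nonneg (A + β • C)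
  have s1 := mul_le_mul_of_nonneg_right hg hw0
  have s2 := mul_le_mul_of_nonneg_left hw1 hG1
  have s3 := mul_le_mul_of_nonneg_left hw2 hG2
  calc G (A + β • (B + C)) * Wt A (B + C) β
      ≤ ((1 - β) / (2 - β) * G (A + β • B) + (1 - β) / (2 - β) * G (A + β • C)) *
        Wt A (B + C) β := s1
    _ = G (A + β • B) * ((1 - β) / (2 - β) * Wt A (B + C) β) +
        G (A + β • C) * ((1 - β) / (2 - β) * Wt A (B + C) β) := by ring
    _ ≤ G (A + β • B) * (29 / 50 * Wt A B β) + G (A + β • C) * (29 / 50 * Wt A C β) :=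
        add_le_add s2 s3
    _ = 29 / 50 * (G (A + β • B) * Wt A B β + G (A + β • C) * Wt A C β) := by ring

theorem Ray_qmid (γ : ℝ) : 0 < 1 - γ + 3 / 4 * γ ^ 2 := by
  nlinarith [sq_nonneg (γ - 2 / 3)]

theorem Ray_qside (μ : ℝ) : 0 < 3 / 4 - μ / 2 + 3 / 4 * μ ^ 2 := by
  nlinarith [sq_nonneg (μ - 1 / 3)]

theorem Ray_cmid : Continuous fun γ : ℝ => (1 - γ) * (1 / √(1 - γ + 3 / 4 * γ ^ 2) ^ 3) := by
  refine Continuous.mul (by fun_prop) (Continuous.div continuous_const (by fun_prop) ?_)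
  intro γ
  exact (pow_pos (Real.sqrt_pos.2 (Ray_qmid γ)) 3).ne'

theorem Ray_cside :
    Continuous fun μ : ℝ => (1 + μ) * (1 / √(3 / 4 - μ / 2 + 3 / 4 * μ ^ 2) ^ 3) := by
  refine Continuous.mul (by fun_prop) (Continuous.div continuous_const (by fun_prop) ?_)
  intro μ
  exact (pow_pos (Real.sqrt_pos.2 (Ray_qside μ)) 3).ne'

theorem Ray_c_up {A B C : E3} (h : Tri3 A B C) {G : E3 → ℝ} (hG : Sublin G)
    (h0 : G (A + B + C) = 0) {a b : ℝ} (ha : 0 ≤ a) (hab : a ≤ b) (hb : b ≤ 1) :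
    J G (B + C) A a b ≤ 1001 / 1000 * √(1 / 2) * G (B + C) *
      ∫ γ in a..b, (1 - γ) * (1 / √(1 - γ + 3 / 4 * γ ^ 2) ^ 3) := by
  rw [← intervalIntegral.integral_const_mul]
  refine intervalIntegral.integral_mono_on hab
    ((J_cont hG.cont h.wd_pos'.2).intervalIntegrable _ _)
    ((continuous_const.mul Ray_cmid).intervalIntegrable _ _) ?_
  intro γ hγ
  have hγ0 : 0 ≤ γ := ha.trans hγ.1
  have hγ1 : γ ≤ 1 := hγ.2.trans hb
  have e1 : B + C + γ • A = (1 - γ) • (B + C) + γ • (A + B + C) := by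
    module
  have hg : G (B + C + γ • A) ≤ (1 - γ) * G (B + C) := by
    rw [e1]
    refine (Ray_comb hG (by linarith) hγ0 _ _).trans ?_
    rw [h0, mul_zero, add_zero]
  have hw := h.mid hγ0 hγ1
  have hG0 := hG.nonneg (B + C)
  have s1 := mul_le_mul hg hw (Wt_nonneg _ _ _) (mul_nonneg (by linarith) hG0)
  refine s1.trans (le_of_eq ?_)
  ring

theorem Ray_c_low {A B C : E3} (h : Tri3 A B C) {G : E3 → ℝ} (hG : Sublin G) :
    999 / 1000 * √(1 / 2) * G (B + C) * (229 / 100) ≤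
      J G B C (1 / 125) 1 + J G C B (1 / 125) 1 := by
  have hG0 := hG.nonneg (B + C)
  have h1 := J_cont hG.cont h.rot.wd_pos
  have h2 := J_cont hG.cont h.swap.rot.wd_pos
  have hs : 0 ≤ 999 / 1000 * √(1 / 2) * G (B + C) :=
    mul_nonneg (mul_nonneg (by norm_num) (Real.sqrt_nonneg _)) hG0
  refine (mul_le_mul_of_nonneg_left int_side hs).trans ?_
  unfold J
  rw [← intervalIntegral.integral_add (h1.intervalIntegrable _ _) (h2.intervalIntegrable _ _),
    ← intervalIntegral.integral_const_mul]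
  refine intervalIntegral.integral_mono_on (by norm_num)
    ((continuous_const.mul Ray_cside).intervalIntegrable _ _)
    ((h1.add h2).intervalIntegrable _ _) ?_
  intro μ hμ
  have hμ0 : 0 ≤ μ := le_trans (by norm_num) hμ.1
  have hμ1 : μ ≤ 1 := hμ.2
  have e1 : (1 + μ) • (B + C) = (B + μ • C) + (C + μ • B) := by
    module
  have hg : (1 + μ) * G (B + C) ≤ G (B + μ • C) + G (C + μ • B) := by
    rw [← hG.hom (1 + μ) (B + C) (by linarith), e1]
    exact hG.add _ _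
  have w1 := h.rot.side hμ0 hμ1
  have w2 := h.swap.rot.side hμ0 hμ1
  have hw0 : 0 ≤ 999 / 1000 * (√(1 / 2) / √(3 / 4 - μ / 2 + 3 / 4 * μ ^ 2) ^ 3) := by positivity
  have s1 := mul_le_mul_of_nonneg_left w1 (hG.nonneg (B + μ • C))
  have s2 := mul_le_mul_of_nonneg_left w2 (hG.nonneg (C + μ • B))
  have s3 := mul_le_mul_of_nonneg_right hg hw0
  calc 999 / 1000 * √(1 / 2) * G (B + C) *
        ((1 + μ) * (1 / √(3 / 4 - μ / 2 + 3 / 4 * μ ^ 2) ^ 3))
      = (1 + μ) * G (B + C) *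
        (999 / 1000 * (√(1 / 2) / √(3 / 4 - μ / 2 + 3 / 4 * μ ^ 2) ^ 3)) := by ring
    _ ≤ (G (B + μ • C) + G (C + μ • B)) *
        (999 / 1000 * (√(1 / 2) / √(3 / 4 - μ / 2 + 3 / 4 * μ ^ 2) ^ 3)) := s3
    _ = G (B + μ • C) * (999 / 1000 * (√(1 / 2) / √(3 / 4 - μ / 2 + 3 / 4 * μ ^ 2) ^ 3)) +
        G (C + μ • B) * (999 / 1000 * (√(1 / 2) / √(3 / 4 - μ / 2 + 3 / 4 * μ ^ 2) ^ 3)) := by
        ring
    _ ≤ G (B + μ • C) * Wt B C μ + G (C + μ • B) * Wt C B μ := add_le_add s1 s2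

/-- The other part of the median. -/
theorem ray_c {A B C : E3} (h : Tri3 A B C) {G : E3 → ℝ} (hG : Sublin G) (h0 : G (A + B + C) = 0)
    {a b ρ : ℝ} (ha : 0 ≤ a) (hab : a ≤ b) (hb : b ≤ 1)
    (hρ : 1001 / 1000 * ((b / 2 + 1) / √(1 - b + 3 / 4 * b ^ 2) -
      (a / 2 + 1) / √(1 - a + 3 / 4 * a ^ 2)) ≤ ρ * (999 / 1000 * (229 / 100))) :
    J G (B + C) A a b ≤ ρ * (J G B C (1 / 125) 1 + J G C B (1 / 125) 1) := by
  have hup := Ray_c_up h hG h0 ha hab hb
  have hlow := Ray_c_low h hG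
  have hI : 0 ≤ ∫ γ in a..b, (1 - γ) * (1 / √(1 - γ + 3 / 4 * γ ^ 2) ^ 3) := by
    refine intervalIntegral.integral_nonneg hab fun γ hγ => ?_
    have : 0 ≤ 1 - γ := by linarith [hγ.2]
    positivity
  rw [int_mid ha hab hb] at hup hI
  set I := (b / 2 + 1) / √(1 - b + 3 / 4 * b ^ 2) - (a / 2 + 1) / √(1 - a + 3 / 4 * a ^ 2) with hIdef
  have hρ0 : 0 ≤ ρ := by
    have h3 : 0 ≤ ρ * (999 / 1000 * (229 / 100)) := le_trans (by positivity) hρ
    exact nonneg_of_mul_nonneg_left h3 (by norm_num)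
  have hg0 : 0 ≤ √(1 / 2) * G (B + C) := mul_nonneg (Real.sqrt_nonneg _) (hG.nonneg _)
  have s1 := mul_le_mul_of_nonneg_left hρ hg0
  have s2 := mul_le_mul_of_nonneg_left hlow hρ0
  calc J G (B + C) A a b ≤ 1001 / 1000 * √(1 / 2) * G (B + C) * I := hup
    _ = √(1 / 2) * G (B + C) * (1001 / 1000 * I) := by ring
    _ ≤ √(1 / 2) * G (B + C) * (ρ * (999 / 1000 * (229 / 100))) := s1
    _ = ρ * (999 / 1000 * √(1 / 2) * G (B + C) * (229 / 100)) := by ring
    _ ≤ ρ * (J G B C (1 / 125) 1 + J G C B (1 / 125) 1) := s2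

/-- The two cases used. `a = 1/1000`, `b = 1`: `(3/2)/√(3/4) - (1.0005)/√0.99900075 ≤ 1.7321 - 1.0009`,
`ρ = 13/40`. -/
theorem ray_c1 {A B C : E3} (h : Tri3 A B C) {G : E3 → ℝ} (hG : Sublin G) (h0 : G (A + B + C) = 0) :
    J G (B + C) A (1 / 1000) 1 ≤ 13 / 40 * (J G B C (1 / 125) 1 + J G C B (1 / 125) 1) := by
  refine ray_c h hG h0 (by norm_num) (by norm_num) le_rfl ?_
  have h1 : (1 / 2 + 1 : ℝ) / √(1 - 1 + 3 / 4 * 1 ^ 2) ≤ 3 / 2 / (433 / 500) := by
    have h2 : (433 / 500 : ℝ) ≤ √(1 - 1 + 3 / 4 * 1 ^ 2) := by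
      apply Real.le_sqrt_of_sq_le
      norm_num
    have h3 : (1 / 2 + 1 : ℝ) = 3 / 2 := by norm_num
    rw [h3]
    exact div_le_div_of_nonneg_left (by norm_num) (by norm_num) h2
  have h4 : (1 : ℝ) ≤ (1 / 1000 / 2 + 1) / √(1 - 1 / 1000 + 3 / 4 * (1 / 1000) ^ 2) := by
    have h5 : √(1 - 1 / 1000 + 3 / 4 * (1 / 1000) ^ 2) ≤ (1 : ℝ) := by
      rw [Real.sqrt_le_one]
      norm_num
    have h6 : (0 : ℝ) < √(1 - 1 / 1000 + 3 / 4 * (1 / 1000) ^ 2) := Real.sqrt_pos.2 (Ray_qmid _)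
    rw [le_div_iff₀ h6]
    linarith
  norm_num at h1 h4 ⊢
  linarith

/-- `a = 0`, `b = 1/1000`: `1.0005/√0.99900075 - 1 ≤ 0.0011`, `ρ = 1/500`. -/
theorem ray_c2 {A B C : E3} (h : Tri3 A B C) {G : E3 → ℝ} (hG : Sublin G) (h0 : G (A + B + C) = 0) :
    J G (B + C) A 0 (1 / 1000) ≤ 1 / 500 * (J G B C (1 / 125) 1 + J G C B (1 / 125) 1) := by
  refine ray_c h hG h0 le_rfl (by norm_num) (by norm_num) ?_
  have h1 : (1 / 1000 / 2 + 1 : ℝ) / √(1 - 1 / 1000 + 3 / 4 * (1 / 1000) ^ 2) ≤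
      (1 / 1000 / 2 + 1) / (9994 / 10000) := by
    have h2 : (9994 / 10000 : ℝ) ≤ √(1 - 1 / 1000 + 3 / 4 * (1 / 1000) ^ 2) := by
      apply Real.le_sqrt_of_sq_le
      norm_num
    exact div_le_div_of_nonneg_left (by norm_num) (by norm_num) h2
  have h4 : (0 / 2 + 1 : ℝ) / √(1 - 0 + 3 / 4 * 0 ^ 2) = 1 := by
    norm_num
  rw [h4]
  norm_num at h1 ⊢
  linarith

end SanLoc
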