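/-
MP_72c0ec_gt, helper9: the functions `gg`, `ph`, `Mx`.
-/
import Pool.Agent.H.MP_72c0ec_gt.Loc.Base

set_option autoImplicit false

namespace SanLoc

open San SanSym MeasureTheory Set Metric Real

/-- `exists_supp`, `supp_smul`, `supp_continuous` of `Sym/Area.lean`; nonnegativity from `p ∈ K`;
subadditivity from `exists_supp` applied to `v + w`. -/
theorem gg_sublin {K : Set E3} (hK : IsCompact K) {p : E3} (hp : p ∈ K) : Sublin (gg K p) := by
  have hne : K.Nonempty := ⟨p, hp⟩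
  refine ⟨?_, ?_, ?_, ?_⟩
  · unfold gg
    exact (supp_continuous hK hne).sub (by fun_prop)
  · intro v
    obtain ⟨x, hx, hx1, hx2⟩ := exists_supp hK hne v
    have h := hx2 p hp
    unfold gg
    linarith
  · intro c v hc
    unfold gg
    rw [supp_smul hK hne hc, inner_smul_right]
    ring
  · intro v w
    obtain ⟨x, hx, hx1, hx2⟩ := exists_supp hK hne (v + w)
    obtain ⟨y, hy, hy1, hy2⟩ := exists_supp hK hne v
    obtain ⟨z, hz, hz1, hz2⟩ := exists_supp hK hne w
    have h1 := hy2 x hx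
    have h2 := hz2 x hx
    unfold gg
    rw [← hx1, inner_add_right, inner_add_right]
    linarith

theorem Supp_loc_compact {K : Set E3} (hK : IsCompact K) (p : E3) :
    IsCompact (K ∩ closedBall p (1 / 1000)) :=
  hK.inter_right isClosed_closedBall

theorem Supp_loc_mem {K : Set E3} {p : E3} (hp : p ∈ K) : p ∈ K ∩ closedBall p (1 / 1000) :=
  ⟨hp, mem_closedBall_self (by norm_num)⟩

theorem ph_sublin {K : Set E3} (hK : IsCompact K) {p : E3} (hp : p ∈ K) : Sublin (ph K p) :=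
  gg_sublin (Supp_loc_compact hK p) (Supp_loc_mem hp)

theorem le_gg {K : Set E3} (hK : IsCompact K) (p v : E3) {x : E3} (hx : x ∈ K) :
    (inner ℝ (x - p) v : ℝ) ≤ gg K p v := by
  obtain ⟨y, hy, hy1, hy2⟩ := exists_supp hK ⟨x, hx⟩ v
  have h1 := hy2 x hx
  unfold gg
  rw [inner_sub_left]
  linarith

/-- Support points of `gg`. -/
theorem exists_gg {K : Set E3} (hK : IsCompact K) {p : E3} (hp : p ∈ K) (v : E3) :
    ∃ x ∈ K, gg K p v = inner ℝ (x - p) v := by
  obtain ⟨x, hx, hx1, hx2⟩ := exists_supp hK ⟨p, hp⟩ v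
  refine ⟨x, hx, ?_⟩
  unfold gg
  rw [inner_sub_left, hx1]

/-- Support points of `ph`. -/
theorem exists_ph {K : Set E3} (hK : IsCompact K) {p : E3} (hp : p ∈ K) (v : E3) :
    ∃ x ∈ K, ‖x - p‖ ≤ 1 / 1000 ∧ ph K p v = inner ℝ (x - p) v := by
  obtain ⟨x, hx, hx1⟩ := exists_gg (Supp_loc_compact hK p) (Supp_loc_mem hp) v
  refine ⟨x, hx.1, ?_, hx1⟩
  have h := hx.2
  rwa [mem_closedBall, dist_eq_norm] at h

theorem ph_le_gg {K : Set E3} (hK : IsCompact K) {p : E3} (hp : p ∈ K) (v : E3) :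
    ph K p v ≤ gg K p v := by
  obtain ⟨x, hx, -, hx2⟩ := exists_ph hK hp v
  rw [hx2]
  exact le_gg hK p v hx

theorem gg_perp (K : Set E3) {p q v : E3} (h : (inner ℝ (q - p) v : ℝ) = 0) :
    gg K p v = gg K q v := by
  rw [inner_sub_left] at h
  unfold gg
  linarith

theorem Mx_continuous {K : Set E3} (hK : IsCompact K) {p q : E3} (hp : p ∈ K) (hq : q ∈ K) :
    Continuous (Mx K p q) := by
  unfold Mx
  exact (gg_sublin hK hp).cont.max ((ph_sublin hK hp).cont.add (ph_sublin hK hq).cont)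

theorem Mx_nonneg {K : Set E3} (hK : IsCompact K) {p q : E3} (hp : p ∈ K) (hq : q ∈ K) (v : E3) :
    0 ≤ Mx K p q v :=
  le_max_of_le_left ((gg_sublin hK hp).nonneg v)

theorem Mx_hom {K : Set E3} (hK : IsCompact K) {p q : E3} (hp : p ∈ K) (hq : q ∈ K) {c : ℝ}
    (hc : 0 ≤ c) (v : E3) : Mx K p q (c • v) = c * Mx K p q v := by
  unfold Mx
  rw [(gg_sublin hK hp).hom c v hc, (ph_sublin hK hp).hom c v hc, (ph_sublin hK hq).hom c v hc,
    mul_max_of_nonneg _ _ hc, mul_add]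

/-- For `v` orthogonal to the edge the gain function is symmetric. -/
theorem Mx_perp (K : Set E3) {p q v : E3} (h : (inner ℝ (q - p) v : ℝ) = 0) :
    Mx K p q v = Mx K q p v := by
  unfold Mx
  rw [gg_perp K h, add_comm (ph K p v)]

/-- Continuous positively homogeneous functions are bounded by a multiple of the norm (maximum on the
unit sphere, `v = ‖v‖ • (‖v‖⁻¹ • v)`). -/
theorem hom_bound {g : E3 → ℝ} (hg : Continuous g)
    (hh : ∀ (c : ℝ) (v : E3), 0 ≤ c → g (c • v) = c * g v) : ∃ C, ∀ v, |g v| ≤ C * ‖v‖ := by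
  obtain ⟨C, hC⟩ := (isCompact_sphere (0 : E3) 1).exists_bound_of_continuousOn hg.continuousOn
  refine ⟨C, fun v => ?_⟩
  rcases eq_or_ne v 0 with hv | hv
  · have h0 := hh 0 0 le_rfl
    rw [smul_zero, zero_mul] at h0
    rw [hv, h0, norm_zero, mul_zero, abs_zero]
  · have hn : 0 < ‖v‖ := norm_pos_iff.mpr hv
    have h1 : ‖v‖⁻¹ • v ∈ sphere (0 : E3) 1 := by
      rw [mem_sphere_zero_iff_norm, norm_smul, norm_inv, norm_norm, inv_mul_cancel₀ hn.ne']
    have h2 := hC _ h1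
    have h3 : g v = ‖v‖ * g (‖v‖⁻¹ • v) := by
      rw [← hh _ _ hn.le, smul_smul, mul_inv_cancel₀ hn.ne', one_smul]
    rw [Real.norm_eq_abs] at h2
    rw [h3, abs_mul, abs_of_pos hn, mul_comm]
    exact mul_le_mul_of_nonneg_right h2 hn.le

end SanLoc
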