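/-
MP_72c0ec_gt, helper9: the part of `K` near a corner.
-/
import Pool.Agent.H.MP_72c0ec_gt.Loc.Supp

set_option autoImplicit false

namespace SanLoc

open San SanSym MeasureTheory Set Metric Real

theorem SuppB_sum {G : Type*} [AddCommMonoid G] (f : Fin 4 → G) {l m j k : Fin 4}
    (hlm : l ≠ m) (hlj : l ≠ j) (hlk : l ≠ k) (hmj : m ≠ j) (hmk : m ≠ k) (hjk : j ≠ k) :
    ∑ i, f i = f l + (f m + (f j + f k)) := by
  have h : (Finset.univ : Finset (Fin 4)) = {l, m, j, k} := by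
    revert l m j k
    decide
  rw [h, Finset.sum_insert (by simp [hlm, hlj, hlk]), Finset.sum_insert (by simp [hmj, hmk]),
    Finset.sum_insert (by simp [hjk]), Finset.sum_singleton]

theorem SuppB_sumN {P N : Fin 4 → E3} {v : ℝ} (h : IsTet P N v) {l m j k : Fin 4}
    (hlm : l ≠ m) (hlj : l ≠ j) (hlk : l ≠ k) (hmj : m ≠ j) (hmk : m ≠ k) (hjk : j ≠ k) :
    N m + N j + N k = -N l := by
  have h1 := SuppB_sum N hlm hlj hlk hmj hmk hjk
  rw [Fin.sum_univ_four, h.sumN] at h1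
  have h2 : N l + (N m + N j + N k) = 0 := by
    rw [h1]
    abel
  exact eq_neg_of_add_eq_zero_right h2

/-- expansion of a vector with respect to a vertex -/
theorem SuppB_expand {P N : Fin 4 → E3} {v : ℝ} (h : IsTet P N v) {l m j k : Fin 4}
    (hlm : l ≠ m) (hlj : l ≠ j) (hlk : l ≠ k) (hmj : m ≠ j) (hmk : m ≠ k) (hjk : j ≠ k) (y : E3) :
    y = (-((inner ℝ (N m) y : ℝ) / v)) • (P m - P l) + (-((inner ℝ (N j) y : ℝ) / v)) • (P j - P l) +
      (-((inner ℝ (N k) y : ℝ) / v)) • (P k - P l) := by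
  have h1 := h.expand y
  rw [SuppB_sum _ hlm hlj hlk hmj hmk hjk] at h1
  have h2 : (inner ℝ (N l) y : ℝ) = -(inner ℝ (N m) y) - inner ℝ (N j) y - inner ℝ (N k) y := by
    have h3 := SuppB_sumN h hlm hlj hlk hmj hmk hjk
    have h4 : (inner ℝ (N m + N j + N k) y : ℝ) = inner ℝ (-N l) y := by rw [h3]
    rw [inner_add_left, inner_add_left, inner_neg_left] at h4
    linarith
  have h5 : (-((inner ℝ (N l) y : ℝ) / v)) =
      (inner ℝ (N m) y : ℝ) / v + (inner ℝ (N j) y : ℝ) / v + (inner ℝ (N k) y : ℝ) / v := by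
    rw [h2]
    ring
  rw [h5] at h1
  conv_lhs => rw [h1]
  module

theorem SuppB_norm {K : Set E3} {P N : Fin 4 → E3} {v : ℝ} (h : Loc K P N v) {l m : Fin 4}
    (hlm : l ≠ m) : ‖P m - P l‖ ≤ 1.01 := by
  have h1 := (abs_le.1 (h.near.ee m l hlm.symm)).2
  have h2 : ‖P m - P l‖ ^ 2 ≤ 1.01 ^ 2 := by
    have : (1.01:ℝ) ^ 2 = 1.0201 := by norm_num
    rw [this]
    have : (1:ℝ) / 10 ^ 5 ≤ 0.0201 := by norm_num
    linarith
  exact le_of_sq_le_sq h2 (by norm_num)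

theorem SuppB_v {K : Set E3} {P N : Fin 4 → E3} {v : ℝ} (h : Loc K P N v) : 0.7 ≤ v := by
  have h1 := (abs_le.1 h.near.vv).1
  have h2 : (0.7:ℝ) ^ 2 ≤ v ^ 2 := by
    have : (0.7:ℝ) ^ 2 = 0.49 := by norm_num
    rw [this]
    have : (1:ℝ) / 10 ^ 5 ≤ 0.01 := by norm_num
    linarith
  exact le_of_sq_le_sq h2 h.near.pos.le

theorem SuppB_gg_nonneg {K : Set E3} {P N : Fin 4 → E3} {v : ℝ} (h : Loc K P N v) (l : Fin 4)
    (w : E3) : 0 ≤ gg K (P l) w :=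
  (gg_sublin h.comp (h.mem l)).nonneg w

theorem SuppB_term {t v c : ℝ} {p : E3} (hv : 0.7 ≤ v) (ht : |t| ≤ c) (hp : ‖p‖ ≤ 1.01)
    (hc : 0 ≤ c) : ‖(-(t / v)) • p‖ ≤ c * 1.5 := by
  have hv0 : 0 < v := by linarith
  rw [norm_smul, norm_neg, Real.norm_eq_abs, abs_div, abs_of_pos hv0]
  have h1 : |t| / v ≤ c / 0.7 := div_le_div₀ hc ht (by norm_num) hv
  have h2 : |t| / v * ‖p‖ ≤ c / 0.7 * 1.01 :=
    mul_le_mul h1 hp (norm_nonneg _) (by positivity)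
  refine h2.trans ?_
  have h3 : c / 0.7 * 1.01 = c * (1.01 / 0.7) := by ring
  rw [h3]
  exact mul_le_mul_of_nonneg_left (by norm_num) hc

theorem SuppB_lower {a b c s t r : ℝ} (ha : 1 / 1000 ≤ a) (hb : 0 ≤ b) (hb1 : b ≤ 1)
    (hc : 0 ≤ c) (hc1 : c ≤ 1) (hs : s ≤ 1 / 10 ^ 8) (ht : t ≤ 1 / 10 ^ 8)
    (h : 0 ≤ a * r + b * s + c * t) : -(2 / 10 ^ 5) ≤ r := by
  have h1 : b * s ≤ 1 / 10 ^ 8 := by
    have e1 : b * s ≤ b * (1 / 10 ^ 8) := mul_le_mul_of_nonneg_left hs hb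
    have e2 : b * (1 / 10 ^ 8 : ℝ) ≤ 1 * (1 / 10 ^ 8) :=
      mul_le_mul_of_nonneg_right hb1 (by norm_num)
    linarith
  have h2 : c * t ≤ 1 / 10 ^ 8 := by
    have e1 : c * t ≤ c * (1 / 10 ^ 8) := mul_le_mul_of_nonneg_left ht hc
    have e2 : c * (1 / 10 ^ 8 : ℝ) ≤ 1 * (1 / 10 ^ 8) :=
      mul_le_mul_of_nonneg_right hc1 (by norm_num)
    linarith
  by_contra hr
  push Not at hr
  have ha0 : 0 < a := by linarith
  have h3 : a * r ≤ a * (-(2 / 10 ^ 5)) := mul_le_mul_of_nonneg_left hr.le ha0.le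
  have h4 : a * (-(2 / 10 ^ 5) : ℝ) ≤ 1 / 1000 * (-(2 / 10 ^ 5)) := by
    rw [mul_neg, mul_neg]
    refine neg_le_neg ?_
    exact mul_le_mul_of_nonneg_right ha (by norm_num)
  have h5 : a * r < a * (-(2 / 10 ^ 5)) := mul_lt_mul_of_pos_left hr ha0
  have h6 : (1 / 1000 * (-(2 / 10 ^ 5)) : ℝ) = -(2 / 10 ^ 8) := by norm_num
  have h7 : (1 / 10 ^ 8 + 1 / 10 ^ 8 : ℝ) = 2 / 10 ^ 8 := by norm_num
  linarith

/-- **The part of `K` near `P l` decides.** -/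
theorem ph_eq_gg {K : Set E3} {P N : Fin 4 → E3} {v : ℝ} (h : Loc K P N v) {l m j k : Fin 4}
    (hlm : l ≠ m) (hlj : l ≠ j) (hlk : l ≠ k) (hmj : m ≠ j) (hmk : m ≠ k) (hjk : j ≠ k)
    {a b c : ℝ} (ha : 1 / 1000 ≤ a) (ha1 : a ≤ 1) (hb : 1 / 1000 ≤ b) (hb1 : b ≤ 1)
    (hc : 1 / 1000 ≤ c) (hc1 : c ≤ 1) :
    ph K (P l) (a • N m + b • N j + c • N k) = gg K (P l) (a • N m + b • N j + c • N k) := by
  refine le_antisymm (ph_le_gg h.comp (h.mem l) _) ?_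
  obtain ⟨x, hx, he⟩ := exists_gg h.comp (h.mem l) (a • N m + b • N j + c • N k)
  have h0 := SuppB_gg_nonneg h l (a • N m + b • N j + c • N k)
  have ha0 : 0 ≤ a := by linarith
  have hb0 : 0 ≤ b := by linarith
  have hc0 : 0 ≤ c := by linarith
  have hm := h.low l m hlm.symm x hx
  have hj := h.low l j hlj.symm x hx
  have hk := h.low l k hlk.symm x hx
  have h1 : 0 ≤ a * (inner ℝ (N m) (x - P l) : ℝ) + b * inner ℝ (N j) (x - P l) +
      c * inner ℝ (N k) (x - P l) := by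
    rw [he, inner_add_right, inner_add_right, inner_smul_right, inner_smul_right,
      inner_smul_right, real_inner_comm, real_inner_comm (N j), real_inner_comm (N k)] at h0
    exact h0
  have km := SuppB_lower (r := (inner ℝ (N m) (x - P l) : ℝ)) ha hb0 hb1 hc0 hc1 hj hk h1
  have kj := SuppB_lower (a := b) (b := a) (c := c) (r := (inner ℝ (N j) (x - P l) : ℝ))
    (s := inner ℝ (N m) (x - P l)) (t := inner ℝ (N k) (x - P l)) hb ha0 ha1 hc0 hc1 hm hk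
    (by linarith)
  have kk := SuppB_lower (a := c) (b := a) (c := b) (r := (inner ℝ (N k) (x - P l) : ℝ))
    (s := inner ℝ (N m) (x - P l)) (t := inner ℝ (N j) (x - P l)) hc ha0 ha1 hb0 hb1 hm hj
    (by linarith)
  have hsmall : (1:ℝ) / 10 ^ 8 ≤ 2 / 10 ^ 5 := by norm_num
  have habs : ∀ {t : ℝ}, t ≤ 1 / 10 ^ 8 → -(2 / 10 ^ 5) ≤ t → |t| ≤ 2 / 10 ^ 5 := by
    intro t h1 h2
    exact abs_le.2 ⟨h2, h1.trans hsmall⟩
  have hv := SuppB_v h
  have hc5 : (0:ℝ) ≤ 2 / 10 ^ 5 := by norm_num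
  have hn : ‖x - P l‖ ≤ 1 / 1000 := by
    rw [SuppB_expand h.near.toIsTet hlm hlj hlk hmj hmk hjk (x - P l)]
    have n1 := SuppB_term hv (habs hm km) (SuppB_norm h hlm) hc5
    have n2 := SuppB_term hv (habs hj kj) (SuppB_norm h hlj) hc5
    have n3 := SuppB_term hv (habs hk kk) (SuppB_norm h hlk) hc5
    refine (norm_add₃_le).trans ?_
    have e : (2 / 10 ^ 5 * 1.5 + 2 / 10 ^ 5 * 1.5 + 2 / 10 ^ 5 * 1.5 : ℝ) ≤ 1 / 1000 := by
      norm_num
    linarith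
  have hmem : x ∈ K ∩ closedBall (P l) (1 / 1000) := by
    refine ⟨hx, ?_⟩
    rw [mem_closedBall, dist_eq_norm]
    exact hn
  rw [he]
  exact le_gg (h.comp.inter_right isClosed_closedBall) (P l) _ hmem

/-- `N m + N j + N k = -N l` and `Loc.pos`. -/
theorem gg_center {K : Set E3} {P N : Fin 4 → E3} {v : ℝ} (h : Loc K P N v) {l m j k : Fin 4}
    (hlm : l ≠ m) (hlj : l ≠ j) (hlk : l ≠ k) (hmj : m ≠ j) (hmk : m ≠ k) (hjk : j ≠ k) :
    gg K (P l) (N m + N j + N k) = 0 := by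
  refine le_antisymm ?_ (SuppB_gg_nonneg h l _)
  obtain ⟨x, hx, he⟩ := exists_gg h.comp (h.mem l) (N m + N j + N k)
  rw [he, SuppB_sumN h.near.toIsTet hlm hlj hlk hmj hmk hjk, inner_neg_right, real_inner_comm]
  have := h.pos l x hx
  linarith

theorem ph_center {K : Set E3} {P N : Fin 4 → E3} {v : ℝ} (h : Loc K P N v) {l m j k : Fin 4}
    (hlm : l ≠ m) (hlj : l ≠ j) (hlk : l ≠ k) (hmj : m ≠ j) (hmk : m ≠ k) (hjk : j ≠ k) :
    ph K (P l) (N m + N j + N k) = 0 := by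
  have h1 := ph_eq_gg h hlm hlj hlk hmj hmk hjk (a := 1) (b := 1) (c := 1) (by norm_num) le_rfl
    (by norm_num) le_rfl (by norm_num) le_rfl
  rw [one_smul, one_smul, one_smul] at h1
  rw [h1]
  exact gg_center h hlm hlj hlk hmj hmk hjk

/-- On the arc of the edge `P j P k` the gain function bounds both the support function and the sum of
the two support functions at the ends. -/
theorem gg_le_Mx (K : Set E3) (p q v : E3) : gg K p v ≤ Mx K p q v := le_max_left _ _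

theorem ph_add_le_Mx (K : Set E3) (p q v : E3) : ph K p v + ph K q v ≤ Mx K p q v :=
  le_max_right _ _

theorem SuppB_gg_small {K : Set E3} {P N : Fin 4 → E3} {v : ℝ} (h : Loc K P N v) {l m j : Fin 4}
    (hlj : l ≠ j) (hmj : m ≠ j) {μ : ℝ} (h0 : 0 ≤ μ) (h1 : μ ≤ 1) :
    gg K (P j) (N l + μ • N m) ≤ 2 / 10 ^ 8 := by
  obtain ⟨x, hx, he⟩ := exists_gg h.comp (h.mem j) (N l + μ • N m)
  have hl := h.low j l hlj x hx
  have hm := h.low j m hmj x hx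
  rw [he, inner_add_right, inner_smul_right, real_inner_comm, real_inner_comm (N m)]
  have e1 : μ * (inner ℝ (N m) (x - P j) : ℝ) ≤ μ * (1 / 10 ^ 8) :=
    mul_le_mul_of_nonneg_left hm h0
  have e2 : μ * (1 / 10 ^ 8 : ℝ) ≤ 1 * (1 / 10 ^ 8) := mul_le_mul_of_nonneg_right h1 (by norm_num)
  have e3 : (1 / 10 ^ 8 + 1 * (1 / 10 ^ 8) : ℝ) = 2 / 10 ^ 8 := by norm_num
  linarith

/-- All functions are small: for unit-size vectors. `exists_gg`, `exists_ph` and `Loc.low`: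
for `w = N l + μ N m`, `x ∈ K`: `⟪x - P j, w⟫ ≤ (1 + μ) 10⁻⁸`. -/
theorem Mx_small {K : Set E3} {P N : Fin 4 → E3} {v : ℝ} (h : Loc K P N v) {l m j k : Fin 4}
    (hlj : l ≠ j) (hlk : l ≠ k) (hmj : m ≠ j) (hmk : m ≠ k) {μ : ℝ} (h0 : 0 ≤ μ) (h1 : μ ≤ 1) :
    Mx K (P j) (P k) (N l + μ • N m) ≤ 4 / 10 ^ 8 := by
  have gj := SuppB_gg_small h hlj hmj h0 h1
  have gk := SuppB_gg_small h hlk hmk h0 h1
  have pj := ph_le_gg h.comp (h.mem j) (N l + μ • N m)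
  have pk := ph_le_gg h.comp (h.mem k) (N l + μ • N m)
  have e : (2 / 10 ^ 8 + 2 / 10 ^ 8 : ℝ) = 4 / 10 ^ 8 := by norm_num
  have e' : (0:ℝ) ≤ 2 / 10 ^ 8 := by norm_num
  refine max_le ?_ ?_
  · linarith
  · linarith

end SanLoc
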