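/-
MP_72c0ec_gt, helper9: the contribution of one corner.
-/
import Pool.Agent.H.MP_72c0ec_gt.Loc.Ray
import Pool.Agent.H.MP_72c0ec_gt.Loc.SuppB

set_option autoImplicit false

namespace SanLoc

open San SanSym MeasureTheory Set Metric Real

theorem tri3 {P N : Fin 4 → E3} {v : ℝ} (h : Near (1 / 10 ^ 5) P N v) {l m j : Fin 4}
    (hlm : l ≠ m) (hlj : l ≠ j) (hmj : m ≠ j) : Tri3 (N l) (N m) (N j) :=
  ⟨h.nn l, h.nn m, h.nn j, h.ni l m hlm, h.ni l j hlj, h.ni m j hmj⟩

/-- Share of the side from `N m` to `N j`, seen from the corner `P l`, of the ray from `N m`. -/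
noncomputable def RR (K : Set E3) (P N : Fin 4 → E3) (l m j : Fin 4) : ℝ :=
  13 / 50 * J (gg K (P l)) (N m) (N j) 0 (1 / 500) +
    13 / 50 * J (ph K (P l)) (N m) (N j) (1 / 500) (1 / 125) +
    29 / 50 * J (ph K (P l)) (N m) (N j) (1 / 250) 1

/-- Share of the side from `N j` to `N k`, seen from the corner `P l`, of the median which ends on it. -/
noncomputable def DD (K : Set E3) (P N : Fin 4 → E3) (l j k : Fin 4) : ℝ :=
  1 / 500 * J (gg K (P l)) (N j) (N k) (1 / 125) 1 +
    13 / 40 * J (ph K (P l)) (N j) (N k) (1 / 125) 1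

/-- The ray from `N m` in the triangle of the corner `P l`. Proof. Split `[0, 1]` at `1/1000`, `1/250`
(`J_split`, `gg_sublin`). On `[1/1000, 1]` the points `N m + β (N j + N k)` have all coefficients in
`[1/1000, 1]`, so `gg = ph` there (`ph_eq_gg`, `J_congr`). Use `ray_a` for `gg` on `[0, 1/1000]`,
`ray_a` for `ph` on `[1/1000, 1/250]`, `ray_b` for `ph` on `[1/250, 1]` (`ph_center`). -/
theorem corner_ray {K : Set E3} {P N : Fin 4 → E3} {v : ℝ} (h : Loc K P N v) {l m j k : Fin 4}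
    (hlm : l ≠ m) (hlj : l ≠ j) (hlk : l ≠ k) (hmj : m ≠ j) (hmk : m ≠ k) (hjk : j ≠ k) :
    J (gg K (P l)) (N m) (N j + N k) 0 1 ≤ RR K P N l m j + RR K P N l m k := by
  have T : Tri3 (N m) (N j) (N k) := tri3 h.near hmj hmk hjk
  have hG := gg_sublin h.comp (h.mem l)
  have hH := ph_sublin h.comp (h.mem l)
  have hw := T.wd_pos'.1
  have s1 := J_split hG.cont hw 0 (1 / 1000) 1
  have s2 := J_split hH.cont hw (1 / 1000) (1 / 250) 1
  have s3 : J (gg K (P l)) (N m) (N j + N k) (1 / 1000) 1 =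
      J (ph K (P l)) (N m) (N j + N k) (1 / 1000) 1 := by
    refine J_congr (by norm_num) fun β hβ => ?_
    have e := ph_eq_gg h hlm hlj hlk hmj hmk hjk (a := 1) (b := β) (c := β) (by norm_num)
      le_rfl hβ.1 hβ.2 hβ.1 hβ.2
    rw [one_smul, add_assoc, ← smul_add] at e
    exact e.symm
  have r1 := ray_a T hG (a := 0) (b := 1 / 1000) le_rfl (by norm_num) (by norm_num)
  have r2 := ray_a T hH (a := 1 / 1000) (b := 1 / 250) (by norm_num) (by norm_num) (by norm_num)
  have r3 := ray_b T hH (ph_center h hlm hlj hlk hmj hmk hjk) (a := 1 / 250) (by norm_num)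
    (by norm_num)
  have n1 : (2 : ℝ) * 0 = 0 := by norm_num
  have n2 : (2 : ℝ) * (1 / 1000) = 1 / 500 := by norm_num
  have n3 : (2 : ℝ) * (1 / 250) = 1 / 125 := by norm_num
  rw [n1, n2] at r1
  rw [n2, n3] at r2
  unfold RR
  linarith

/-- The other part of the median. Split `[0, 1]` at `1/1000`: `ray_c2` for `gg`, `ray_c1` for `ph`
(the point `N j + N k + γ N m`, `γ ∈ [1/1000, 1]`, has all coefficients in `[1/1000, 1]`). -/
theorem corner_mid {K : Set E3} {P N : Fin 4 → E3} {v : ℝ} (h : Loc K P N v) {l m j k : Fin 4}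
    (hlm : l ≠ m) (hlj : l ≠ j) (hlk : l ≠ k) (hmj : m ≠ j) (hmk : m ≠ k) (hjk : j ≠ k) :
    J (gg K (P l)) (N j + N k) (N m) 0 1 ≤ DD K P N l j k + DD K P N l k j := by
  have T : Tri3 (N m) (N j) (N k) := tri3 h.near hmj hmk hjk
  have hG := gg_sublin h.comp (h.mem l)
  have hH := ph_sublin h.comp (h.mem l)
  have hw := T.wd_pos'.2
  have s1 := J_split hG.cont hw 0 (1 / 1000) 1
  have s3 : J (gg K (P l)) (N j + N k) (N m) (1 / 1000) 1 =
      J (ph K (P l)) (N j + N k) (N m) (1 / 1000) 1 := by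
    refine J_congr (by norm_num) fun γ hγ => ?_
    have e := ph_eq_gg h hlm hlj hlk hmj hmk hjk (a := γ) (b := 1) (c := 1) hγ.1 hγ.2
      (by norm_num) le_rfl (by norm_num) le_rfl
    rw [one_smul, one_smul, add_assoc, add_comm (γ • N m)] at e
    exact e.symm
  have r1 := ray_c2 T hG (gg_center h hlm hlj hlk hmj hmk hjk)
  have r2 := ray_c1 T hH (ph_center h hlm hlj hlk hmj hmk hjk)
  unfold DD
  linarith

/-- Additivity. -/
theorem Corner_J_add {g g' : E3 → ℝ} (hg : Continuous g) (hg' : Continuous g') {p q : E3}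
    (h : 0 < wd p q) (a b : ℝ) :
    J g p q a b + J g' p q a b = J (fun v => g v + g' v) p q a b := by
  unfold J
  rw [← intervalIntegral.integral_add ((J_cont hg h).intervalIntegrable _ _)
    ((J_cont hg' h).intervalIntegrable _ _)]
  simp only [add_mul]

/-- One half of an arc: the arc from `N m` to `N j` belongs to the edge `P l P k`. Proof. Let
`Z(a, b) = J (Mx K (P l) (P k)) (N m) (N j) a b`. On the arc `gg K (P l) = gg K (P k) ≤ Mx`
(`gg_perp`: `P k - P l` is orthogonal to `N m + μ N j` by `height`) and `ph K (P l) + ph K (P k) ≤ Mx`.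
So the left side is at most
`13/25 Z(0, 1/500) + 13/50 Z(1/500, 1/125) + 29/50 Z(1/250, 1) + (1/250 + 13/40) Z(1/125, 1)`, and the
total coefficient is `≤ 91/100` everywhere (split at `1/500, 1/250, 1/125`; `Z ≥ 0`). -/
theorem side_bound {K : Set E3} {P N : Fin 4 → E3} {v : ℝ} (h : Loc K P N v) {l k m j : Fin 4}
    (hlm : l ≠ m) (hlj : l ≠ j) (hlk : l ≠ k) (hmj : m ≠ j) (hmk : m ≠ k) (hjk : j ≠ k) :
    RR K P N l m j + RR K P N k m j + DD K P N l m j + DD K P N k m j ≤
      91 / 100 * J (Mx K (P l) (P k)) (N m) (N j) 0 1 := by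
  have T : Tri3 (N m) (N j) (N k) := tri3 h.near hmj hmk hjk
  have hw : 0 < wd (N m) (N j) := T.wd_pos
  have hGl := gg_sublin h.comp (h.mem l)
  have hGk := gg_sublin h.comp (h.mem k)
  have hHl := ph_sublin h.comp (h.mem l)
  have hHk := ph_sublin h.comp (h.mem k)
  have hM := Mx_continuous h.comp (h.mem l) (h.mem k)
  have hperp : ∀ μ : ℝ, (inner ℝ (P k - P l) (N m + μ • N j) : ℝ) = 0 := by
    intro μ
    rw [inner_add_right, inner_smul_right, inner_sub_left, inner_sub_left,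
      real_inner_comm (N m) (P k), real_inner_comm (N m) (P l), real_inner_comm (N j) (P k),
      real_inner_comm (N j) (P l), h.near.height m k hmk.symm, h.near.height m l hlm,
      h.near.height j k hjk.symm, h.near.height j l hlj]
    ring
  have bGl : ∀ a b : ℝ, a ≤ b → J (gg K (P l)) (N m) (N j) a b ≤
      J (Mx K (P l) (P k)) (N m) (N j) a b := fun a b hab =>
    J_mono hGl.cont hM hw hab fun μ _ => gg_le_Mx _ _ _ _
  have bGk : ∀ a b : ℝ, a ≤ b → J (gg K (P k)) (N m) (N j) a b ≤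
      J (Mx K (P l) (P k)) (N m) (N j) a b := fun a b hab =>
    J_mono hGk.cont hM hw hab fun μ _ => by
      rw [← gg_perp K (hperp μ)]
      exact gg_le_Mx _ _ _ _
  have bH : ∀ a b : ℝ, a ≤ b → J (ph K (P l)) (N m) (N j) a b + J (ph K (P k)) (N m) (N j) a b ≤
      J (Mx K (P l) (P k)) (N m) (N j) a b := fun a b hab => by
    rw [Corner_J_add hHl.cont hHk.cont hw]
    exact J_mono (hHl.cont.add hHk.cont) hM hw hab fun μ _ => ph_add_le_Mx _ _ _ _
  have z0 : ∀ a b : ℝ, a ≤ b → 0 ≤ J (Mx K (P l) (P k)) (N m) (N j) a b := fun a b hab =>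
    J_nonneg (Mx_nonneg h.comp (h.mem l) (h.mem k)) _ _ hab
  have a1 := bGl 0 (1 / 500) (by norm_num)
  have a2 := bGk 0 (1 / 500) (by norm_num)
  have a3 := bH (1 / 500) (1 / 125) (by norm_num)
  have a4 := bH (1 / 250) 1 (by norm_num)
  have a5 := bGl (1 / 125) 1 (by norm_num)
  have a6 := bGk (1 / 125) 1 (by norm_num)
  have a7 := bH (1 / 125) 1 (by norm_num)
  have s1 := J_split hM hw 0 (1 / 500) 1
  have s2 := J_split hM hw (1 / 500) (1 / 125) 1
  have s3 := J_split hM hw (1 / 250) (1 / 125) 1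
  have s4 := J_split hM hw (1 / 500) (1 / 250) (1 / 125)
  have z1 := z0 0 (1 / 500) (by norm_num)
  have z2 := z0 (1 / 500) (1 / 250) (by norm_num)
  have z3 := z0 (1 / 250) (1 / 125) (by norm_num)
  have z4 := z0 (1 / 125) 1 (by norm_num)
  unfold RR DD
  linarith

end SanLoc
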