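/-
MP_72c0ec_gt, helper9: areas of parts of plane convex sets above a segment.
-/
import Mathlib

set_option autoImplicit false

namespace SanLoc

open MeasureTheory Set Real

/-- The open standard triangle. -/
theorem Tri_std : volume {z : ℝ × ℝ | 0 < z.1 ∧ 0 < z.2 ∧ z.1 + z.2 < 1} = ENNReal.ofReal (1 / 2) := by
  have h1 : {z : ℝ × ℝ | 0 < z.1 ∧ 0 < z.2 ∧ z.1 + z.2 < 1} =
      regionBetween (fun _ : ℝ => (0 : ℝ)) (fun x : ℝ => 1 - x) (Ioo 0 1) := by
    ext z
    simp only [regionBetween, mem_ofPred_eq, mem_Ioo]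
    constructor
    · rintro ⟨h1, h2, h3⟩
      exact ⟨⟨h1, by linarith⟩, h2, by linarith⟩
    · rintro ⟨⟨h1, _⟩, h2, h3⟩
      exact ⟨h1, h2, by linarith⟩
  have hint : ∀ g : ℝ → ℝ, Continuous g → IntegrableOn g (Ioo (0 : ℝ) 1) volume := fun g hg =>
    (hg.integrableOn_Icc (a := (0 : ℝ)) (b := 1)).mono_set Ioo_subset_Icc_self
  rw [h1, Measure.volume_eq_prod, volume_regionBetween_eq_integral (hint _ continuous_const)
    (hint _ (by fun_prop)) measurableSet_Ioo (fun x hx => by
      have := hx.2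
      change (0 : ℝ) ≤ 1 - x
      linarith)]
  congr 1
  have h2 : ((fun x : ℝ => 1 - x) - fun _ : ℝ => (0 : ℝ)) = fun x : ℝ => 1 - x := by
    funext x
    simp
  rw [h2, ← integral_Ioc_eq_integral_Ioo, ← intervalIntegral.integral_of_le zero_le_one,
    intervalIntegral.integral_sub (by simp) (by simp)]
  simp
  norm_num

/-- The open triangle `0, p, q` has area `|det (p, q)| / 2`. Proof: it is the image of
`{(x, y) | 0 < x, 0 < y, x + y < 1}` (area `1/2`, `volume_regionBetween_eq_integral` or Fubini) under the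
linear map `(x, y) ↦ x p + y q` (`Measure.addHaar_image_linearMap`). Only `≤` is needed. -/
theorem tri_open {p q : ℝ × ℝ} :
    ENNReal.ofReal (|p.1 * q.2 - p.2 * q.1| / 2) ≤
      volume ((fun z : ℝ × ℝ => z.1 • p + z.2 • q) '' {z | 0 < z.1 ∧ 0 < z.2 ∧ z.1 + z.2 < 1}) := by
  let L : ℝ × ℝ →ₗ[ℝ] ℝ × ℝ :=
    Matrix.toLin (Module.Basis.finTwoProd ℝ) (Module.Basis.finTwoProd ℝ) !![p.1, q.1; p.2, q.2]
  have hL : (fun z : ℝ × ℝ => z.1 • p + z.2 • q) = L := by
    funext z
    rw [Matrix.toLin_finTwoProd_apply]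
    ext
    · simp only [Prod.fst_add, Prod.smul_fst, smul_eq_mul]
      ring
    · simp only [Prod.snd_add, Prod.smul_snd, smul_eq_mul]
      ring
  have hdet : LinearMap.det L = p.1 * q.2 - p.2 * q.1 := by
    rw [LinearMap.det_toLin, Matrix.det_fin_two_of]
    ring
  rw [hL, Measure.addHaar_image_linearMap, hdet, Tri_std, ← ENNReal.ofReal_mul (abs_nonneg _)]
  refine ENNReal.ofReal_le_ofReal (le_of_eq ?_)
  ring

/-- A triangle inside. -/
theorem Tri_sub {C : Set (ℝ × ℝ)} (hC : Convex ℝ C) (h0 : ((0, 0) : ℝ × ℝ) ∈ C) {p q : ℝ × ℝ}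
    (hp : p ∈ C) (hq : q ∈ C) {a b : ℝ} (ha : 0 < a) (hb : 0 < b) (hab : a + b < 1) :
    a • p + b • q ∈ C := by
  have h1 := hC.sum_mem (t := (Finset.univ : Finset (Fin 3))) (w := ![1 - a - b, a, b])
    (z := ![((0, 0) : ℝ × ℝ), p, q]) (by
      intro i _
      fin_cases i
      · simp; linarith
      · simp; linarith
      · simp; linarith) (by
      simp only [Fin.sum_univ_three, Matrix.cons_val_zero, Matrix.cons_val_one, Matrix.cons_val]
      ring) (by
      intro i _
      fin_cases i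
      · simpa using h0
      · simpa using hp
      · simpa using hq)
  have h2 : ∑ i : Fin 3, (![1 - a - b, a, b] : Fin 3 → ℝ) i • (![((0, 0) : ℝ × ℝ), p, q] : Fin 3 → ℝ × ℝ) i
      = a • p + b • q := by
    rw [Fin.sum_univ_three]
    ext <;> simp
  rwa [h2] at h1

/-- Part of a convex set above a segment. `C` contains `(0, 0)`, `(e, 0)`, `(t, y)`, `(t', y')` with
`0 ≤ t ≤ t' ≤ e`, `y, y' ≥ 0`. Proof. The open triangles `T₁ = 0, (e, 0), (t', y')` (area `e y' / 2`) and
`T₂ = 0, (t', y'), (t, y)` (area `(t' y - t y') / 2` if this is `≥ 0`) lie in `C` (convexity) and in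
`{0 < x < e, 0 < y}`: a point of `T₁` is `(a e + b t', b y')`, one of `T₂` is `(a t' + b t, a y' + b y)`,
`a, b > 0`, `a + b < 1` (if `y' = 0` then `T₁` is empty or degenerate: the area is `0`; treat
`y' = 0` and `t' = 0` separately). They are disjoint because `det ((t', y'), z)` is `< 0` on `T₁` and
`> 0` on `T₂`. If `t' y - t y' < 0` then `T₁` alone is enough. -/
theorem above_segment {C : Set (ℝ × ℝ)} (hC : Convex ℝ C) {e t y t' y' : ℝ} (he : 0 < e)
    (h0 : (0, 0) ∈ C) (h1 : (e, 0) ∈ C) (h2 : (t, y) ∈ C) (h3 : (t', y') ∈ C) (ht : 0 ≤ t)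
    (htt : t ≤ t') (ht' : t' ≤ e) (hy : 0 ≤ y) (hy' : 0 ≤ y') :
    ENNReal.ofReal ((e * y' + t' * y - t * y') / 2) ≤
      volume (C ∩ {z | 0 < z.1 ∧ z.1 < e ∧ 0 < z.2}) := by
  have hA : ∀ {H : Set (ℝ × ℝ)}, (∀ z : ℝ × ℝ, (∃ a b : ℝ, 0 < a ∧ 0 < b ∧ a + b < 1 ∧
      z = (a * e + b * t', b * y')) → 0 < y' → z ∈ H) →
      ENNReal.ofReal (e * y' / 2) ≤ volume ((C ∩ {z | 0 < z.1 ∧ z.1 < e ∧ 0 < z.2}) ∩ H) := by
    intro H hH
    rcases hy'.eq_or_lt with h | hy'0
    · rw [← h]
      simp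
    · have h5 := tri_open (p := (e, 0)) (q := (t', y'))
      have h6 : |((e, (0 : ℝ)) : ℝ × ℝ).1 * ((t', y') : ℝ × ℝ).2 -
          ((e, (0 : ℝ)) : ℝ × ℝ).2 * ((t', y') : ℝ × ℝ).1| / 2 = e * y' / 2 := by
        simp only [zero_mul, sub_zero]
        rw [abs_of_nonneg (by positivity)]
      rw [h6] at h5
      refine h5.trans (measure_mono ?_)
      rintro _ ⟨z, ⟨ha, hb, hab⟩, rfl⟩
      have h7 : z.1 • ((e, 0) : ℝ × ℝ) + z.2 • ((t', y') : ℝ × ℝ) =
          (z.1 * e + z.2 * t', z.2 * y') := by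
        ext <;> simp
      refine ⟨⟨Tri_sub hC h0 h1 h3 ha hb hab, ?_⟩, hH _ ⟨z.1, z.2, ha, hb, hab, h7⟩ hy'0⟩
      rw [mem_ofPred_eq]
      have h7' : (fun z : ℝ × ℝ => z.1 • ((e, 0) : ℝ × ℝ) + z.2 • ((t', y') : ℝ × ℝ)) z =
          (z.1 * e + z.2 * t', z.2 * y') := h7
      rw [h7']
      have h8 : 0 < z.1 * e := mul_pos ha he
      have h9 : 0 ≤ z.2 * t' := mul_nonneg hb.le (ht.trans htt)
      have h10 : z.2 * t' ≤ z.2 * e := mul_le_mul_of_nonneg_left ht' hb.le
      have h11 : z.1 * e + z.2 * e < e := by nlinarith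
      exact ⟨by simp only; linarith, by simp only; linarith, mul_pos hb hy'0⟩
  rcases le_or_gt (t' * y - t * y') 0 with hle | hgt
  · refine (ENNReal.ofReal_le_ofReal ?_).trans ((hA (H := univ) (fun _ _ _ => mem_univ _)).trans
      (measure_mono inter_subset_left))
    linarith
  · have ht0 : 0 < t' := by
      rcases (ht.trans htt).eq_or_lt with h | h
      · exfalso
        rw [← h] at hgt
        have : 0 ≤ t * y' := mul_nonneg ht hy'
        linarith
      · exact h
    have hy0 : 0 < y := by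
      rcases hy.eq_or_lt with h | h
      · exfalso
        rw [← h] at hgt
        have : 0 ≤ t * y' := mul_nonneg ht hy'
        linarith
      · exact h
    let H : Set (ℝ × ℝ) := {z | t' * z.2 - y' * z.1 < 0}
    have hHm : MeasurableSet H := by
      refine measurableSet_lt ?_ measurable_const
      fun_prop
    have hT1 : ENNReal.ofReal (e * y' / 2) ≤
        volume ((C ∩ {z | 0 < z.1 ∧ z.1 < e ∧ 0 < z.2}) ∩ H) := by
      refine hA ?_
      rintro z ⟨a, b, ha, hb, hab, rfl⟩ hy'0
      change t' * (b * y') - y' * (a * e + b * t') < 0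
      have : 0 < y' * (a * e) := by positivity
      nlinarith
    have hT2 : ENNReal.ofReal ((t' * y - t * y') / 2) ≤
        volume ((C ∩ {z | 0 < z.1 ∧ z.1 < e ∧ 0 < z.2}) \ H) := by
      have h5 := tri_open (p := (t', y')) (q := (t, y))
      have h6 : |((t', y') : ℝ × ℝ).1 * ((t, y) : ℝ × ℝ).2 -
          ((t', y') : ℝ × ℝ).2 * ((t, y) : ℝ × ℝ).1| / 2 = (t' * y - t * y') / 2 := by
        simp only
        rw [mul_comm y' t, abs_of_nonneg hgt.le]
      rw [h6] at h5
      refine h5.trans (measure_mono ?_)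
      rintro _ ⟨z, ⟨ha, hb, hab⟩, rfl⟩
      have h7 : (fun z : ℝ × ℝ => z.1 • ((t', y') : ℝ × ℝ) + z.2 • ((t, y) : ℝ × ℝ)) z =
          (z.1 * t' + z.2 * t, z.1 * y' + z.2 * y) := by
        ext <;> simp
      have h8 : 0 < z.1 * t' := mul_pos ha ht0
      have h9 : 0 ≤ z.2 * t := mul_nonneg hb.le ht
      have h10 : z.2 * t ≤ z.2 * e := mul_le_mul_of_nonneg_left (htt.trans ht') hb.le
      have h10' : z.1 * t' ≤ z.1 * e := mul_le_mul_of_nonneg_left ht' ha.le
      have h11 : z.1 * e + z.2 * e < e := by nlinarith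
      have h12 : 0 ≤ z.1 * y' := mul_nonneg ha.le hy'
      have h13 : 0 < z.2 * y := mul_pos hb hy0
      refine ⟨⟨Tri_sub hC h0 h3 h2 ha hb hab, ?_⟩, ?_⟩
      · rw [mem_ofPred_eq, h7]
        exact ⟨by simp only; linarith, by simp only; linarith, by simp only; linarith⟩
      · rw [h7]
        change ¬ (t' * (z.1 * y' + z.2 * y) - y' * (z.1 * t' + z.2 * t) < 0)
        have h14 : t' * (z.1 * y' + z.2 * y) - y' * (z.1 * t' + z.2 * t) =
            z.2 * (t' * y - t * y') := by ring
        rw [h14, not_lt]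
        positivity
    rw [← measure_inter_add_sdiff (C ∩ {z | 0 < z.1 ∧ z.1 < e ∧ 0 < z.2}) hHm]
    refine le_trans (le_of_eq ?_) (add_le_add hT1 hT2)
    rw [← ENNReal.ofReal_add (by positivity) (by linarith)]
    congr 1
    ring

/-- **One point.** Proof. If `0 ≤ s ≤ e`: `above_segment` with both points `(s, h)`: area `≥ e h / 2`, and
`e ≤ D`. If `s > e`: `C` contains `(e, h e / s)` (on the segment from `(0,0)` to `(s, h)`), area
`≥ e (h e / s) / 2 ≥ e² h / (2 D)`. If `s < 0`: `C` contains `(0, h e / (e - s))` (on the segment from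
`(e, 0)` to `(s, h)`), `e - s ≤ D`. -/
theorem one_point {C : Set (ℝ × ℝ)} (hC : Convex ℝ C) {e s h D : ℝ} (he : 0 < e)
    (h0 : (0, 0) ∈ C) (h1 : (e, 0) ∈ C) (h2 : (s, h) ∈ C) (hh : 0 ≤ h) (heD : e ≤ D)
    (hs : s ≤ D) (hs' : e - s ≤ D) :
    ENNReal.ofReal (e ^ 2 / D * h / 2) ≤ volume (C ∩ {z | 0 < z.1 ∧ z.1 < e ∧ 0 < z.2}) := by
  have hD : 0 < D := he.trans_le heD
  have key : ∀ m : ℝ, 0 < m → m ≤ D → e ^ 2 / D * h / 2 ≤ e * (h * e / m) / 2 := by
    intro m hm hmD
    have h3 : e ^ 2 / D ≤ e ^ 2 / m := div_le_div_of_nonneg_left (by positivity) hm hmD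
    have h4 : e * (h * e / m) = e ^ 2 / m * h := by
      field_simp
    rw [h4]
    have := mul_le_mul_of_nonneg_right h3 hh
    linarith
  rcases lt_or_ge s 0 with hs0 | hs0
  · have hes : 0 < e - s := by linarith
    have h3 : ((0, h * e / (e - s)) : ℝ × ℝ) ∈ C := by
      have h4 := hC h1 h2 (a := 1 - e / (e - s)) (b := e / (e - s)) (by
        rw [sub_nonneg, div_le_one hes]; linarith) (by positivity) (by ring)
      have h5 : (1 - e / (e - s)) • ((e, 0) : ℝ × ℝ) + (e / (e - s)) • ((s, h) : ℝ × ℝ) =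
          (0, h * e / (e - s)) := by
        ext
        · simp only [Prod.fst_add, Prod.smul_fst, smul_eq_mul]
          field_simp
          ring
        · simp only [Prod.snd_add, Prod.smul_snd, smul_eq_mul]
          field_simp
          ring
      rwa [h5] at h4
    refine (ENNReal.ofReal_le_ofReal ?_).trans (above_segment hC he h0 h1 h3 h3 le_rfl le_rfl
      he.le (by positivity) (by positivity))
    have := key (e - s) hes hs'
    linarith
  · rcases le_or_gt s e with hse | hse
    · refine (ENNReal.ofReal_le_ofReal ?_).trans (above_segment hC he h0 h1 h2 h2 hs0 le_rfl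
        hse hh hh)
      have h3 := key e he heD
      have h4 : e * (h * e / e) = e * h := by field_simp
      rw [h4] at h3
      linarith
    · have hs1 : 0 < s := he.trans hse
      have h3 : ((e, h * e / s) : ℝ × ℝ) ∈ C := by
        have h4 := hC h0 h2 (a := 1 - e / s) (b := e / s) (by
          rw [sub_nonneg, div_le_one hs1]; linarith) (by positivity) (by ring)
        have h5 : (1 - e / s) • ((0, 0) : ℝ × ℝ) + (e / s) • ((s, h) : ℝ × ℝ) =
            (e, h * e / s) := by
          ext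
          · simp only [Prod.fst_add, Prod.smul_fst, smul_eq_mul]
            field_simp
            ring
          · simp only [Prod.snd_add, Prod.smul_snd, smul_eq_mul]
            field_simp
            ring
        rwa [h5] at h4
      refine (ENNReal.ofReal_le_ofReal ?_).trans (above_segment hC he h0 h1 h3 h3 he.le le_rfl
        le_rfl (by positivity) (by positivity))
      have := key s hs1 hs
      linarith

/-- **Two points**, one near each end. Proof. Case `e + r ≤ D / 2`: `one_point` with `D` replaced by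
`e + r` gives `e² max(h, h') / (2 (e + r)) ≥ e² (h + h') / (4 (e + r)) ≥ e² (h + h') / (2 D)`.
Case `e + r > D / 2` (then `e ≥ 2 r` because `r ≤ 1/20`, `D ≥ 1`): put `(t, y) = (s, h)` if `s ≥ 0`, and
`(t, y) = (0, h e / (e - s))` if `s < 0`; in both cases `0 ≤ t ≤ r`, `y ≥ h e / (e + r)`; similarly
`(t', y') = (s', h')` if `s' ≤ e`, `(e, h' e / s')` if `s' > e`: `e - r ≤ t' ≤ e`, `y' ≥ h' e / (e + r)`.
`above_segment`: the area is at least `((e - t) y' + t' y) / 2 ≥ (e - r) (y + y') / 2
≥ (e - r) e / (e + r) (h + h') / 2 ≥ (e - 2 r) (h + h') / 2`, and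
`e - 2 r ≥ (1 - 6 r) e² / D` for `D / 2 - r ≤ e ≤ D`: the function
`D e - 2 r D - (1 - 6 r) e²` of `e` is concave and nonnegative at the two ends
(`e = D`: `r D (6 D - 2) ≥ 0`; `e = D/2 - r`: `D² / 4 - 3 r D - r² + 6 r (D/2 - r)² ≥ 0`
for `r ≤ 1/20`, `D ≥ 1`). -/
theorem two_points {C : Set (ℝ × ℝ)} (hC : Convex ℝ C) {e s h s' h' r D : ℝ} (he : 0 < e)
    (h0 : (0, 0) ∈ C) (h1 : (e, 0) ∈ C) (h2 : (s, h) ∈ C) (h3 : (s', h') ∈ C) (hh : 0 ≤ h)
    (hh' : 0 ≤ h') (hr : 0 ≤ r) (hr1 : r ≤ 1 / 20) (hD : 1 ≤ D) (heD : e ≤ D) (hs : |s| ≤ r)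
    (hs' : |s' - e| ≤ r) :
    ENNReal.ofReal ((1 - 6 * r) * (e ^ 2 / D) * (h + h') / 2) ≤
      volume (C ∩ {z | 0 < z.1 ∧ z.1 < e ∧ 0 < z.2}) := by
  obtain ⟨hs1, hs2⟩ := abs_le.1 hs
  obtain ⟨hs1', hs2'⟩ := abs_le.1 hs'
  have hD0 : 0 < D := by linarith
  have her : 0 < e + r := by linarith
  rcases le_or_gt (e + r) (D / 2) with hcase | hcase
  · -- the short case
    have hmax : ∀ m : ℝ, (h + h') / 2 ≤ m → (1 - 6 * r) * (e ^ 2 / D) * (h + h') / 2 ≤
        e ^ 2 / (e + r) * m / 2 := by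
      intro m hm
      have h4 : e ^ 2 / D * 2 ≤ e ^ 2 / (e + r) := by
        have h5 : e ^ 2 / D * 2 = e ^ 2 / (D / 2) := by
          field_simp
        rw [h5]
        exact div_le_div_of_nonneg_left (by positivity) her hcase
      have h5 : 0 ≤ e ^ 2 / D := by positivity
      have h6 : (1 - 6 * r) * (e ^ 2 / D) ≤ e ^ 2 / D := by nlinarith
      have h7 : (1 - 6 * r) * (e ^ 2 / D) * (h + h') ≤ e ^ 2 / D * (h + h') :=
        mul_le_mul_of_nonneg_right h6 (by linarith)
      have h8 : e ^ 2 / D * 2 * m ≤ e ^ 2 / (e + r) * m :=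
        mul_le_mul_of_nonneg_right h4 (by linarith)
      have h9 : e ^ 2 / D * (h + h') ≤ e ^ 2 / D * (2 * m) :=
        mul_le_mul_of_nonneg_left (by linarith) h5
      linarith
    rcases le_total h h' with hle | hle
    · exact (ENNReal.ofReal_le_ofReal (hmax h' (by linarith))).trans
        (one_point hC he h0 h1 h3 hh' (by linarith) (by linarith) (by linarith))
    · exact (ENNReal.ofReal_le_ofReal (hmax h (by linarith))).trans
        (one_point hC he h0 h1 h2 hh (by linarith) (by linarith) (by linarith))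
  · -- the long case
    obtain ⟨t, y, hty, ht0, htr, hy0, hyh⟩ : ∃ t y : ℝ, (t, y) ∈ C ∧ 0 ≤ t ∧ t ≤ r ∧ 0 ≤ y ∧
        h * (e / (e + r)) ≤ y := by
      rcases lt_or_ge s 0 with hs0 | hs0
      · have hes : 0 < e - s := by linarith
        refine ⟨0, h * (e / (e - s)), ?_, le_rfl, hr, by positivity, ?_⟩
        · have h4 := hC h1 h2 (a := 1 - e / (e - s)) (b := e / (e - s)) (by
            rw [sub_nonneg, div_le_one hes]; linarith) (by positivity) (by ring)
          have h5 : (1 - e / (e - s)) • ((e, 0) : ℝ × ℝ) + (e / (e - s)) • ((s, h) : ℝ × ℝ) =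
              (0, h * (e / (e - s))) := by
            ext
            · simp only [Prod.fst_add, Prod.smul_fst, smul_eq_mul]
              field_simp
              ring
            · simp only [Prod.snd_add, Prod.smul_snd, smul_eq_mul]
              field_simp
              ring
          rwa [h5] at h4
        · exact mul_le_mul_of_nonneg_left
            (div_le_div_of_nonneg_left he.le hes (by linarith)) hh
      · refine ⟨s, h, h2, hs0, hs2, hh, ?_⟩
        have h4 : e / (e + r) ≤ 1 := by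
          rw [div_le_one her]; linarith
        have := mul_le_mul_of_nonneg_left h4 hh
        linarith
    obtain ⟨t', y', hty', ht1', ht2', hy0', hyh'⟩ : ∃ t' y' : ℝ, (t', y') ∈ C ∧ e - r ≤ t' ∧
        t' ≤ e ∧ 0 ≤ y' ∧ h' * (e / (e + r)) ≤ y' := by
      rcases le_or_gt s' e with hs0 | hs0
      · refine ⟨s', h', h3, by linarith, hs0, hh', ?_⟩
        have h4 : e / (e + r) ≤ 1 := by
          rw [div_le_one her]; linarith
        have := mul_le_mul_of_nonneg_left h4 hh'
        linarith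
      · have hs3 : 0 < s' := he.trans hs0
        refine ⟨e, h' * (e / s'), ?_, by linarith, le_rfl, by positivity, ?_⟩
        · have h4 := hC h0 h3 (a := 1 - e / s') (b := e / s') (by
            rw [sub_nonneg, div_le_one hs3]; linarith) (by positivity) (by ring)
          have h5 : (1 - e / s') • ((0, 0) : ℝ × ℝ) + (e / s') • ((s', h') : ℝ × ℝ) =
              (e, h' * (e / s')) := by
            ext
            · simp only [Prod.fst_add, Prod.smul_fst, smul_eq_mul]
              field_simp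
              ring
            · simp only [Prod.snd_add, Prod.smul_snd, smul_eq_mul]
              field_simp
              ring
          rwa [h5] at h4
        · exact mul_le_mul_of_nonneg_left
            (div_le_div_of_nonneg_left he.le hs3 (by linarith)) hh'
    refine (ENNReal.ofReal_le_ofReal ?_).trans (above_segment hC he h0 h1 hty hty' ht0
      (by linarith) ht2' hy0 hy0')
    have her' : 0 ≤ e - r := by linarith
    -- `(e - r) (y + y') ≤ e y' + t' y - t y'`
    have h4 : (e - r) * (y + y') ≤ e * y' + t' * y - t * y' := by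
      have h5 : (e - r) * y ≤ t' * y := mul_le_mul_of_nonneg_right ht1' hy0
      have h6 : t * y' ≤ r * y' := mul_le_mul_of_nonneg_right htr hy0'
      linarith
    have h5 : (e - r) * ((h + h') * (e / (e + r))) ≤ (e - r) * (y + y') :=
      mul_le_mul_of_nonneg_left (by linarith) her'
    have h6 : (e - 2 * r) * (h + h') ≤ (e - r) * ((h + h') * (e / (e + r))) := by
      have h7 : e - 2 * r ≤ (e - r) * (e / (e + r)) := by
        rw [mul_div_assoc', le_div_iff₀ her]
        nlinarith
      have := mul_le_mul_of_nonneg_right h7 (show 0 ≤ h + h' by linarith)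
      linarith
    have h7 : (1 - 6 * r) * (e ^ 2 / D) ≤ e - 2 * r := by
      rw [mul_div_assoc', div_le_iff₀ hD0]
      -- concavity
      have e0 : 0 ≤ D * (D / 2 - r) - 2 * r * D - (1 - 6 * r) * (D / 2 - r) ^ 2 := by
        have h8 : 0 ≤ 6 * r * (D / 2 - r) ^ 2 := by positivity
        have h9 : r * D ≤ 1 / 20 * D := mul_le_mul_of_nonneg_right hr1 hD0.le
        have h10 : r * r ≤ 1 / 400 := by nlinarith
        nlinarith
      have e1 : 0 ≤ D * D - 2 * r * D - (1 - 6 * r) * D ^ 2 := by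
        have h8 : 0 ≤ r * D := by positivity
        nlinarith
      have e2 : (D / 2 + r) * (D * e - 2 * r * D - (1 - 6 * r) * e ^ 2) =
          (D - e) * (D * (D / 2 - r) - 2 * r * D - (1 - 6 * r) * (D / 2 - r) ^ 2) +
          (e - (D / 2 - r)) * (D * D - 2 * r * D - (1 - 6 * r) * D ^ 2) +
          (1 - 6 * r) * ((e - (D / 2 - r)) * (D - e) * (D / 2 + r)) := by ring
      have e3 : 0 ≤ (D / 2 + r) * (D * e - 2 * r * D - (1 - 6 * r) * e ^ 2) := by
        rw [e2]
        have h8 : 0 ≤ D - e := by linarith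
        have h9 : 0 ≤ e - (D / 2 - r) := by linarith
        have h10 : 0 ≤ D / 2 + r := by linarith
        have h11 : 0 ≤ 1 - 6 * r := by linarith
        positivity
      have e4 : 0 ≤ D * e - 2 * r * D - (1 - 6 * r) * e ^ 2 :=
        nonneg_of_mul_nonneg_right e3 (by positivity)
      linarith
    have h8 : (1 - 6 * r) * (e ^ 2 / D) * (h + h') ≤ (e - 2 * r) * (h + h') :=
      mul_le_mul_of_nonneg_right h7 (by linarith)
    linarith

end SanLoc
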