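/-
MP_72c0ec_gt, helper9: the area of the part of a plane convex set beyond a segment.
-/
import Pool.Agent.H.MP_72c0ec_gt.Loc.Tri
import Pool.Agent.H.MP_72c0ec_gt.Sym.Par

set_option autoImplicit false

namespace SanLoc

open SanSym MeasureTheory Set Metric Real
open scoped Pointwise

variable {V : Type*} [NormedAddCommGroup V] [InnerProductSpace ℝ V] [FiniteDimensional ℝ V]
  [MeasurableSpace V] [BorelSpace V]

/-- The strip beyond the segment `p q` in the direction `w`. -/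
def strip (p q w : V) : Set V :=
  {x | 0 < (inner ℝ (x - p) (q - p) : ℝ) ∧ (inner ℝ (x - p) (q - p) : ℝ) < ‖q - p‖ ^ 2 ∧
    0 < (inner ℝ (x - p) w : ℝ)}

theorem strip_isOpen (p q w : V) : IsOpen (strip p q w) := by
  refine IsOpen.and (isOpen_lt (by fun_prop) (by fun_prop)) (IsOpen.and
    (isOpen_lt (by fun_prop) (by fun_prop)) (isOpen_lt (by fun_prop) (by fun_prop)))

/-- Coordinates: if `e = ‖q - p‖ = ‖w‖ > 0`, `w ⊥ q - p` and `V` is a plane, there is an orthonormal basis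
`b` with `b 0 = (q - p) / e`, `b 1 = w / e`. -/
theorem exists_crd (hV : Module.finrank ℝ V = 2) {a w : V} (ha : a ≠ 0) (hw : ‖w‖ = ‖a‖)
    (haw : (inner ℝ a w : ℝ) = 0) :
    ∃ b : OrthonormalBasis (Fin 2) ℝ V, a = ‖a‖ • b 0 ∧ w = ‖a‖ • b 1 := by
  have hapos : 0 < ‖a‖ := norm_pos_iff.mpr ha
  set v : Fin 2 → V := ![(‖a‖)⁻¹ • a, (‖a‖)⁻¹ • w] with hv
  have hon : Orthonormal ℝ v := by
    rw [orthonormal_iff_ite]
    intro i j
    fin_cases i <;> fin_cases j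
    · show inner ℝ ((‖a‖)⁻¹ • a) ((‖a‖)⁻¹ • a) = (1 : ℝ)
      rw [inner_smul_left, inner_smul_right, real_inner_self_eq_norm_sq, conj_trivial]
      field_simp
    · show inner ℝ ((‖a‖)⁻¹ • a) ((‖a‖)⁻¹ • w) = (0 : ℝ)
      rw [inner_smul_left, inner_smul_right, haw, mul_zero, mul_zero]
    · show inner ℝ ((‖a‖)⁻¹ • w) ((‖a‖)⁻¹ • a) = (0 : ℝ)
      rw [inner_smul_left, inner_smul_right, real_inner_comm, haw, mul_zero, mul_zero]
    · show inner ℝ ((‖a‖)⁻¹ • w) ((‖a‖)⁻¹ • w) = (1 : ℝ)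
      rw [inner_smul_left, inner_smul_right, real_inner_self_eq_norm_sq, conj_trivial, hw]
      field_simp
  have hcard : Fintype.card (Fin 2) = Module.finrank ℝ V := by simp [hV]
  have hspan : ⊤ ≤ Submodule.span ℝ (Set.range v) := by
    rw [hon.linearIndependent.span_eq_top_of_card_eq_finrank hcard]
  set b : OrthonormalBasis (Fin 2) ℝ V := OrthonormalBasis.mk hon hspan with hb
  have hb0 : b 0 = (‖a‖)⁻¹ • a := by simp [hb, hv]
  have hb1 : b 1 = (‖a‖)⁻¹ • w := by simp [hb, hv]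
  refine ⟨b, ?_, ?_⟩
  · rw [hb0, smul_smul, mul_inv_cancel₀ hapos.ne', one_smul]
  · rw [hb1, smul_smul, mul_inv_cancel₀ hapos.ne', one_smul]

/-- The image of `Q` in coordinates with origin `p`. -/
def StripV_C (b : OrthonormalBasis (Fin 2) ℝ V) (p : V) (Q : Set V) : Set (ℝ × ℝ) :=
  crd b '' ((-p) +ᵥ Q)

theorem StripV_convex (b : OrthonormalBasis (Fin 2) ℝ V) (p : V) {Q : Set V} (hQ : Convex ℝ Q) :
    Convex ℝ (StripV_C b p Q) := (hQ.vadd (-p)).linear_image (crd b)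

theorem StripV_mem (b : OrthonormalBasis (Fin 2) ℝ V) (p : V) {Q : Set V} {x : V} (hx : x ∈ Q) :
    (((inner ℝ (b 0) (x - p) : ℝ), (inner ℝ (b 1) (x - p) : ℝ)) : ℝ × ℝ) ∈ StripV_C b p Q := by
  refine ⟨x - p, ⟨x, hx, ?_⟩, rfl⟩
  change -p +ᵥ x = x - p
  rw [vadd_eq_add]
  abel

theorem StripV_volume (b : OrthonormalBasis (Fin 2) ℝ V) {p a w : V} (Q : Set V) (ha : a ≠ 0)
    (hb0 : a = ‖a‖ • b 0) (hb1 : w = ‖a‖ • b 1) :
    volume (StripV_C b p Q ∩ {z | 0 < z.1 ∧ z.1 < ‖a‖ ∧ 0 < z.2}) =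
      volume (Q ∩ strip p (p + a) w) := by
  have he : 0 < ‖a‖ := norm_pos_iff.mpr ha
  have h1 : StripV_C b p Q ∩ {z | 0 < z.1 ∧ z.1 < ‖a‖ ∧ 0 < z.2} =
      crd b '' ((-p) +ᵥ (Q ∩ strip p (p + a) w)) := by
    have key : ∀ x : V, (0 < (inner ℝ (b 0) (x - p) : ℝ) ∧ (inner ℝ (b 0) (x - p) : ℝ) < ‖a‖ ∧
        0 < (inner ℝ (b 1) (x - p) : ℝ)) ↔ x ∈ strip p (p + a) w := by
      intro x
      have e1 : (inner ℝ (x - p) a : ℝ) = ‖a‖ * inner ℝ (b 0) (x - p) := by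
        conv_lhs => rw [hb0]
        rw [inner_smul_right, real_inner_comm]
      have e2 : (inner ℝ (x - p) w : ℝ) = ‖a‖ * inner ℝ (b 1) (x - p) := by
        conv_lhs => rw [hb1]
        rw [inner_smul_right, real_inner_comm]
      change _ ↔ (0 < (inner ℝ (x - p) (p + a - p) : ℝ) ∧
        (inner ℝ (x - p) (p + a - p) : ℝ) < ‖p + a - p‖ ^ 2 ∧ 0 < (inner ℝ (x - p) w : ℝ))
      rw [add_sub_cancel_left, e1, e2]
      constructor
      · rintro ⟨g1, g2, g3⟩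
        refine ⟨mul_pos he g1, ?_, mul_pos he g3⟩
        rw [sq]
        exact mul_lt_mul_of_pos_left g2 he
      · rintro ⟨g1, g2, g3⟩
        refine ⟨pos_of_mul_pos_right g1 he.le, ?_, pos_of_mul_pos_right g3 he.le⟩
        rw [sq] at g2
        exact lt_of_mul_lt_mul_left g2 he.le
    ext z
    constructor
    · rintro ⟨⟨_, ⟨x, hx, rfl⟩, rfl⟩, hz⟩
      have e3 : -p +ᵥ x = x - p := by rw [vadd_eq_add]; abel
      refine ⟨-p +ᵥ x, ⟨x, ⟨hx, (key x).1 ?_⟩, rfl⟩, rfl⟩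
      simp only [e3, crd_apply] at hz
      exact hz
    · rintro ⟨_, ⟨x, ⟨hx, hxs⟩, rfl⟩, rfl⟩
      have e3 : -p +ᵥ x = x - p := by rw [vadd_eq_add]; abel
      refine ⟨⟨-p +ᵥ x, ⟨x, hx, rfl⟩, rfl⟩, ?_⟩
      simp only [e3, crd_apply]
      exact (key x).2 hxs
  rw [h1, volume_image_crd, measure_vadd]

/-- **One point.** -/
theorem strip_one (hV : Module.finrank ℝ V = 2) {Q : Set V} (hQ : Convex ℝ Q) {p q w x : V}
    (hp : p ∈ Q) (hq : q ∈ Q) (hx : x ∈ Q) (hw0 : w ≠ 0) (hw : ‖w‖ = ‖q - p‖)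
    (hwq : (inner ℝ (q - p) w : ℝ) = 0) {D : ℝ} (hD : ‖q - p‖ ≤ D) (hxp : ‖x - p‖ ≤ D)
    (hxq : ‖x - q‖ ≤ D) (hx0 : 0 ≤ (inner ℝ (x - p) w : ℝ)) :
    ENNReal.ofReal (‖w‖ / D * inner ℝ (x - p) w / 2) ≤ volume (Q ∩ strip p q w) := by
  have ha : q - p ≠ 0 := by
    rw [← norm_pos_iff, ← hw]
    exact norm_pos_iff.mpr hw0
  have he : 0 < ‖q - p‖ := norm_pos_iff.mpr ha
  obtain ⟨b, hb0, hb1⟩ := exists_crd hV ha hw hwq
  have hvol := StripV_volume b (p := p) Q ha hb0 hb1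
  rw [add_sub_cancel] at hvol
  rw [← hvol]
  have h0 := StripV_mem b p hp
  rw [sub_self, inner_zero_right, inner_zero_right] at h0
  have e0 : (inner ℝ (b 0) (q - p) : ℝ) = ‖q - p‖ := by
    conv_lhs => rw [hb0]
    rw [inner_smul_right, real_inner_self_eq_norm_sq, b.orthonormal.1 0]
    ring
  have e1 : (inner ℝ (b 1) (q - p) : ℝ) = 0 := by
    conv_lhs => rw [hb0]
    rw [inner_smul_right, b.orthonormal.2 (by decide : (1 : Fin 2) ≠ 0), mul_zero]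
  have h1 := StripV_mem b p hq
  rw [e0, e1] at h1
  have h2 := StripV_mem b p hx
  have e2 : (inner ℝ (x - p) w : ℝ) = ‖q - p‖ * inner ℝ (b 1) (x - p) := by
    conv_lhs => rw [hb1]
    rw [inner_smul_right, real_inner_comm]
  have hh : 0 ≤ (inner ℝ (b 1) (x - p) : ℝ) := by
    rw [e2] at hx0
    exact nonneg_of_mul_nonneg_right hx0 he
  have hs : (inner ℝ (b 0) (x - p) : ℝ) ≤ D := by
    refine (real_inner_le_norm _ _).trans ?_
    rw [b.orthonormal.1 0, one_mul]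
    exact hxp
  have hs' : ‖q - p‖ - (inner ℝ (b 0) (x - p) : ℝ) ≤ D := by
    rw [← e0, ← inner_sub_right, sub_sub_sub_cancel_right]
    refine (real_inner_le_norm _ _).trans ?_
    rw [b.orthonormal.1 0, one_mul, norm_sub_rev]
    exact hxq
  refine le_trans (ENNReal.ofReal_le_ofReal (le_of_eq ?_))
    (one_point (StripV_convex b p hQ) he h0 h1 h2 hh hD hs hs')
  rw [hw, e2]
  ring

/-- **Two points.** The same with `two_points`. -/
theorem strip_two (hV : Module.finrank ℝ V = 2) {Q : Set V} (hQ : Convex ℝ Q) {p q w x y : V}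
    (hp : p ∈ Q) (hq : q ∈ Q) (hx : x ∈ Q) (hy : y ∈ Q) (hw0 : w ≠ 0) (hw : ‖w‖ = ‖q - p‖)
    (hwq : (inner ℝ (q - p) w : ℝ) = 0) {r D : ℝ} (hr : 0 ≤ r) (hr1 : r ≤ 1 / 20) (hD1 : 1 ≤ D)
    (hD : ‖q - p‖ ≤ D) (hxp : ‖x - p‖ ≤ r) (hyq : ‖y - q‖ ≤ r)
    (hx0 : 0 ≤ (inner ℝ (x - p) w : ℝ)) (hy0 : 0 ≤ (inner ℝ (y - p) w : ℝ)) :
    ENNReal.ofReal ((1 - 6 * r) * (‖w‖ / D) * (inner ℝ (x - p) w + inner ℝ (y - p) w) / 2) ≤
      volume (Q ∩ strip p q w) := by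
  have ha : q - p ≠ 0 := by
    rw [← norm_pos_iff, ← hw]
    exact norm_pos_iff.mpr hw0
  have he : 0 < ‖q - p‖ := norm_pos_iff.mpr ha
  obtain ⟨b, hb0, hb1⟩ := exists_crd hV ha hw hwq
  have hvol := StripV_volume b (p := p) Q ha hb0 hb1
  rw [add_sub_cancel] at hvol
  rw [← hvol]
  have h0 := StripV_mem b p hp
  rw [sub_self, inner_zero_right, inner_zero_right] at h0
  have e0 : (inner ℝ (b 0) (q - p) : ℝ) = ‖q - p‖ := by
    conv_lhs => rw [hb0]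
    rw [inner_smul_right, real_inner_self_eq_norm_sq, b.orthonormal.1 0]
    ring
  have e1 : (inner ℝ (b 1) (q - p) : ℝ) = 0 := by
    conv_lhs => rw [hb0]
    rw [inner_smul_right, b.orthonormal.2 (by decide : (1 : Fin 2) ≠ 0), mul_zero]
  have h1 := StripV_mem b p hq
  rw [e0, e1] at h1
  have h2 := StripV_mem b p hx
  have h3 := StripV_mem b p hy
  have e2 : ∀ z : V, (inner ℝ (z - p) w : ℝ) = ‖q - p‖ * inner ℝ (b 1) (z - p) := by
    intro z
    conv_lhs => rw [hb1]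
    rw [inner_smul_right, real_inner_comm]
  have hh : 0 ≤ (inner ℝ (b 1) (x - p) : ℝ) := by
    rw [e2] at hx0
    exact nonneg_of_mul_nonneg_right hx0 he
  have hh' : 0 ≤ (inner ℝ (b 1) (y - p) : ℝ) := by
    rw [e2] at hy0
    exact nonneg_of_mul_nonneg_right hy0 he
  have hs : |(inner ℝ (b 0) (x - p) : ℝ)| ≤ r := by
    refine (abs_real_inner_le_norm _ _).trans ?_
    rw [b.orthonormal.1 0, one_mul]
    exact hxp
  have hs' : |(inner ℝ (b 0) (y - p) : ℝ) - ‖q - p‖| ≤ r := by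
    rw [← e0, ← inner_sub_right, sub_sub_sub_cancel_right]
    refine (abs_real_inner_le_norm _ _).trans ?_
    rw [b.orthonormal.1 0, one_mul]
    exact hyq
  refine le_trans (ENNReal.ofReal_le_ofReal (le_of_eq ?_))
    (two_points (StripV_convex b p hQ) he h0 h1 h2 h3 hh hh' hr hr1 hD1 hD hs hs')
  rw [hw, e2, e2]
  ring

end SanLoc
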