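/-
MP_72c0ec_gt, helper9: algebra of the cross product.
-/
import Pool.Agent.H.MP_72c0ec_gt.Loc.Base

set_option autoImplicit false

namespace SanLoc

open San SanSym MeasureTheory Set Metric Real

theorem Vec_ext {x y : E3} (h0 : x 0 = y 0) (h1 : x 1 = y 1) (h2 : x 2 = y 2) : x = y := by
  ext i
  fin_cases i
  · exact h0
  · exact h1
  · exact h2

theorem Vec_inner (x y : E3) : (inner ℝ x y : ℝ) = x 0 * y 0 + x 1 * y 1 + x 2 * y 2 := by
  rw [PiLp.inner_apply, Fin.sum_univ_three]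
  simp only [RCLike.inner_apply, conj_trivial]
  ring

theorem Vec_norm_sq (x : E3) : ‖x‖ ^ 2 = x 0 ^ 2 + x 1 ^ 2 + x 2 ^ 2 := by
  rw [← real_inner_self_eq_norm_sq, Vec_inner]
  ring

theorem Vec_cr0 (x y : E3) : cr x y 0 = x 1 * y 2 - x 2 * y 1 := rfl
theorem Vec_cr1 (x y : E3) : cr x y 1 = x 2 * y 0 - x 0 * y 2 := rfl
theorem Vec_cr2 (x y : E3) : cr x y 2 = x 0 * y 1 - x 1 * y 0 := rfl

/-- Lagrange's identity. Proof: coordinates (`EuclideanSpace.norm_sq_eq`/`real_inner`, `Fin.sum_univ_three`), `ring`. -/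
theorem cr_norm_sq (x y : E3) : ‖cr x y‖ ^ 2 = ‖x‖ ^ 2 * ‖y‖ ^ 2 - (inner ℝ x y : ℝ) ^ 2 := by
  rw [Vec_norm_sq, Vec_norm_sq, Vec_norm_sq, Vec_inner, Vec_cr0, Vec_cr1, Vec_cr2]
  ring

theorem inner_cr_left (x y : E3) : (inner ℝ (cr x y) x : ℝ) = 0 := by
  rw [Vec_inner, Vec_cr0, Vec_cr1, Vec_cr2]
  ring

theorem inner_cr_right (x y : E3) : (inner ℝ (cr x y) y : ℝ) = 0 := by
  rw [Vec_inner, Vec_cr0, Vec_cr1, Vec_cr2]
  ring

/-- The triple product is cyclic. -/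
theorem inner_cr_cyc (x y z : E3) : (inner ℝ (cr x y) z : ℝ) = inner ℝ (cr y z) x := by
  rw [Vec_inner, Vec_inner, Vec_cr0, Vec_cr1, Vec_cr2, Vec_cr0, Vec_cr1, Vec_cr2]
  ring

theorem cr_swap (x y : E3) : cr y x = -cr x y := by
  refine Vec_ext ?_ ?_ ?_ <;> simp only [PiLp.neg_apply, Vec_cr0, Vec_cr1, Vec_cr2] <;> ring

theorem cr_add_left (x y z : E3) : cr (x + y) z = cr x z + cr y z := by
  refine Vec_ext ?_ ?_ ?_ <;> simp only [PiLp.add_apply, Vec_cr0, Vec_cr1, Vec_cr2] <;> ring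

theorem cr_add_right (x y z : E3) : cr x (y + z) = cr x y + cr x z := by
  refine Vec_ext ?_ ?_ ?_ <;> simp only [PiLp.add_apply, Vec_cr0, Vec_cr1, Vec_cr2] <;> ring

theorem cr_smul_left (c : ℝ) (x y : E3) : cr (c • x) y = c • cr x y := by
  refine Vec_ext ?_ ?_ ?_ <;>
    simp only [PiLp.smul_apply, smul_eq_mul, Vec_cr0, Vec_cr1, Vec_cr2] <;> ring

theorem cr_smul_right (c : ℝ) (x y : E3) : cr x (c • y) = c • cr x y := by
  refine Vec_ext ?_ ?_ ?_ <;>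
    simp only [PiLp.smul_apply, smul_eq_mul, Vec_cr0, Vec_cr1, Vec_cr2] <;> ring

theorem cr_norm_le (x y : E3) : ‖cr x y‖ ≤ ‖x‖ * ‖y‖ := by
  rw [← pow_le_pow_iff_left₀ (norm_nonneg _) (by positivity) two_ne_zero, cr_norm_sq, mul_pow]
  nlinarith [sq_nonneg (inner ℝ x y : ℝ)]

theorem cr_continuous : Continuous fun z : E3 × E3 => cr z.1 z.2 := by
  unfold cr
  refine (PiLp.continuous_toLp 2 _).comp (continuous_pi fun i => ?_)
  fin_cases i <;> simp <;> fun_prop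

theorem Vec_NN0 (P : Fin 4 → E3) : NN P 0 =
    cr (P 1 - P 0) (P 2 - P 0) + cr (P 2 - P 0) (P 3 - P 0) + cr (P 3 - P 0) (P 1 - P 0) := rfl
theorem Vec_NN1 (P : Fin 4 → E3) : NN P 1 = -cr (P 2 - P 0) (P 3 - P 0) := rfl
theorem Vec_NN2 (P : Fin 4 → E3) : NN P 2 = -cr (P 3 - P 0) (P 1 - P 0) := rfl
theorem Vec_NN3 (P : Fin 4 → E3) : NN P 3 = -cr (P 1 - P 0) (P 2 - P 0) := rfl

/-- The normals of a positively oriented tetrahedron. With `a = P 1 - P 0`, `b = P 2 - P 0`,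
`c = P 3 - P 0`: `N 3 = -a × b`, `N 1 = -b × c`, `N 2 = -c × a`, `N 0 = a × b + b × c + c × a`,
`v = ⟪a × b, c⟫`. `sumN` is clear. `height`: `⟪N j, P k - P j⟫ = v` for `k ≠ j` is checked in the 12
cases with `inner_cr_left`, `inner_cr_right`, `inner_cr_cyc` (or in coordinates with `ring`).
`expand`: the sum of the coefficients is `0` by `sumN`, so the right-hand side is
`(⟪b × c, x⟫ a + ⟪c × a, x⟫ b + ⟪a × b, x⟫ c) / v`, and this is `x` (Cramer's rule: in coordinates,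
multiply by `v` and use `ring`). -/
theorem isTet_NN {P : Fin 4 → E3} (h : 0 < tv P) : IsTet P (NN P) (tv P) where
  pos := h
  sumN := by
    rw [Vec_NN0, Vec_NN1, Vec_NN2, Vec_NN3]
    abel
  height j k hkj := by
    fin_cases j <;> fin_cases k <;> first | exact absurd rfl hkj | skip
    all_goals
      simp only [Fin.zero_eta, Fin.mk_one, Fin.reduceFinMk, Vec_NN0, Vec_NN1, Vec_NN2, Vec_NN3, tv,
        Vec_inner, Vec_cr0, Vec_cr1, Vec_cr2, PiLp.sub_apply, PiLp.add_apply, PiLp.neg_apply]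
      ring
  expand x := by
    have hv : tv P ≠ 0 := h.ne'
    have key : tv P • x = ∑ k, (-(inner ℝ (NN P k) x : ℝ)) • P k := by
      rw [Fin.sum_univ_four]
      refine Vec_ext ?_ ?_ ?_ <;>
        simp only [Vec_NN0, Vec_NN1, Vec_NN2, Vec_NN3, tv, PiLp.smul_apply, smul_eq_mul,
          Vec_inner, Vec_cr0, Vec_cr1, Vec_cr2, PiLp.sub_apply, PiLp.add_apply, PiLp.neg_apply] <;>
        ring
    have h2 : x = (tv P)⁻¹ • (tv P • x) := by rw [smul_smul, inv_mul_cancel₀ hv, one_smul]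
    rw [key, Finset.smul_sum] at h2
    refine h2.trans (Finset.sum_congr rfl fun k _ => ?_)
    rw [smul_smul]
    congr 1
    field_simp

/-- The volume is an affine function of each vertex (4 cases, coordinates and `ring`). -/
theorem tv_update (P : Fin 4 → E3) (j : Fin 4) (x : E3) :
    tv (Function.update P j x) = tv P - inner ℝ (NN P j) (x - P j) := by
  fin_cases j <;>
    simp only [Fin.zero_eta, Fin.mk_one, Fin.reduceFinMk, Vec_NN0, Vec_NN1, Vec_NN2, Vec_NN3, tv,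
      Function.update_self, Function.update_of_ne, ne_eq, Fin.reduceEq, not_false_eq_true,
      zero_ne_one, one_ne_zero,
      Vec_inner, Vec_cr0, Vec_cr1, Vec_cr2, PiLp.sub_apply, PiLp.add_apply, PiLp.neg_apply] <;>
    ring

theorem tv_continuous : Continuous tv := by
  unfold tv
  refine Continuous.inner ?_ (by fun_prop)
  exact cr_continuous.comp (f := fun P : Fin 4 → E3 => (P 1 - P 0, P 2 - P 0)) (by fun_prop)

theorem Vec_gram (a b c : E3) : (inner ℝ (cr a b) c : ℝ) ^ 2 =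
    ‖a‖ ^ 2 * ‖b‖ ^ 2 * ‖c‖ ^ 2 +
      2 * ((inner ℝ a b : ℝ) * inner ℝ b c * inner ℝ c a) -
      ‖a‖ ^ 2 * (inner ℝ b c : ℝ) ^ 2 -
      ‖b‖ ^ 2 * (inner ℝ c a : ℝ) ^ 2 -
      ‖c‖ ^ 2 * (inner ℝ a b : ℝ) ^ 2 := by
  simp only [Vec_norm_sq, Vec_inner, Vec_cr0, Vec_cr1, Vec_cr2]
  ring

/-- The square of the volume is the Gram determinant. (Coordinates, `ring`; or
`‖cr (cr a b) c‖² = ‖cr a b‖² ‖c‖² - ⟪cr a b, c⟫²`.) -/
theorem tv_sq (P : Fin 4 → E3) : tv P ^ 2 =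
    ‖P 1 - P 0‖ ^ 2 * ‖P 2 - P 0‖ ^ 2 * ‖P 3 - P 0‖ ^ 2 +
      2 * ((inner ℝ (P 1 - P 0) (P 2 - P 0) : ℝ) * inner ℝ (P 2 - P 0) (P 3 - P 0) *
        inner ℝ (P 3 - P 0) (P 1 - P 0)) -
      ‖P 1 - P 0‖ ^ 2 * (inner ℝ (P 2 - P 0) (P 3 - P 0) : ℝ) ^ 2 -
      ‖P 2 - P 0‖ ^ 2 * (inner ℝ (P 3 - P 0) (P 1 - P 0) : ℝ) ^ 2 -
      ‖P 3 - P 0‖ ^ 2 * (inner ℝ (P 1 - P 0) (P 2 - P 0) : ℝ) ^ 2 :=
  Vec_gram _ _ _

/-- Exchange of two vertices. -/
theorem tv_swap (P : Fin 4 → E3) : tv (P ∘ Equiv.swap 0 1) = -tv P := by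
  have h0 : (P ∘ Equiv.swap 0 1) 0 = P 1 := rfl
  have h1 : (P ∘ Equiv.swap 0 1) 1 = P 0 := rfl
  have h2 : (P ∘ Equiv.swap 0 1) 2 = P 2 := rfl
  have h3 : (P ∘ Equiv.swap 0 1) 3 = P 3 := rfl
  simp only [tv, h0, h1, h2, h3, Vec_inner, Vec_cr0, Vec_cr1, Vec_cr2, PiLp.sub_apply]
  ring

theorem Vec_cr_lip {a b a' b' : E3} {δ : ℝ} (h0 : 0 ≤ δ) (ha : ‖a‖ ≤ 1) (hb : ‖b'‖ ≤ 2)
    (haa : ‖a' - a‖ ≤ 2 * δ) (hbb : ‖b' - b‖ ≤ 2 * δ) : ‖cr a' b' - cr a b‖ ≤ 6 * δ := by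
  have h1 : cr a' b' - cr a b = cr (a' - a) b' + cr a (b' - b) := by
    refine Vec_ext ?_ ?_ ?_ <;>
      simp only [PiLp.add_apply, PiLp.sub_apply, Vec_cr0, Vec_cr1, Vec_cr2] <;> ring
  have h2 : ‖cr (a' - a) b'‖ ≤ 2 * δ * 2 :=
    (cr_norm_le _ _).trans (mul_le_mul haa hb (norm_nonneg _) (by positivity))
  have h3 : ‖cr a (b' - b)‖ ≤ 1 * (2 * δ) :=
    (cr_norm_le _ _).trans (mul_le_mul ha hbb (norm_nonneg _) zero_le_one)
  rw [h1]
  refine (norm_add_le _ _).trans ?_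
  linarith

/-- The normals depend on the vertices in a Lipschitz way. `cr x' y' - cr x y =
cr (x' - x) y' + cr x (y' - y)`, the differences of the edges `P j - P 0` are at most `2 δ`, the edges
of `V` are at most `1`, those of `P` at most `2`; each of the (at most three) cross products changes by
at most `2 δ * 2 + 1 * 2 δ = 6 δ`. -/
theorem NN_lip {P V : Fin 4 → E3} {δ : ℝ} (hδ : δ ≤ 1 / 2) (hV : ∀ i j, i ≠ j → ‖V i - V j‖ ≤ 1)
    (h : ∀ j, ‖P j - V j‖ ≤ δ) (j : Fin 4) : ‖NN P j - NN V j‖ ≤ 18 * δ := by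
  have h0 : 0 ≤ δ := (norm_nonneg _).trans (h 0)
  have hd : ∀ i, ‖(P i - P 0) - (V i - V 0)‖ ≤ 2 * δ := by
    intro i
    have : (P i - P 0) - (V i - V 0) = (P i - V i) - (P 0 - V 0) := by abel
    rw [this]
    refine (norm_sub_le _ _).trans ?_
    linarith [h i, h 0]
  have hP : ∀ i, i ≠ 0 → ‖P i - P 0‖ ≤ 2 := by
    intro i hi
    have : P i - P 0 = ((P i - P 0) - (V i - V 0)) + (V i - V 0) := by abel
    rw [this]
    refine (norm_add_le _ _).trans ?_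
    linarith [hd i, hV i 0 hi]
  have key : ∀ i k, i ≠ 0 → k ≠ 0 →
      ‖cr (P i - P 0) (P k - P 0) - cr (V i - V 0) (V k - V 0)‖ ≤ 6 * δ := fun i k hi hk =>
    Vec_cr_lip h0 (hV i 0 hi) (hP k hk) (hd i) (hd k)
  have k12 := key 1 2 (by decide) (by decide)
  have k23 := key 2 3 (by decide) (by decide)
  have k31 := key 3 1 (by decide) (by decide)
  fin_cases j
  · simp only [Fin.zero_eta, Vec_NN0]
    have : cr (P 1 - P 0) (P 2 - P 0) + cr (P 2 - P 0) (P 3 - P 0) + cr (P 3 - P 0) (P 1 - P 0) -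
        (cr (V 1 - V 0) (V 2 - V 0) + cr (V 2 - V 0) (V 3 - V 0) + cr (V 3 - V 0) (V 1 - V 0)) =
        (cr (P 1 - P 0) (P 2 - P 0) - cr (V 1 - V 0) (V 2 - V 0)) +
        (cr (P 2 - P 0) (P 3 - P 0) - cr (V 2 - V 0) (V 3 - V 0)) +
        (cr (P 3 - P 0) (P 1 - P 0) - cr (V 3 - V 0) (V 1 - V 0)) := by abel
    rw [this]
    refine (norm_add₃_le).trans ?_
    linarith
  · simp only [Fin.mk_one, Vec_NN1]
    rw [neg_sub_neg, norm_sub_rev]
    linarith
  · simp only [Fin.reduceFinMk, Vec_NN2]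
    rw [neg_sub_neg, norm_sub_rev]
    linarith
  · simp only [Fin.reduceFinMk, Vec_NN3]
    rw [neg_sub_neg, norm_sub_rev]
    linarith

/-- `NN P j` is, up to the sign, the cross product of two edges of the face opposite to `P j`
(24 cases, coordinates: `ext i; fin_cases i`, `simp`, `ring`; or with the algebra of `cr`). -/
theorem NN_eq_cr (P : Fin 4 → E3) {j k l m : Fin 4} (hjk : j ≠ k) (hjl : j ≠ l) (hjm : j ≠ m)
    (hkl : k ≠ l) (hkm : k ≠ m) (hlm : l ≠ m) :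
    NN P j = cr (P l - P k) (P m - P k) ∨ NN P j = -cr (P l - P k) (P m - P k) := by
  fin_cases j <;> fin_cases k <;> first | exact absurd rfl hjk | skip
  all_goals fin_cases l <;> first | exact absurd rfl hjl | exact absurd rfl hkl | skip
  all_goals
    fin_cases m <;> first | exact absurd rfl hjm | exact absurd rfl hkm | exact absurd rfl hlm | skip
  all_goals
    simp only [Fin.zero_eta, Fin.mk_one, Fin.reduceFinMk, Vec_NN0, Vec_NN1, Vec_NN2, Vec_NN3]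
    first
    | exact Or.inl trivial
    | exact Or.inr trivial
    | left
      refine Vec_ext ?_ ?_ ?_ <;>
        simp only [PiLp.add_apply, PiLp.sub_apply, PiLp.neg_apply, Vec_cr0, Vec_cr1, Vec_cr2] <;>
        ring1
    | right
      refine Vec_ext ?_ ?_ ?_ <;>
        simp only [PiLp.add_apply, PiLp.sub_apply, PiLp.neg_apply, Vec_cr0, Vec_cr1, Vec_cr2] <;>
        ring1

/-- `NN P l + NN P m` is, up to the sign, the cross product of the opposite edges `P j P k` and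
`P l P m`. -/
theorem NN_add_eq_cr (P : Fin 4 → E3) {j k l m : Fin 4} (hjk : j ≠ k) (hjl : j ≠ l) (hjm : j ≠ m)
    (hkl : k ≠ l) (hkm : k ≠ m) (hlm : l ≠ m) :
    NN P l + NN P m = cr (P k - P j) (P m - P l) ∨
      NN P l + NN P m = -cr (P k - P j) (P m - P l) := by
  fin_cases j <;> fin_cases k <;> first | exact absurd rfl hjk | skip
  all_goals fin_cases l <;> first | exact absurd rfl hjl | exact absurd rfl hkl | skip
  all_goals
    fin_cases m <;> first | exact absurd rfl hjm | exact absurd rfl hkm | exact absurd rfl hlm | skip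
  all_goals
    simp only [Fin.zero_eta, Fin.mk_one, Fin.reduceFinMk, Vec_NN0, Vec_NN1, Vec_NN2, Vec_NN3]
    first
    | exact Or.inl trivial
    | exact Or.inr trivial
    | left
      refine Vec_ext ?_ ?_ ?_ <;>
        simp only [PiLp.add_apply, PiLp.sub_apply, PiLp.neg_apply, Vec_cr0, Vec_cr1, Vec_cr2] <;>
        ring1
    | right
      refine Vec_ext ?_ ?_ ?_ <;>
        simp only [PiLp.add_apply, PiLp.sub_apply, PiLp.neg_apply, Vec_cr0, Vec_cr1, Vec_cr2] <;>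
        ring1

end SanLoc
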