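/-
MP_72c0ec_gt, helper9: the gain in one direction: one edge.
-/
import Pool.Agent.H.MP_72c0ec_gt.Loc.StripV
import Pool.Agent.H.MP_72c0ec_gt.Loc.SuppB
import Pool.Agent.H.MP_72c0ec_gt.Loc.Vec
import Pool.Agent.H.MP_72c0ec_gt.Sym.Bound

set_option autoImplicit false

namespace SanLoc

open San SanSym MeasureTheory Set Metric Real

/-- `w` is an outward normal of the silhouette edge `P j P k` (in the direction orthogonal to `w` and to
the edge). -/
def Act (P : Fin 4 → E3) (j k : Fin 4) (w : E3) : Prop :=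
  ∀ l, l ≠ j → l ≠ k → (inner ℝ (P l - P j) w : ℝ) < 0

open Classical in
/-- The gain in one direction along the edge `P j P k`. -/
noncomputable def QQ (K : Set E3) (P : Fin 4 → E3) (j k : Fin 4) (w : E3) : ℝ :=
  if Act P j k w then ‖w‖ * Mx K (P j) (P k) w else 0

/-- The projection on the plane orthogonal to `u`. -/
noncomputable def PR (u : E3) (x : E3) : ((ℝ ∙ u)ᗮ : Submodule ℝ E3) :=
  ((ℝ ∙ u)ᗮ).orthogonalProjectionOnto x

/-- Diameter: every point of `K` is at distance at most `1001/1000` from every vertex. Proof. `y = x - P j`.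
By `expand` for `y` and `Σ ⟪N k, y⟫ = 0`: `y = Σ_{k ≠ j} c_k (P k - P j)`, `c_k = -⟪N k, y⟫ / v`;
`c_k ≥ -τ / v` (`τ = 10⁻⁸`, `low`), and `Σ_{k ≠ j} c_k = ⟪N j, y⟫ / v`
`= (⟪N j, x - P k⟫ + v) / v ≤ 1 + τ / v` (`height`, `low` for the vertex `P k`, `k ≠ j`). Hence
`Σ |c_k| ≤ 1 + 10 τ / v`, and `‖P k - P j‖ ≤ 1 + 10⁻⁵`, `v ≥ 0.7`. -/
theorem loc_diam {K : Set E3} {P N : Fin 4 → E3} {v : ℝ} (h : Loc K P N v) (j : Fin 4) {x : E3}
    (hx : x ∈ K) : ‖x - P j‖ ≤ 1001 / 1000 := by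
  have hv0 : 0 < v := h.near.pos
  have hv : 7 / 10 ≤ v := by
    have := (abs_le.1 h.near.vv).1
    nlinarith
  set y := x - P j with hy
  set c : Fin 4 → ℝ := fun k => -((inner ℝ (N k) y : ℝ) / v) with hc
  have hsum0 : ∑ k, (inner ℝ (N k) y : ℝ) = 0 := by
    rw [← sum_inner, Fin.sum_univ_four, h.near.sumN, inner_zero_left]
  have hcsum : ∑ k, c k = 0 := by
    rw [hc]
    simp only [Finset.sum_neg_distrib, ← Finset.sum_div, hsum0, zero_div, neg_zero]
  have hexp : y = ∑ k, c k • (P k - P j) := by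
    have h1 := h.near.expand y
    have h2 : ∑ k, c k • (P k - P j) = ∑ k, c k • P k - (∑ k, c k) • P j := by
      rw [Finset.sum_smul, ← Finset.sum_sub_distrib]
      exact Finset.sum_congr rfl fun k _ => smul_sub _ _ _
    rw [h2, hcsum, zero_smul, sub_zero]
    exact h1
  have hexp2 : y = ∑ k ∈ Finset.univ.erase j, c k • (P k - P j) := by
    rw [Finset.sum_erase _ (by simp)]
    exact hexp
  have hck : ∀ k ∈ Finset.univ.erase j, |c k| ≤ c k + 2 * (1 / 10 ^ 8 / v) := by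
    intro k hk
    have hkj : k ≠ j := (Finset.mem_erase.1 hk).1
    have h1 : (inner ℝ (N k) y : ℝ) / v ≤ 1 / 10 ^ 8 / v :=
      div_le_div_of_nonneg_right (h.low j k hkj x hx) hv0.le
    have h2 : 0 ≤ 1 / 10 ^ 8 / v := by positivity
    rw [abs_le]
    simp only [hc]
    constructor <;> linarith
  have hcj : -c j ≤ 1 + 1 / 10 ^ 8 / v := by
    obtain ⟨k, hk⟩ : ∃ k : Fin 4, k ≠ j := exists_ne j
    have h1 := h.low k j hk.symm x hx
    have h2 := h.near.height j k hk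
    have h3 : (inner ℝ (N j) y : ℝ) = inner ℝ (N j) (x - P k) + v := by
      rw [hy, inner_sub_right, inner_sub_right, h2]; ring
    have h4 : (inner ℝ (N j) y : ℝ) / v ≤ (v + 1 / 10 ^ 8) / v :=
      div_le_div_of_nonneg_right (by linarith) hv0.le
    rw [add_div, div_self hv0.ne'] at h4
    simp only [hc, neg_neg]
    exact h4
  have hP : ∀ k ∈ Finset.univ.erase j, ‖P k - P j‖ ≤ 1 + 1 / 10 ^ 5 := by
    intro k hk
    have hkj : k ≠ j := (Finset.mem_erase.1 hk).1
    have h1 := (abs_le.1 (h.near.ee k j hkj)).2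
    rw [← sq_le_sq₀ (norm_nonneg _) (by norm_num)]
    nlinarith
  have hsumE : ∑ k ∈ Finset.univ.erase j, c k = -c j := by
    have := Finset.add_sum_erase Finset.univ c (Finset.mem_univ j)
    rw [hcsum] at this
    linarith
  have hτ : 1 / 10 ^ 8 / v ≤ 1 / 10 ^ 7 := by
    rw [div_le_iff₀ hv0]
    norm_num
    linarith
  calc ‖y‖ ≤ ∑ k ∈ Finset.univ.erase j, ‖c k • (P k - P j)‖ := by
        rw [hexp2]; exact norm_sum_le _ _
    _ ≤ ∑ k ∈ Finset.univ.erase j, (c k + 2 * (1 / 10 ^ 8 / v)) * (1 + 1 / 10 ^ 5) := by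
        refine Finset.sum_le_sum fun k hk => ?_
        rw [norm_smul, Real.norm_eq_abs]
        exact mul_le_mul (hck k hk) (hP k hk) (norm_nonneg _)
          (le_trans (abs_nonneg _) (hck k hk))
    _ = (-c j + 6 * (1 / 10 ^ 8 / v)) * (1 + 1 / 10 ^ 5) := by
        rw [← Finset.sum_mul, Finset.sum_add_distrib, hsumE, Finset.sum_const,
          Finset.card_erase_of_mem (Finset.mem_univ j), Finset.card_univ, Fintype.card_fin]
        simp only [nsmul_eq_mul]
        norm_num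
        ring
    _ ≤ (1 + 7 * (1 / 10 ^ 7)) * (1 + 1 / 10 ^ 5) := by
        apply mul_le_mul_of_nonneg_right _ (by norm_num)
        linarith
    _ ≤ 1001 / 1000 := by norm_num

theorem PR_mem_shadow {K : Set E3} {x : E3} (hx : x ∈ K) (u : E3) : PR u x ∈ shadow K u :=
  ⟨x, hx, rfl⟩

theorem PR_sub (u x y : E3) : PR u (x - y) = PR u x - PR u y := map_sub _ _ _

theorem PR_norm_le (u x : E3) : ‖PR u x‖ ≤ ‖x‖ :=
  Submodule.norm_orthogonalProjectionOnto_apply_le _ x

/-- For `w ⊥ u`. -/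
theorem PR_inner {u w : E3} (hw : (inner ℝ w u : ℝ) = 0) (x : E3) :
    (inner ℝ (PR u x) (PR u w) : ℝ) = inner ℝ x w := by
  have hmem : w ∈ (ℝ ∙ u)ᗮ := by
    rw [Submodule.mem_orthogonal_singleton_iff_inner_left]
    exact hw
  have h1 : PR u w = ⟨w, hmem⟩ := by
    unfold PR
    exact Submodule.orthogonalProjectionOnto_mem_subspace_eq_self (⟨w, hmem⟩ : ((ℝ ∙ u)ᗮ : Submodule ℝ E3))
  rw [h1]
  unfold PR
  rw [Submodule.inner_orthogonalProjectionOnto_eq_of_mem_right]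

/-- `cr a u` is orthogonal to `u` and to `a`, and its length is that of the projection of `a`
(`cr_norm_sq`, `norm_proj_sq`). -/
theorem PR_cr (u : sphere (0:E3) 1) (a : E3) :
    (inner ℝ (cr a (u : E3)) (u : E3) : ℝ) = 0 ∧ (inner ℝ (PR u a) (PR u (cr a (u : E3))) : ℝ) = 0 ∧
      ‖PR u (cr a (u : E3))‖ = ‖PR (u : E3) a‖ ∧ ‖PR u (cr a (u : E3))‖ = ‖cr a (u : E3)‖ := by
  have hu : ‖(u : E3)‖ = 1 := norm_eq_of_mem_sphere u
  have h0 := inner_cr_right a (u : E3)
  have h1 : ‖PR u (cr a (u : E3))‖ ^ 2 = ‖cr a (u : E3)‖ ^ 2 := by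
    have := norm_proj_sq u (cr a (u : E3))
    rw [h0] at this
    unfold PR
    rw [this]; ring
  have h2 : ‖PR (u : E3) a‖ ^ 2 = ‖cr a (u : E3)‖ ^ 2 := by
    have := norm_proj_sq u a
    unfold PR
    rw [this, cr_norm_sq, hu]; ring
  refine ⟨h0, ?_, ?_, ?_⟩
  · rw [PR_inner h0, real_inner_comm]
    exact inner_cr_left a (u : E3)
  · exact (sq_eq_sq₀ (norm_nonneg _) (norm_nonneg _)).1 (h1.trans h2.symm)
  · exact (sq_eq_sq₀ (norm_nonneg _) (norm_nonneg _)).1 h1

theorem Dir_third : ∀ j k : Fin 4, ∃ l : Fin 4, l ≠ j ∧ l ≠ k := by decide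

/-- **The strip of one silhouette edge.** `w = cr (P k - P j) u ≠ 0` (because `Act` holds and there is an
index `l ≠ j, k`). If `Mx = gg`: let `x ∈ K` with `gg K (P j) w = ⟪x - P j, w⟫` (`exists_gg`; it is
`≥ 0`), and apply `strip_one` with `D = 1001/1000` (`loc_diam`, `PR_norm_le`); `1 / (2 D) ≥ 993/2000`.
If `Mx = ph + ph`: `x`, `y` from `exists_ph` at `P j`, `P k`; `⟪y - P j, w⟫ = ⟪y - P k, w⟫` since
`w ⊥ P k - P j`; apply `strip_two` with `r = 1/1000`, `D = 1001/1000`;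
`(1 - 6 r) / (2 D) ≥ 993/2000`. -/
theorem strip_gain {K : Set E3} {P N : Fin 4 → E3} {v : ℝ} (h : Loc K P N v)
    (u : sphere (0:E3) 1) {j k : Fin 4} (hjk : j ≠ k) (ha : Act P j k (cr (P k - P j) (u : E3))) :
    ENNReal.ofReal (993 / 2000 * QQ K P j k (cr (P k - P j) (u : E3))) ≤
      volume (shadow K (u : E3) ∩
        strip (PR u (P j)) (PR u (P k)) (PR u (cr (P k - P j) (u : E3)))) := by
  classical
  set w := cr (P k - P j) (u : E3) with hw
  obtain ⟨hwu, -, hn1, hn2⟩ := PR_cr u (P k - P j)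
  rw [← hw] at hwu hn1 hn2
  have hwe : (inner ℝ (P k - P j) w : ℝ) = 0 := by
    rw [real_inner_comm]; exact inner_cr_left _ _
  have hw0 : w ≠ 0 := by
    obtain ⟨l, hlj, hlk⟩ : ∃ l : Fin 4, l ≠ j ∧ l ≠ k := Dir_third j k
    intro h0
    have := ha l hlj hlk
    rw [h0, inner_zero_right] at this
    exact lt_irrefl _ this
  have hPw0 : PR u w ≠ 0 := by
    intro h0
    rw [h0, norm_zero] at hn2
    exact hw0 (norm_eq_zero.1 hn2.symm)
  have hin : ∀ x y : E3, (inner ℝ (PR u x - PR u y) (PR u w) : ℝ) = inner ℝ (x - y) w := by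
    intro x y
    rw [← PR_sub, PR_inner hwu]
  have hno : ∀ x y : E3, ‖PR u x - PR u y‖ ≤ ‖x - y‖ := by
    intro x y
    rw [← PR_sub]
    exact PR_norm_le _ _
  have hfin : Module.finrank ℝ ((ℝ ∙ (u : E3))ᗮ : Submodule ℝ E3) = 2 := finrank_perp u
  have hconv : Convex ℝ (shadow K (u : E3)) := shadow_convex h.conv _
  have hwn : ‖PR u w‖ = ‖PR u (P k) - PR u (P j)‖ := by rw [← PR_sub]; exact hn1
  have hwq : (inner ℝ (PR u (P k) - PR u (P j)) (PR u w) : ℝ) = 0 := by rw [hin]; exact hwe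
  have hD : ‖PR u (P k) - PR u (P j)‖ ≤ 1001 / 1000 :=
    (hno _ _).trans (loc_diam h j (h.mem k))
  have hQ : QQ K P j k w = ‖w‖ * Mx K (P j) (P k) w := by
    unfold QQ
    rw [if_pos ha]
  rw [hQ]
  rcases le_total (gg K (P j) w) (ph K (P j) w + ph K (P k) w) with hle | hle
  · have hM : Mx K (P j) (P k) w = ph K (P j) w + ph K (P k) w := max_eq_right hle
    obtain ⟨x, hxK, hxn, hx⟩ := exists_ph h.comp (h.mem j) w
    obtain ⟨y, hyK, hyn, hy⟩ := exists_ph h.comp (h.mem k) w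
    have hphj : 0 ≤ ph K (P j) w := (ph_sublin h.comp (h.mem j)).nonneg w
    have hphk : 0 ≤ ph K (P k) w := (ph_sublin h.comp (h.mem k)).nonneg w
    have hyj : (inner ℝ (y - P j) w : ℝ) = ph K (P k) w := by
      rw [hy, inner_sub_left, inner_sub_left]
      rw [inner_sub_left] at hwe
      linarith
    have key := strip_two hfin hconv (PR_mem_shadow (h.mem j) _) (PR_mem_shadow (h.mem k) _)
      (PR_mem_shadow hxK _) (PR_mem_shadow hyK _) hPw0 hwn hwq (r := 1 / 1000) (D := 1001 / 1000)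
      (by norm_num) (by norm_num) (by norm_num) hD ((hno _ _).trans hxn) ((hno _ _).trans hyn)
      (by rw [hin, ← hx]; exact hphj) (by rw [hin, hyj]; exact hphk)
    refine le_trans (ENNReal.ofReal_le_ofReal ?_) key
    rw [hin, hin, hyj, ← hx, hn2, hM]
    have hs : 0 ≤ ‖w‖ * (ph K (P j) w + ph K (P k) w) :=
      mul_nonneg (norm_nonneg _) (add_nonneg hphj hphk)
    have e : (1 - 6 * (1 / 1000 : ℝ)) * (‖w‖ / (1001 / 1000)) * (ph K (P j) w + ph K (P k) w) / 2 =
        (994 / 2002) * (‖w‖ * (ph K (P j) w + ph K (P k) w)) := by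
      ring
    rw [e]
    exact mul_le_mul_of_nonneg_right (by norm_num) hs
  · have hM : Mx K (P j) (P k) w = gg K (P j) w := max_eq_left hle
    obtain ⟨x, hxK, hx⟩ := exists_gg h.comp (h.mem j) w
    have hg : 0 ≤ gg K (P j) w := (gg_sublin h.comp (h.mem j)).nonneg w
    have key := strip_one hfin hconv (PR_mem_shadow (h.mem j) _) (PR_mem_shadow (h.mem k) _)
      (PR_mem_shadow hxK _) hPw0 hwn hwq (D := 1001 / 1000) hD
      ((hno _ _).trans (loc_diam h j hxK)) ((hno _ _).trans (loc_diam h k hxK))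
      (by rw [hin, ← hx]; exact hg)
    refine le_trans (ENNReal.ofReal_le_ofReal ?_) key
    rw [hin, ← hx, hn2, hM]
    have hs : 0 ≤ ‖w‖ * gg K (P j) w := mul_nonneg (norm_nonneg _) hg
    have e : ‖w‖ / (1001 / 1000) * gg K (P j) w / 2 = (1000 / 2002) * (‖w‖ * gg K (P j) w) := by
      ring
    rw [e]
    exact mul_le_mul_of_nonneg_right (by norm_num) hs

end SanLoc
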