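/-
MP_72c0ec_gt, helper9: circle integrals for the edges of the tetrahedron.
-/
import Pool.Agent.H.MP_72c0ec_gt.Loc.Circle
import Pool.Agent.H.MP_72c0ec_gt.Loc.Dir
import Pool.Agent.H.MP_72c0ec_gt.Loc.Corner

set_option autoImplicit false

namespace SanLoc

open San SanSym MeasureTheory Set Metric Real

theorem Arc_cover : ∀ i j k l m : Fin 4, j ≠ k → j ≠ l → j ≠ m → k ≠ l → k ≠ m → l ≠ m →
    i = j ∨ i = k ∨ i = l ∨ i = m := by
  decide

theorem Arc_inner_same {P N : Fin 4 → E3} {v : ℝ} (h : IsTet P N v) {l j : Fin 4} (hlj : l ≠ j) :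
    (inner ℝ (P l - P j) (N l) : ℝ) = -v := by
  have h1 := h.height l j (Ne.symm hlj)
  rw [real_inner_comm, inner_sub_right, h1]
  ring

theorem Arc_inner_diff {P N : Fin 4 → E3} {v : ℝ} (h : IsTet P N v) {l j m : Fin 4}
    (hlm : l ≠ m) (hjm : j ≠ m) : (inner ℝ (P l - P j) (N m) : ℝ) = 0 := by
  rw [real_inner_comm, inner_sub_right, h.height m l hlm, h.height m j hjm, sub_self]

theorem Arc_sum {P N : Fin 4 → E3} {v : ℝ} (h : IsTet P N v) {j k l m : Fin 4}
    (hjk : j ≠ k) (hjl : j ≠ l) (hjm : j ≠ m) (hkl : k ≠ l) (hkm : k ≠ m) (hlm : l ≠ m) :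
    -(N l + N m) = N j + N k := by
  have h0 : ∑ i, N i = 0 := by
    rw [Fin.sum_univ_four]
    exact h.sumN
  have h1 : ∑ i, N i = N j + N k + N l + N m := by
    have hu : (Finset.univ : Finset (Fin 4)) = {j, k, l, m} := by
      ext i
      simp only [Finset.mem_univ, Finset.mem_insert, Finset.mem_singleton, true_iff]
      exact Arc_cover i j k l m hjk hjl hjm hkl hkm hlm
    rw [hu, Finset.sum_insert (by simp [hjk, hjl, hjm]), Finset.sum_insert (by simp [hkl, hkm]),
      Finset.sum_insert (by simp [hlm]), Finset.sum_singleton]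
    abel
  rw [h1] at h0
  rw [neg_eq_iff_add_eq_zero, ← h0]
  abel

theorem Arc_wd {P N : Fin 4 → E3} {v : ℝ} (h : Near (1 / 10 ^ 5) P N v) {l m : Fin 4}
    (hlm : l ≠ m) : 0 < wd (N l) (N m) := by
  unfold wd
  refine Real.sqrt_pos.2 ?_
  have h1 := abs_le.1 (h.nn l)
  have h2 := abs_le.1 (h.nn m)
  have h3 := abs_le.1 (h.ni l m hlm)
  have h4 : (7 : ℝ) / 10 ≤ ‖N l‖ ^ 2 := by
    have := h1.1
    norm_num at this ⊢
    linarith
  have h5 : (7 : ℝ) / 10 ≤ ‖N m‖ ^ 2 := by
    have := h2.1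
    norm_num at this ⊢
    linarith
  have h6 : (inner ℝ (N l) (N m) : ℝ) ≤ 0 := by
    have := h3.2
    norm_num at this ⊢
    linarith
  have h7 : (-(3 / 10) : ℝ) ≤ (inner ℝ (N l) (N m) : ℝ) := by
    have := h3.1
    norm_num at this ⊢
    linarith
  nlinarith

theorem Arc_compact (P : Fin 4 → E3) : IsCompact (convexHull ℝ (range P)) :=
  (Set.finite_range P).isCompact_convexHull ℝ

theorem Arc_nonempty (P : Fin 4 → E3) : (convexHull ℝ (range P)).Nonempty :=
  ⟨P 0, subset_convexHull ℝ _ ⟨0, rfl⟩⟩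

/-- A function on an arc which vanishes there. -/
theorem Arc_J_zero {g : E3 → ℝ} {p q : E3} (h : ∀ μ ∈ Icc (0:ℝ) 1, g (p + μ • q) = 0) :
    J g p q 0 1 = 0 := by
  have h1 : J g p q 0 1 = J (fun _ => (0:ℝ)) p q 0 1 := J_congr zero_le_one h
  rw [h1]
  simp [J]

/-- The value at the left end point does not matter. -/
theorem Arc_J_congr {g g' : E3 → ℝ} {p q : E3}
    (h : ∀ μ ∈ Ioc (0:ℝ) 1, g (p + μ • q) = g' (p + μ • q)) :
    J g p q 0 1 = J g' p q 0 1 := by
  unfold J
  rw [intervalIntegral.integral_of_le zero_le_one, intervalIntegral.integral_of_le zero_le_one]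
  refine setIntegral_congr_fun measurableSet_Ioc fun μ hμ => ?_
  rw [h μ hμ]

theorem Arc_act_smul (P : Fin 4 → E3) (j k : Fin 4) {c : ℝ} (hc : 0 < c) (w : E3) :
    Act P j k (c • w) ↔ Act P j k w := by
  unfold Act
  refine forall_congr' fun l => forall_congr' fun _ => forall_congr' fun _ => ?_
  rw [real_inner_smul_right]
  constructor
  · intro h
    by_contra hcon
    exact absurd h (not_lt.2 (mul_nonneg hc.le (not_lt.1 hcon)))
  · intro h
    exact mul_neg_of_pos_of_neg hc h

theorem Arc_act_measurable (P : Fin 4 → E3) (j k : Fin 4) : MeasurableSet {w | Act P j k w} := by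
  have h : {w | Act P j k w} =
      ⋂ l : Fin 4, ⋂ (_ : l ≠ j), ⋂ (_ : l ≠ k), {w : E3 | (inner ℝ (P l - P j) w : ℝ) < 0} := by
    ext w
    simp [Act]
  rw [h]
  refine MeasurableSet.iInter fun l => MeasurableSet.iInter fun _ => MeasurableSet.iInter fun _ => ?_
  exact (isOpen_lt (by fun_prop) continuous_const).measurableSet

theorem Arc_norm_circle {e₁ e₂ : E3} (he : Orthonormal ℝ ![e₁, e₂]) (t : ℝ) :
    ‖cos t • e₁ + sin t • e₂‖ = 1 := by
  have h1 : ‖e₁‖ = 1 := he.1 0
  have h2 : ‖e₂‖ = 1 := he.1 1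
  have h12 : (inner ℝ e₁ e₂ : ℝ) = 0 := he.2 (i := 0) (j := 1) (by decide)
  have h3 : ‖cos t • e₁ + sin t • e₂‖ ^ 2 = 1 := by
    rw [@norm_add_sq_real, norm_smul, norm_smul, real_inner_smul_left, real_inner_smul_right, h12,
      h1, h2]
    simp only [mul_one, mul_zero, Real.norm_eq_abs, sq_abs, add_zero]
    exact Real.cos_sq_add_sin_sq t
  have h4 := norm_nonneg (cos t • e₁ + sin t • e₂)
  nlinarith

/-- A vector orthogonal to a nonzero vector `a` is a combination of an orthonormal basis `e₁, e₂` of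
`a^⊥`: here for the normals `N l` of the faces through the edge `P j P k`. Proof: `N l ⊥ P k - P j` by
`height`; `exists_basis2` of `Main.lean` (namespace `San`) extends `e₁, e₂` to an orthonormal basis
`b` of the space, `b 0` is parallel to `P k - P j`. -/
theorem normal_expand {P N : Fin 4 → E3} {v : ℝ} (h : IsTet P N v) {j k l : Fin 4} (hjk : j ≠ k)
    (hlj : l ≠ j) (hlk : l ≠ k) {e₁ e₂ : E3} (he : Orthonormal ℝ ![e₁, e₂])
    (h1 : (inner ℝ e₁ (P k - P j) : ℝ) = 0) (h2 : (inner ℝ e₂ (P k - P j) : ℝ) = 0) :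
    N l = (inner ℝ e₁ (N l) : ℝ) • e₁ + (inner ℝ e₂ (N l) : ℝ) • e₂ := by
  obtain ⟨b, hb1, hb2⟩ := exists_basis2 e₁ e₂ he
  have hs : P k - P j = (inner ℝ (b 0) (P k - P j) : ℝ) • b 0 := by
    have h3 := b.sum_repr' (P k - P j)
    rw [Fin.sum_univ_three, hb1, hb2, h1, h2, zero_smul, zero_smul, add_zero, add_zero] at h3
    exact h3.symm
  have hne : P k - P j ≠ 0 := by
    intro h0
    have h3 := Arc_inner_same h (Ne.symm hjk)
    rw [h0, inner_zero_left] at h3
    have := h.pos
    linarith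
  have hc : (inner ℝ (b 0) (P k - P j) : ℝ) ≠ 0 := by
    intro h0
    rw [h0, zero_smul] at hs
    exact hne hs
  have h0 : (inner ℝ (b 0) (N l) : ℝ) = 0 := by
    have h3 := Arc_inner_diff h (Ne.symm hlk) (Ne.symm hlj)
    rw [hs, real_inner_smul_left] at h3
    exact (mul_eq_zero.1 h3).resolve_left hc
  have h3 := b.sum_repr' (N l)
  rw [Fin.sum_univ_three, hb1, hb2, h0, zero_smul, zero_add] at h3
  exact h3.symm

/-- The support function of the tetrahedron on the normal cone of the vertex `P l`: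
`⟪P i - P l, w⟫ ≤ 0` for all `i` (`height`). -/
theorem supp_T {P N : Fin 4 → E3} {v : ℝ} (h : IsTet P N v) {l m j k : Fin 4}
    (hlm : l ≠ m) (hlj : l ≠ j) (hlk : l ≠ k) (hmj : m ≠ j) (hmk : m ≠ k) (hjk : j ≠ k)
    {a b c : ℝ} (ha : 0 ≤ a) (hb : 0 ≤ b) (hc : 0 ≤ c) :
    supp (convexHull ℝ (range P)) (a • N m + b • N j + c • N k) =
      inner ℝ (P l) (a • N m + b • N j + c • N k) := by
  set w := a • N m + b • N j + c • N k with hw
  have hv := h.pos
  have key : ∀ i, (inner ℝ (P i) w : ℝ) ≤ inner ℝ (P l) w := by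
    intro i
    have h0 : (inner ℝ (P i - P l) w : ℝ) ≤ 0 := by
      rw [hw, inner_add_right, inner_add_right, real_inner_smul_right, real_inner_smul_right,
        real_inner_smul_right]
      rcases Arc_cover i l m j k hlm hlj hlk hmj hmk hjk with hi | hi | hi | hi
      · rw [hi, sub_self, inner_zero_left, inner_zero_left, inner_zero_left]
        simp
      · rw [hi, Arc_inner_same h (Ne.symm hlm), Arc_inner_diff h hmj hlj,
          Arc_inner_diff h hmk hlk]
        nlinarith [mul_nonneg ha hv.le]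
      · rw [hi, Arc_inner_same h (Ne.symm hlj), Arc_inner_diff h (Ne.symm hmj) hlm,
          Arc_inner_diff h hjk hlk]
        nlinarith [mul_nonneg hb hv.le]
      · rw [hi, Arc_inner_same h (Ne.symm hlk), Arc_inner_diff h (Ne.symm hmk) hlm,
          Arc_inner_diff h (Ne.symm hjk) hlj]
        nlinarith [mul_nonneg hc hv.le]
    rw [inner_sub_left] at h0
    linarith
  have hle : ∀ y ∈ convexHull ℝ (range P), (inner ℝ y w : ℝ) ≤ inner ℝ (P l) w := by
    have hconv : Convex ℝ {y : E3 | (inner ℝ y w : ℝ) ≤ inner ℝ (P l) w} := by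
      intro x hx y hy s t hs ht hst
      simp only [mem_ofPred_eq] at hx hy ⊢
      rw [inner_add_left, real_inner_smul_left, real_inner_smul_left]
      have h1 := mul_le_mul_of_nonneg_left hx hs
      have h2 := mul_le_mul_of_nonneg_left hy ht
      have h3 : s * (inner ℝ (P l) w : ℝ) + t * inner ℝ (P l) w = inner ℝ (P l) w := by
        rw [← add_mul, hst, one_mul]
      linarith
    intro y hy
    refine convexHull_min ?_ hconv hy
    rintro _ ⟨i, rfl⟩
    exact key i
  refine IsGreatest.csSup_eq ⟨⟨P l, subset_convexHull ℝ _ ⟨l, rfl⟩, rfl⟩, ?_⟩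
  rintro _ ⟨y, hy, rfl⟩
  exact hle y hy

/-- **The perimeter of the shadow along an edge.** Proof. The difference of the two perimeters is the
circle integral of `g = supp K - supp T` (`shadowPerimeter`, both integrands are continuous;
`T` is the tetrahedron, compact and non-empty). Apply `circle_split` with `p = N l`, `q = N m`,
`-(p + q) = N j + N k` (`sumN`; 24 index cases: use `revert` and `decide`-style case analysis or prove
`N j + N k = -(N l + N m)` once from `sumN`). On the six arcs `supp T = ⟪P j, ·⟫`, `⟪P j, ·⟫`,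
`⟪P l, ·⟫`, `⟪P l, ·⟫`, `⟪P m, ·⟫`, `⟪P m, ·⟫` by `supp_T`, so `g = gg K (P j)` etc. (`J_congr`). -/
theorem perim_eq {K : Set E3} {P N : Fin 4 → E3} {v : ℝ} (h : Loc K P N v) {j k l m : Fin 4}
    (hjk : j ≠ k) (hjl : j ≠ l) (hjm : j ≠ m) (hkl : k ≠ l) (hkm : k ≠ m) (hlm : l ≠ m)
    {e₁ e₂ : E3} (he : Orthonormal ℝ ![e₁, e₂]) (h1 : (inner ℝ e₁ (P k - P j) : ℝ) = 0)
    (h2 : (inner ℝ e₂ (P k - P j) : ℝ) = 0) :
    shadowPerimeter K e₁ e₂ = shadowPerimeter (convexHull ℝ (range P)) e₁ e₂ +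
      dL K P N j k l m := by
  have hK := h.comp
  have hKn : K.Nonempty := ⟨P 0, h.mem 0⟩
  have hT := Arc_compact P
  have hTn := Arc_nonempty P
  have ht := h.near.toIsTet
  set T := convexHull ℝ (range P) with hTdef
  set g : E3 → ℝ := fun w => supp K w - supp T w with hg
  have hgc : Continuous g := (supp_continuous hK hKn).sub (supp_continuous hT hTn)
  have hgh : ∀ (c : ℝ) (w : E3), 0 ≤ c → g (c • w) = c * g w := by
    intro c w hc
    simp only [hg]
    rw [supp_smul hK hKn hc, supp_smul hT hTn hc]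
    ring
  obtain ⟨C, hC⟩ := hom_bound hgc hgh
  have hexp := fun (i : Fin 4) (hij : i ≠ j) (hik : i ≠ k) =>
    normal_expand ht hjk hij hik he h1 h2
  have hsplit := circle_split hgc.measurable (fun c w hc => hgh c w hc.le) hC he
    (hexp l (Ne.symm hjl) (Ne.symm hkl)) (hexp m (Ne.symm hjm) (Ne.symm hkm))
    (Arc_wd h.near hlm)
  have hci : Continuous fun t : ℝ => cos t • e₁ + sin t • e₂ := by fun_prop
  have hint : ∫ t in (0:ℝ)..(2 * π), g (cos t • e₁ + sin t • e₂) =
      shadowPerimeter K e₁ e₂ - shadowPerimeter T e₁ e₂ := by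
    unfold shadowPerimeter
    exact intervalIntegral.integral_sub
      (((supp_continuous hK hKn).comp hci).intervalIntegrable _ _)
      (((supp_continuous hT hTn).comp hci).intervalIntegrable _ _)
  rw [hint, Arc_sum ht hjk hjl hjm hkl hkm hlm] at hsplit
  have hj : ∀ a b : ℝ, 0 ≤ a → 0 ≤ b → g (a • N l + b • N m) = gg K (P j) (a • N l + b • N m) := by
    intro a b ha hb
    have h3 := supp_T ht hjl hjm hjk hlm (Ne.symm hkl) (Ne.symm hkm) ha hb le_rfl
    rw [zero_smul, add_zero] at h3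
    simp only [hg, gg]
    rw [h3]
  have hl : ∀ a b : ℝ, 0 ≤ a → 0 ≤ b → g (a • N m + b • (N j + N k)) =
      gg K (P l) (a • N m + b • (N j + N k)) := by
    intro a b ha hb
    have h3 := supp_T ht hlm (Ne.symm hjl) (Ne.symm hkl) (Ne.symm hjm) (Ne.symm hkm) hjk ha hb hb
    rw [add_assoc, ← smul_add] at h3
    simp only [hg, gg]
    rw [h3]
  have hm : ∀ a b : ℝ, 0 ≤ a → 0 ≤ b → g (a • N l + b • (N j + N k)) =
      gg K (P m) (a • N l + b • (N j + N k)) := by
    intro a b ha hb
    have h3 := supp_T ht (Ne.symm hlm) (Ne.symm hjm) (Ne.symm hkm) (Ne.symm hjl) (Ne.symm hkl) hjk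
      ha hb hb
    rw [add_assoc, ← smul_add] at h3
    simp only [hg, gg]
    rw [h3]
  have e1 : J g (N l) (N m) 0 1 = J (gg K (P j)) (N l) (N m) 0 1 := by
    refine J_congr zero_le_one fun μ hμ => ?_
    have := hj 1 μ zero_le_one hμ.1
    rwa [one_smul] at this
  have e2 : J g (N m) (N l) 0 1 = J (gg K (P j)) (N m) (N l) 0 1 := by
    refine J_congr zero_le_one fun μ hμ => ?_
    have := hj μ 1 hμ.1 zero_le_one
    rwa [one_smul, add_comm] at this
  have e3 : J g (N m) (N j + N k) 0 1 = J (gg K (P l)) (N m) (N j + N k) 0 1 := by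
    refine J_congr zero_le_one fun μ hμ => ?_
    have := hl 1 μ zero_le_one hμ.1
    rwa [one_smul] at this
  have e4 : J g (N j + N k) (N m) 0 1 = J (gg K (P l)) (N j + N k) (N m) 0 1 := by
    refine J_congr zero_le_one fun μ hμ => ?_
    have := hl μ 1 hμ.1 zero_le_one
    rwa [one_smul, add_comm] at this
  have e5 : J g (N l) (N j + N k) 0 1 = J (gg K (P m)) (N l) (N j + N k) 0 1 := by
    refine J_congr zero_le_one fun μ hμ => ?_
    have := hm 1 μ zero_le_one hμ.1
    rwa [one_smul] at this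
  have e6 : J g (N j + N k) (N l) 0 1 = J (gg K (P m)) (N j + N k) (N l) 0 1 := by
    refine J_congr zero_le_one fun μ hμ => ?_
    have := hm μ 1 hμ.1 zero_le_one
    rwa [one_smul, add_comm] at this
  rw [e1, e2, e3, e4, e5, e6] at hsplit
  unfold dL
  linarith

theorem QQ_hom {K : Set E3} (hK : IsCompact K) {P : Fin 4 → E3} (hP : ∀ j, P j ∈ K) (j k : Fin 4)
    (c : ℝ) (w : E3) (hc : 0 < c) : QQ K P j k (c • w) = c ^ 2 * QQ K P j k w := by
  unfold QQ
  by_cases ha : Act P j k w
  · rw [if_pos ha, if_pos ((Arc_act_smul P j k hc w).2 ha), norm_smul, Real.norm_eq_abs,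
      abs_of_pos hc, Mx_hom hK (hP j) (hP k) hc.le]
    ring
  · rw [if_neg ha, if_neg (fun h => ha ((Arc_act_smul P j k hc w).1 h)), mul_zero]

/-- **The circle integral of the gain.** Proof. For unit vectors `QQ = g` with
`g w = if Act P j k w then Mx K (P j) (P k) w else 0`, measurable (`Act` defines an open set), positively
homogeneous of degree one, bounded by a multiple of the norm (`hom_bound`). Apply `circle_split` with
`p = N l`, `q = N m`. For `w = a N l + b N m`: `⟪P l - P j, w⟫ = -a v`, `⟪P m - P j, w⟫ = -b v`, so `Act` holds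
iff `a, b > 0`. On the arcs from `p` to `p + q` and from `q` to `p + q` this holds except at the
endpoint `μ = 0` (a null set: `intervalIntegral.integral_congr_ae` or change the value), on the four
others (`w = -μ p + (1 - μ) q`, `-(1..)`) it fails. -/
theorem circle_QQ {K : Set E3} {P N : Fin 4 → E3} {v : ℝ} (h : Loc K P N v) {j k l m : Fin 4}
    (hjk : j ≠ k) (hjl : j ≠ l) (hjm : j ≠ m) (hkl : k ≠ l) (hkm : k ≠ m) (hlm : l ≠ m)
    {e₁ e₂ : E3} (he : Orthonormal ℝ ![e₁, e₂]) (h1 : (inner ℝ e₁ (P k - P j) : ℝ) = 0)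
    (h2 : (inner ℝ e₂ (P k - P j) : ℝ) = 0) :
    ∫ t in (0:ℝ)..(2 * π), QQ K P j k (cos t • e₁ + sin t • e₂) = HH K P N j k l m := by
  classical
  have hK := h.comp
  have ht := h.near.toIsTet
  have hv := ht.pos
  have hMc := Mx_continuous hK (h.mem j) (h.mem k)
  obtain ⟨C, hC⟩ := hom_bound hMc
    (fun c w hc => Mx_hom hK (h.mem j) (h.mem k) hc w)
  set g : E3 → ℝ := fun w => if Act P j k w then Mx K (P j) (P k) w else 0 with hg
  have hgm : Measurable g := Measurable.ite (Arc_act_measurable P j k) hMc.measurable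
    measurable_const
  have hgh : ∀ (c : ℝ) (w : E3), 0 < c → g (c • w) = c * g w := by
    intro c w hc
    simp only [hg]
    by_cases ha : Act P j k w
    · rw [if_pos ha, if_pos ((Arc_act_smul P j k hc w).2 ha), Mx_hom hK (h.mem j) (h.mem k) hc.le]
    · rw [if_neg ha, if_neg (fun h => ha ((Arc_act_smul P j k hc w).1 h)), mul_zero]
  have hgb : ∀ w, |g w| ≤ C * ‖w‖ := by
    intro w
    simp only [hg]
    by_cases ha : Act P j k w
    · rw [if_pos ha]
      exact hC w
    · rw [if_neg ha, abs_zero]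
      exact (abs_nonneg _).trans (hC w)
  have hexp := fun (i : Fin 4) (hij : i ≠ j) (hik : i ≠ k) =>
    normal_expand ht hjk hij hik he h1 h2
  have hsplit := circle_split hgm hgh hgb he
    (hexp l (Ne.symm hjl) (Ne.symm hkl)) (hexp m (Ne.symm hjm) (Ne.symm hkm))
    (Arc_wd h.near hlm)
  have hQ : ∀ t : ℝ, QQ K P j k (cos t • e₁ + sin t • e₂) = g (cos t • e₁ + sin t • e₂) := by
    intro t
    simp only [hg, QQ, Arc_norm_circle he t, one_mul]
  rw [intervalIntegral.integral_congr (g := fun t => g (cos t • e₁ + sin t • e₂))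
    (fun t _ => hQ t), hsplit]
  -- the sign of the two scalar products
  have hin : ∀ a b : ℝ, (inner ℝ (P l - P j) (a • N l + b • N m) : ℝ) = -(a * v) ∧
      (inner ℝ (P m - P j) (a • N l + b • N m) : ℝ) = -(b * v) := by
    intro a b
    constructor
    · rw [inner_add_right, real_inner_smul_right, real_inner_smul_right,
        Arc_inner_same ht (Ne.symm hjl), Arc_inner_diff ht hlm hjm]
      ring
    · rw [inner_add_right, real_inner_smul_right, real_inner_smul_right,
        Arc_inner_same ht (Ne.symm hjm), Arc_inner_diff ht (Ne.symm hlm) hjl]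
      ring
  have hpos : ∀ a b : ℝ, 0 < a → 0 < b →
      g (a • N l + b • N m) = Mx K (P j) (P k) (a • N l + b • N m) := by
    intro a b ha hb
    simp only [hg]
    refine if_pos fun i hij hik => ?_
    rcases Arc_cover i j k l m hjk hjl hjm hkl hkm hlm with hi | hi | hi | hi
    · exact absurd hi hij
    · exact absurd hi hik
    · rw [hi, (hin a b).1]
      have := mul_pos ha hv
      linarith
    · rw [hi, (hin a b).2]
      have := mul_pos hb hv
      linarith
  have hzero : ∀ a b : ℝ, a ≤ 0 ∨ b ≤ 0 → g (a • N l + b • N m) = 0 := by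
    intro a b hab
    simp only [hg]
    refine if_neg fun hact => ?_
    rcases hab with ha | hb
    · have h3 := hact l (Ne.symm hjl) (Ne.symm hkl)
      rw [(hin a b).1] at h3
      have := mul_nonneg (neg_nonneg.2 ha) hv.le
      linarith
    · have h3 := hact m (Ne.symm hjm) (Ne.symm hkm)
      rw [(hin a b).2] at h3
      have := mul_nonneg (neg_nonneg.2 hb) hv.le
      linarith
  have e1 : J g (N l) (N m) 0 1 = J (Mx K (P j) (P k)) (N l) (N m) 0 1 := by
    refine Arc_J_congr fun μ hμ => ?_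
    have := hpos 1 μ one_pos hμ.1
    rwa [one_smul] at this
  have e2 : J g (N m) (N l) 0 1 = J (Mx K (P j) (P k)) (N m) (N l) 0 1 := by
    refine Arc_J_congr fun μ hμ => ?_
    have := hpos μ 1 hμ.1 one_pos
    rwa [one_smul, add_comm] at this
  have e3 : J g (N m) (-(N l + N m)) 0 1 = 0 := by
    refine Arc_J_zero fun μ hμ => ?_
    rw [show N m + μ • (-(N l + N m)) = (-μ) • N l + (1 - μ) • N m by module]
    exact hzero _ _ (Or.inl (neg_nonpos.2 hμ.1))
  have e4 : J g (-(N l + N m)) (N m) 0 1 = 0 := by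
    refine Arc_J_zero fun μ hμ => ?_
    rw [show -(N l + N m) + μ • N m = (-1 : ℝ) • N l + (μ - 1) • N m by module]
    exact hzero _ _ (Or.inl (by norm_num))
  have e5 : J g (N l) (-(N l + N m)) 0 1 = 0 := by
    refine Arc_J_zero fun μ hμ => ?_
    rw [show N l + μ • (-(N l + N m)) = (1 - μ) • N l + (-μ) • N m by module]
    exact hzero _ _ (Or.inr (neg_nonpos.2 hμ.1))
  have e6 : J g (-(N l + N m)) (N l) 0 1 = 0 := by
    refine Arc_J_zero fun μ hμ => ?_
    rw [show -(N l + N m) + μ • N l = (μ - 1) • N l + (-1 : ℝ) • N m by module]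
    exact hzero _ _ (Or.inr (by norm_num))
  rw [e1, e2, e3, e4, e5, e6, HH]
  ring

end SanLoc
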