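/-
MP_72c0ec_gt, helper9: the normals of a tetrahedron in terms of its edges.
-/
import Pool.Agent.H.MP_72c0ec_gt.Loc.Vec

set_option autoImplicit false

namespace SanLoc

open San SanSym MeasureTheory Set Metric Real

theorem Edges_inner (x y z : E3) :
    (inner ℝ (x - z) (y - z) : ℝ) = (‖x - z‖ ^ 2 + ‖y - z‖ ^ 2 - ‖x - y‖ ^ 2) / 2 := by
  have h := norm_sub_sq_real (x - z) (y - z)
  rw [sub_sub_sub_cancel_right] at h
  linarith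

theorem Edges_inner2 (a b c d : E3) :
    (inner ℝ (b - a) (d - c) : ℝ) =
      (‖b - c‖ ^ 2 + ‖a - d‖ ^ 2 - ‖b - d‖ ^ 2 - ‖a - c‖ ^ 2) / 2 := by
  have h1 := Edges_inner b d a
  have h2 := Edges_inner b c a
  have h3 : d - c = (d - a) - (c - a) := by abel
  rw [h3, inner_sub_right, h1, h2, norm_sub_rev a d, norm_sub_rev a c]
  ring

/-- Square of the length of a normal (`16 area²` by Heron's formula is `4` times this). -/
theorem norm_sq_NN (P : Fin 4 → E3) {j k l m : Fin 4} (hjk : j ≠ k) (hjl : j ≠ l) (hjm : j ≠ m)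
    (hkl : k ≠ l) (hkm : k ≠ m) (hlm : l ≠ m) {x y z : ℝ} (hx : ‖P k - P l‖ ^ 2 = x)
    (hy : ‖P k - P m‖ ^ 2 = y) (hz : ‖P l - P m‖ ^ 2 = z) :
    ‖NN P j‖ ^ 2 = (2 * (x * y + y * z + z * x) - (x ^ 2 + y ^ 2 + z ^ 2)) / 4 := by
  have h1 : ‖NN P j‖ ^ 2 = ‖cr (P l - P k) (P m - P k)‖ ^ 2 := by
    rcases NN_eq_cr P hjk hjl hjm hkl hkm hlm with h | h
    · rw [h]
    · rw [h, norm_neg]
  rw [h1, cr_norm_sq, Edges_inner, norm_sub_rev (P l) (P k), norm_sub_rev (P m) (P k), hx, hy, hz]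
  ring

/-- Square of the length of the sum of two normals. -/
theorem norm_sq_NN_add (P : Fin 4 → E3) {j k l m : Fin 4} (hjk : j ≠ k) (hjl : j ≠ l) (hjm : j ≠ m)
    (hkl : k ≠ l) (hkm : k ≠ m) (hlm : l ≠ m) :
    ‖NN P l + NN P m‖ ^ 2 = ‖P k - P j‖ ^ 2 * ‖P m - P l‖ ^ 2 -
      ((‖P k - P l‖ ^ 2 + ‖P j - P m‖ ^ 2 - ‖P k - P m‖ ^ 2 - ‖P j - P l‖ ^ 2) / 2) ^ 2 := by
  have h1 : ‖NN P l + NN P m‖ ^ 2 = ‖cr (P k - P j) (P m - P l)‖ ^ 2 := by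
    rcases NN_add_eq_cr P hjk hjl hjm hkl hkm hlm with h | h
    · rw [h]
    · rw [h, norm_neg]
  rw [h1, cr_norm_sq, Edges_inner2]

theorem Edges_mul {a b x y : ℝ} (ha : |a| ≤ x) (hb : |b| ≤ y) : |a * b| ≤ x * y := by
  rw [abs_mul]
  exact mul_le_mul ha hb (abs_nonneg b) ((abs_nonneg a).trans ha)

/-- The length of a normal. -/
theorem Edges_nn {x y z η : ℝ} (hη1 : η ≤ 1 / 100) (hx : |x - 1| ≤ η) (hy : |y - 1| ≤ η)
    (hz : |z - 1| ≤ η) :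
    |(2 * (x * y + y * z + z * x) - (x ^ 2 + y ^ 2 + z ^ 2)) / 4 - 3 / 4| ≤ 2 * η := by
  have h0 : 0 ≤ η := (abs_nonneg _).trans hx
  have hq : η * η ≤ η / 100 := by nlinarith
  have a1 := abs_le.1 hx
  have a2 := abs_le.1 hy
  have a3 := abs_le.1 hz
  have b1 := abs_le.1 (Edges_mul hx hy)
  have b2 := abs_le.1 (Edges_mul hy hz)
  have b3 := abs_le.1 (Edges_mul hz hx)
  have b4 := abs_le.1 (Edges_mul hx hx)
  have b5 := abs_le.1 (Edges_mul hy hy)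
  have b6 := abs_le.1 (Edges_mul hz hz)
  rw [abs_le]
  constructor <;> linarith [a1.1, a1.2, a2.1, a2.2, a3.1, a3.2, b1.1, b1.2, b2.1, b2.2, b3.1,
    b3.2, b4.1, b4.2, b5.1, b5.2, b6.1, b6.2]

/-- The length of the sum of two normals. -/
theorem Edges_add {x y a b c d η : ℝ} (hη1 : η ≤ 1 / 100) (hx : |x - 1| ≤ η) (hy : |y - 1| ≤ η)
    (ha : |a - 1| ≤ η) (hb : |b - 1| ≤ η) (hc : |c - 1| ≤ η) (hd : |d - 1| ≤ η) :
    |x * y - ((a + b - c - d) / 2) ^ 2 - 1| ≤ 3 * η := by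
  have h0 : 0 ≤ η := (abs_nonneg _).trans hx
  have hq : η * η ≤ η / 100 := by nlinarith
  have a1 := abs_le.1 hx
  have a2 := abs_le.1 hy
  have a3 := abs_le.1 ha
  have a4 := abs_le.1 hb
  have a5 := abs_le.1 hc
  have a6 := abs_le.1 hd
  have b1 := abs_le.1 (Edges_mul hx hy)
  have h1 : |(a + b - c - d) / 2| ≤ 2 * η := by
    rw [abs_le]
    constructor <;> linarith [a3.1, a3.2, a4.1, a4.2, a5.1, a5.2, a6.1, a6.2]
  have b2 := abs_le.1 (Edges_mul h1 h1)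
  have h2 : ((a + b - c - d) / 2) ^ 2 = (a + b - c - d) / 2 * ((a + b - c - d) / 2) := by ring
  rw [h2]
  generalize (a + b - c - d) / 2 * ((a + b - c - d) / 2) = q at b2 ⊢
  rw [abs_le]
  constructor <;> linarith [a1.1, a1.2, a2.1, a2.2, b1.1, b1.2, b2.1, b2.2]

/-- The Gram determinant. -/
theorem Edges_det {d₁ d₂ d₃ e₁ e₂ e₃ η : ℝ} (hη1 : η ≤ 1 / 100) (h1 : |d₁| ≤ η) (h2 : |d₂| ≤ η)
    (h3 : |d₃| ≤ η) (g1 : |e₁| ≤ 3 / 2 * η) (g2 : |e₂| ≤ 3 / 2 * η) (g3 : |e₃| ≤ 3 / 2 * η) :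
    |(1 + d₁) * (1 + d₂) * (1 + d₃) + 2 * ((1 / 2 + e₁) * (1 / 2 + e₂) * (1 / 2 + e₃)) -
      (1 + d₁) * (1 / 2 + e₂) ^ 2 - (1 + d₂) * (1 / 2 + e₃) ^ 2 - (1 + d₃) * (1 / 2 + e₁) ^ 2 -
      1 / 2| ≤ 10 * η := by
  have h0 : 0 ≤ η := (abs_nonneg _).trans h1
  have hq : η * η ≤ η / 100 := by nlinarith
  have hc : η * η * η ≤ η / 10000 := by nlinarith
  have a1 := abs_le.1 h1
  have a2 := abs_le.1 h2
  have a3 := abs_le.1 h3
  have a4 := abs_le.1 g1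
  have a5 := abs_le.1 g2
  have a6 := abs_le.1 g3
  have b1 := abs_le.1 (Edges_mul h1 h2)
  have b2 := abs_le.1 (Edges_mul h2 h3)
  have b3 := abs_le.1 (Edges_mul h3 h1)
  have b4 := abs_le.1 (Edges_mul g1 g2)
  have b5 := abs_le.1 (Edges_mul g2 g3)
  have b6 := abs_le.1 (Edges_mul g3 g1)
  have b7 := abs_le.1 (Edges_mul h1 g2)
  have b8 := abs_le.1 (Edges_mul h2 g3)
  have b9 := abs_le.1 (Edges_mul h3 g1)
  have c1 := abs_le.1 (Edges_mul g1 g1)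
  have c2 := abs_le.1 (Edges_mul g2 g2)
  have c3 := abs_le.1 (Edges_mul g3 g3)
  have c4 := abs_le.1 (Edges_mul (Edges_mul h1 h2) h3)
  have c5 := abs_le.1 (Edges_mul (Edges_mul g1 g2) g3)
  have c6 := abs_le.1 (Edges_mul h1 (Edges_mul g2 g2))
  have c7 := abs_le.1 (Edges_mul h2 (Edges_mul g3 g3))
  have c8 := abs_le.1 (Edges_mul h3 (Edges_mul g1 g1))
  have key : (1 + d₁) * (1 + d₂) * (1 + d₃) + 2 * ((1 / 2 + e₁) * (1 / 2 + e₂) * (1 / 2 + e₃)) -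
      (1 + d₁) * (1 / 2 + e₂) ^ 2 - (1 + d₂) * (1 / 2 + e₃) ^ 2 - (1 + d₃) * (1 / 2 + e₁) ^ 2 -
      1 / 2 = 3 / 4 * (d₁ + d₂ + d₃) - 1 / 2 * (e₁ + e₂ + e₃) + (d₁ * d₂ + d₂ * d₃ + d₃ * d₁) +
      (e₁ * e₂ + e₂ * e₃ + e₃ * e₁) - (d₁ * e₂ + d₂ * e₃ + d₃ * e₁) -
      (e₁ * e₁ + e₂ * e₂ + e₃ * e₃) + d₁ * d₂ * d₃ + 2 * (e₁ * e₂ * e₃) -
      (d₁ * (e₂ * e₂) + d₂ * (e₃ * e₃) + d₃ * (e₁ * e₁)) := by ring
  rw [key]
  generalize d₁ * d₂ * d₃ = m1 at c4 ⊢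
  generalize e₁ * e₂ * e₃ = m2 at c5 ⊢
  generalize d₁ * (e₂ * e₂) = m3 at c6 ⊢
  generalize d₂ * (e₃ * e₃) = m4 at c7 ⊢
  generalize d₃ * (e₁ * e₁) = m5 at c8 ⊢
  generalize d₁ * d₂ = n1 at b1 ⊢
  generalize d₂ * d₃ = n2 at b2 ⊢
  generalize d₃ * d₁ = n3 at b3 ⊢
  generalize e₁ * e₂ = n4 at b4 ⊢
  generalize e₂ * e₃ = n5 at b5 ⊢
  generalize e₃ * e₁ = n6 at b6 ⊢
  generalize d₁ * e₂ = n7 at b7 ⊢
  generalize d₂ * e₃ = n8 at b8 ⊢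
  generalize d₃ * e₁ = n9 at b9 ⊢
  generalize e₁ * e₁ = k1 at c1 ⊢
  generalize e₂ * e₂ = k2 at c2 ⊢
  generalize e₃ * e₃ = k3 at c3 ⊢
  rw [abs_le]
  constructor <;> linarith [a1.1, a1.2, a2.1, a2.2, a3.1, a3.2, a4.1, a4.2, a5.1, a5.2, a6.1, a6.2,
    b1.1, b1.2, b2.1, b2.2, b3.1, b3.2, b4.1, b4.2, b5.1, b5.2, b6.1, b6.2, b7.1, b7.2, b8.1, b8.2,
    b9.1, b9.2, c1.1, c1.2, c2.1, c2.2, c3.1, c3.2, c4.1, c4.2, c5.1, c5.2, c6.1, c6.2, c7.1, c7.2,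
    c8.1, c8.2]

theorem Edges_others (j : Fin 4) : ∃ k l m : Fin 4, j ≠ k ∧ j ≠ l ∧ j ≠ m ∧ k ≠ l ∧ k ≠ m ∧
    l ≠ m := by
  revert j
  decide

theorem Edges_others2 (l m : Fin 4) (h : l ≠ m) : ∃ j k : Fin 4, j ≠ k ∧ j ≠ l ∧ j ≠ m ∧ k ≠ l ∧
    k ≠ m := by
  revert l m
  decide

theorem Edges_nnP {P : Fin 4 → E3} {η : ℝ} (hη1 : η ≤ 1 / 100)
    (he : ∀ j k, j ≠ k → |‖P j - P k‖ ^ 2 - 1| ≤ η) (j : Fin 4) :
    |‖NN P j‖ ^ 2 - 3 / 4| ≤ 2 * η := by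
  obtain ⟨k, l, m, hjk, hjl, hjm, hkl, hkm, hlm⟩ := Edges_others j
  rw [norm_sq_NN P hjk hjl hjm hkl hkm hlm rfl rfl rfl]
  exact Edges_nn hη1 (he _ _ hkl) (he _ _ hkm) (he _ _ hlm)

/-- A positively oriented tetrahedron with edges near `1` is nearly regular. -/
theorem near_of_edges {P : Fin 4 → E3} {η : ℝ} (hη1 : η ≤ 1 / 100)
    (he : ∀ j k, j ≠ k → |‖P j - P k‖ ^ 2 - 1| ≤ η) (hv : 0 < tv P) :
    Near (10 * η) P (NN P) (tv P) := by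
  have h0 : 0 ≤ η := (abs_nonneg _).trans (he 0 1 (by decide))
  refine { isTet_NN hv with nn := ?_, ni := ?_, ee := ?_, vv := ?_ }
  · intro j
    have := Edges_nnP hη1 he j
    linarith
  · intro l m hlm
    obtain ⟨j, k, hjk, hjl, hjm, hkl, hkm⟩ := Edges_others2 l m hlm
    have h1 := norm_sq_NN_add P hjk hjl hjm hkl hkm hlm
    have h2 := Edges_add hη1 (he _ _ hjk.symm) (he _ _ hlm.symm) (he _ _ hkl) (he _ _ hjm)
      (he _ _ hkm) (he _ _ hjl)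
    rw [← h1, norm_add_sq_real] at h2
    have h3 := abs_le.1 (Edges_nnP hη1 he l)
    have h4 := abs_le.1 (Edges_nnP hη1 he m)
    have h5 := abs_le.1 h2
    rw [abs_le]
    constructor <;> linarith [h3.1, h3.2, h4.1, h4.2, h5.1, h5.2]
  · intro j k hjk
    have := he j k hjk
    linarith
  · have e10 := he 1 0 (by decide)
    have e20 := he 2 0 (by decide)
    have e30 := he 3 0 (by decide)
    have e12 := he 1 2 (by decide)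
    have e23 := he 2 3 (by decide)
    have e31 := he 3 1 (by decide)
    have i12 := Edges_inner (P 1) (P 2) (P 0)
    have i23 := Edges_inner (P 2) (P 3) (P 0)
    have i31 := Edges_inner (P 3) (P 1) (P 0)
    have a10 := abs_le.1 e10
    have a20 := abs_le.1 e20
    have a30 := abs_le.1 e30
    have a12 := abs_le.1 e12
    have a23 := abs_le.1 e23
    have a31 := abs_le.1 e31
    have g1 : |(inner ℝ (P 1 - P 0) (P 2 - P 0) : ℝ) - 1 / 2| ≤ 3 / 2 * η := by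
      rw [i12, abs_le]
      constructor <;> linarith [a10.1, a10.2, a20.1, a20.2, a12.1, a12.2]
    have g2 : |(inner ℝ (P 2 - P 0) (P 3 - P 0) : ℝ) - 1 / 2| ≤ 3 / 2 * η := by
      rw [i23, abs_le]
      constructor <;> linarith [a20.1, a20.2, a30.1, a30.2, a23.1, a23.2]
    have g3 : |(inner ℝ (P 3 - P 0) (P 1 - P 0) : ℝ) - 1 / 2| ≤ 3 / 2 * η := by
      rw [i31, abs_le]
      constructor <;> linarith [a30.1, a30.2, a10.1, a10.2, a31.1, a31.2]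
    have h1 := Edges_det hη1 e10 e20 e30 g1 g2 g3
    have h2 := tv_sq P
    refine le_trans (le_of_eq ?_) h1
    congr 1
    rw [h2]
    ring

end SanLoc
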