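/-
MP_72c0ec_gt, helper9: surface area and shadows along edges of a tetrahedron.
-/
import Pool.Agent.H.MP_72c0ec_gt.Loc.Edges
import Pool.Agent.H.MP_72c0ec_gt.Sym.Zono

set_option autoImplicit false

namespace SanLoc

open San SanSym MeasureTheory Set Metric Real

/-- `∫_{S²} |⟪N, u⟫| du = 2 π ‖N‖`. (`sphere_integral` with `g x = |⟪x, f 0⟫|`-type function:
`N = ‖N‖ f 0` for a suitable orthonormal basis `f`, `g v = |⟪v, e₁⟫|`, `e₁, e₂` orthonormal, and
`integral_abs_cos`.) -/
theorem sphere_abs (N : E3) :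
    ∫ u : sphere (0:E3) 1, |(inner ℝ N (u : E3) : ℝ)| ∂(volume : Measure E3).toSphere =
      2 * π * ‖N‖ := by
  obtain ⟨f, hf⟩ := exists_frame N
  have h := sphere_integral (fun v : E3 => ‖N‖ * |(inner ℝ v (f 0) : ℝ)|)
    (by
      intro c v hc
      simp only [inner_smul_left, conj_trivial]
      rw [abs_mul, abs_of_pos hc]
      ring) (f.reindex (Equiv.swap 0 2)) (f 0) (f 1)
  have h00 : (inner ℝ (f 0) (f 0) : ℝ) = 1 := by
    rw [real_inner_self_eq_norm_sq, f.orthonormal.1 0]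
    norm_num
  have h10 : (inner ℝ (f 1) (f 0) : ℝ) = 0 := f.orthonormal.2 (i := 1) (j := 0) (by decide)
  have e1 : ∀ a b : ℝ, (inner ℝ (a • f 0 + b • f 1) (f 0) : ℝ) = a := by
    intro a b
    rw [inner_add_left, inner_smul_left, inner_smul_left, h00, h10]
    simp
  have e2 : (f.reindex (Equiv.swap 0 2)) 0 = f 2 := by
    rw [OrthonormalBasis.reindex_apply]
    simp
  simp only [e1, e2] at h
  have e3 : ∀ u : sphere (0:E3) 1, |(inner ℝ N (u : E3) : ℝ)| =
      ‖N‖ * |(inner ℝ (f 2) (u : E3) : ℝ)| := by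
    intro u
    nth_rw 1 [hf]
    rw [inner_smul_left, conj_trivial, abs_mul, abs_of_nonneg (norm_nonneg N)]
  simp only [e3]
  rw [h, intervalIntegral.integral_const_mul, integral_abs_cos]
  ring

/-- A shadow contains a segment `p (p + a)` and the projections of `x, y`: its area is at least half of
`|det (a, x - y, u)|`. Proof: `zono_shadow` with `k = 1`, `a 0 = a`, `nn 0 = ± cr a u`
(`⟪cr a u, x - y⟫ = ⟪cr (x - y) a, u⟫`; `inner_cr_cyc`), `x 0 = x`, `y 0 = y` or exchanged; the hypothesis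
`hn` is `cr_norm_sq`. -/
theorem area_ge {K : Set E3} (hKc : IsCompact K) (hK : Convex ℝ K) (u : sphere (0:E3) 1)
    {p a x y : E3} (hp : p ∈ K) (hpa : p + a ∈ K) (hx : x ∈ K) (hy : y ∈ K) :
    |(inner ℝ (cr a (x - y)) (u : E3) : ℝ)| ≤ 2 * (volume (shadow K (u : E3))).toReal := by
  have hu : ‖(u : E3)‖ = 1 := norm_eq_of_mem_sphere u
  have key : ∀ x y : E3, x ∈ K → y ∈ K →
      (inner ℝ (cr a (u : E3)) (x - y) : ℝ) ≤ 2 * (volume (shadow K (u : E3))).toReal := by
    intro x y hx hy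
    have h := zono_shadow hKc hK u (x₀ := p) (a := fun _ => a) (nn := fun _ => cr a (u : E3))
      (x := fun _ => x) (y := fun _ => y) (k := 1)
      (by
        intro t ht
        rw [Finset.sum_range_one]
        have h1 := hK hp hpa (a := 1 - t 0) (b := t 0) (sub_nonneg.2 (ht 0).2) (ht 0).1 (by ring)
        have h2 : (1 - t 0) • p + t 0 • (p + a) = p + t 0 • a := by module
        rw [h2] at h1
        exact h1)
      (fun _ => inner_cr_right a (u : E3)) (fun _ => inner_cr_left a (u : E3))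
      (fun _ => by rw [cr_norm_sq, hu]; ring) (fun _ => hx) (fun _ => hy)
    rw [Finset.sum_range_one] at h
    exact h
  have e : (inner ℝ (cr a (x - y)) (u : E3) : ℝ) = inner ℝ (cr a (u : E3)) (y - x) := by
    rw [inner_cr_cyc a (u : E3), inner_cr_cyc (u : E3), cr_swap a (y - x), inner_neg_left,
      ← neg_sub x y]
    have e2 : cr a (-(x - y)) = -cr a (x - y) := by
      have := cr_smul_right (-1) a (x - y)
      rw [neg_smul, one_smul, neg_smul, one_smul] at this
      exact this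
    rw [e2, inner_neg_left, neg_neg]
  rw [e, abs_le]
  constructor
  · have h1 := key x y hx hy
    have h2 : (inner ℝ (cr a (u : E3)) (y - x) : ℝ) = -inner ℝ (cr a (u : E3)) (x - y) := by
      rw [← inner_neg_right, neg_sub]
    rw [h2]
    linarith
  · exact key y x hy hx

theorem AreaT_cont_abs (N : E3) : Continuous fun u : sphere (0:E3) 1 =>
    |(inner ℝ N (u : E3) : ℝ)| :=
  (continuous_const.inner continuous_subtype_val).abs

theorem AreaT_sum_abs {a b c d A : ℝ} (h : a + b + c + d = 0) (ha : |a| ≤ 2 * A) (hb : |b| ≤ 2 * A)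
    (hc : |c| ≤ 2 * A) (hd : |d| ≤ 2 * A) (hab : |a + b| ≤ 2 * A) (hac : |a + c| ≤ 2 * A)
    (had : |a + d| ≤ 2 * A) : (|a| + |b| + |c| + |d|) / 4 ≤ A := by
  rw [abs_le] at ha hb hc hd hab hac had
  obtain ⟨a1, a2⟩ := ha
  obtain ⟨b1, b2⟩ := hb
  obtain ⟨c1, c2⟩ := hc
  obtain ⟨d1, d2⟩ := hd
  obtain ⟨e1, e2⟩ := hab
  obtain ⟨f1, f2⟩ := hac
  obtain ⟨g1, g2⟩ := had
  rcases abs_cases a with ⟨h1, -⟩ | ⟨h1, -⟩ <;> rcases abs_cases b with ⟨h2, -⟩ | ⟨h2, -⟩ <;>
    rcases abs_cases c with ⟨h3, -⟩ | ⟨h3, -⟩ <;> rcases abs_cases d with ⟨h4, -⟩ | ⟨h4, -⟩ <;>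
    rw [h1, h2, h3, h4] <;> linarith

theorem AreaT_int4 {μ : Measure (sphere (0:E3) 1)} {A B C D : sphere (0:E3) 1 → ℝ}
    (hA : Integrable A μ) (hB : Integrable B μ) (hC : Integrable C μ) (hD : Integrable D μ) :
    ∫ u, (A u + B u + C u + D u) ∂μ = ∫ u, A u ∂μ + ∫ u, B u ∂μ + ∫ u, C u ∂μ + ∫ u, D u ∂μ := by
  have h1 := integral_add ((hA.add hB).add hC) hD
  have h2 := integral_add (hA.add hB) hC
  have h3 := integral_add hA hB
  simp only [Pi.add_apply] at h1 h2 h3
  rw [h1, h2, h3]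

theorem AreaT_sum_NN (P : Fin 4 → E3) : NN P 0 + NN P 1 + NN P 2 + NN P 3 = 0 := by
  simp only [NN, Matrix.cons_val]
  abel

theorem AreaT_norm_proj {a c e₁ e₂ : E3} (ha : a ≠ 0) (he : Orthonormal ℝ ![e₁, e₂])
    (h1 : (inner ℝ e₁ a : ℝ) = 0) (h2 : (inner ℝ e₂ a : ℝ) = 0) :
    √((inner ℝ c e₁ : ℝ) ^ 2 + (inner ℝ c e₂ : ℝ) ^ 2) = ‖cr a c‖ / ‖a‖ := by
  have ha0 : 0 < ‖a‖ := norm_pos_iff.2 ha
  have he1 : ‖e₁‖ = 1 := he.1 0
  have he2 : ‖e₂‖ = 1 := he.1 1
  have he12 : (inner ℝ e₁ e₂ : ℝ) = 0 := he.2 (i := 0) (j := 1) (by decide)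
  set e₃ : E3 := ‖a‖⁻¹ • a with he3
  have h3 : ‖e₃‖ = 1 := by
    rw [he3, norm_smul, norm_inv, norm_norm]
    field_simp
  have h13 : (inner ℝ e₁ e₃ : ℝ) = 0 := by rw [he3, inner_smul_right, h1, mul_zero]
  have h23 : (inner ℝ e₂ e₃ : ℝ) = 0 := by rw [he3, inner_smul_right, h2, mul_zero]
  have hon : Orthonormal ℝ ![e₁, e₂, e₃] := by
    constructor
    · intro i
      fin_cases i
      · exact he1
      · exact he2
      · exact h3
    · intro i j hij
      fin_cases i <;> fin_cases j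
      · exact absurd rfl hij
      · exact he12
      · exact h13
      · show inner ℝ e₂ e₁ = (0:ℝ)
        rw [real_inner_comm]; exact he12
      · exact absurd rfl hij
      · exact h23
      · show inner ℝ e₃ e₁ = (0:ℝ)
        rw [real_inner_comm]; exact h13
      · show inner ℝ e₃ e₂ = (0:ℝ)
        rw [real_inner_comm]; exact h23
      · exact absurd rfl hij
  have hspan : ⊤ ≤ Submodule.span ℝ (Set.range ![e₁, e₂, e₃]) := by
    rw [hon.linearIndependent.span_eq_top_of_card_eq_finrank (by simp)]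
  have h4 := (OrthonormalBasis.mk hon hspan).sum_sq_norm_inner_right c
  rw [Fin.sum_univ_three] at h4
  simp only [OrthonormalBasis.coe_mk, Real.norm_eq_abs, sq_abs, Matrix.cons_val] at h4
  have h5 : (inner ℝ e₃ c : ℝ) * ‖a‖ = inner ℝ a c := by
    rw [he3, inner_smul_left, conj_trivial]
    field_simp
  rw [Real.sqrt_eq_iff_eq_sq (by positivity) (by positivity), div_pow, eq_div_iff (by positivity),
    cr_norm_sq, ← h4, ← h5, real_inner_comm e₁ c, real_inner_comm e₂ c]
  ring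


/-- **Lower bound of the surface area of a tetrahedron.** Proof. Let `T` be the tetrahedron,
`n_l = ⟪NN P l, u⟫`, `Σ n_l = 0`. Claim: `Σ |n_l| / 4 ≤ area of the shadow`. By `area_ge` and `NN_eq_cr`,
`|n_l| ≤ 2 area` for all `l`, and by `NN_add_eq_cr`, `|n_l + n_m| ≤ 2 area` for all `l ≠ m`. The sum of
`|n_l|` is twice the sum of the positive ones; if one or three of the `n_l` are positive (or `≥ 0`)
then `Σ |n_l| = 2 |n_l|` for one `l`; if two are, then `Σ |n_l| = 2 |n_l + n_m|`; so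
`Σ |n_l| ≤ 4 area`. (In Lean: `Σ |n_l| = 2 max over the subsets`, case analysis on the signs with
`abs_cases` and `linarith`.) Integrate (`le_surfaceArea`, `sphere_abs`):
`surfaceArea T ≥ 1/π * Σ 2 π ‖N l‖ / 4 = Σ ‖N l‖ / 2`. -/
theorem surfaceArea_T_ge (P : Fin 4 → E3) :
    F0 (NN P) ≤ surfaceArea (convexHull ℝ (range P)) := by
  have hKc : IsCompact (convexHull ℝ (range P)) := (finite_range P).isCompact_convexHull ℝ
  have hK : Convex ℝ (convexHull ℝ (range P)) := convex_convexHull ℝ _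
  have hmem : ∀ i, P i ∈ convexHull ℝ (range P) := fun i => subset_convexHull ℝ _ ⟨i, rfl⟩
  have hi : ∀ N : E3, Integrable (fun u : sphere (0:E3) 1 => |(inner ℝ N (u : E3) : ℝ)|)
      (volume : Measure E3).toSphere := fun N =>
    (AreaT_cont_abs N).integrable_of_hasCompactSupport (HasCompactSupport.of_compactSpace _)
  have one : ∀ (u : sphere (0:E3) 1) (j k l m : Fin 4), j ≠ k → j ≠ l → j ≠ m → k ≠ l → k ≠ m →
      l ≠ m → |(inner ℝ (NN P j) (u : E3) : ℝ)| ≤
        2 * (volume (shadow (convexHull ℝ (range P)) (u : E3))).toReal := by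
    intro u j k l m h1 h2 h3 h4 h5 h6
    have h := area_ge hKc hK u (hmem k) (a := P l - P k) (x := P m) (y := P k)
      (by rw [add_sub_cancel]; exact hmem l) (hmem m) (hmem k)
    rcases NN_eq_cr P h1 h2 h3 h4 h5 h6 with h7 | h7
    · rw [h7]; exact h
    · rw [h7, inner_neg_left, abs_neg]; exact h
  have two : ∀ (u : sphere (0:E3) 1) (j k l m : Fin 4), j ≠ k → j ≠ l → j ≠ m → k ≠ l → k ≠ m →
      l ≠ m → |(inner ℝ (NN P l) (u : E3) : ℝ) + inner ℝ (NN P m) (u : E3)| ≤
        2 * (volume (shadow (convexHull ℝ (range P)) (u : E3))).toReal := by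
    intro u j k l m h1 h2 h3 h4 h5 h6
    have h := area_ge hKc hK u (hmem j) (a := P k - P j) (x := P m) (y := P l)
      (by rw [add_sub_cancel]; exact hmem k) (hmem m) (hmem l)
    rw [← inner_add_left]
    rcases NN_add_eq_cr P h1 h2 h3 h4 h5 h6 with h7 | h7
    · rw [h7]; exact h
    · rw [h7, inner_neg_left, abs_neg]; exact h
  have h := le_surfaceArea hKc (F := fun u : sphere (0:E3) 1 =>
    (|(inner ℝ (NN P 0) (u : E3) : ℝ)| + |(inner ℝ (NN P 1) (u : E3) : ℝ)| +
      |(inner ℝ (NN P 2) (u : E3) : ℝ)| + |(inner ℝ (NN P 3) (u : E3) : ℝ)|) / 4)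
    (((((hi _).add (hi _)).add (hi _)).add (hi _)).div_const 4)
    (fun u => by positivity)
    (fun u => by
      refine AreaT_sum_abs ?_ (one u 0 1 2 3 (by decide) (by decide) (by decide) (by decide)
        (by decide) (by decide)) (one u 1 0 2 3 (by decide) (by decide) (by decide) (by decide)
        (by decide) (by decide)) (one u 2 0 1 3 (by decide) (by decide) (by decide) (by decide)
        (by decide) (by decide)) (one u 3 0 1 2 (by decide) (by decide) (by decide) (by decide)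
        (by decide) (by decide)) (two u 2 3 0 1 (by decide) (by decide) (by decide) (by decide)
        (by decide) (by decide)) (two u 1 3 0 2 (by decide) (by decide) (by decide) (by decide)
        (by decide) (by decide)) (two u 1 2 0 3 (by decide) (by decide) (by decide) (by decide)
        (by decide) (by decide))
      rw [← inner_add_left, ← inner_add_left, ← inner_add_left, AreaT_sum_NN, inner_zero_left])
  refine le_trans (le_of_eq ?_) h
  rw [integral_div, AreaT_int4 (hi _) (hi _) (hi _) (hi _), sphere_abs, sphere_abs,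
    sphere_abs, sphere_abs, F0]
  field_simp
  ring

/-- **The perimeter of the shadow along an edge.** Proof. `perim_edge` (namespace `San`, file
`Upper.lean`) with `A = P j`, `B = P k`, `C = P l`, `D = P m` (the hull of `range P` is the hull of
`{P j, P k, P l, P m}`). With `a = P k - P j`, for a vector `c`:
`√(⟪c, e₁⟫² + ⟪c, e₂⟫²) = ‖cr a c‖ / ‖a‖` (extend `e₁, e₂` by `a / ‖a‖` to an orthonormal basis,
`‖c‖² = ⟪c, e₁⟫² + ⟪c, e₂⟫² + ⟪c, a⟫² / ‖a‖²`, `cr_norm_sq`). For `c = P l - P j` this is `‖N m‖ / ‖a‖`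
(`NN_eq_cr`), for `P m - P j` it is `‖N l‖ / ‖a‖`, for `P l - P m` it is `‖N l + N m‖ / ‖a‖`
(`NN_add_eq_cr`). -/
theorem perim_T (P : Fin 4 → E3) {j k l m : Fin 4}
    (hjk : j ≠ k) (hjl : j ≠ l) (hjm : j ≠ m) (hkl : k ≠ l) (hkm : k ≠ m) (hlm : l ≠ m)
    (hne : P k ≠ P j) {e₁ e₂ : E3} (he : Orthonormal ℝ ![e₁, e₂])
    (h1 : (inner ℝ e₁ (P k - P j) : ℝ) = 0) (h2 : (inner ℝ e₂ (P k - P j) : ℝ) = 0) :
    shadowPerimeter (convexHull ℝ (range P)) e₁ e₂ = LT P (NN P) j k l m := by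
  have hr : range P = {P j, P k, P l, P m} := by
    have hall : ∀ i : Fin 4, i = j ∨ i = k ∨ i = l ∨ i = m := by
      intro i
      omega
    ext x
    simp only [mem_range, mem_insert_iff, mem_singleton_iff]
    constructor
    · rintro ⟨i, rfl⟩
      rcases hall i with h | h | h | h <;> rw [h] <;> simp
    · rintro (h | h | h | h) <;> rw [h] <;> exact ⟨_, rfl⟩
  have ha : P k - P j ≠ 0 := sub_ne_zero.2 hne
  rw [hr, perim_edge e₁ e₂ (P j) (P k) (P l) (P m) (by rw [real_inner_comm]; exact h1)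
    (by rw [real_inner_comm]; exact h2), AreaT_norm_proj ha he h1 h2, AreaT_norm_proj ha he h1 h2,
    AreaT_norm_proj ha he h1 h2, LT]
  have e1 : ‖cr (P k - P j) (P l - P j)‖ = ‖NN P m‖ := by
    rcases NN_eq_cr P (j := m) (k := j) (l := k) (m := l) hjm.symm hkm.symm hlm.symm hjk hjl hkl
      with h | h
    · rw [h]
    · rw [h, norm_neg]
  have e2 : ‖cr (P k - P j) (P m - P j)‖ = ‖NN P l‖ := by
    rcases NN_eq_cr P (j := l) (k := j) (l := k) (m := m) hjl.symm hkl.symm hlm hjk hjm hkm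
      with h | h
    · rw [h]
    · rw [h, norm_neg]
  have e3 : ‖cr (P k - P j) (P l - P m)‖ = ‖NN P l + NN P m‖ := by
    have e4 : cr (P k - P j) (P l - P m) = -cr (P k - P j) (P m - P l) := by
      have h5 := cr_smul_right (-1) (P k - P j) (P m - P l)
      rw [neg_smul, one_smul, neg_smul, one_smul, neg_sub] at h5
      exact h5
    rw [e4, norm_neg]
    rcases NN_add_eq_cr P hjk hjl hjm hkl hkm hlm with h | h
    · rw [h]
    · rw [h, norm_neg]
  rw [e1, e2, e3]
  ring

end SanLoc
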