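/-
MP_72c0ec_gt, helper9: the surface area of a tetrahedron, upper bound.
-/
import Pool.Agent.H.MP_72c0ec_gt.Loc.AreaT
import Pool.Agent.H.MP_72c0ec_gt.Loc.Dir

set_option autoImplicit false

namespace SanLoc

open San SanSym MeasureTheory Set Metric Real
open scoped Pointwise

theorem AreaEq_std : volume {z : ℝ × ℝ | 0 ≤ z.1 ∧ 0 ≤ z.2 ∧ z.1 + z.2 ≤ 1} ≤
    ENNReal.ofReal (2⁻¹) := by
  have hm : MeasurableSet {z : ℝ × ℝ | 0 ≤ z.1 ∧ 0 ≤ z.2 ∧ z.1 + z.2 ≤ 1} := by
    have hc : IsClosed {z : ℝ × ℝ | 0 ≤ z.1 ∧ 0 ≤ z.2 ∧ z.1 + z.2 ≤ 1} :=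
      (isClosed_le continuous_const continuous_fst).inter
        ((isClosed_le continuous_const continuous_snd).inter
          (isClosed_le (continuous_fst.add continuous_snd) continuous_const))
    exact hc.measurableSet
  rw [Measure.volume_eq_prod, Measure.prod_apply hm]
  have h1 : ∀ x : ℝ, volume (Prod.mk x ⁻¹' {z : ℝ × ℝ | 0 ≤ z.1 ∧ 0 ≤ z.2 ∧ z.1 + z.2 ≤ 1}) ≤
      (Icc (0:ℝ) 1).indicator (fun x => ENNReal.ofReal (1 - x)) x := by
    intro x
    by_cases hx : x ∈ Icc (0:ℝ) 1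
    · rw [indicator_of_mem hx]
      have h2 : Prod.mk x ⁻¹' {z : ℝ × ℝ | 0 ≤ z.1 ∧ 0 ≤ z.2 ∧ z.1 + z.2 ≤ 1} ⊆ Icc 0 (1 - x) := by
        rintro y ⟨-, h3, h4⟩
        exact ⟨h3, by linarith⟩
      refine (measure_mono h2).trans ?_
      rw [Real.volume_Icc, sub_zero]
    · rw [indicator_of_notMem hx]
      have h2 : Prod.mk x ⁻¹' {z : ℝ × ℝ | 0 ≤ z.1 ∧ 0 ≤ z.2 ∧ z.1 + z.2 ≤ 1} = ∅ := by
        rw [eq_empty_iff_forall_notMem]
        rintro y ⟨h3, h4, h5⟩
        exact hx ⟨h3, by simp only at h4 h5; linarith⟩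
      rw [h2, measure_empty]
  refine (lintegral_mono h1).trans (le_of_eq ?_)
  rw [lintegral_indicator measurableSet_Icc, ← ofReal_integral_eq_lintegral_ofReal]
  · rw [integral_Icc_eq_integral_Ioc, ← intervalIntegral.integral_of_le zero_le_one,
      intervalIntegral.integral_sub intervalIntegrable_const intervalIntegral.intervalIntegrable_id,
      integral_id, intervalIntegral.integral_const]
    norm_num
  · exact (continuous_const.sub continuous_id).integrableOn_Icc
  · refine (ae_restrict_iff' measurableSet_Icc).2 (Filter.Eventually.of_forall fun x hx => ?_)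
    exact sub_nonneg.2 hx.2

/-- The closed triangle `0, p, q` has area at most `|det (p, q)| / 2`. Proof: it is the image of
`{(x, y) | 0 ≤ x, 0 ≤ y, x + y ≤ 1}` (area `1/2`) under the linear map `(x, y) ↦ x p + y q`
(`Measure.addHaar_image_linearMap`). -/
theorem tri_closed (p q : ℝ × ℝ) :
    volume ((fun z : ℝ × ℝ => z.1 • p + z.2 • q) '' {z | 0 ≤ z.1 ∧ 0 ≤ z.2 ∧ z.1 + z.2 ≤ 1}) ≤
      ENNReal.ofReal (|p.1 * q.2 - p.2 * q.1| / 2) := by
  set f : ℝ × ℝ →ₗ[ℝ] ℝ × ℝ := Matrix.toLin (Module.Basis.finTwoProd ℝ) (Module.Basis.finTwoProd ℝ)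
    !![p.1, q.1; p.2, q.2] with hf
  have hfa : ∀ z : ℝ × ℝ, f z = z.1 • p + z.2 • q := by
    intro z
    rw [hf, Matrix.toLin_finTwoProd_apply]
    ext
    · simp only [Prod.fst_add, Prod.smul_fst, smul_eq_mul]
      ring
    · simp only [Prod.snd_add, Prod.smul_snd, smul_eq_mul]
      ring
  have hdet : LinearMap.det f = p.1 * q.2 - p.2 * q.1 := by
    rw [hf, LinearMap.det_toLin, Matrix.det_fin_two_of]
    ring
  have himg : (fun z : ℝ × ℝ => z.1 • p + z.2 • q) '' {z | 0 ≤ z.1 ∧ 0 ≤ z.2 ∧ z.1 + z.2 ≤ 1} =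
      f '' {z | 0 ≤ z.1 ∧ 0 ≤ z.2 ∧ z.1 + z.2 ≤ 1} := image_congr fun z _ => (hfa z).symm
  rw [himg, Measure.addHaar_image_linearMap, hdet, div_eq_mul_inv, ENNReal.ofReal_mul (abs_nonneg _)]
  exact mul_le_mul_right AreaEq_std _

theorem AreaEq_expand (f : OrthonormalBasis (Fin 3) ℝ E3) (x : E3) :
    x = (inner ℝ x (f 0) : ℝ) • f 0 + (inner ℝ x (f 1) : ℝ) • f 1 + (inner ℝ x (f 2) : ℝ) • f 2 := by
  have h := f.sum_repr x
  rw [Fin.sum_univ_three, f.repr_apply_apply, f.repr_apply_apply, f.repr_apply_apply] at h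
  rw [real_inner_comm (f 0) x, real_inner_comm (f 1) x, real_inner_comm (f 2) x]
  exact h.symm

theorem AreaEq_det {u : E3} {f : OrthonormalBasis (Fin 3) ℝ E3} (hf : u = f 2) (a b : E3) :
    |(inner ℝ a (f 0) : ℝ) * inner ℝ b (f 1) - inner ℝ a (f 1) * inner ℝ b (f 0)| =
      |(inner ℝ (cr a b) u : ℝ)| := by
  subst hf
  have h1 : (inner ℝ (cr (f 0) (f 1)) (f 2) : ℝ) ^ 2 = 1 := by
    have h2 := f.sum_sq_norm_inner_right (cr (f 0) (f 1))
    rw [Fin.sum_univ_three] at h2
    simp only [Real.norm_eq_abs, sq_abs] at h2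
    have h3 : (inner ℝ (f 0) (cr (f 0) (f 1)) : ℝ) = 0 := by
      rw [real_inner_comm]; exact inner_cr_left _ _
    have h4 : (inner ℝ (f 1) (cr (f 0) (f 1)) : ℝ) = 0 := by
      rw [real_inner_comm]; exact inner_cr_right _ _
    have h5 : (inner ℝ (f 0) (f 1) : ℝ) = 0 := f.orthonormal.2 (by decide)
    rw [h3, h4, cr_norm_sq, f.orthonormal.1 0, f.orthonormal.1 1, h5, real_inner_comm] at h2
    linarith
  have h2 : (inner ℝ (cr a b) (f 2) : ℝ) =
      (inner ℝ a (f 0) * inner ℝ b (f 1) - inner ℝ a (f 1) * inner ℝ b (f 0)) *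
        inner ℝ (cr (f 0) (f 1)) (f 2) := by
    have ha := AreaEq_expand f a
    have hb := AreaEq_expand f b
    set a0 : ℝ := inner ℝ a (f 0)
    set a1 : ℝ := inner ℝ a (f 1)
    set a2 : ℝ := inner ℝ a (f 2)
    set b0 : ℝ := inner ℝ b (f 0)
    set b1 : ℝ := inner ℝ b (f 1)
    set b2 : ℝ := inner ℝ b (f 2)
    rw [ha, hb]
    have h00 : (inner ℝ (cr (f 0) (f 0)) (f 2) : ℝ) = 0 := by
      rw [inner_cr_cyc, inner_cr_left]
    have h11 : (inner ℝ (cr (f 1) (f 1)) (f 2) : ℝ) = 0 := by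
      rw [inner_cr_cyc, inner_cr_left]
    have h10 : (inner ℝ (cr (f 1) (f 0)) (f 2) : ℝ) = -inner ℝ (cr (f 0) (f 1)) (f 2) := by
      rw [cr_swap, inner_neg_left]
    simp only [cr_add_left, cr_add_right, cr_smul_left, cr_smul_right, inner_add_left,
      inner_smul_left, conj_trivial, inner_cr_right, inner_cr_left, h00, h11, h10]
    ring
  have h3 : |(inner ℝ (cr (f 0) (f 1)) (f 2) : ℝ)| = 1 := by
    have h4 : |(inner ℝ (cr (f 0) (f 1)) (f 2) : ℝ)| ^ 2 = 1 := by rw [sq_abs]; exact h1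
    exact (pow_eq_one_iff_of_nonneg (abs_nonneg _) two_ne_zero).1 h4
  rw [h2, abs_mul, h3, mul_one]

/-- The area of the shadow of a triangle. Proof. Let `f 0, f 1, f 2` be an orthonormal basis with
`f 2 = u` (`exists_frame`); the volume of the shadow is the volume of the `flatShadow` with respect to
`f 0, f 1` (`volume_flatShadow` of `Sym/Surf.lean`), which is, up to the translation by the
coordinates of `A`, the closed triangle `0, p, q` with `p`, `q` the coordinates of `B - A`, `C - A`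
(a point of the triangle is `A + s (B - A) + t (C - A)`, `s, t ≥ 0`, `s + t ≤ 1`; convex hull of three points).
`tri_closed`, and `|p.1 q.2 - p.2 q.1| = |⟪cr (B - A) (C - A), u⟫|`: the determinant of the matrix
`(B - A, C - A, u)` in the orthonormal basis `f` is `±` the triple product. (For instance
`p.1 q.2 - p.2 q.1` squared is the Gram determinant of the projections of `B - A`, `C - A`, and
`⟪cr a b, u⟫² = ‖a'‖² ‖b'‖² - ⟪a', b'⟫²` for the projections `a' = a - ⟪a, u⟫ u` etc.: expand, using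
`⟪cr a b, u⟫ = ⟪cr a' b', u⟫`, `cr a' b'` is parallel to `u`, so this is `± ‖cr a' b'‖`.) -/
theorem shadow_tri (u : sphere (0:E3) 1) (A B C : E3) :
    volume (shadow (convexHull ℝ {A, B, C}) (u : E3)) ≤
      ENNReal.ofReal (|(inner ℝ (cr (B - A) (C - A)) (u : E3) : ℝ)| / 2) := by
  obtain ⟨f, hf⟩ := exists_frame (u : E3)
  have hu : ‖(u : E3)‖ = 1 := norm_eq_of_mem_sphere u
  rw [hu, one_smul] at hf
  have hon : Orthonormal ℝ ![f 0, f 1, (u : E3)] := by
    have h : ![f 0, f 1, (u : E3)] = f := by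
      rw [hf]
      funext i
      fin_cases i <;> rfl
    rw [h]
    exact f.orthonormal
  rw [← volume_flatShadow _ u hon]
  set p : ℝ × ℝ := ((inner ℝ (B - A) (f 0) : ℝ), (inner ℝ (B - A) (f 1) : ℝ)) with hp
  set q : ℝ × ℝ := ((inner ℝ (C - A) (f 0) : ℝ), (inner ℝ (C - A) (f 1) : ℝ)) with hq
  set c : ℝ × ℝ := ((inner ℝ A (f 0) : ℝ), (inner ℝ A (f 1) : ℝ)) with hc
  have hsub : flatShadow (convexHull ℝ {A, B, C}) (f 0) (f 1) ⊆
      c +ᵥ ((fun z : ℝ × ℝ => z.1 • p + z.2 • q) '' {z | 0 ≤ z.1 ∧ 0 ≤ z.2 ∧ z.1 + z.2 ≤ 1}) := by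
    rintro _ ⟨x, hx, rfl⟩
    rw [convexHull_insert ⟨B, by simp⟩, convexHull_pair] at hx
    rw [mem_convexJoin] at hx
    obtain ⟨A', hA', y, hy, hxy⟩ := hx
    rw [mem_singleton_iff] at hA'
    subst hA'
    obtain ⟨b1, b2, h1, h2, h3, rfl⟩ := hy
    obtain ⟨a1, a2, h4, h5, h6, rfl⟩ := hxy
    refine ⟨_, ⟨(a2 * b1, a2 * b2), ⟨mul_nonneg h5 h1, mul_nonneg h5 h2, ?_⟩, rfl⟩, ?_⟩
    · simp only
      rw [← mul_add, h3]
      linarith
    · have h7 : a1 = 1 - a2 := by linarith
      have h8 : b1 = 1 - b2 := by linarith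
      simp only [hp, hq, hc, vadd_eq_add]
      ext
      · simp only [Prod.fst_add, Prod.smul_fst, smul_eq_mul, inner_add_left, inner_smul_left,
          inner_sub_left, conj_trivial]
        rw [h7, h8]
        ring
      · simp only [Prod.snd_add, Prod.smul_snd, smul_eq_mul, inner_add_left, inner_smul_left,
          inner_sub_left, conj_trivial]
        rw [h7, h8]
        ring
  refine (measure_mono hsub).trans ?_
  rw [measure_vadd]
  refine (tri_closed p q).trans (le_of_eq ?_)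
  congr 2
  exact AreaEq_det hf (B - A) (C - A)

/-- The points of the tetrahedron lie below an upper face. Proof. Let `n_k = ⟪N k, u⟫`. A point `x` of the
tetrahedron is `Σ λ_k P_k`, `λ_k ≥ 0`, `Σ λ_k = 1` (`convexHull_range_eq_exists_affineCombination` or
`mem_convexHull_range`-like lemmas; `Finset.mem_convexHull'`, `convexHull_eq`). For real `t`,
`x + t u = Σ (λ_k - t n_k / v) P_k` by `expand`, and the coefficients sum up to `1` by `sumN`. Not all
`n_k` are `≤ 0`: otherwise all are `0` by `sumN` and `u = 0` by `expand`. Take `k` with `n_k > 0` such that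
`t = λ_k v / n_k ≥ 0` is minimal; then all the coefficients of `x + t u` are `≥ 0` and that of `P_k` is `0`. The
projections of `x` and `x + t u` along `u` are equal. -/
theorem upper_face {P N : Fin 4 → E3} {v : ℝ} (h : IsTet P N v) (u : sphere (0:E3) 1) :
    shadow (convexHull ℝ (range P)) (u : E3) ⊆
      ⋃ k ∈ {k : Fin 4 | 0 < (inner ℝ (N k) (u : E3) : ℝ)},
        shadow (convexHull ℝ (P '' {i | i ≠ k})) (u : E3) := by
  rintro _ ⟨x, hx, rfl⟩
  have hv := h.pos
  have hsub : convexHull ℝ (range P) ⊆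
      (fun w : Fin 4 → ℝ => ∑ i, w i • P i) '' stdSimplex ℝ (Fin 4) := by
    refine convexHull_min ?_ ?_
    · rintro _ ⟨i, rfl⟩
      refine ⟨Pi.single i 1, single_mem_stdSimplex ℝ i, ?_⟩
      simp only
      rw [Finset.sum_eq_single i]
      · rw [Pi.single_eq_same, one_smul]
      · intro j _ hj
        rw [Pi.single_eq_of_ne hj, zero_smul]
      · intro hi
        exact absurd (Finset.mem_univ i) hi
    · have h1 := (convex_stdSimplex ℝ (Fin 4)).is_linear_image (f := fun w : Fin 4 → ℝ =>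
        ∑ i, w i • P i) ⟨fun a b => by
          simp only [Pi.add_apply, add_smul, Finset.sum_add_distrib], fun c a => by
          simp only [Pi.smul_apply, smul_eq_mul, mul_smul, Finset.smul_sum]⟩
      exact h1
  obtain ⟨w, ⟨hw0, hw1⟩, rfl⟩ := hsub hx
  have hsum : ∑ i, (inner ℝ (N i) (u : E3) : ℝ) = 0 := by
    rw [Fin.sum_univ_four, ← inner_add_left, ← inner_add_left, ← inner_add_left, h.sumN,
      inner_zero_left]
  have hne : (Finset.univ.filter fun k : Fin 4 => 0 < (inner ℝ (N k) (u : E3) : ℝ)).Nonempty := by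
    by_contra hcon
    rw [Finset.not_nonempty_iff_eq_empty, Finset.filter_eq_empty_iff] at hcon
    have h1 : ∀ i, (inner ℝ (N i) (u : E3) : ℝ) ≤ 0 := fun i => not_lt.1 (hcon (Finset.mem_univ i))
    have h2 : ∀ i, (inner ℝ (N i) (u : E3) : ℝ) = 0 := by
      intro i
      have h3 := (Finset.sum_eq_zero_iff_of_nonpos fun i _ => h1 i).1 hsum
      exact h3 i (Finset.mem_univ i)
    have h3 := h.expand (u : E3)
    simp only [h2, zero_div, neg_zero, zero_smul, Finset.sum_const_zero] at h3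
    have h4 : ‖(u : E3)‖ = 1 := norm_eq_of_mem_sphere u
    rw [h3, norm_zero] at h4
    exact zero_ne_one h4
  obtain ⟨k, hk, hmin⟩ := Finset.exists_min_image _
    (fun k : Fin 4 => w k * v / (inner ℝ (N k) (u : E3) : ℝ)) hne
  have hk' : 0 < (inner ℝ (N k) (u : E3) : ℝ) := (Finset.mem_filter.1 hk).2
  set t : ℝ := w k * v / (inner ℝ (N k) (u : E3) : ℝ) with ht
  have ht0 : 0 ≤ t := div_nonneg (mul_nonneg (hw0 k) hv.le) hk'.le
  set μ : Fin 4 → ℝ := fun i => w i - t * (inner ℝ (N i) (u : E3) : ℝ) / v with hμ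
  have hμ0 : ∀ i, 0 ≤ μ i := by
    intro i
    simp only [hμ]
    rcases le_or_gt (inner ℝ (N i) (u : E3) : ℝ) 0 with hi | hi
    · have h1 : t * (inner ℝ (N i) (u : E3) : ℝ) / v ≤ 0 :=
        div_nonpos_of_nonpos_of_nonneg (mul_nonpos_of_nonneg_of_nonpos ht0 hi) hv.le
      have h2 := hw0 i
      linarith
    · have h1 := hmin i (Finset.mem_filter.2 ⟨Finset.mem_univ i, hi⟩)
      rw [le_div_iff₀ hi] at h1
      rw [sub_nonneg, div_le_iff₀ hv]
      exact h1
  have hμk : μ k = 0 := by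
    simp only [hμ, ht]
    field_simp
    ring
  have hμ1 : ∑ i, μ i = 1 := by
    simp only [hμ]
    rw [Finset.sum_sub_distrib, hw1, ← Finset.sum_div, ← Finset.mul_sum, hsum]
    simp
  have hsumP : ∑ i, μ i • P i = (∑ i, w i • P i) + t • (u : E3) := by
    have h1 := h.expand (u : E3)
    have h2 : t • (u : E3) = ∑ i, (t * -((inner ℝ (N i) (u : E3) : ℝ) / v)) • P i := by
      conv_lhs => rw [h1]
      rw [Finset.smul_sum]
      simp only [smul_smul]
    rw [h2, ← Finset.sum_add_distrib]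
    refine Finset.sum_congr rfl fun i _ => ?_
    rw [← add_smul]
    congr 1
    simp only [hμ]
    ring
  rw [mem_iUnion₂]
  refine ⟨k, hk', (∑ i, w i • P i) + t • (u : E3), ?_, ?_⟩
  · rw [← hsumP]
    have h1 : ∑ i, μ i • P i = ∑ i : {i : Fin 4 // i ≠ k}, μ i • P i := by
      rw [← Finset.sum_subtype (Finset.univ.filter fun i => i ≠ k) (by simp) (fun i => μ i • P i),
        Finset.sum_filter]
      refine Finset.sum_congr rfl fun i _ => ?_
      by_cases hi : i = k
      · rw [if_neg (not_not.2 hi), hi, hμk, zero_smul]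
      · rw [if_pos hi]
    have h2 : ∑ i : {i : Fin 4 // i ≠ k}, μ i = 1 := by
      rw [← hμ1, ← Finset.sum_subtype (Finset.univ.filter fun i => i ≠ k) (by simp) (fun i => μ i),
        Finset.sum_filter]
      refine Finset.sum_congr rfl fun i _ => ?_
      by_cases hi : i = k
      · rw [if_neg (not_not.2 hi), hi, hμk]
      · rw [if_pos hi]
    exact mem_convexHull_of_exists_fintype (fun i : {i : Fin 4 // i ≠ k} => μ i)
      (fun i : {i : Fin 4 // i ≠ k} => P i) (fun i => hμ0 i) h2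
      (fun i => ⟨i, i.2, rfl⟩) h1.symm
  · rw [map_add, map_smul, Submodule.orthogonalProjectionOnto_orthogonalComplement_singleton_eq_zero,
      smul_zero, add_zero]

/-- `upper_face`, `shadow_tri` (with `NN_eq_cr`), and `Σ_k |n_k| = 2 Σ_{n_k > 0} n_k`. -/
theorem shadow_T_le {P : Fin 4 → E3} (h : 0 < tv P) (u : sphere (0:E3) 1) :
    volume (shadow (convexHull ℝ (range P)) (u : E3)) ≤
      ENNReal.ofReal ((|(inner ℝ (NN P 0) (u : E3) : ℝ)| + |(inner ℝ (NN P 1) (u : E3) : ℝ)| +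
        |(inner ℝ (NN P 2) (u : E3) : ℝ)| + |(inner ℝ (NN P 3) (u : E3) : ℝ)|) / 4) := by
  have hface : ∀ k l m n : Fin 4, k ≠ l → k ≠ m → k ≠ n → l ≠ m → l ≠ n → m ≠ n →
      volume (shadow (convexHull ℝ (P '' {i | i ≠ k})) (u : E3)) ≤
        ENNReal.ofReal (|(inner ℝ (NN P k) (u : E3) : ℝ)| / 2) := by
    intro k l m n h1 h2 h3 h4 h5 h6
    have hset : P '' {i | i ≠ k} = {P l, P m, P n} := by
      have h7 : {i : Fin 4 | i ≠ k} = {l, m, n} := by
        ext i
        simp only [mem_ofPred_eq, mem_insert_iff, mem_singleton_iff]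
        omega
      rw [h7, image_insert_eq, image_pair]
    rw [hset]
    refine (shadow_tri u (P l) (P m) (P n)).trans (le_of_eq ?_)
    congr 2
    rcases NN_eq_cr P h1 h2 h3 h4 h5 h6 with h7 | h7
    · rw [h7]
    · rw [h7, inner_neg_left, abs_neg]
  have hface' : ∀ k : Fin 4, volume (shadow (convexHull ℝ (P '' {i | i ≠ k})) (u : E3)) ≤
        ENNReal.ofReal (|(inner ℝ (NN P k) (u : E3) : ℝ)| / 2) := by
    intro k
    fin_cases k
    · exact hface 0 1 2 3 (by decide) (by decide) (by decide) (by decide) (by decide) (by decide)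
    · exact hface 1 0 2 3 (by decide) (by decide) (by decide) (by decide) (by decide) (by decide)
    · exact hface 2 0 1 3 (by decide) (by decide) (by decide) (by decide) (by decide) (by decide)
    · exact hface 3 0 1 2 (by decide) (by decide) (by decide) (by decide) (by decide) (by decide)
  have h1 := upper_face (isTet_NN h) u
  have h2 : (⋃ k ∈ {k : Fin 4 | 0 < (inner ℝ (NN P k) (u : E3) : ℝ)},
      shadow (convexHull ℝ (P '' {i | i ≠ k})) (u : E3)) =
      ⋃ k ∈ (Finset.univ.filter fun k : Fin 4 => 0 < (inner ℝ (NN P k) (u : E3) : ℝ)),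
        shadow (convexHull ℝ (P '' {i | i ≠ k})) (u : E3) := by
    ext y
    simp
  rw [h2] at h1
  refine (measure_mono h1).trans ((measure_biUnion_finset_le _ _).trans ?_)
  refine (Finset.sum_le_sum fun k _ => hface' k).trans (le_of_eq ?_)
  rw [← ENNReal.ofReal_sum_of_nonneg (fun k _ => by positivity)]
  congr 1
  rw [Finset.sum_filter, Fin.sum_univ_four]
  have hsum : (inner ℝ (NN P 0) (u : E3) : ℝ) + inner ℝ (NN P 1) (u : E3) +
      inner ℝ (NN P 2) (u : E3) + inner ℝ (NN P 3) (u : E3) = 0 := by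
    rw [← inner_add_left, ← inner_add_left, ← inner_add_left, AreaT_sum_NN, inner_zero_left]
  generalize (inner ℝ (NN P 0) (u : E3) : ℝ) = a at *
  generalize (inner ℝ (NN P 1) (u : E3) : ℝ) = b at *
  generalize (inner ℝ (NN P 2) (u : E3) : ℝ) = c at *
  generalize (inner ℝ (NN P 3) (u : E3) : ℝ) = d at *
  have key : ∀ x : ℝ, (if 0 < x then |x| / 2 else 0) = (|x| + x) / 4 := by
    intro x
    split_ifs with hx
    · rw [abs_of_pos hx]; ring
    · rw [abs_of_nonpos (not_lt.1 hx)]; ring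
  rw [key, key, key, key]
  linarith

/-- Integrate over the sphere (`sphere_abs`; `ofReal_integral_eq_lintegral_ofReal`). -/
theorem surfaceArea_T_le {P : Fin 4 → E3} (h : 0 < tv P) :
    surfaceArea (convexHull ℝ (range P)) ≤ F0 (NN P) := by
  have hi : ∀ N : E3, Integrable (fun u : sphere (0:E3) 1 => |(inner ℝ N (u : E3) : ℝ)|)
      (volume : Measure E3).toSphere := fun N =>
    (AreaT_cont_abs N).integrable_of_hasCompactSupport (HasCompactSupport.of_compactSpace _)
  have hF : Integrable (fun u : sphere (0:E3) 1 =>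
      (|(inner ℝ (NN P 0) (u : E3) : ℝ)| + |(inner ℝ (NN P 1) (u : E3) : ℝ)| +
        |(inner ℝ (NN P 2) (u : E3) : ℝ)| + |(inner ℝ (NN P 3) (u : E3) : ℝ)|) / 4)
      (volume : Measure E3).toSphere :=
    ((((hi _).add (hi _)).add (hi _)).add (hi _)).div_const 4
  have h1 : (∫⁻ u : sphere (0:E3) 1, volume (shadow (convexHull ℝ (range P)) u)
      ∂(volume : Measure E3).toSphere) ≤ ENNReal.ofReal (∫ u : sphere (0:E3) 1,
        (|(inner ℝ (NN P 0) (u : E3) : ℝ)| + |(inner ℝ (NN P 1) (u : E3) : ℝ)| +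
        |(inner ℝ (NN P 2) (u : E3) : ℝ)| + |(inner ℝ (NN P 3) (u : E3) : ℝ)|) / 4
        ∂(volume : Measure E3).toSphere) := by
    rw [ofReal_integral_eq_lintegral_ofReal hF (Filter.Eventually.of_forall fun u => by positivity)]
    exact lintegral_mono fun u => shadow_T_le h u
  have h2 := ENNReal.toReal_mono ENNReal.ofReal_ne_top h1
  rw [ENNReal.toReal_ofReal (integral_nonneg fun u => by positivity), integral_div,
    AreaT_int4 (hi _) (hi _) (hi _) (hi _), sphere_abs, sphere_abs, sphere_abs, sphere_abs] at h2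
  unfold surfaceArea
  refine (mul_le_mul_of_nonneg_left h2 (by positivity)).trans (le_of_eq ?_)
  rw [F0]
  field_simp
  ring

end SanLoc
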