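/-
MP_72c0ec_gt, helper9: integrals over the sphere of functions of degree two.
-/
import Pool.Agent.H.MP_72c0ec_gt.Loc.Vec
import Pool.Agent.H.MP_72c0ec_gt.Sym.Bound

set_option autoImplicit false

namespace SanLoc

open San SanSym MeasureTheory Set Metric Real

theorem Deg2_radial_quartic : ∫ r in Ioi (0:ℝ), r ^ 2 * (r ^ 2 * exp (-r ^ 2)) = 3 * √π / 8 := by
  have h := integral_rpow_mul_exp_neg_rpow (p := 2) (q := 4) (by norm_num) (by norm_num)
  have hG : Gamma ((4 + 1) / 2) = 3 / 4 * √π := by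
    rw [show ((4:ℝ) + 1) / 2 = (1 / 2 + 1) + 1 by norm_num, Gamma_add_one (by norm_num),
      Gamma_add_one (by norm_num), Gamma_one_half_eq]
    ring
  rw [hG] at h
  rw [show 3 * √π / 8 = 1 / 2 * (3 / 4 * √π) by ring, ← h]
  refine setIntegral_congr_fun measurableSet_Ioi (fun x hx => ?_)
  have hx0 : (0:ℝ) < x := hx
  rw [show (4:ℝ) = ((4:ℕ):ℝ) by norm_num, show (2:ℝ) = ((2:ℕ):ℝ) by norm_num, rpow_natCast,
    rpow_natCast]
  ring

theorem Deg2_radial_cubic : ∫ r in Ioi (0:ℝ), r * (r ^ 2 * exp (-r ^ 2)) = 1 / 2 := by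
  rw [← radial_cubic]
  refine setIntegral_congr_fun measurableSet_Ioi (fun x _ => ?_)
  ring

/-- The Gaussian integral of a homogeneous function of degree two in terms of its integral over the
unit sphere. -/
theorem Deg2_gauss_sphere (G : E3 → ℝ)
    (hG : ∀ (c : ℝ) (v : E3), 0 < c → G (c • v) = c ^ 2 * G v) :
    ∫ x : E3, exp (-‖x‖ ^ 2) * G x =
      (∫ u : sphere (0:E3) 1, G u ∂(volume : Measure E3).toSphere) * (3 * √π / 8) := by
  have hdim : Module.finrank ℝ E3 = 3 := by simp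
  calc ∫ x : E3, exp (-‖x‖ ^ 2) * G x
      = ∫ x : ({(0:E3)}ᶜ : Set E3), exp (-‖x.1‖ ^ 2) * G x.1
          ∂((volume : Measure E3).comap ((↑) : ({(0:E3)}ᶜ : Set E3) → E3)) := by
        rw [integral_subtype_comap (measurableSet_singleton _).compl
          fun x : E3 => exp (-‖x‖ ^ 2) * G x, restrict_compl_singleton]
    _ = ∫ p : sphere (0:E3) 1 × Ioi (0:ℝ), G p.1 * (p.2.1 ^ 2 * exp (-p.2.1 ^ 2))
          ∂(volume : Measure E3).toSphere.prod (.volumeIoiPow (Module.finrank ℝ E3 - 1)) := by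
        rw [← (volume : Measure E3).measurePreserving_homeomorphUnitSphereProd.integral_comp
          (Homeomorph.measurableEmbedding _)
          (fun p : sphere (0:E3) 1 × Ioi (0:ℝ) => G p.1 * (p.2.1 ^ 2 * exp (-p.2.1 ^ 2)))]
        refine integral_congr_ae (Filter.Eventually.of_forall fun x => ?_)
        have hx : 0 < ‖x.1‖ := norm_pos_iff.mpr x.2
        simp only [homeomorphUnitSphereProd_apply_fst_coe, homeomorphUnitSphereProd_apply_snd_coe]
        rw [hG _ _ (inv_pos.mpr hx)]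
        field_simp
    _ = (∫ u : sphere (0:E3) 1, G u ∂(volume : Measure E3).toSphere) *
          ∫ r : Ioi (0:ℝ), r.1 ^ 2 * exp (-r.1 ^ 2)
            ∂(.volumeIoiPow (Module.finrank ℝ E3 - 1)) :=
        integral_prod_mul (fun u : sphere (0:E3) 1 => G u)
          (fun r : Ioi (0:ℝ) => r.1 ^ 2 * exp (-r.1 ^ 2))
    _ = _ := by
        congr 1
        rw [hdim]
        simp only [Measure.volumeIoiPow, ENNReal.ofReal]
        rw [integral_withDensity_eq_integral_smul,
          integral_subtype_comap measurableSet_Ioi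
            fun a : ℝ => Real.toNNReal (a ^ (3 - 1)) • (a ^ 2 * exp (-a ^ 2)),
          ← Deg2_radial_quartic]
        · refine setIntegral_congr_fun measurableSet_Ioi fun x hx => ?_
          rw [NNReal.smul_def, Real.coe_toNNReal _ (pow_nonneg (le_of_lt hx) _)]
          rfl
        · exact (measurable_subtype_coe.pow_const _).real_toNNReal

/-- The Gaussian integral of a homogeneous function of degree two of the projection to a plane. -/
theorem Deg2_gauss_cyl (g : E3 → ℝ) (hg : ∀ (c : ℝ) (v : E3), 0 < c → g (c • v) = c ^ 2 * g v)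
    (f : OrthonormalBasis (Fin 3) ℝ E3) (e₁ e₂ : E3) :
    ∫ x : E3, exp (-‖x‖ ^ 2) * g ((inner ℝ (f 0) x : ℝ) • e₁ + (inner ℝ (f 1) x : ℝ) • e₂) =
      √π * (1 / 2 * ∫ t in (0:ℝ)..(2 * π), g (cos t • e₁ + sin t • e₂)) := by
  have hnorm : ∀ x : E3, ‖x‖ ^ 2 = (inner ℝ (f 2) x : ℝ) ^ 2 + ((inner ℝ (f 0) x : ℝ) ^ 2 +
      (inner ℝ (f 1) x : ℝ) ^ 2) := by
    intro x
    have h := f.sum_sq_norm_inner_right x
    rw [Fin.sum_univ_three] at h
    simp only [Real.norm_eq_abs, sq_abs] at h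
    linarith
  calc ∫ x : E3, exp (-‖x‖ ^ 2) * g ((inner ℝ (f 0) x : ℝ) • e₁ + (inner ℝ (f 1) x : ℝ) • e₂)
      = ∫ p : ℝ × (ℝ × ℝ), exp (-p.1 ^ 2) * (exp (-(p.2.1 ^ 2 + p.2.2 ^ 2)) *
          g (p.2.1 • e₁ + p.2.2 • e₂)) := by
        rw [← (crd3_mp f).integral_comp (crd3 f).measurableEmbedding]
        refine integral_congr_ae (Filter.Eventually.of_forall fun x => ?_)
        simp only [crd3_apply]
        rw [hnorm x, ← mul_assoc, ← exp_add]
        congr 2
        ring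
    _ = (∫ t : ℝ, exp (-t ^ 2)) * ∫ q : ℝ × ℝ, exp (-(q.1 ^ 2 + q.2 ^ 2)) *
          g (q.1 • e₁ + q.2 • e₂) := by
        rw [Measure.volume_eq_prod ℝ (ℝ × ℝ)]
        exact integral_prod_mul (fun t : ℝ => exp (-t ^ 2))
          (fun q : ℝ × ℝ => exp (-(q.1 ^ 2 + q.2 ^ 2)) * g (q.1 • e₁ + q.2 • e₂))
    _ = _ := by
        congr 1
        · have := integral_gaussian 1
          simpa using this
        rw [← integral_comp_polarCoord_symm, polarCoord_target, Measure.volume_eq_prod]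
        have hcongr : ∫ p in Ioi (0:ℝ) ×ˢ Ioo (-π) π, p.1 •
            ((fun q : ℝ × ℝ => exp (-(q.1 ^ 2 + q.2 ^ 2)) * g (q.1 • e₁ + q.2 • e₂))
              (polarCoord.symm p)) ∂(volume.prod volume) =
            ∫ p in Ioi (0:ℝ) ×ˢ Ioo (-π) π, (p.1 * (p.1 ^ 2 * exp (-p.1 ^ 2))) *
              g (cos p.2 • e₁ + sin p.2 • e₂) ∂(volume.prod volume) := by
          refine setIntegral_congr_fun (measurableSet_Ioi.prod measurableSet_Ioo) ?_
          rintro ⟨r, t⟩ ⟨hr, ht⟩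
          have hr0 : 0 < r := hr
          simp only [polarCoord_symm_apply, smul_eq_mul]
          rw [mul_smul, mul_smul, ← smul_add, hg _ _ hr0]
          have h1 : (r * cos t) ^ 2 + (r * sin t) ^ 2 = r ^ 2 := by
            have := Real.cos_sq_add_sin_sq t
            nlinarith
          rw [h1]
          ring
        rw [hcongr, setIntegral_prod_mul (fun r : ℝ => r * (r ^ 2 * exp (-r ^ 2)))
          (fun t : ℝ => g (cos t • e₁ + sin t • e₂)), Deg2_radial_cubic]
        congr 1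
        have hper : Function.Periodic (fun t : ℝ => g (cos t • e₁ + sin t • e₂)) (2 * π) := by
          intro t
          simp only [cos_add_two_pi, sin_add_two_pi]
        have h2 := hper.intervalIntegral_add_eq (-π) 0
        rw [zero_add, show -π + 2 * π = π by ring] at h2
        rw [← h2, intervalIntegral.integral_of_le (by linarith [pi_pos]),
          integral_Ioc_eq_integral_Ioo]

/-- As `sphere_integral` in `Sym/Sphere.lean`, for functions of degree two. The same proof: the Gaussian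
integral `∫_{ℝ³} exp(-|x|²) G(...)` is `(∫_{S²} G) ∫_0^∞ r⁴ exp(-r²) dr = (∫_{S²} G) (3 √π / 8)` and also
`√π ∫_0^∞ r³ exp(-r²) dr ∫_0^{2π} G(cos t e₁ + sin t e₂) dt = (√π / 2) ∫_0^{2π}`; the quotient of the two
constants is `4/3`. -/
theorem sphere_deg2 (G : E3 → ℝ) (hG : ∀ (c : ℝ) (v : E3), 0 < c → G (c • v) = c ^ 2 * G v)
    (f : OrthonormalBasis (Fin 3) ℝ E3) (e₁ e₂ : E3) :
    ∫ u : sphere (0:E3) 1, G ((inner ℝ (f 0) (u : E3) : ℝ) • e₁ +
      (inner ℝ (f 1) (u : E3) : ℝ) • e₂) ∂(volume : Measure E3).toSphere =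
      4 / 3 * ∫ t in (0:ℝ)..(2 * π), G (cos t • e₁ + sin t • e₂) := by
  have h1 := Deg2_gauss_sphere
    (fun x => G ((inner ℝ (f 0) x : ℝ) • e₁ + (inner ℝ (f 1) x : ℝ) • e₂))
    (by
      intro c v hc
      simp only [inner_smul_right]
      rw [mul_smul, mul_smul, ← smul_add, hG _ _ hc])
  have h2 := Deg2_gauss_cyl G hG f e₁ e₂
  rw [h1] at h2
  have h3 : (0:ℝ) < √π := Real.sqrt_pos.2 pi_pos
  have h4 : √π * ((∫ u : sphere (0:E3) 1, G ((inner ℝ (f 0) (u : E3) : ℝ) • e₁ +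
      (inner ℝ (f 1) (u : E3) : ℝ) • e₂) ∂(volume : Measure E3).toSphere) * 3 / 8) =
      √π * (1 / 2 * ∫ t in (0:ℝ)..(2 * π), G (cos t • e₁ + sin t • e₂)) := by
    rw [← h2]
    ring
  have h5 := mul_left_cancel₀ h3.ne' h4
  linarith

theorem Deg2_cr_self (x : E3) : cr x x = 0 := by
  have h := cr_norm_sq x x
  rw [real_inner_self_eq_norm_sq] at h
  have h1 : ‖cr x x‖ ^ 2 = 0 := by rw [h]; ring
  exact norm_eq_zero.1 (by simpa using h1)

/-- The quarter turn as a cross product: `f` with `a = ‖a‖ f 2` (`exists_frame`), `e₁ = cr (f 2) (f 0)`,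
`e₂ = cr (f 2) (f 1)`: `cr a u = ‖a‖ (⟪f 0, u⟫ e₁ + ⟪f 1, u⟫ e₂)` (expand `u` in the basis `f`,
`cr (f 2) (f 2) = 0`). `e₁, e₂` are orthonormal (`cr_norm_sq`; for the scalar product polarise, or use
`cr_norm_sq` for `f 0 + f 1`) and orthogonal to `a`. -/
theorem sphere_cr {a : E3} (ha : a ≠ 0) (G : E3 → ℝ)
    (hG : ∀ (c : ℝ) (v : E3), 0 < c → G (c • v) = c ^ 2 * G v) :
    ∃ e₁ e₂ : E3, Orthonormal ℝ ![e₁, e₂] ∧ (inner ℝ e₁ a : ℝ) = 0 ∧ (inner ℝ e₂ a : ℝ) = 0 ∧
      ∫ u : sphere (0:E3) 1, G (cr a (u : E3)) ∂(volume : Measure E3).toSphere =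
        4 / 3 * ‖a‖ ^ 2 * ∫ t in (0:ℝ)..(2 * π), G (cos t • e₁ + sin t • e₂) := by
  obtain ⟨f, hf⟩ := exists_frame a
  have hpos : 0 < ‖a‖ := norm_pos_iff.mpr ha
  have hn : ∀ i, ‖f i‖ = 1 := fun i => f.orthonormal.1 i
  have ho : ∀ i j, i ≠ j → (inner ℝ (f i) (f j) : ℝ) = 0 := fun i j hij => f.orthonormal.2 hij
  have hcr : ∀ i, i ≠ 2 → ‖cr (f 2) (f i)‖ = 1 := by
    intro i hi
    have h := cr_norm_sq (f 2) (f i)
    rw [hn, hn, ho 2 i hi.symm] at h
    have h1 : ‖cr (f 2) (f i)‖ ^ 2 = 1 := by rw [h]; norm_num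
    have h2 := norm_nonneg (cr (f 2) (f i))
    nlinarith
  have h12 : (inner ℝ (cr (f 2) (f 0)) (cr (f 2) (f 1)) : ℝ) = 0 := by
    have h := cr_norm_sq (f 2) (f 0 + f 1)
    rw [cr_add_right, norm_add_sq_real, norm_add_sq_real, inner_add_right, hn, hn, hn,
      hcr 0 (by decide), hcr 1 (by decide), ho 2 0 (by decide), ho 2 1 (by decide),
      ho 0 1 (by decide)] at h
    linarith
  have hla : ∀ i, (inner ℝ (cr (f 2) (f i)) a : ℝ) = 0 := by
    intro i
    rw [hf, inner_smul_right, inner_cr_left, mul_zero]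
  refine ⟨cr (f 2) (f 0), cr (f 2) (f 1), ?_, hla 0, hla 1, ?_⟩
  · constructor
    · intro i
      fin_cases i
      · exact hcr 0 (by decide)
      · exact hcr 1 (by decide)
    · intro i j hij
      fin_cases i <;> fin_cases j
      · exact absurd rfl hij
      · exact h12
      · show (inner ℝ (cr (f 2) (f 1)) (cr (f 2) (f 0)) : ℝ) = 0
        rw [real_inner_comm]
        exact h12
      · exact absurd rfl hij
  · have hexp : ∀ u : E3, G (cr a u) = ‖a‖ ^ 2 * G ((inner ℝ (f 0) u : ℝ) • cr (f 2) (f 0) +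
        (inner ℝ (f 1) u : ℝ) • cr (f 2) (f 1)) := by
      intro u
      rw [← hG _ _ hpos]
      congr 1
      have h1 : cr a u = ‖a‖ • cr (f 2) u := by
        conv_lhs => rw [hf]
        rw [cr_smul_left]
      rw [h1]
      congr 1
      have h2 : u = (inner ℝ (f 0) u : ℝ) • f 0 + (inner ℝ (f 1) u : ℝ) • f 1 +
          (inner ℝ (f 2) u : ℝ) • f 2 := by
        have h3 := f.sum_repr' u
        rw [Fin.sum_univ_three] at h3
        exact h3.symm
      conv_lhs => rw [h2]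
      rw [cr_add_right, cr_add_right, cr_smul_right, cr_smul_right, cr_smul_right, Deg2_cr_self,
        smul_zero, add_zero]
    simp only [hexp]
    rw [integral_const_mul, sphere_deg2 G hG f]
    ring

end SanLoc
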