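/-
MP_72c0ec_gt, helper9: the gain in one direction: all edges.
-/
import Pool.Agent.H.MP_72c0ec_gt.Loc.Dir

set_option autoImplicit false

namespace SanLoc

open San SanSym MeasureTheory Set Metric Real

theorem DirB_cr_zero (y : E3) : cr 0 y = 0 := by
  have h := cr_smul_left (0 : ℝ) (0 : E3) y
  rwa [zero_smul, zero_smul] at h

theorem DirB_cr_neg (x y : E3) : cr (-x) y = -cr x y := by
  have h := cr_smul_left (-1 : ℝ) x y
  rwa [neg_one_smul, neg_one_smul] at h

theorem DirB_exists (j k : Fin 4) : ∃ l : Fin 4, l ≠ j ∧ l ≠ k := by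
  revert j k
  decide

theorem DirB_act_ne {P : Fin 4 → E3} {j k : Fin 4} {w : E3} (ha : Act P j k w) : w ≠ 0 := by
  rintro rfl
  obtain ⟨l, h1, h2⟩ := DirB_exists j k
  have h3 := ha l h1 h2
  rw [inner_zero_right] at h3
  exact lt_irrefl _ h3

/-- The scalar products with the normal of a silhouette edge, in the plane. -/
theorem DirB_inner (P : Fin 4 → E3) (u : sphere (0:E3) 1) (j k i : Fin 4) :
    (inner ℝ (PR u (P i) - PR u (P j)) (PR u (cr (P k - P j) (u : E3))) : ℝ) =
      inner ℝ (P i - P j) (cr (P k - P j) (u : E3)) := by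
  rw [← PR_sub, PR_inner (PR_cr u (P k - P j)).1]

theorem DirB_perp (P : Fin 4 → E3) (u : sphere (0:E3) 1) (j k : Fin 4) :
    (inner ℝ (PR u (P k) - PR u (P j)) (PR u (cr (P k - P j) (u : E3))) : ℝ) = 0 := by
  rw [← PR_sub]
  exact (PR_cr u (P k - P j)).2.1

theorem DirB_nonpos (P : Fin 4 → E3) (u : sphere (0:E3) 1) {j k : Fin 4}
    (ha : Act P j k (cr (P k - P j) (u : E3))) (i : Fin 4) :
    (inner ℝ (PR u (P i) - PR u (P j)) (PR u (cr (P k - P j) (u : E3))) : ℝ) ≤ 0 := by
  by_cases hij : i = j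
  · rw [hij, sub_self, inner_zero_left]
  · by_cases hik : i = k
    · rw [hik, DirB_perp]
    · rw [DirB_inner]
      exact (ha i hij hik).le

theorem DirB_zero (P : Fin 4 → E3) (u : sphere (0:E3) 1) {j k : Fin 4}
    (ha : Act P j k (cr (P k - P j) (u : E3))) {i : Fin 4}
    (h0 : (inner ℝ (PR u (P i) - PR u (P j)) (PR u (cr (P k - P j) (u : E3))) : ℝ) = 0) :
    i = j ∨ i = k := by
  by_contra hcon
  push Not at hcon
  rw [DirB_inner] at h0
  exact (ha i hcon.1 hcon.2).ne h0

theorem DirB_w_ne (P : Fin 4 → E3) (u : sphere (0:E3) 1) {j k : Fin 4}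
    (ha : Act P j k (cr (P k - P j) (u : E3))) : PR u (cr (P k - P j) (u : E3)) ≠ 0 := by
  intro h0
  have h1 := (PR_cr u (P k - P j)).2.2.2
  rw [h0, norm_zero] at h1
  exact DirB_act_ne ha (norm_eq_zero.1 h1.symm)

/-- Decomposition of the points of a strip. -/
theorem DirB_decomp (P : Fin 4 → E3) (u : sphere (0:E3) 1) {j k : Fin 4}
    (ha : Act P j k (cr (P k - P j) (u : E3))) {x : ((ℝ ∙ (u : E3))ᗮ : Submodule ℝ E3)}
    (hx : x ∈ strip (PR u (P j)) (PR u (P k)) (PR u (cr (P k - P j) (u : E3)))) :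
    ∃ α t : ℝ, 0 < α ∧ α < 1 ∧ 0 < t ∧
      x = PR u (P j) + α • (PR u (P k) - PR u (P j)) + t • PR u (cr (P k - P j) (u : E3)) := by
  obtain ⟨h1, h2, h3⟩ := hx
  set w := PR u (cr (P k - P j) (u : E3)) with hw
  set a := PR u (P k) - PR u (P j) with haa
  have hwn : ‖w‖ = ‖a‖ := by
    rw [hw, haa, ← PR_sub]
    exact (PR_cr u (P k - P j)).2.2.1
  have hw0 : w ≠ 0 := DirB_w_ne P u ha
  have hn : 0 < ‖a‖ := by
    rw [← hwn]
    exact norm_pos_iff.2 hw0
  have ha0 : a ≠ 0 := norm_pos_iff.1 hn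
  obtain ⟨b, hb0, hb1⟩ := exists_crd (finrank_perp u) ha0 hwn (DirB_perp P u j k)
  have hr := b.sum_repr' (x - PR u (P j))
  rw [Fin.sum_univ_two] at hr
  have e0 : (inner ℝ (x - PR u (P j)) a : ℝ) = ‖a‖ * inner ℝ (b 0) (x - PR u (P j)) := by
    conv_lhs => rw [hb0]
    rw [inner_smul_right, real_inner_comm]
  have e1 : (inner ℝ (x - PR u (P j)) w : ℝ) = ‖a‖ * inner ℝ (b 1) (x - PR u (P j)) := by
    conv_lhs => rw [hb1]
    rw [inner_smul_right, real_inner_comm]
  rw [e0] at h1 h2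
  rw [e1] at h3
  refine ⟨inner ℝ (b 0) (x - PR u (P j)) / ‖a‖, inner ℝ (b 1) (x - PR u (P j)) / ‖a‖,
    div_pos (pos_of_mul_pos_right h1 hn.le) hn, ?_, div_pos (pos_of_mul_pos_right h3 hn.le) hn, ?_⟩
  · rw [div_lt_one hn]
    rw [sq] at h2
    exact lt_of_mul_lt_mul_left h2 hn.le
  · have f0 : (inner ℝ (b 0) (x - PR u (P j)) / ‖a‖ : ℝ) • a =
        (inner ℝ (b 0) (x - PR u (P j)) : ℝ) • b 0 := by
      conv_lhs => rw [hb0, smul_smul, norm_smul, norm_norm, b.norm_eq_one, mul_one,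
        div_mul_cancel₀ _ hn.ne']
    have f1 : (inner ℝ (b 1) (x - PR u (P j)) / ‖a‖ : ℝ) • w =
        (inner ℝ (b 1) (x - PR u (P j)) : ℝ) • b 1 := by
      conv_lhs => rw [hb1, smul_smul, div_mul_cancel₀ _ hn.ne']
    rw [f0, f1, add_assoc, hr]
    abel

/-- The strips of two different oriented silhouette edges are disjoint. -/
theorem strips_disjoint (P : Fin 4 → E3) (u : sphere (0:E3) 1) {j k j' k' : Fin 4}
    (hjk : j ≠ k) (hjk' : j' ≠ k') (hne : (j, k) ≠ (j', k'))
    (ha : Act P j k (cr (P k - P j) (u : E3))) (ha' : Act P j' k' (cr (P k' - P j') (u : E3))) :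
    Disjoint (strip (PR u (P j)) (PR u (P k)) (PR u (cr (P k - P j) (u : E3))))
      (strip (PR u (P j')) (PR u (P k')) (PR u (cr (P k' - P j') (u : E3)))) := by
  rw [Set.disjoint_left]
  intro x hx hx'
  obtain ⟨α, t, hα0, hα1, ht, e⟩ := DirB_decomp P u ha hx
  obtain ⟨α', t', hα0', hα1', ht', e'⟩ := DirB_decomp P u ha' hx'
  set w := PR u (cr (P k - P j) (u : E3)) with hw
  set w' := PR u (cr (P k' - P j') (u : E3)) with hw'
  set s := PR u (P j) + α • (PR u (P k) - PR u (P j)) with hs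
  set s' := PR u (P j') + α' • (PR u (P k') - PR u (P j')) with hs'
  have n1 := DirB_nonpos P u ha j'
  have n2 := DirB_nonpos P u ha k'
  have n1' := DirB_nonpos P u ha' j
  have n2' := DirB_nonpos P u ha' k
  have p0 := DirB_perp P u j k
  have p0' := DirB_perp P u j' k'
  have g1 : (inner ℝ (s' - s) w : ℝ) = (1 - α') * inner ℝ (PR u (P j') - PR u (P j)) w +
      α' * inner ℝ (PR u (P k') - PR u (P j)) w := by
    have h : s' - s = (1 - α') • (PR u (P j') - PR u (P j)) + α' • (PR u (P k') - PR u (P j)) -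
        α • (PR u (P k) - PR u (P j)) := by
      rw [hs, hs']
      module
    rw [h, inner_sub_left, inner_add_left, real_inner_smul_left, real_inner_smul_left,
      real_inner_smul_left, p0, mul_zero, sub_zero]
  have g1' : (inner ℝ (s - s') w' : ℝ) = (1 - α) * inner ℝ (PR u (P j) - PR u (P j')) w' +
      α * inner ℝ (PR u (P k) - PR u (P j')) w' := by
    have h : s - s' = (1 - α) • (PR u (P j) - PR u (P j')) + α • (PR u (P k) - PR u (P j')) -
        α' • (PR u (P k') - PR u (P j')) := by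
      rw [hs, hs']
      module
    rw [h, inner_sub_left, inner_add_left, real_inner_smul_left, real_inner_smul_left,
      real_inner_smul_left, p0', mul_zero, sub_zero]
  have m1 : (1 - α') * (inner ℝ (PR u (P j') - PR u (P j)) w : ℝ) ≤ 0 :=
    mul_nonpos_of_nonneg_of_nonpos (by linarith) n1
  have m2 : α' * (inner ℝ (PR u (P k') - PR u (P j)) w : ℝ) ≤ 0 :=
    mul_nonpos_of_nonneg_of_nonpos hα0'.le n2
  have m1' : (1 - α) * (inner ℝ (PR u (P j) - PR u (P j')) w' : ℝ) ≤ 0 :=
    mul_nonpos_of_nonneg_of_nonpos (by linarith) n1'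
  have m2' : α * (inner ℝ (PR u (P k) - PR u (P j')) w' : ℝ) ≤ 0 :=
    mul_nonpos_of_nonneg_of_nonpos hα0.le n2'
  have hle : (inner ℝ (s' - s) w : ℝ) ≤ 0 := by rw [g1]; linarith
  have hle' : (inner ℝ (s - s') w' : ℝ) ≤ 0 := by rw [g1']; linarith
  have heq : s' - s = t • w - t' • w' := by
    have h : s + t • w = s' + t' • w' := by rw [← e, ← e']
    rw [sub_eq_sub_iff_add_eq_add, ← h, add_comm]
  have hsq : ‖s' - s‖ ^ 2 ≤ 0 := by
    have h1 : ‖s' - s‖ ^ 2 = t * (inner ℝ (s' - s) w : ℝ) + t' * inner ℝ (s - s') w' := by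
      rw [← real_inner_self_eq_norm_sq]
      conv_lhs => rw [heq]
      rw [← heq]
      have h2 : (inner ℝ (s' - s) (s' - s) : ℝ) = inner ℝ (s' - s) (t • w - t' • w') := by
        rw [← heq]
      rw [h2, inner_sub_right, real_inner_smul_right, real_inner_smul_right,
        ← neg_sub s' s, inner_neg_left]
      ring
    rw [h1]
    have q1 := mul_nonpos_of_nonneg_of_nonpos ht.le hle
    have q2 := mul_nonpos_of_nonneg_of_nonpos ht'.le hle'
    linarith
  have hs0 : s' - s = 0 := by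
    have h1 : ‖s' - s‖ ^ 2 = 0 := le_antisymm hsq (sq_nonneg _)
    exact norm_eq_zero.1 (pow_eq_zero_iff two_ne_zero |>.1 h1)
  have hz : (inner ℝ (s' - s) w : ℝ) = 0 := by rw [hs0, inner_zero_left]
  rw [g1] at hz
  have z1 : (1 - α') * (inner ℝ (PR u (P j') - PR u (P j)) w : ℝ) = 0 := by linarith
  have z2 : α' * (inner ℝ (PR u (P k') - PR u (P j)) w : ℝ) = 0 := by linarith
  have y1 : (inner ℝ (PR u (P j') - PR u (P j)) w : ℝ) = 0 := by
    rcases mul_eq_zero.1 z1 with h | h
    · linarith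
    · exact h
  have y2 : (inner ℝ (PR u (P k') - PR u (P j)) w : ℝ) = 0 := by
    rcases mul_eq_zero.1 z2 with h | h
    · linarith
    · exact h
  have c1 := DirB_zero P u ha y1
  have c2 := DirB_zero P u ha y2
  have hcase : j' = k ∧ k' = j := by
    rcases c1 with h1 | h1
    · rcases c2 with h2 | h2
      · exact absurd (h1.trans h2.symm) hjk'
      · exact absurd (Prod.ext h1.symm h2.symm) hne
    · rcases c2 with h2 | h2
      · exact ⟨h1, h2⟩
      · exact absurd (h1.trans h2.symm) hjk'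
  obtain ⟨rfl, rfl⟩ := hcase
  have hneg : w' = -w := by
    rw [hw, hw', ← neg_sub (P j') (P k'), DirB_cr_neg]
    exact map_neg _ _
  rw [hs0, hneg, smul_neg, sub_neg_eq_add, ← add_smul] at heq
  have hw0 : w ≠ 0 := DirB_w_ne P u ha
  rcases smul_eq_zero.1 heq.symm with h | h
  · linarith
  · exact hw0 h

/-- The strip of a silhouette edge does not meet the shadow of the tetrahedron
(`⟪y - p_j, w⟫ ≤ 0` there). -/
theorem strip_hull (P : Fin 4 → E3) (u : sphere (0:E3) 1) {j k : Fin 4}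
    (ha : Act P j k (cr (P k - P j) (u : E3))) :
    Disjoint (shadow (convexHull ℝ (range P)) (u : E3))
      (strip (PR u (P j)) (PR u (P k)) (PR u (cr (P k - P j) (u : E3)))) := by
  rw [Set.disjoint_left]
  rintro _ ⟨z, hz, rfl⟩ hx
  have h1 : 0 < (inner ℝ (PR u z - PR u (P j)) (PR u (cr (P k - P j) (u : E3))) : ℝ) := hx.2.2
  rw [← PR_sub, PR_inner (PR_cr u (P k - P j)).1] at h1
  have hconv : Convex ℝ {z : E3 | (inner ℝ z (cr (P k - P j) (u : E3)) : ℝ) ≤
      inner ℝ (P j) (cr (P k - P j) (u : E3))} := by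
    refine convex_halfSpace_le ?_ _
    exact ⟨fun x y => inner_add_left _ _ _, fun c x => real_inner_smul_left _ _ _⟩
  have hsub : range P ⊆ {z : E3 | (inner ℝ z (cr (P k - P j) (u : E3)) : ℝ) ≤
      inner ℝ (P j) (cr (P k - P j) (u : E3))} := by
    rintro _ ⟨i, rfl⟩
    have h2 := DirB_nonpos P u ha i
    rw [DirB_inner, inner_sub_left] at h2
    change (inner ℝ (P i) (cr (P k - P j) (u : E3)) : ℝ) ≤
      inner ℝ (P j) (cr (P k - P j) (u : E3))
    linarith
  have h3 : (inner ℝ z (cr (P k - P j) (u : E3)) : ℝ) ≤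
      inner ℝ (P j) (cr (P k - P j) (u : E3)) := convexHull_min hsub hconv hz
  rw [inner_sub_left] at h1
  linarith

open Classical in
/-- **The gain in one direction.** -/
theorem dir_gain {K : Set E3} {P N : Fin 4 → E3} {v : ℝ} (h : Loc K P N v)
    (u : sphere (0:E3) 1) :
    volume (shadow (convexHull ℝ (range P)) (u : E3)) +
      ∑ j, ∑ k, ENNReal.ofReal (993 / 2000 * QQ K P j k (cr (P k - P j) (u : E3))) ≤
      volume (shadow K (u : E3)) := by
  set A : Finset (Fin 4 × Fin 4) :=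
    Finset.univ.filter fun q => Act P q.1 q.2 (cr (P q.2 - P q.1) (u : E3)) with hA
  set St : Fin 4 × Fin 4 → Set ((ℝ ∙ (u : E3))ᗮ : Submodule ℝ E3) := fun q =>
    strip (PR u (P q.1)) (PR u (P q.2)) (PR u (cr (P q.2 - P q.1) (u : E3))) with hSt
  have hmemA : ∀ q, q ∈ A ↔ Act P q.1 q.2 (cr (P q.2 - P q.1) (u : E3)) := fun q => by
    rw [hA, Finset.mem_filter]
    exact ⟨fun h => h.2, fun h => ⟨Finset.mem_univ _, h⟩⟩
  have hneA : ∀ q ∈ A, q.1 ≠ q.2 := by
    intro q hq h0
    have h1 := DirB_act_ne ((hmemA q).1 hq)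
    rw [h0, sub_self, DirB_cr_zero] at h1
    exact h1 rfl
  have hT : convexHull ℝ (range P) ⊆ K := convexHull_min (range_subset_iff.2 h.mem) h.conv
  have hTc : IsCompact (convexHull ℝ (range P)) := (finite_range P).isCompact_convexHull ℝ
  have hKm : MeasurableSet (shadow K (u : E3)) := (shadow_compact h.comp u).measurableSet
  have hsum : ∑ j, ∑ k, ENNReal.ofReal (993 / 2000 * QQ K P j k (cr (P k - P j) (u : E3))) ≤
      ∑ q ∈ A, volume (shadow K (u : E3) ∩ St q) := by
    rw [← Fintype.sum_prod_type' (f := fun j k =>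
      ENNReal.ofReal (993 / 2000 * QQ K P j k (cr (P k - P j) (u : E3))))]
    have h1 : ∑ q : Fin 4 × Fin 4,
        ENNReal.ofReal (993 / 2000 * QQ K P q.1 q.2 (cr (P q.2 - P q.1) (u : E3))) =
        ∑ q ∈ A, ENNReal.ofReal (993 / 2000 * QQ K P q.1 q.2 (cr (P q.2 - P q.1) (u : E3))) := by
      refine (Finset.sum_subset (Finset.subset_univ A) fun q _ hq => ?_).symm
      have h2 : ¬ Act P q.1 q.2 (cr (P q.2 - P q.1) (u : E3)) := fun h3 => hq ((hmemA q).2 h3)
      unfold QQ
      rw [if_neg h2, mul_zero, ENNReal.ofReal_zero]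
    rw [h1]
    exact Finset.sum_le_sum fun q hq => strip_gain h u (hneA q hq) ((hmemA q).1 hq)
  have hU : ∑ q ∈ A, volume (shadow K (u : E3) ∩ St q) =
      volume (⋃ q ∈ A, shadow K (u : E3) ∩ St q) := by
    refine (measure_biUnion_finset ?_ fun q _ => hKm.inter (strip_isOpen _ _ _).measurableSet).symm
    intro q hq q' hq' hne
    refine Disjoint.mono inter_subset_right inter_subset_right ?_
    exact strips_disjoint P u (hneA q hq) (hneA q' hq') hne ((hmemA q).1 hq) ((hmemA q').1 hq')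
  have hUm : MeasurableSet (⋃ q ∈ A, shadow K (u : E3) ∩ St q) :=
    Finset.measurableSet_biUnion A fun q _ => hKm.inter (strip_isOpen _ _ _).measurableSet
  have hdis : Disjoint (shadow (convexHull ℝ (range P)) (u : E3))
      (⋃ q ∈ A, shadow K (u : E3) ∩ St q) := by
    rw [Set.disjoint_iUnion₂_right]
    intro q hq
    exact (strip_hull P u ((hmemA q).1 hq)).mono_right inter_subset_right
  calc _ ≤ volume (shadow (convexHull ℝ (range P)) (u : E3)) +
        ∑ q ∈ A, volume (shadow K (u : E3) ∩ St q) := by gcongr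
    _ = volume (shadow (convexHull ℝ (range P)) (u : E3) ∪
        ⋃ q ∈ A, shadow K (u : E3) ∩ St q) := by rw [hU, measure_union hdis hUm]
    _ ≤ volume (shadow K (u : E3)) := by
        refine measure_mono (union_subset (image_mono hT) ?_)
        exact iUnion₂_subset fun q _ => inter_subset_left

end SanLoc
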