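/-
MP_72c0ec_gt, helper9: the increase of the perimeters is bounded by the gain.
-/
import Pool.Agent.H.MP_72c0ec_gt.Loc.Corner

set_option autoImplicit false

namespace SanLoc

open San SanSym MeasureTheory Set Metric Real

/-- The gain function of an edge is symmetric on its arc. -/
theorem J_Mx_symm {K : Set E3} {P N : Fin 4 → E3} {v : ℝ} (h : Loc K P N v) {l k m j : Fin 4}
    (hlm : l ≠ m) (hlj : l ≠ j) (hkm : k ≠ m) (hkj : k ≠ j) (a b : ℝ) :
    J (Mx K (P l) (P k)) (N m) (N j) a b = J (Mx K (P k) (P l)) (N m) (N j) a b := by
  have key : ∀ μ : ℝ, Mx K (P l) (P k) (N m + μ • N j) = Mx K (P k) (P l) (N m + μ • N j) := by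
    intro μ
    refine Mx_perp K ?_
    have h1 := h.near.height m l hlm
    have h2 := h.near.height m k hkm
    have h3 := h.near.height j l hlj
    have h4 := h.near.height j k hkj
    rw [inner_add_right, inner_smul_right, real_inner_comm (N m), real_inner_comm (N j),
      inner_sub_right, inner_sub_right, h1, h2, h3, h4]
    ring
  unfold J
  refine intervalIntegral.integral_congr fun μ _ => ?_
  simp only [key μ]

/-- The own arc. -/
theorem own_bound {K : Set E3} {P N : Fin 4 → E3} {v : ℝ} (h : Loc K P N v) {j k l m : Fin 4}
    (hlm : l ≠ m) :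
    J (gg K (P j)) (N l) (N m) 0 1 ≤ J (Mx K (P j) (P k)) (N l) (N m) 0 1 := by
  have hwd : 0 < wd (N l) (N m) := by
    obtain ⟨i, hi1, hi2⟩ : ∃ i : Fin 4, l ≠ i ∧ m ≠ i := by
      revert hlm
      revert l m
      decide
    exact (tri3 h.near hlm hi1 hi2).wd_pos
  exact J_mono (gg_sublin h.comp (h.mem j)).cont (Mx_continuous h.comp (h.mem j) (h.mem k)) hwd
    zero_le_one fun μ _ => gg_le_Mx K _ _ _

/-- **The increase of the sum of the six perimeters is at most `1.91` times the gain.** -/
theorem total {K : Set E3} {P N : Fin 4 → E3} {v : ℝ} (h : Loc K P N v) :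
    dL K P N 0 1 2 3 + dL K P N 0 2 1 3 + dL K P N 0 3 1 2 + dL K P N 1 2 0 3 + dL K P N 1 3 0 2 +
      dL K P N 2 3 0 1 ≤ 191 / 100 * GG K P N := by
  have ray : ∀ l m j k : Fin 4, l ≠ m → l ≠ j → l ≠ k → m ≠ j → m ≠ k → j ≠ k →
      J (gg K (P l)) (N m) (N j + N k) 0 1 ≤ RR K P N l m j + RR K P N l m k :=
    fun l m j k h1 h2 h3 h4 h5 h6 => corner_ray h h1 h2 h3 h4 h5 h6
  have mid : ∀ l m j k : Fin 4, l ≠ m → l ≠ j → l ≠ k → m ≠ j → m ≠ k → j ≠ k →
      J (gg K (P l)) (N j + N k) (N m) 0 1 ≤ DD K P N l j k + DD K P N l k j :=
    fun l m j k h1 h2 h3 h4 h5 h6 => corner_mid h h1 h2 h3 h4 h5 h6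
  have side : ∀ l k m j : Fin 4, l ≠ m → l ≠ j → l ≠ k → m ≠ j → m ≠ k → j ≠ k →
      RR K P N l m j + RR K P N k m j + DD K P N l m j + DD K P N k m j ≤
        91 / 100 * J (Mx K (P l) (P k)) (N m) (N j) 0 1 :=
    fun l k m j h1 h2 h3 h4 h5 h6 => side_bound h h1 h2 h3 h4 h5 h6
  have own : ∀ j k l m : Fin 4, l ≠ m →
      J (gg K (P j)) (N l) (N m) 0 1 ≤ J (Mx K (P j) (P k)) (N l) (N m) 0 1 :=
    fun j k l m h1 => own_bound h h1
  unfold dL GG HH
  -- own arcs
  have o01 := own 0 1 2 3 (by decide)
  have o01' := own 0 1 3 2 (by decide)
  have o02 := own 0 2 1 3 (by decide)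
  have o02' := own 0 2 3 1 (by decide)
  have o03 := own 0 3 1 2 (by decide)
  have o03' := own 0 3 2 1 (by decide)
  have o12 := own 1 2 0 3 (by decide)
  have o12' := own 1 2 3 0 (by decide)
  have o13 := own 1 3 0 2 (by decide)
  have o13' := own 1 3 2 0 (by decide)
  have o23 := own 2 3 0 1 (by decide)
  have o23' := own 2 3 1 0 (by decide)
  -- rays
  have r01 := ray 2 3 0 1 (by decide) (by decide) (by decide) (by decide) (by decide) (by decide)
  have r01' := ray 3 2 0 1 (by decide) (by decide) (by decide) (by decide) (by decide) (by decide)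
  have r02 := ray 1 3 0 2 (by decide) (by decide) (by decide) (by decide) (by decide) (by decide)
  have r02' := ray 3 1 0 2 (by decide) (by decide) (by decide) (by decide) (by decide) (by decide)
  have r03 := ray 1 2 0 3 (by decide) (by decide) (by decide) (by decide) (by decide) (by decide)
  have r03' := ray 2 1 0 3 (by decide) (by decide) (by decide) (by decide) (by decide) (by decide)
  have r12 := ray 0 3 1 2 (by decide) (by decide) (by decide) (by decide) (by decide) (by decide)
  have r12' := ray 3 0 1 2 (by decide) (by decide) (by decide) (by decide) (by decide) (by decide)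
  have r13 := ray 0 2 1 3 (by decide) (by decide) (by decide) (by decide) (by decide) (by decide)
  have r13' := ray 2 0 1 3 (by decide) (by decide) (by decide) (by decide) (by decide) (by decide)
  have r23 := ray 0 1 2 3 (by decide) (by decide) (by decide) (by decide) (by decide) (by decide)
  have r23' := ray 1 0 2 3 (by decide) (by decide) (by decide) (by decide) (by decide) (by decide)
  -- the other parts
  have m01 := mid 2 3 0 1 (by decide) (by decide) (by decide) (by decide) (by decide) (by decide)
  have m01' := mid 3 2 0 1 (by decide) (by decide) (by decide) (by decide) (by decide) (by decide)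
  have m02 := mid 1 3 0 2 (by decide) (by decide) (by decide) (by decide) (by decide) (by decide)
  have m02' := mid 3 1 0 2 (by decide) (by decide) (by decide) (by decide) (by decide) (by decide)
  have m03 := mid 1 2 0 3 (by decide) (by decide) (by decide) (by decide) (by decide) (by decide)
  have m03' := mid 2 1 0 3 (by decide) (by decide) (by decide) (by decide) (by decide) (by decide)
  have m12 := mid 0 3 1 2 (by decide) (by decide) (by decide) (by decide) (by decide) (by decide)
  have m12' := mid 3 0 1 2 (by decide) (by decide) (by decide) (by decide) (by decide) (by decide)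
  have m13 := mid 0 2 1 3 (by decide) (by decide) (by decide) (by decide) (by decide) (by decide)
  have m13' := mid 2 0 1 3 (by decide) (by decide) (by decide) (by decide) (by decide) (by decide)
  have m23 := mid 0 1 2 3 (by decide) (by decide) (by decide) (by decide) (by decide) (by decide)
  have m23' := mid 1 0 2 3 (by decide) (by decide) (by decide) (by decide) (by decide) (by decide)
  -- sides: corners l k, arc from m to j
  have s01 := side 0 1 2 3 (by decide) (by decide) (by decide) (by decide) (by decide) (by decide)
  have s01' := side 0 1 3 2 (by decide) (by decide) (by decide) (by decide) (by decide) (by decide)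
  have s02 := side 0 2 1 3 (by decide) (by decide) (by decide) (by decide) (by decide) (by decide)
  have s02' := side 0 2 3 1 (by decide) (by decide) (by decide) (by decide) (by decide) (by decide)
  have s03 := side 0 3 1 2 (by decide) (by decide) (by decide) (by decide) (by decide) (by decide)
  have s03' := side 0 3 2 1 (by decide) (by decide) (by decide) (by decide) (by decide) (by decide)
  have s12 := side 1 2 0 3 (by decide) (by decide) (by decide) (by decide) (by decide) (by decide)
  have s12' := side 1 2 3 0 (by decide) (by decide) (by decide) (by decide) (by decide) (by decide)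
  have s13 := side 1 3 0 2 (by decide) (by decide) (by decide) (by decide) (by decide) (by decide)
  have s13' := side 1 3 2 0 (by decide) (by decide) (by decide) (by decide) (by decide) (by decide)
  have s23 := side 2 3 0 1 (by decide) (by decide) (by decide) (by decide) (by decide) (by decide)
  have s23' := side 2 3 1 0 (by decide) (by decide) (by decide) (by decide) (by decide) (by decide)
  linarith

end SanLoc
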