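/-
MP_72c0ec_gt, helper9: the gain of the surface area.
-/
import Pool.Agent.H.MP_72c0ec_gt.Loc.DirB
import Pool.Agent.H.MP_72c0ec_gt.Loc.Deg2
import Pool.Agent.H.MP_72c0ec_gt.Loc.Arc
import Pool.Agent.H.MP_72c0ec_gt.Loc.Total

set_option autoImplicit false

namespace SanLoc

open San SanSym MeasureTheory Set Metric Real

/-- `HH` is symmetric in the two ends of the edge (`J_Mx_symm`) and in the two other indices. -/
theorem HH_symm {K : Set E3} {P N : Fin 4 → E3} {v : ℝ} (h : Loc K P N v) {j k l m : Fin 4}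
    (hjl : j ≠ l) (hjm : j ≠ m) (hkl : k ≠ l) (hkm : k ≠ m) :
    HH K P N k j l m = HH K P N j k l m := by
  unfold HH
  rw [J_Mx_symm h hkl hkm hjl hjm, J_Mx_symm h hkm hkl hjm hjl]

theorem HH_nonneg {K : Set E3} {P N : Fin 4 → E3} {v : ℝ} (h : Loc K P N v) (j k l m : Fin 4) :
    0 ≤ HH K P N j k l m :=
  add_nonneg (J_nonneg (Mx_nonneg h.comp (h.mem j) (h.mem k)) _ _ zero_le_one)
    (J_nonneg (Mx_nonneg h.comp (h.mem j) (h.mem k)) _ _ zero_le_one)

/-- The integral over the sphere of the gain of an oriented edge: `sphere_cr` for `a = P k - P j ≠ 0`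
(`ee`), `G = QQ K P j k` (`QQ_hom`), and `circle_QQ`. -/
theorem sphere_QQ {K : Set E3} {P N : Fin 4 → E3} {v : ℝ} (h : Loc K P N v) {j k l m : Fin 4}
    (hjk : j ≠ k) (hjl : j ≠ l) (hjm : j ≠ m) (hkl : k ≠ l) (hkm : k ≠ m) (hlm : l ≠ m) :
    ∫ u : sphere (0:E3) 1, QQ K P j k (cr (P k - P j) (u : E3)) ∂(volume : Measure E3).toSphere =
      4 / 3 * ‖P k - P j‖ ^ 2 * HH K P N j k l m := by
  have ha : P k - P j ≠ 0 := by
    intro h0
    have h1 := h.near.ee k j hjk.symm
    rw [h0, norm_zero] at h1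
    norm_num at h1
  obtain ⟨e₁, e₂, he, h1, h2, h3⟩ := sphere_cr ha (QQ K P j k)
    (fun c w hc => QQ_hom h.comp h.mem j k c w hc)
  rw [h3, circle_QQ h hjk hjl hjm hkl hkm hlm he h1 h2]

theorem QQ_nonneg {K : Set E3} {P N : Fin 4 → E3} {v : ℝ} (h : Loc K P N v) (j k : Fin 4)
    (w : E3) : 0 ≤ QQ K P j k w := by
  unfold QQ
  split_ifs
  · exact mul_nonneg (norm_nonneg w) (Mx_nonneg h.comp (h.mem j) (h.mem k) w)
  · exact le_refl 0

theorem Gain_QQ_le {K : Set E3} {P N : Fin 4 → E3} {v : ℝ} (h : Loc K P N v) (j k : Fin 4)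
    (w : E3) : QQ K P j k w ≤ ‖w‖ * Mx K (P j) (P k) w := by
  unfold QQ
  split_ifs
  · exact le_refl _
  · exact mul_nonneg (norm_nonneg w) (Mx_nonneg h.comp (h.mem j) (h.mem k) w)

theorem Gain_act_measurable (P : Fin 4 → E3) (j k : Fin 4) : MeasurableSet {w | Act P j k w} := by
  unfold Act
  have h1 : {w : E3 | ∀ l, l ≠ j → l ≠ k → (inner ℝ (P l - P j) w : ℝ) < 0} =
      ⋂ l, ⋂ (_ : l ≠ j), ⋂ (_ : l ≠ k), {w : E3 | (inner ℝ (P l - P j) w : ℝ) < 0} := by
    ext w
    simp only [mem_ofPred_eq, mem_iInter]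
  rw [h1]
  refine MeasurableSet.iInter fun l => MeasurableSet.iInter fun _ => MeasurableSet.iInter fun _ => ?_
  exact (isOpen_lt (by fun_prop) continuous_const).measurableSet

theorem Gain_QQ_measurable {K : Set E3} {P N : Fin 4 → E3} {v : ℝ} (h : Loc K P N v)
    (j k : Fin 4) : Measurable (QQ K P j k) := by
  unfold QQ
  refine Measurable.ite (Gain_act_measurable P j k) ?_ measurable_const
  exact (continuous_norm.mul (Mx_continuous h.comp (h.mem j) (h.mem k))).measurable

theorem Gain_cr_continuous (a : E3) : Continuous fun u : sphere (0:E3) 1 => cr a (u : E3) :=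
  cr_continuous.comp (Continuous.prodMk continuous_const continuous_subtype_val)

/-- `QQ` is measurable, nonnegative and bounded on the sphere. -/
theorem QQ_integrable {K : Set E3} {P N : Fin 4 → E3} {v : ℝ} (h : Loc K P N v) (j k : Fin 4) :
    Integrable (fun u : sphere (0:E3) 1 => QQ K P j k (cr (P k - P j) (u : E3)))
      (volume : Measure E3).toSphere := by
  have hc := Gain_cr_continuous (P k - P j)
  have hF : Continuous fun u : sphere (0:E3) 1 =>
      ‖cr (P k - P j) (u : E3)‖ * Mx K (P j) (P k) (cr (P k - P j) (u : E3)) :=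
    hc.norm.mul ((Mx_continuous h.comp (h.mem j) (h.mem k)).comp hc)
  have hI : Integrable (fun u : sphere (0:E3) 1 =>
      ‖cr (P k - P j) (u : E3)‖ * Mx K (P j) (P k) (cr (P k - P j) (u : E3)))
      (volume : Measure E3).toSphere :=
    hF.integrable_of_hasCompactSupport (HasCompactSupport.of_compactSpace _)
  refine hI.mono' ((Gain_QQ_measurable h j k).comp hc.measurable).aestronglyMeasurable
    (Filter.Eventually.of_forall fun u => ?_)
  rw [Real.norm_of_nonneg (QQ_nonneg h j k _)]
  exact Gain_QQ_le h j k _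

/-- The lower bound of one term. -/
theorem Gain_term {K : Set E3} {P N : Fin 4 → E3} {v : ℝ} (h : Loc K P N v) {j k l m : Fin 4}
    (hjk : j ≠ k) (hjl : j ≠ l) (hjm : j ≠ m) (hkl : k ≠ l) (hkm : k ≠ m) (hlm : l ≠ m) :
    4 / 3 * (1 - 1 / 10 ^ 5) * HH K P N j k l m ≤
      ∫ u : sphere (0:E3) 1, QQ K P j k (cr (P k - P j) (u : E3))
        ∂(volume : Measure E3).toSphere := by
  rw [sphere_QQ h hjk hjl hjm hkl hkm hlm]
  have h1 := (abs_le.1 (h.near.ee k j hjk.symm)).1
  have h2 : 4 / 3 * (1 - 1 / 10 ^ 5) ≤ 4 / 3 * ‖P k - P j‖ ^ 2 := by linarith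
  exact mul_le_mul_of_nonneg_right h2 (HH_nonneg h j k l m)

theorem Gain_lint {K : Set E3} {P N : Fin 4 → E3} {v : ℝ} (h : Loc K P N v) (j k : Fin 4) :
    ∫⁻ u : sphere (0:E3) 1, ENNReal.ofReal (993 / 2000 * QQ K P j k (cr (P k - P j) (u : E3)))
      ∂(volume : Measure E3).toSphere =
    ENNReal.ofReal (993 / 2000 * ∫ u : sphere (0:E3) 1, QQ K P j k (cr (P k - P j) (u : E3))
        ∂(volume : Measure E3).toSphere) := by
  rw [← integral_const_mul, ofReal_integral_eq_lintegral_ofReal
    ((QQ_integrable h j k).const_mul _) (Filter.Eventually.of_forall fun u => ?_)]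
  exact mul_nonneg (by norm_num) (QQ_nonneg h j k _)

/-- **The gain of the surface area.** -/
theorem gain {K : Set E3} {P N : Fin 4 → E3} {v : ℝ} (h : Loc K P N v) :
    surfaceArea (convexHull ℝ (range P)) + 4 / (3 * π) * (99 / 100) * GG K P N ≤
      surfaceArea K := by
  set I : Fin 4 → Fin 4 → ℝ := fun j k =>
    ∫ u : sphere (0:E3) 1, QQ K P j k (cr (P k - P j) (u : E3))
        ∂(volume : Measure E3).toSphere with hI
  have hI0 : ∀ j k, 0 ≤ I j k := fun j k => integral_nonneg fun u => QQ_nonneg h j k _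
  have hT : IsCompact (convexHull ℝ (range P)) :=
    (finite_range P).isCompact_convexHull ℝ
  set AT := ∫⁻ u : sphere (0:E3) 1, volume (shadow (convexHull ℝ (range P)) u)
    ∂(volume : Measure E3).toSphere with hAT
  set AK := ∫⁻ u : sphere (0:E3) 1, volume (shadow K u)
    ∂(volume : Measure E3).toSphere with hAK
  have hATtop : AT ≠ ⊤ := lintegral_shadow_ne_top hT
  have hAKtop : AK ≠ ⊤ := lintegral_shadow_ne_top h.comp
  have hmeas : ∀ j k, Measurable fun u : sphere (0:E3) 1 =>
      ENNReal.ofReal (993 / 2000 * QQ K P j k (cr (P k - P j) (u : E3))) := fun j k =>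
    ((((Gain_QQ_measurable h j k).comp (Gain_cr_continuous _).measurable)).const_mul
      _).ennreal_ofReal
  have h1 : AT + ENNReal.ofReal (∑ j, ∑ k, 993 / 2000 * I j k) ≤ AK := by
    have h2 : ∫⁻ u : sphere (0:E3) 1, ∑ j, ∑ k,
        ENNReal.ofReal (993 / 2000 * QQ K P j k (cr (P k - P j) (u : E3)))
        ∂(volume : Measure E3).toSphere = ENNReal.ofReal (∑ j, ∑ k, 993 / 2000 * I j k) := by
      rw [lintegral_finsetSum _ fun j _ => Finset.measurable_fun_sum _ fun k _ => hmeas j k,
        ENNReal.ofReal_sum_of_nonneg fun j _ => Finset.sum_nonneg fun k _ =>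
          mul_nonneg (by norm_num) (hI0 j k)]
      refine Finset.sum_congr rfl fun j _ => ?_
      rw [lintegral_finsetSum _ fun k _ => hmeas j k,
        ENNReal.ofReal_sum_of_nonneg fun k _ => mul_nonneg (by norm_num) (hI0 j k)]
      exact Finset.sum_congr rfl fun k _ => Gain_lint h j k
    rw [← h2, ← lintegral_add_right _ (Finset.measurable_fun_sum _ fun j _ =>
      Finset.measurable_fun_sum _ fun k _ => hmeas j k)]
    exact lintegral_mono fun u => dir_gain h u
  have hS0 : 0 ≤ ∑ j, ∑ k, 993 / 2000 * I j k :=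
    Finset.sum_nonneg fun j _ => Finset.sum_nonneg fun k _ => mul_nonneg (by norm_num) (hI0 j k)
  have h3 : AT.toReal + ∑ j, ∑ k, 993 / 2000 * I j k ≤ AK.toReal := by
    have h4 := ENNReal.toReal_mono hAKtop h1
    rwa [ENNReal.toReal_add hATtop ENNReal.ofReal_ne_top, ENNReal.toReal_ofReal hS0] at h4
  have t01 := Gain_term h (j := 0) (k := 1) (l := 2) (m := 3) (by decide) (by decide) (by decide)
    (by decide) (by decide) (by decide)
  have t02 := Gain_term h (j := 0) (k := 2) (l := 1) (m := 3) (by decide) (by decide) (by decide)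
    (by decide) (by decide) (by decide)
  have t03 := Gain_term h (j := 0) (k := 3) (l := 1) (m := 2) (by decide) (by decide) (by decide)
    (by decide) (by decide) (by decide)
  have t12 := Gain_term h (j := 1) (k := 2) (l := 0) (m := 3) (by decide) (by decide) (by decide)
    (by decide) (by decide) (by decide)
  have t13 := Gain_term h (j := 1) (k := 3) (l := 0) (m := 2) (by decide) (by decide) (by decide)
    (by decide) (by decide) (by decide)
  have t23 := Gain_term h (j := 2) (k := 3) (l := 0) (m := 1) (by decide) (by decide) (by decide)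
    (by decide) (by decide) (by decide)
  have t10 := Gain_term h (j := 1) (k := 0) (l := 2) (m := 3) (by decide) (by decide) (by decide)
    (by decide) (by decide) (by decide)
  have t20 := Gain_term h (j := 2) (k := 0) (l := 1) (m := 3) (by decide) (by decide) (by decide)
    (by decide) (by decide) (by decide)
  have t30 := Gain_term h (j := 3) (k := 0) (l := 1) (m := 2) (by decide) (by decide) (by decide)
    (by decide) (by decide) (by decide)
  have t21 := Gain_term h (j := 2) (k := 1) (l := 0) (m := 3) (by decide) (by decide) (by decide)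
    (by decide) (by decide) (by decide)
  have t31 := Gain_term h (j := 3) (k := 1) (l := 0) (m := 2) (by decide) (by decide) (by decide)
    (by decide) (by decide) (by decide)
  have t32 := Gain_term h (j := 3) (k := 2) (l := 0) (m := 1) (by decide) (by decide) (by decide)
    (by decide) (by decide) (by decide)
  rw [HH_symm h (j := 0) (k := 1) (l := 2) (m := 3) (by decide) (by decide) (by decide)
    (by decide)] at t10
  rw [HH_symm h (j := 0) (k := 2) (l := 1) (m := 3) (by decide) (by decide) (by decide)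
    (by decide)] at t20
  rw [HH_symm h (j := 0) (k := 3) (l := 1) (m := 2) (by decide) (by decide) (by decide)
    (by decide)] at t30
  rw [HH_symm h (j := 1) (k := 2) (l := 0) (m := 3) (by decide) (by decide) (by decide)
    (by decide)] at t21
  rw [HH_symm h (j := 1) (k := 3) (l := 0) (m := 2) (by decide) (by decide) (by decide)
    (by decide)] at t31
  rw [HH_symm h (j := 2) (k := 3) (l := 0) (m := 1) (by decide) (by decide) (by decide)
    (by decide)] at t32
  have hGG : 0 ≤ GG K P N := by
    unfold GG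
    have g1 := HH_nonneg h 0 1 2 3
    have g2 := HH_nonneg h 0 2 1 3
    have g3 := HH_nonneg h 0 3 1 2
    have g4 := HH_nonneg h 1 2 0 3
    have g5 := HH_nonneg h 1 3 0 2
    have g6 := HH_nonneg h 2 3 0 1
    linarith
  have h5 : 4 / 3 * (99 / 100) * GG K P N ≤ ∑ j, ∑ k, 993 / 2000 * I j k := by
    have h6 : 993 / 1000 * (4 / 3 * (1 - 1 / 10 ^ 5)) * GG K P N ≤
        ∑ j, ∑ k, 993 / 2000 * I j k := by
      simp only [Fin.sum_univ_four]
      have d0 := hI0 0 0
      have d1 := hI0 1 1
      have d2 := hI0 2 2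
      have d3 := hI0 3 3
      change _ ≤ I 0 1 at t01
      change _ ≤ I 0 2 at t02
      change _ ≤ I 0 3 at t03
      change _ ≤ I 1 2 at t12
      change _ ≤ I 1 3 at t13
      change _ ≤ I 2 3 at t23
      change _ ≤ I 1 0 at t10
      change _ ≤ I 2 0 at t20
      change _ ≤ I 3 0 at t30
      change _ ≤ I 2 1 at t21
      change _ ≤ I 3 1 at t31
      change _ ≤ I 3 2 at t32
      unfold GG
      linarith
    refine le_trans ?_ h6
    exact mul_le_mul_of_nonneg_right (by norm_num) hGG
  have h7 : surfaceArea (convexHull ℝ (range P)) = 1 / π * AT.toReal := rfl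
  have h8 : surfaceArea K = 1 / π * AK.toReal := rfl
  rw [h7, h8]
  have h9 : 4 / (3 * π) * (99 / 100) * GG K P N = 1 / π * (4 / 3 * (99 / 100) * GG K P N) := by
    have := pi_pos.ne'
    field_simp
  rw [h9, ← mul_add]
  refine mul_le_mul_of_nonneg_left ?_ (by positivity)
  linarith

end SanLoc
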