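/-
MP_72c0ec_gt, helper9: choice of the inscribed tetrahedron.
-/
import Pool.Agent.H.MP_72c0ec_gt.Loc.Edges

set_option autoImplicit false

namespace SanLoc

open San SanSym MeasureTheory Set Metric Real

/-- Every point of the tetrahedron `V` satisfies the inequalities of the faces: for `k ≠ j`,
`⟪N k, y - V j⟫ ≤ 0` for all `y` in the convex hull (it is enough to check the vertices: `0` for the
vertices `≠ V k` by `height`, `-v` for `V k`). -/
theorem hull_face {P N : Fin 4 → E3} {v : ℝ} (h : IsTet P N v) {j k : Fin 4} (hjk : k ≠ j) {y : E3}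
    (hy : y ∈ convexHull ℝ (range P)) : (inner ℝ (N k) (y - P j) : ℝ) ≤ 0 := by
  have hsub : convexHull ℝ (range P) ⊆ {y : E3 | (inner ℝ (N k) (y - P j) : ℝ) ≤ 0} := by
    refine convexHull_min ?_ ?_
    · rintro _ ⟨i, rfl⟩
      have h1 := h.height k j hjk.symm
      have hv := h.pos
      show (inner ℝ (N k) (P i - P j) : ℝ) ≤ 0
      rw [inner_sub_right]
      by_cases hik : i = k
      · subst hik
        linarith
      · have h2 := h.height k i hik
        linarith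
    · have h3 : {y : E3 | (inner ℝ (N k) (y - P j) : ℝ) ≤ 0} =
          {y : E3 | (innerₛₗ ℝ (N k) : E3 →ₗ[ℝ] ℝ) y ≤ inner ℝ (N k) (P j)} := by
        ext y
        show (inner ℝ (N k) (y - P j) : ℝ) ≤ 0 ↔ (inner ℝ (N k) y : ℝ) ≤ inner ℝ (N k) (P j)
        rw [inner_sub_right, sub_nonpos]
      rw [h3]
      exact convex_halfSpace_le (LinearMap.isLinear _) _
  exact hsub hy

/-- (aux) four numbers with sum `0` and upper bounds. -/
theorem Pick_bound {a : Fin 4 → ℝ} {j : Fin 4} {e d : ℝ} (hs : a 0 + a 1 + a 2 + a 3 = 0)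
    (he : 0 ≤ e) (hd : 0 ≤ d) (h1 : ∀ k, k ≠ j → a k ≤ e) (h2 : a j ≤ e + d) (k : Fin 4) :
    |a k| ≤ 3 * e + d := by
  have h0 : ∀ l, a l ≤ e + if l = j then d else 0 := by
    intro l
    by_cases hl : l = j
    · rw [if_pos hl, hl]
      exact h2
    · rw [if_neg hl, add_zero]
      exact h1 l hl
  have hsum : ∑ l, a l = 0 := by
    rw [Fin.sum_univ_four]
    exact hs
  have h3 : a k = -∑ l ∈ Finset.univ.erase k, a l := by
    rw [← Finset.add_sum_erase _ _ (Finset.mem_univ k)] at hsum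
    linarith
  have h4 : ∑ l ∈ Finset.univ.erase k, a l ≤ 3 * e + d := by
    have h5 : ∑ l ∈ Finset.univ.erase k, a l ≤
        ∑ l ∈ Finset.univ.erase k, (e + if l = j then d else 0) :=
      Finset.sum_le_sum fun l _ => h0 l
    refine h5.trans ?_
    rw [Finset.sum_add_distrib, Finset.sum_const, Finset.card_erase_of_mem (Finset.mem_univ k),
      Finset.sum_ite_eq']
    simp only [Finset.card_univ, Fintype.card_fin, nsmul_eq_mul]
    split_ifs <;> norm_num <;> linarith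
  have h6 : a k ≤ e + d := by
    refine (h0 k).trans ?_
    split_ifs <;> linarith
  rw [abs_le]
  constructor <;> linarith

/-- (aux) a combination of the differences of the vertices. -/
theorem Pick_norm {V : Fin 4 → E3} {j : Fin 4} {c : Fin 4 → ℝ} {B : ℝ} (hB : 0 ≤ B)
    (hV : ∀ i, i ≠ j → ‖V i - V j‖ ≤ 1) (hc : ∀ k, |c k| ≤ B) :
    ‖∑ k, c k • (V k - V j)‖ ≤ 3 * B := by
  have h1 : ∑ k, c k • (V k - V j) = ∑ k ∈ Finset.univ.erase j, c k • (V k - V j) := by
    rw [← Finset.add_sum_erase _ _ (Finset.mem_univ j), sub_self, smul_zero, zero_add]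
  rw [h1]
  refine (norm_sum_le _ _).trans ?_
  have h2 : ∑ k ∈ Finset.univ.erase j, ‖c k • (V k - V j)‖ ≤ ∑ _k ∈ Finset.univ.erase j, B := by
    refine Finset.sum_le_sum fun k hk => ?_
    rw [norm_smul, Real.norm_eq_abs]
    calc |c k| * ‖V k - V j‖ ≤ B * 1 :=
          mul_le_mul (hc k) (hV k (Finset.ne_of_mem_erase hk)) (norm_nonneg _) hB
      _ = B := mul_one B
  refine h2.trans (le_of_eq ?_)
  rw [Finset.sum_const, Finset.card_erase_of_mem (Finset.mem_univ j)]
  simp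

/-- **The inscribed tetrahedron.** `K` is within `ε` of the regular tetrahedron `V` with edges `1`.

Proof. Write `N^V = NN V`; `near_of_edges` (with `η = 0`) gives `‖N^V k‖² = 3/4`, `(tv V)² = 1/2`.
Let `ρ = 1/1000`, `C_j = K ∩ closedBall (V j) ρ`: compact, and non-empty (`h2`, `ε ≤ ρ`). The continuous
function `tv` has a maximum on the compact set `Set.pi univ C` (`isCompact_univ_pi`); let `P` be a
maximiser. For `x ∈ C_j` the family `Function.update P j x` is again in the product, so by `tv_update`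
  (1) `0 ≤ ⟪NN P j, x - P j⟫` for `x ∈ C_j`.
Apply (1) to the point `x_j ∈ K` of `h2`. With `y = P j - V j`, `‖y‖ ≤ ρ`, and
`‖NN P j - N^V j‖ ≤ 18 ρ` (`NN_lip`), `‖NN P j‖ ≤ 1`:
  `⟪NN P j, y⟫ ≤ ⟪NN P j, x_j - V j⟫ ≤ ε`, so `⟪N^V j, y⟫ ≤ ε + 18 ρ ‖y‖`, and since `Σ N^V = 0`,
  (2) `Σ_{k ≠ j} ⟪N^V k, y⟫ ≥ -ε - 18 ρ ‖y‖`.
By `h1` there is `z` in the tetrahedron with `‖P j - z‖ ≤ ε`; `hull_face` gives for `k ≠ j`
  (3) `⟪N^V k, y⟫ = ⟪N^V k, P j - z⟫ + ⟪N^V k, z - V j⟫ ≤ ε`.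
(2), (3): `|⟪N^V k, y⟫| ≤ 3 ε + 18 ρ ‖y‖` for `k ≠ j`. `IsTet.expand` for `x = y` with `Σ` coefficients
`0` gives `y = Σ_{k ≠ j} (-⟪N^V k, y⟫ / v) (V k - V j)` (the coefficient of `V j` is minus the sum of the
others by `sumN`), hence `‖y‖ ≤ 3 (3 ε + 18 ρ ‖y‖) / v`, `v = 1/√2 > 0.7`, and `54 ρ / 0.7 < 1/10`; so
`‖y‖ ≤ 15 ε` (a fortiori `≤ 1000 ε < ρ`).
Finally, for arbitrary `x ∈ K` and small `t > 0` the point `P j + t (x - P j) ∈ K` is in `C_j` (because
`‖P j - V j‖ < ρ`), so (1) gives `0 ≤ t ⟪NN P j, x - P j⟫`. -/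
theorem pick {ε : ℝ} (hε0 : 0 ≤ ε) (hε : ε ≤ 1 / 10 ^ 7) {V : Fin 4 → E3}
    (hV : ∀ i j, i ≠ j → ‖V i - V j‖ = 1) (hor : 0 < tv V) {K : Set E3} (hK : IsCompact K)
    (hKc : Convex ℝ K) (h1 : ∀ x ∈ K, ∃ y ∈ convexHull ℝ (range V), ‖x - y‖ ≤ ε)
    (h2 : ∀ i, ∃ x ∈ K, ‖x - V i‖ ≤ ε) :
    ∃ P : Fin 4 → E3, (∀ j, P j ∈ K) ∧ (∀ j, ‖P j - V j‖ ≤ 1000 * ε) ∧
      ∀ j, ∀ x ∈ K, (0:ℝ) ≤ inner ℝ (NN P j) (x - P j) := by
  have hnear := near_of_edges (P := V) (η := 0) (by norm_num)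
    (fun j k hjk => by rw [hV j k hjk]; norm_num) hor
  have htet := hnear.toIsTet
  have hNV : ∀ j, ‖NN V j‖ ≤ 87 / 100 := by
    intro j
    have h3 := hnear.nn j
    rw [mul_zero, abs_le] at h3
    nlinarith [norm_nonneg (NN V j)]
  have hv : 7 / 10 ≤ tv V := by
    have h3 := hnear.vv
    rw [mul_zero, abs_le] at h3
    nlinarith [hor]
  have hV1 : ∀ i j, i ≠ j → ‖V i - V j‖ ≤ 1 := fun i j hij => (hV i j hij).le
  -- the maximiser
  have hCc : ∀ j, IsCompact (K ∩ closedBall (V j) (1 / 1000)) := fun j =>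
    hK.inter_right isClosed_closedBall
  have hxC : ∀ j, ∃ x ∈ K ∩ closedBall (V j) (1 / 1000), ‖x - V j‖ ≤ ε := by
    intro j
    obtain ⟨x, hx, hx'⟩ := h2 j
    refine ⟨x, ⟨hx, ?_⟩, hx'⟩
    rw [mem_closedBall, dist_eq_norm]
    refine hx'.trans (hε.trans (by norm_num))
  choose xx hxx hxx' using hxC
  obtain ⟨P, hPS, hPmax⟩ := (isCompact_univ_pi hCc).exists_isMaxOn ⟨xx, fun j _ => hxx j⟩
    tv_continuous.continuousOn
  have hPK : ∀ j, P j ∈ K := fun j => (hPS j (mem_univ j)).1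
  have hPV : ∀ j, ‖P j - V j‖ ≤ 1 / 1000 := fun j => by
    have h3 := (hPS j (mem_univ j)).2
    rwa [mem_closedBall, dist_eq_norm] at h3
  have hone : ∀ j, ∀ x ∈ K ∩ closedBall (V j) (1 / 1000),
      (0 : ℝ) ≤ inner ℝ (NN P j) (x - P j) := by
    intro j x hx
    have h3 : Function.update P j x ∈ Set.pi univ fun j => K ∩ closedBall (V j) (1 / 1000) := by
      intro i _
      by_cases hij : i = j
      · subst hij
        rw [Function.update_self]
        exact hx
      · rw [Function.update_of_ne hij]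
        exact hPS i (mem_univ i)
    have h4 : tv (Function.update P j x) ≤ tv P := hPmax h3
    rw [tv_update] at h4
    linarith
  have hNP : ∀ j, ‖NN P j - NN V j‖ ≤ 18 / 1000 := fun j => by
    have h3 := NN_lip (P := P) (V := V) (δ := 1 / 1000) (by norm_num) hV1 hPV j
    linarith
  have hNP1 : ∀ j, ‖NN P j‖ ≤ 1 := fun j => by
    have h3 : NN P j = (NN P j - NN V j) + NN V j := by abel
    have h4 := norm_add_le (NN P j - NN V j) (NN V j)
    rw [← h3] at h4
    linarith [hNP j, hNV j]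
  -- the estimate
  have hmain : ∀ j, ‖P j - V j‖ ≤ 1000 * ε := by
    intro j
    set y := P j - V j with hy
    have hy0 : 0 ≤ ‖y‖ := norm_nonneg y
    have ha2 : (inner ℝ (NN V j) y : ℝ) ≤ ε + 18 / 1000 * ‖y‖ := by
      have h3 := hone j (xx j) (hxx j)
      have h4 : xx j - P j = (xx j - V j) - y := by rw [hy]; abel
      rw [h4, inner_sub_right] at h3
      have h5 : (inner ℝ (NN P j) (xx j - V j) : ℝ) ≤ ε := by
        refine (real_inner_le_norm _ _).trans ?_
        calc ‖NN P j‖ * ‖xx j - V j‖ ≤ 1 * ε :=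
              mul_le_mul (hNP1 j) (hxx' j) (norm_nonneg _) zero_le_one
          _ = ε := one_mul ε
      have h6 : (inner ℝ (NN V j) y : ℝ) = inner ℝ (NN P j) y - inner ℝ (NN P j - NN V j) y := by
        rw [inner_sub_left]; ring
      have h7 : -(18 / 1000 * ‖y‖) ≤ (inner ℝ (NN P j - NN V j) y : ℝ) := by
        have h8 := abs_real_inner_le_norm (NN P j - NN V j) y
        have h9 : ‖NN P j - NN V j‖ * ‖y‖ ≤ 18 / 1000 * ‖y‖ :=
          mul_le_mul_of_nonneg_right (hNP j) hy0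
        have h10 := neg_abs_le (inner ℝ (NN P j - NN V j) y : ℝ)
        linarith
      linarith
    obtain ⟨z, hz, hz'⟩ := h1 (P j) (hPK j)
    have ha3 : ∀ k, k ≠ j → (inner ℝ (NN V k) y : ℝ) ≤ ε := by
      intro k hk
      have h3 := hull_face htet hk hz
      have h4 : y = (P j - z) + (z - V j) := by rw [hy]; abel
      rw [h4, inner_add_right]
      have h5 : (inner ℝ (NN V k) (P j - z) : ℝ) ≤ ε := by
        refine (real_inner_le_norm _ _).trans ?_
        calc ‖NN V k‖ * ‖P j - z‖ ≤ 1 * ε :=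
              mul_le_mul ((hNV k).trans (by norm_num)) hz' (norm_nonneg _) zero_le_one
          _ = ε := one_mul ε
      linarith
    have hsum : (inner ℝ (NN V 0) y : ℝ) + inner ℝ (NN V 1) y + inner ℝ (NN V 2) y +
        inner ℝ (NN V 3) y = 0 := by
      rw [← inner_add_left, ← inner_add_left, ← inner_add_left, htet.sumN, inner_zero_left]
    have hab : ∀ k, |(inner ℝ (NN V k) y : ℝ)| ≤ 3 * ε + 18 / 1000 * ‖y‖ :=
      Pick_bound (a := fun k => (inner ℝ (NN V k) y : ℝ)) (j := j) hsum hε0 (by positivity) ha3 ha2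
    have hexp : y = ∑ k, (-((inner ℝ (NN V k) y : ℝ) / tv V)) • (V k - V j) := by
      have h3 := htet.expand y
      have h4 : ∑ k, (-((inner ℝ (NN V k) y : ℝ) / tv V)) • (V k - V j) =
          ∑ k, (-((inner ℝ (NN V k) y : ℝ) / tv V)) • V k -
            (∑ k, (-((inner ℝ (NN V k) y : ℝ) / tv V))) • V j := by
        rw [Finset.sum_smul, ← Finset.sum_sub_distrib]
        exact Finset.sum_congr rfl fun k _ => smul_sub _ _ _
      have h5 : ∑ k, (-((inner ℝ (NN V k) y : ℝ) / tv V)) = 0 := by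
        rw [Finset.sum_neg_distrib, ← Finset.sum_div, Fin.sum_univ_four, hsum, zero_div, neg_zero]
      rw [h4, h5, zero_smul, sub_zero]
      exact h3
    have hB : ∀ k, |(-((inner ℝ (NN V k) y : ℝ) / tv V))| ≤
        (3 * ε + 18 / 1000 * ‖y‖) * (10 / 7) := by
      intro k
      rw [abs_neg, abs_div, abs_of_pos hor, div_eq_mul_inv]
      refine mul_le_mul (hab k) ?_ (by positivity) (by positivity)
      rw [inv_le_comm₀ hor (by norm_num)]
      linarith
    have h6 := Pick_norm (V := V) (j := j) (by positivity) (fun i hi => hV1 i j hi) hB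
    rw [← hexp] at h6
    nlinarith
  refine ⟨P, hPK, hmain, fun j x hx => ?_⟩
  -- small steps
  have hd0 : 0 ≤ ‖x - P j‖ := norm_nonneg _
  set t : ℝ := min 1 (1 / 2000 / (‖x - P j‖ + 1)) with ht
  have ht0 : 0 < t := lt_min one_pos (by positivity)
  have ht1 : t ≤ 1 := min_le_left _ _
  have ht2 : t * ‖x - P j‖ ≤ 1 / 2000 := by
    have h3 : t ≤ 1 / 2000 / (‖x - P j‖ + 1) := min_le_right _ _
    have h4 : t * (‖x - P j‖ + 1) ≤ 1 / 2000 := (le_div_iff₀ (by positivity)).1 h3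
    nlinarith
  have hmem : P j + t • (x - P j) ∈ K ∩ closedBall (V j) (1 / 1000) := by
    refine ⟨?_, ?_⟩
    · exact hKc.add_smul_sub_mem (hPK j) hx ⟨ht0.le, ht1⟩
    · rw [mem_closedBall, dist_eq_norm]
      have h3 : P j + t • (x - P j) - V j = (P j - V j) + t • (x - P j) := by abel
      rw [h3]
      refine (norm_add_le _ _).trans ?_
      rw [norm_smul, Real.norm_of_nonneg ht0.le]
      have h4 := hmain j
      have h5 : 1000 * ε ≤ 1 / 10000 := by linarith
      linarith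
  have h3 := hone j _ hmem
  rw [add_sub_cancel_left, inner_smul_right] at h3
  exact nonneg_of_mul_nonneg_right h3 ht0

end SanLoc
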