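/-
MP_72c0ec_gt, helper9: the situation of the local theorem.
-/
import Pool.Agent.H.MP_72c0ec_gt.Loc.Pick

set_option autoImplicit false

namespace SanLoc

open San SanSym MeasureTheory Set Metric Real

theorem PickB_near_mono {η η' : ℝ} (h : η ≤ η') {P N : Fin 4 → E3} {v : ℝ} (hN : Near η P N v) :
    Near η' P N v where
  toIsTet := hN.toIsTet
  nn j := (hN.nn j).trans h
  ni j k hjk := (hN.ni j k hjk).trans h
  ee j k hjk := (hN.ee j k hjk).trans h
  vv := hN.vv.trans h

theorem PickB_tv_close {P V : Fin 4 → E3} {δ : ℝ} (hδ0 : 0 ≤ δ) (hδ : δ ≤ 1 / 2)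
    (hV : ∀ i j, i ≠ j → ‖V i - V j‖ ≤ 1) (hN : ∀ j, ‖NN V j‖ ≤ 1)
    (h : ∀ j, ‖P j - V j‖ ≤ δ) : |tv P - tv V| ≤ 4 * ((1 + 18 * δ) * δ) := by
  have step : ∀ (Q : Fin 4 → E3) (i : Fin 4), (∀ j, ‖Q j - V j‖ ≤ δ) → Q i = V i →
      |tv (Function.update Q i (P i)) - tv Q| ≤ (1 + 18 * δ) * δ ∧
        ∀ j, ‖(Function.update Q i (P i)) j - V j‖ ≤ δ := by
    intro Q i hQ hi
    constructor
    · rw [tv_update]
      have h1 : ‖NN Q i‖ ≤ 1 + 18 * δ := by
        have h2 := NN_lip hδ hV hQ i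
        have h3 : ‖NN Q i‖ ≤ ‖NN V i‖ + ‖NN Q i - NN V i‖ := by
          have := norm_add_le (NN V i) (NN Q i - NN V i)
          rwa [add_sub_cancel] at this
        linarith [hN i]
      have h4 : |(inner ℝ (NN Q i) (P i - Q i) : ℝ)| ≤ ‖NN Q i‖ * ‖P i - Q i‖ :=
        abs_real_inner_le_norm _ _
      have h5 : ‖P i - Q i‖ ≤ δ := by rw [hi]; exact h i
      have h6 : ‖NN Q i‖ * ‖P i - Q i‖ ≤ (1 + 18 * δ) * δ :=
        mul_le_mul h1 h5 (norm_nonneg _) (by linarith)
      have h7 : tv Q - inner ℝ (NN Q i) (P i - Q i) - tv Q = -(inner ℝ (NN Q i) (P i - Q i) : ℝ) := by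
        ring
      rw [h7, abs_neg]
      exact h4.trans h6
    · intro j
      by_cases hj : j = i
      · subst hj
        rw [Function.update_self]
        exact h j
      · rw [Function.update_of_ne hj]
        exact hQ j
  have h0 : ∀ j, ‖V j - V j‖ ≤ δ := by
    intro j
    rw [sub_self, norm_zero]
    exact hδ0
  obtain ⟨a1, b1⟩ := step V 0 h0 rfl
  obtain ⟨a2, b2⟩ := step (Function.update V 0 (P 0)) 1 b1 (by
    rw [Function.update_of_ne (by decide)])
  obtain ⟨a3, b3⟩ := step (Function.update (Function.update V 0 (P 0)) 1 (P 1)) 2 b2 (by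
    rw [Function.update_of_ne (by decide), Function.update_of_ne (by decide)])
  obtain ⟨a4, b4⟩ := step (Function.update (Function.update (Function.update V 0 (P 0)) 1 (P 1)) 2
    (P 2)) 3 b3 (by
    rw [Function.update_of_ne (by decide), Function.update_of_ne (by decide),
      Function.update_of_ne (by decide)])
  have e : Function.update (Function.update (Function.update (Function.update V 0 (P 0)) 1 (P 1)) 2
      (P 2)) 3 (P 3) = P := by
    funext j
    fin_cases j
    · simp [Function.update]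
    · simp [Function.update]
    · simp [Function.update]
    · simp [Function.update]
  rw [e] at a4
  rw [abs_le] at a1 a2 a3 a4 ⊢
  constructor <;> linarith [a1.1, a1.2, a2.1, a2.2, a3.1, a3.2, a4.1, a4.2]

/-- The inscribed tetrahedron of `pick` has all the properties `Loc`. -/
theorem loc_exists {V : Fin 4 → E3} (hV : ∀ i j, i ≠ j → ‖V i - V j‖ = 1) (hor : 0 < tv V)
    {K : Set E3} (hK : IsCompact K) (hKc : Convex ℝ K)
    (h1 : ∀ x ∈ K, ∃ y ∈ convexHull ℝ (range V), ‖x - y‖ ≤ 1 / 10 ^ 14)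
    (h2 : ∀ i, ∃ x ∈ K, ‖x - V i‖ ≤ 1 / 10 ^ 14) :
    ∃ P : Fin 4 → E3, Loc K P (NN P) (tv P) ∧
      ∀ j k, j ≠ k → |‖P j - P k‖ ^ 2 - 1| ≤ 1 / 10 ^ 8 := by
  obtain ⟨P, hPK, hPV, hpos⟩ := pick (ε := 1 / 10 ^ 14) (by norm_num) (by norm_num) hV hor hK hKc
    h1 h2
  have hδ : ∀ j, ‖P j - V j‖ ≤ 1 / 10 ^ 11 := fun j => (hPV j).trans (by norm_num)
  have hVle : ∀ i j, i ≠ j → ‖V i - V j‖ ≤ 1 := fun i j hij => (hV i j hij).le
  have hnearV : Near (10 * 0) V (NN V) (tv V) := by
    refine near_of_edges (by norm_num) (fun j k hjk => ?_) hor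
    rw [hV j k hjk]
    norm_num
  have hNV : ∀ j, ‖NN V j‖ ≤ 1 := by
    intro j
    have h3 := hnearV.nn j
    rw [mul_zero] at h3
    have h4 : ‖NN V j‖ ^ 2 = 3 / 4 := by
      have := abs_nonpos_iff.mp h3
      linarith
    nlinarith [norm_nonneg (NN V j)]
  have htvV : 7 / 10 ≤ tv V := by
    have h3 := hnearV.vv
    rw [mul_zero] at h3
    have h4 : tv V ^ 2 = 1 / 2 := by
      have := abs_nonpos_iff.mp h3
      linarith
    nlinarith
  have hedge : ∀ j k, j ≠ k → |‖P j - P k‖ ^ 2 - 1| ≤ 1 / 10 ^ 8 := by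
    intro j k hjk
    have h3 : |‖P j - P k‖ - ‖V j - V k‖| ≤ 2 / 10 ^ 11 := by
      refine (abs_norm_sub_norm_le _ _).trans ?_
      have h4 : P j - P k - (V j - V k) = (P j - V j) - (P k - V k) := by abel
      rw [h4]
      refine (norm_sub_le _ _).trans ?_
      have := hδ j
      have := hδ k
      linarith
    rw [hV j k hjk, abs_le] at h3
    have h5 := norm_nonneg (P j - P k)
    rw [abs_le]
    constructor
    · nlinarith [h3.1, h3.2]
    · nlinarith [h3.1, h3.2]
  have htv : 0 < tv P := by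
    have h3 := PickB_tv_close (by norm_num) (by norm_num) hVle hNV hδ
    rw [abs_le] at h3
    have h4 := h3.1
    norm_num at h4
    linarith
  have hnear : Near (10 * (1 / 10 ^ 8)) P (NN P) (tv P) :=
    near_of_edges (by norm_num) hedge htv
  refine ⟨P, ⟨PickB_near_mono (by norm_num) hnear, hK, hKc, hPK, hpos, ?_⟩, hedge⟩
  intro j k hkj x hx
  obtain ⟨z, hz, hxz⟩ := h1 x hx
  have hzV : ‖z - V j‖ ≤ 1 := by
    have h3 : convexHull ℝ (range V) ⊆ closedBall (V j) 1 := by
      refine convexHull_min ?_ (convex_closedBall _ _)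
      rintro _ ⟨i, rfl⟩
      rw [mem_closedBall, dist_eq_norm]
      by_cases hij : i = j
      · rw [hij, sub_self, norm_zero]
        norm_num
      · exact hVle i j hij
    have h4 := h3 hz
    rwa [mem_closedBall, dist_eq_norm] at h4
  have hVP : ‖V j - P j‖ ≤ 1 / 10 ^ 11 := by
    rw [norm_sub_rev]
    exact hδ j
  have hxP : ‖x - P j‖ ≤ 3 := by
    have h3 : x - P j = (x - z) + (z - V j) + (V j - P j) := by abel
    rw [h3]
    refine (norm_add₃_le).trans ?_
    have : (1:ℝ) / 10 ^ 14 ≤ 1 / 2 := by norm_num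
    have : (1:ℝ) / 10 ^ 11 ≤ 1 / 2 := by norm_num
    linarith
  have e1 : (inner ℝ (NN P k) (x - P j) : ℝ) = inner ℝ (NN P k - NN V k) (x - P j) +
      inner ℝ (NN V k) (x - z) + inner ℝ (NN V k) (z - V j) + inner ℝ (NN V k) (V j - P j) := by
    rw [inner_sub_left]
    have e2 : (inner ℝ (NN V k) (x - P j) : ℝ) = inner ℝ (NN V k) (x - z) +
        inner ℝ (NN V k) (z - V j) + inner ℝ (NN V k) (V j - P j) := by
      rw [← inner_add_right, ← inner_add_right]
      congr 1
      abel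
    rw [e2]
    ring
  have i1 : (inner ℝ (NN P k - NN V k) (x - P j) : ℝ) ≤ 18 * (1 / 10 ^ 11) * 3 := by
    refine (real_inner_le_norm _ _).trans ?_
    exact mul_le_mul (NN_lip (by norm_num) hVle hδ k) hxP (norm_nonneg _) (by norm_num)
  have i2 : (inner ℝ (NN V k) (x - z) : ℝ) ≤ 1 / 10 ^ 14 := by
    refine (real_inner_le_norm _ _).trans ?_
    have := mul_le_mul (hNV k) hxz (norm_nonneg _) (by norm_num)
    linarith
  have i3 : (inner ℝ (NN V k) (z - V j) : ℝ) ≤ 0 := hull_face hnearV.toIsTet hkj hz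
  have i4 : (inner ℝ (NN V k) (V j - P j) : ℝ) ≤ 1 / 10 ^ 11 := by
    refine (real_inner_le_norm _ _).trans ?_
    have := mul_le_mul (hNV k) hVP (norm_nonneg _) (by norm_num)
    linarith
  rw [e1]
  have : (18:ℝ) * (1 / 10 ^ 11) * 3 + 1 / 10 ^ 14 + 0 + 1 / 10 ^ 11 ≤ 1 / 10 ^ 8 := by norm_num
  linarith

/-- Points outside the inscribed tetrahedron: if `K` is not the tetrahedron then some point of `K` is
strictly outside one of the faces. -/
theorem exists_outside {K : Set E3} {P N : Fin 4 → E3} {v : ℝ} (h : Loc K P N v)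
    (hne : K ≠ convexHull ℝ (range P)) :
    ∃ x ∈ K, ∃ j k : Fin 4, k ≠ j ∧ (0:ℝ) < inner ℝ (N k) (x - P j) := by
  by_contra hcon
  push Not at hcon
  apply hne
  refine Subset.antisymm ?_ (convexHull_min ?_ h.conv)
  · intro x hx
    have ht := h.near.toIsTet
    have hv := ht.pos
    let w : Fin 4 → ℝ := fun k => -((inner ℝ (N k) (x - P 0) : ℝ) / v) + if k = 0 then 1 else 0
    have hsum0 : (inner ℝ (N 0) (x - P 0) : ℝ) + inner ℝ (N 1) (x - P 0) +
        inner ℝ (N 2) (x - P 0) + inner ℝ (N 3) (x - P 0) = 0 := by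
      rw [← inner_add_left, ← inner_add_left, ← inner_add_left, ht.sumN, inner_zero_left]
    have hw1 : ∑ k, w k = 1 := by
      show ∑ k, (-((inner ℝ (N k) (x - P 0) : ℝ) / v) + if k = 0 then 1 else 0) = 1
      rw [Fin.sum_univ_four]
      simp only [Fin.isValue, ↓reduceIte, one_ne_zero, add_zero, Fin.reduceEq]
      have : ((inner ℝ (N 0) (x - P 0) : ℝ) + inner ℝ (N 1) (x - P 0) +
        inner ℝ (N 2) (x - P 0) + inner ℝ (N 3) (x - P 0)) / v = 0 := by
        rw [hsum0, zero_div]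
      rw [add_div, add_div, add_div] at this
      linarith
    have hw0 : ∀ k, 0 ≤ w k := by
      intro k
      by_cases hk : k = 0
      · subst hk
        show 0 ≤ -((inner ℝ (N 0) (x - P 0) : ℝ) / v) + if (0 : Fin 4) = 0 then 1 else 0
        rw [if_pos rfl]
        have h3 : (inner ℝ (N 0) (x - P 1) : ℝ) ≤ 0 := hcon x hx 1 0 (by decide)
        have h4 := ht.height 0 1 (by decide)
        have h5 : (inner ℝ (N 0) (x - P 0) : ℝ) ≤ v := by
          rw [inner_sub_right] at h3 ⊢
          linarith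
        have h6 : (inner ℝ (N 0) (x - P 0) : ℝ) / v ≤ 1 := by
          rw [div_le_one hv]
          exact h5
        linarith
      · show 0 ≤ -((inner ℝ (N k) (x - P 0) : ℝ) / v) + if k = 0 then 1 else 0
        rw [if_neg hk, add_zero]
        have h3 : (inner ℝ (N k) (x - P 0) : ℝ) ≤ 0 := hcon x hx 0 k hk
        have h4 := div_nonpos_of_nonpos_of_nonneg h3 hv.le
        linarith
    have hx1 : x = ∑ k, w k • P k := by
      have h3 := ht.expand (x - P 0)
      have h4 : ∑ k, w k • P k = (x - P 0) + P 0 := by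
        rw [h3]
        show ∑ k, (-((inner ℝ (N k) (x - P 0) : ℝ) / v) + if k = 0 then 1 else 0) • P k = _
        simp only [add_smul, Finset.sum_add_distrib]
        congr 1
        rw [Fin.sum_univ_four]
        simp
      rw [h4]
      abel
    rw [hx1]
    exact (convex_convexHull ℝ (range P)).sum_mem (fun k _ => hw0 k) hw1
      (fun k _ => subset_convexHull ℝ _ (mem_range_self k))
  · rintro _ ⟨i, rfl⟩
    exact h.mem i

end SanLoc
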