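/-
MP_72c0ec_gt, helper9: the inequality for tetrahedra in the present terms.
-/
import Pool.Agent.H.MP_72c0ec_gt.Loc.Edges

set_option autoImplicit false

namespace SanLoc

open San SanSym MeasureTheory Set Metric Real

/-- `triArea P Q R = ‖cr (Q - P) (R - P)‖ / 2`. -/
theorem triArea_cr (P Q R : E3) : triArea P Q R = ‖cr (Q - P) (R - P)‖ / 2 := by
  rw [triArea, ← cr_norm_sq, Real.sqrt_sq (norm_nonneg _)]

/-- The inequality and the equality case for tetrahedra. -/
theorem TetT_result (A B C D : E3) (h : AffineIndependent ℝ ![A, B, C, D]) :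
    minShadow (convexHull ℝ {A, B, C, D}) ^ 2 ≤ (2 + 4 / √3) *
      (triArea A B C + triArea A B D + triArea A C D + triArea B C D) ∧
    (minShadow (convexHull ℝ {A, B, C, D}) ^ 2 = (2 + 4 / √3) *
      (triArea A B C + triArea A B D + triArea A C D + triArea B C D) ↔
      dist A B = dist A C ∧ dist A B = dist A D ∧ dist A B = dist B C ∧ dist A B = dist B D ∧
        dist A B = dist C D) := by
  have hr0 : 0 < √(3:ℝ) := Real.sqrt_pos.2 (by norm_num)
  have hr : √(3:ℝ) ^ 2 = 3 := Real.sq_sqrt (by norm_num)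
  obtain ⟨r, hrr⟩ : ∃ r, r = √(3:ℝ) := ⟨_, rfl⟩
  rw [← hrr] at hr0 hr ⊢
  obtain ⟨hr1, hr2⟩ := r_bounds r hr0 hr
  have hk : (2 * r - 3) * (2 + 4 / r) = 2 := by
    field_simp
    have : (2 * r - 3) * (r * 2 + 4) = 4 * r ^ 2 + 2 * r - 12 := by ring
    nlinarith
  have hk0 : 0 < 2 * r - 3 := by linarith
  obtain ⟨e₁, e₂, k1, k2, k3⟩ := upper_all A B C D r hr0 hr h
  have hle := minShadow_le A B C D e₁ e₂ k1
  have hnn := minShadow_nonneg A B C D
  have hsq : minShadow (convexHull ℝ {A, B, C, D}) ^ 2 ≤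
      shadowPerimeter (convexHull ℝ {A, B, C, D}) e₁ e₂ ^ 2 := pow_le_pow_left₀ hnn hle 2
  have hS : triArea A B C + triArea A B D + triArea A C D + triArea B C D = faces A B C D := rfl
  rw [hS]
  obtain ⟨m, hm⟩ : ∃ m, m = minShadow (convexHull ℝ {A, B, C, D}) := ⟨_, rfl⟩
  obtain ⟨L, hL⟩ : ∃ L, L = shadowPerimeter (convexHull ℝ {A, B, C, D}) e₁ e₂ := ⟨_, rfl⟩
  rw [← hm] at hle hnn hsq ⊢
  rw [← hL] at hle hsq k2 k3
  have hfac : (2 + 4 / r) * faces A B C D * (2 * r - 3) = 2 * faces A B C D := by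
    calc (2 + 4 / r) * faces A B C D * (2 * r - 3) = ((2 * r - 3) * (2 + 4 / r)) * faces A B C D := by
          ring
      _ = 2 * faces A B C D := by rw [hk]
  have hmain : m ^ 2 ≤ (2 + 4 / r) * faces A B C D := by
    have h1 : m ^ 2 * (2 * r - 3) ≤ (2 + 4 / r) * faces A B C D * (2 * r - 3) := by
      rw [hfac]
      have := mul_le_mul_of_nonneg_right hsq hk0.le
      linarith
    exact le_of_mul_le_mul_right h1 hk0
  refine ⟨hmain, fun heq => ?_, fun hreg => ?_⟩
  · have h1 : (2 * r - 3) * L ^ 2 = 2 * faces A B C D := by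
      refine le_antisymm k2 ?_
      rw [← hfac, ← heq]
      have := mul_le_mul_of_nonneg_right hsq hk0.le
      linarith
    obtain ⟨l, m1, m2, m3, m4, m5, m6⟩ := k3 h1
    have d1 : dist A B = l := by rw [dist_eq_norm, norm_sub_rev, m1]
    have d2 : dist A C = l := by rw [dist_eq_norm, norm_sub_rev, m2]
    have d3 : dist A D = l := by rw [dist_eq_norm, norm_sub_rev, m3]
    have d4 : dist B C = l := by rw [dist_eq_norm, norm_sub_rev, m4]
    have d5 : dist B D = l := by rw [dist_eq_norm, norm_sub_rev, m5]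
    have d6 : dist C D = l := by rw [dist_eq_norm, m6]
    exact ⟨by rw [d1, d2], by rw [d1, d3], by rw [d1, d4], by rw [d1, d5], by rw [d1, d6]⟩
  · obtain ⟨q2, q3, q4, q5, q6⟩ := hreg
    obtain ⟨l, hl⟩ : ∃ l, l = dist A B := ⟨_, rfl⟩
    rw [← hl] at q2 q3 q4 q5 q6
    have hinj := h.injective
    have nAB : A ≠ B := fun e => absurd (hinj (a₁ := 0) (a₂ := 1) e) (by decide)
    have hl0 : 0 < l := by rw [hl]; exact dist_pos.2 nAB
    rw [dist_eq_norm] at hl q2 q3 q4 q5 q6
    have hS2 : faces A B C D = r * l ^ 2 := by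
      have a1 : triArea A B C = r * l ^ 2 / 4 := triArea_eq r l hr0 hr A B C
        (by rw [norm_sub_rev, hl]) (by rw [norm_sub_rev, q2]) (by rw [q4])
      have a2 : triArea A B D = r * l ^ 2 / 4 := triArea_eq r l hr0 hr A B D
        (by rw [norm_sub_rev, hl]) (by rw [norm_sub_rev, q3]) (by rw [q5])
      have a3 : triArea A C D = r * l ^ 2 / 4 := triArea_eq r l hr0 hr A C D
        (by rw [norm_sub_rev, q2]) (by rw [norm_sub_rev, q3]) (by rw [q6])
      have a4 : triArea B C D = r * l ^ 2 / 4 := triArea_eq r l hr0 hr B C D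
        (by rw [norm_sub_rev, q4]) (by rw [norm_sub_rev, q5]) (by rw [q6])
      rw [faces, a1, a2, a3, a4]
      ring
    have hlow : (1 + r) * l ≤ m := by
      rw [hm]
      refine le_csInf ⟨_, e₁, e₂, k1, rfl⟩ ?_
      rintro x ⟨f₁, f₂, hf, rfl⟩
      exact lower r l hr0 hr hl0 A B C D f₁ f₂ hf hl.symm q2.symm q3.symm q4.symm q5.symm q6.symm
    refine le_antisymm hmain ?_
    have h1 : ((1 + r) * l) ^ 2 ≤ m ^ 2 := pow_le_pow_left₀ (by positivity) hlow 2
    have h2 : (2 + 4 / r) * (r * l ^ 2) = ((1 + r) * l) ^ 2 := by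
      have e1 : (2 + 4 / r) * (r * l ^ 2) = (2 * r + 4) * l ^ 2 := by
        field_simp
      have e2 : ((1 + r) * l) ^ 2 = (1 + 2 * r + r ^ 2) * l ^ 2 := by ring
      rw [e1, e2, hr]
      ring
    rw [hS2, h2]
    exact h1

/-- The vertices of a positively oriented tetrahedron are affinely independent. -/
theorem TetT_indep {P : Fin 4 → E3} (h : 0 < tv P) : AffineIndependent ℝ ![P 0, P 1, P 2, P 3] := by
  have hP : (![P 0, P 1, P 2, P 3] : Fin 4 → E3) = P := by
    funext i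
    fin_cases i <;> rfl
  rw [hP, affineIndependent_iff]
  intro s w hw hs j hj
  have ht := isTet_NN h
  have h1 : (inner ℝ (NN P j) (∑ e ∈ s, w e • P e) : ℝ) = 0 := by rw [hs, inner_zero_right]
  rw [inner_sum] at h1
  have h2 : ∀ e ∈ s, (inner ℝ (NN P j) (w e • P e) : ℝ) =
      w e * (inner ℝ (NN P j) (P j) + tv P) - (if e = j then w e * tv P else 0) := by
    intro e _
    rw [inner_smul_right]
    split_ifs with he
    · rw [he]; ring
    · rw [ht.height j e he]; ring
  rw [Finset.sum_congr rfl h2, Finset.sum_sub_distrib, ← Finset.sum_mul, hw, zero_mul,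
    Finset.sum_ite_eq' s j, if_pos hj, zero_sub, neg_eq_zero] at h1
  rcases mul_eq_zero.1 h1 with h3 | h3
  · exact h3
  · exact absurd h3 h.ne'

theorem TetT_range (P : Fin 4 → E3) : range P = {P 0, P 1, P 2, P 3} := by
  ext x
  simp only [mem_range, mem_insert_iff, mem_singleton_iff]
  constructor
  · rintro ⟨i, rfl⟩
    fin_cases i <;> simp
  · rintro (rfl | rfl | rfl | rfl)
    exacts [⟨0, rfl⟩, ⟨1, rfl⟩, ⟨2, rfl⟩, ⟨3, rfl⟩]

theorem TetT_norm (P : Fin 4 → E3) {j k l m : Fin 4} (hjk : j ≠ k) (hjl : j ≠ l) (hjm : j ≠ m)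
    (hkl : k ≠ l) (hkm : k ≠ m) (hlm : l ≠ m) : triArea (P k) (P l) (P m) = ‖NN P j‖ / 2 := by
  rw [triArea_cr]
  rcases NN_eq_cr P hjk hjl hjm hkl hkm hlm with h | h
  · rw [h]
  · rw [h, norm_neg]

theorem TetT_faces (P : Fin 4 → E3) :
    triArea (P 0) (P 1) (P 2) + triArea (P 0) (P 1) (P 3) + triArea (P 0) (P 2) (P 3) +
      triArea (P 1) (P 2) (P 3) = F0 (NN P) := by
  rw [TetT_norm P (j := 3) (k := 0) (l := 1) (m := 2) (by decide) (by decide) (by decide)
      (by decide) (by decide) (by decide),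
    TetT_norm P (j := 2) (k := 0) (l := 1) (m := 3) (by decide) (by decide) (by decide)
      (by decide) (by decide) (by decide),
    TetT_norm P (j := 1) (k := 0) (l := 2) (m := 3) (by decide) (by decide) (by decide)
      (by decide) (by decide) (by decide),
    TetT_norm P (j := 0) (k := 1) (l := 2) (m := 3) (by decide) (by decide) (by decide)
      (by decide) (by decide) (by decide), F0]
  ring

/-- The inequality and the equality case for tetrahedra. -/
theorem tet_bound {P : Fin 4 → E3} (h : 0 < tv P) :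
    minShadow (convexHull ℝ (range P)) ^ 2 ≤ (2 + 4 / √3) * F0 (NN P) ∧
    (minShadow (convexHull ℝ (range P)) ^ 2 = (2 + 4 / √3) * F0 (NN P) →
      ∀ i j, i ≠ j → ‖P i - P j‖ = ‖P 0 - P 1‖) := by
  obtain ⟨h1, h2⟩ := TetT_result (P 0) (P 1) (P 2) (P 3) (TetT_indep h)
  rw [TetT_faces, ← TetT_range] at h1 h2
  refine ⟨h1, fun heq => ?_⟩
  obtain ⟨d1, d2, d3, d4, d5⟩ := h2.1 heq
  simp only [dist_eq_norm] at d1 d2 d3 d4 d5
  have key : ∀ i j : Fin 4, i < j → ‖P i - P j‖ = ‖P 0 - P 1‖ := by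
    intro i j hij
    fin_cases i <;> fin_cases j <;> first | exact absurd hij (by decide) | skip
    exacts [rfl, d1.symm, d2.symm, d3.symm, d4.symm, d5.symm]
  intro i j hij
  rcases lt_or_gt_of_ne hij with h3 | h3
  · exact key i j h3
  · rw [norm_sub_rev]
    exact key j i h3

/-- Equality for regular tetrahedra. -/
theorem tet_equality {P : Fin 4 → E3} (h : 0 < tv P)
    (hreg : ∀ i j, i ≠ j → ‖P i - P j‖ = ‖P 0 - P 1‖) :
    minShadow (convexHull ℝ (range P)) ^ 2 = (2 + 4 / √3) * F0 (NN P) := by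
  obtain ⟨h1, h2⟩ := TetT_result (P 0) (P 1) (P 2) (P 3) (TetT_indep h)
  rw [TetT_faces, ← TetT_range] at h2
  refine h2.2 ?_
  simp only [dist_eq_norm]
  exact ⟨(hreg 0 2 (by decide)).symm, (hreg 0 3 (by decide)).symm, (hreg 1 2 (by decide)).symm,
    (hreg 1 3 (by decide)).symm, (hreg 2 3 (by decide)).symm⟩

end SanLoc
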