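/-
MP_72c0ec_gt, helper9: the first order terms for nearly regular tetrahedra.
-/
import Pool.Agent.H.MP_72c0ec_gt.Loc.Edges

set_option autoImplicit false

namespace SanLoc

open San SanSym MeasureTheory Set Metric Real

theorem First_sum4 (g : Fin 4 → ℝ) {j k l m : Fin 4}
    (hjk : j ≠ k) (hjl : j ≠ l) (hjm : j ≠ m) (hkl : k ≠ l) (hkm : k ≠ m) (hlm : l ≠ m) :
    g j + g k + g l + g m = g 0 + g 1 + g 2 + g 3 := by
  have hinj : Function.Injective ![j, k, l, m] := by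
    intro a b h
    fin_cases a <;> fin_cases b <;> simp_all [eq_comm]
  have hb := Finite.injective_iff_bijective.1 hinj
  have h1 := Function.Bijective.sum_comp hb g
  simpa [Fin.sum_univ_four] using h1

theorem First_sum6 {P : Fin 4 → E3} {s : ℝ}
    (hsum : ‖P 0 - P 1‖ ^ 2 + ‖P 0 - P 2‖ ^ 2 + ‖P 0 - P 3‖ ^ 2 + ‖P 1 - P 2‖ ^ 2 +
      ‖P 1 - P 3‖ ^ 2 + ‖P 2 - P 3‖ ^ 2 = 6 * s) {j k l m : Fin 4}
    (hjk : j ≠ k) (hjl : j ≠ l) (hjm : j ≠ m) (hkl : k ≠ l) (hkm : k ≠ m) (hlm : l ≠ m) :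
    ‖P j - P k‖ ^ 2 + ‖P j - P l‖ ^ 2 + ‖P j - P m‖ ^ 2 + ‖P k - P l‖ ^ 2 +
      ‖P k - P m‖ ^ 2 + ‖P l - P m‖ ^ 2 = 6 * s := by
  have h0 := fun a => First_sum4 (fun i => ‖P a - P i‖ ^ 2) hjk hjl hjm hkl hkm hlm
  have h1 := First_sum4 (fun a => ‖P a - P 0‖ ^ 2 + ‖P a - P 1‖ ^ 2 + ‖P a - P 2‖ ^ 2 +
    ‖P a - P 3‖ ^ 2) hjk hjl hjm hkl hkm hlm
  have hj := h0 j
  have hk := h0 k
  have hl := h0 l
  have hm := h0 m
  simp only [sub_self, norm_zero] at h1 hj hk hl hm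
  rw [norm_sub_rev (P k) (P j)] at hk
  rw [norm_sub_rev (P l) (P j), norm_sub_rev (P l) (P k)] at hl
  rw [norm_sub_rev (P m) (P j), norm_sub_rev (P m) (P k), norm_sub_rev (P m) (P l)] at hm
  rw [norm_sub_rev (P 1) (P 0), norm_sub_rev (P 2) (P 0), norm_sub_rev (P 2) (P 1),
    norm_sub_rev (P 3) (P 0), norm_sub_rev (P 3) (P 1), norm_sub_rev (P 3) (P 2)] at h1
  linarith

theorem First_sqrt3 : √3 ^ 2 = 3 ∧ 17 / 10 ≤ √3 ∧ √3 ≤ 18 / 10 := by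
  refine ⟨Real.sq_sqrt (by norm_num), ?_, ?_⟩
  · exact Real.le_sqrt_of_sq_le (by norm_num)
  · exact Real.sqrt_le_iff.2 ⟨by norm_num, by norm_num⟩

/-- upper bound for the length of a normal -/
theorem First_face_le {N s ρ x y z : ℝ} (hs : 0 < s)
    (hN : N ^ 2 = (2 * (x * y + y * z + z * x) - (x ^ 2 + y ^ 2 + z ^ 2)) / 4)
    (hx : |x - s| ≤ ρ * s) (hy : |y - s| ≤ ρ * s) (hz : |z - s| ≤ ρ * s) :
    N ≤ √3 * (s * (1 / 2 + 3 / 4 * ρ ^ 2) + (x + y + z - 3 * s) / 6) := by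
  obtain ⟨h3, h4, h5⟩ := First_sqrt3
  have hx2 : (x - s) ^ 2 ≤ (ρ * s) ^ 2 := sq_le_sq' (abs_le.1 hx).1 (abs_le.1 hx).2
  have hy2 : (y - s) ^ 2 ≤ (ρ * s) ^ 2 := sq_le_sq' (abs_le.1 hy).1 (abs_le.1 hy).2
  have hz2 : (z - s) ^ 2 ≤ (ρ * s) ^ 2 := sq_le_sq' (abs_le.1 hz).1 (abs_le.1 hz).2
  have h6 : √3 * s * N ≤ N ^ 2 + 3 / 4 * s ^ 2 := by
    have e : (N - √3 / 2 * s) ^ 2 = N ^ 2 - √3 * s * N + √3 ^ 2 * s ^ 2 / 4 := by ring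
    rw [h3] at e
    linarith [sq_nonneg (N - √3 / 2 * s)]
  have h7 : N ^ 2 ≤ s ^ 2 * (3 / 4) + s * (x + y + z - 3 * s) / 2 + 9 / 4 * (ρ * s) ^ 2 := by
    rw [hN]
    linarith [sq_nonneg ((x - s) - (y - s)), sq_nonneg ((y - s) - (z - s)),
      sq_nonneg ((z - s) - (x - s)), sq_nonneg (ρ * s)]
  have h8 : √3 * N ≤ s * (3 / 2 + 9 / 4 * ρ ^ 2) + (x + y + z - 3 * s) / 2 := by
    have h9 : s * (√3 * N) ≤ s * (s * (3 / 2 + 9 / 4 * ρ ^ 2) + (x + y + z - 3 * s) / 2) := by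
      linarith
    exact le_of_mul_le_mul_left h9 hs
  have h10 : √3 * (√3 * N) ≤ √3 * (s * (3 / 2 + 9 / 4 * ρ ^ 2) + (x + y + z - 3 * s) / 2) :=
    mul_le_mul_of_nonneg_left h8 (by linarith)
  have h11 : √3 * (√3 * N) = 3 * N := by rw [← mul_assoc, ← sq, h3]
  rw [h11] at h10
  linarith

/-- lower bound for the length of a normal -/
theorem First_face_ge {N s ρ x y z : ℝ} (hs : 0 < s) (hρ0 : 0 ≤ ρ) (hρ : ρ ≤ 1 / 100) (hN0 : 0 ≤ N)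
    (hN : N ^ 2 = (2 * (x * y + y * z + z * x) - (x ^ 2 + y ^ 2 + z ^ 2)) / 4)
    (hx : |x - s| ≤ ρ * s) (hy : |y - s| ≤ ρ * s) (hz : |z - s| ≤ ρ * s) :
    √3 / 2 * (s * (1 - 6 * ρ ^ 2) + (x + y + z - 3 * s) / 3) ≤ N := by
  obtain ⟨h3, h4, h5⟩ := First_sqrt3
  obtain ⟨a, rfl⟩ : ∃ a, x = s * (1 + a) := ⟨x / s - 1, by field_simp; ring⟩
  obtain ⟨b, rfl⟩ : ∃ b, y = s * (1 + b) := ⟨y / s - 1, by field_simp; ring⟩
  obtain ⟨c, rfl⟩ : ∃ c, z = s * (1 + c) := ⟨z / s - 1, by field_simp; ring⟩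
  have ha : |a| ≤ ρ := by
    have h : s * (1 + a) - s = a * s := by ring
    rw [h, abs_mul, abs_of_pos hs] at hx
    exact le_of_mul_le_mul_right hx hs
  have hb : |b| ≤ ρ := by
    have h : s * (1 + b) - s = b * s := by ring
    rw [h, abs_mul, abs_of_pos hs] at hy
    exact le_of_mul_le_mul_right hy hs
  have hc : |c| ≤ ρ := by
    have h : s * (1 + c) - s = c * s := by ring
    rw [h, abs_mul, abs_of_pos hs] at hz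
    exact le_of_mul_le_mul_right hz hs
  have ha2 : a ^ 2 ≤ ρ ^ 2 := sq_le_sq' (abs_le.1 ha).1 (abs_le.1 ha).2
  have hb2 : b ^ 2 ≤ ρ ^ 2 := sq_le_sq' (abs_le.1 hb).1 (abs_le.1 hb).2
  have hc2 : c ^ 2 ≤ ρ ^ 2 := sq_le_sq' (abs_le.1 hc).1 (abs_le.1 hc).2
  have hw : |(a + b + c) / 3| ≤ ρ := by
    rw [abs_le] at *
    constructor <;> linarith
  set w := (a + b + c) / 3 with hwdef
  have hw2 : w ^ 2 ≤ ρ ^ 2 := sq_le_sq' (abs_le.1 hw).1 (abs_le.1 hw).2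
  have hw3 := abs_le.1 hw
  have h6 : √3 / 2 * (s * (1 - 6 * ρ ^ 2) + (s * (1 + a) + s * (1 + b) + s * (1 + c) - 3 * s) / 3) =
      √3 / 2 * s * (1 + w - 6 * ρ ^ 2) := by
    rw [hwdef]; ring
  rw [h6]
  apply le_of_sq_le_sq ?_ hN0
  have h7 : (√3 / 2 * s * (1 + w - 6 * ρ ^ 2)) ^ 2 = 3 / 4 * s ^ 2 * (1 + w - 6 * ρ ^ 2) ^ 2 := by
    rw [mul_pow, mul_pow, div_pow, h3]; ring
  rw [h7, hN]
  have h8 : (2 * (s * (1 + a) * (s * (1 + b)) + s * (1 + b) * (s * (1 + c)) +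
      s * (1 + c) * (s * (1 + a))) - ((s * (1 + a)) ^ 2 + (s * (1 + b)) ^ 2 +
      (s * (1 + c)) ^ 2)) / 4 = 3 / 4 * s ^ 2 * (1 + 2 * w +
        (2 * (a * b + b * c + c * a) - (a ^ 2 + b ^ 2 + c ^ 2)) / 3) := by
    rw [hwdef]; ring
  rw [h8]
  apply mul_le_mul_of_nonneg_left _ (by positivity)
  have h9 : -(9 * ρ ^ 2) ≤ 2 * (a * b + b * c + c * a) - (a ^ 2 + b ^ 2 + c ^ 2) := by
    linarith [sq_nonneg (a + b), sq_nonneg (b + c), sq_nonneg (c + a)]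
  have h10 : ρ ^ 2 ≤ 1 / 10000 := by
    calc ρ ^ 2 ≤ (1 / 100) ^ 2 := pow_le_pow_left₀ hρ0 hρ 2
      _ = 1 / 10000 := by norm_num
  have h11 : 0 ≤ ρ ^ 2 := sq_nonneg ρ
  have h12 := mul_le_mul_of_nonneg_right h10 h11
  have h13 := mul_nonneg h11 (by linarith : 0 ≤ w + 1 / 100)
  linarith

/-- the factor of the reciprocal of the edge -/
theorem First_recip {D r u ρ : ℝ} (hD : 0 < D) (hρ : ρ ≤ 1 / 100)
    (hu : |u| ≤ ρ) (hDu : D ^ 2 = r ^ 2 * (1 + u)) : r ≤ (1 - u / 2 + ρ ^ 2) * D := by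
  have hu' := abs_le.1 hu
  have hu2 : u ^ 2 ≤ ρ ^ 2 := sq_le_sq' hu'.1 hu'.2
  have h1 : 0 ≤ 1 - u / 2 + ρ ^ 2 := by linarith [sq_nonneg ρ]
  have hu3 : u ^ 2 ≤ 1 / 10000 := by
    calc u ^ 2 ≤ (1 / 100) ^ 2 := sq_le_sq' (by linarith) (by linarith)
      _ = 1 / 10000 := by norm_num
  apply le_of_sq_le_sq ?_ (mul_nonneg h1 hD.le)
  rw [mul_pow, hDu]
  have h2 : 1 ≤ (1 - u / 2 + ρ ^ 2) ^ 2 * (1 + u) := by
    have h3 : (1 - u / 2 + u ^ 2) ^ 2 ≤ (1 - u / 2 + ρ ^ 2) ^ 2 := by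
      apply pow_le_pow_left₀ (by linarith [sq_nonneg u]) (by linarith)
    have h4 : 1 ≤ (1 - u / 2 + u ^ 2) ^ 2 * (1 + u) := by
      have h5 : (1 - u / 2 + u ^ 2) ^ 2 * (1 + u) = 1 + u ^ 2 * (5 / 4 + 5 / 4 * u + u ^ 3) := by
        ring
      rw [h5]
      have h6 : 0 ≤ 5 / 4 + 5 / 4 * u + u ^ 3 := by
        linarith [mul_nonneg (sq_nonneg u) (by linarith : 0 ≤ u + 1 / 100)]
      linarith [mul_nonneg (sq_nonneg u) h6]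
    calc (1:ℝ) ≤ (1 - u / 2 + u ^ 2) ^ 2 * (1 + u) := h4
      _ ≤ (1 - u / 2 + ρ ^ 2) ^ 2 * (1 + u) := mul_le_mul_of_nonneg_right h3 (by linarith)
  linarith [mul_le_mul_of_nonneg_left h2 (sq_nonneg r)]

/-- the final product -/
theorem First_prod {u w ρ : ℝ} (hρ0 : 0 ≤ ρ) (hρ : ρ ≤ 1 / 100) (hu : |u| ≤ ρ) (hw : |w| ≤ ρ) :
    (√3 * (1 + 3 / 2 * ρ ^ 2) + √3 / 6 * (u - w) + (1 + (u + w) / 2)) * (1 - u / 2 + ρ ^ 2) ≤
      1 + √3 - √3 / 3 * u + (1 / 2 - √3 / 6) * w + 20 * ρ ^ 2 := by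
  obtain ⟨h3, h4, h5⟩ := First_sqrt3
  have hu' := abs_le.1 hu
  have hw' := abs_le.1 hw
  have hu2 : u ^ 2 ≤ ρ ^ 2 := sq_le_sq' hu'.1 hu'.2
  have hw2 : w ^ 2 ≤ ρ ^ 2 := sq_le_sq' hw'.1 hw'.2
  have hρ2 : 0 ≤ ρ ^ 2 := sq_nonneg ρ
  have hρ3 : ρ ^ 2 ≤ ρ / 100 := by
    have := mul_le_mul_of_nonneg_left hρ hρ0
    linarith
  have hρ4 := mul_le_mul_of_nonneg_right h5 hρ0
  set A := √3 * (3 / 2 * ρ ^ 2) + √3 / 6 * (u - w) + (u + w) / 2 with hA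
  have hA1 : |A| ≤ 2 * ρ := by
    rw [abs_le]
    constructor
    · rw [hA]
      linarith [mul_nonneg (by linarith : 0 ≤ √3) hρ2, mul_le_mul_of_nonneg_left
        (by linarith : -(2 * ρ) ≤ u - w) (by linarith : 0 ≤ √3 / 6)]
    · rw [hA]
      linarith [mul_le_mul_of_nonneg_left (by linarith : u - w ≤ 2 * ρ)
        (by linarith : 0 ≤ √3 / 6), mul_le_mul_of_nonneg_right h5 hρ2]
  have hAu : |A * u| ≤ 2 * ρ ^ 2 := by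
    rw [abs_mul]
    calc |A| * |u| ≤ (2 * ρ) * ρ := mul_le_mul hA1 hu (abs_nonneg _) (by linarith)
      _ = 2 * ρ ^ 2 := by ring
  have hAρ : A * ρ ^ 2 ≤ ρ ^ 2 := by
    have h9 : A ≤ 1 := by linarith [(abs_le.1 hA1).2]
    linarith [mul_le_mul_of_nonneg_right h9 hρ2]
  have e1 : (√3 * (1 + 3 / 2 * ρ ^ 2) + √3 / 6 * (u - w) + (1 + (u + w) / 2)) *
      (1 - u / 2 + ρ ^ 2) = (1 + √3) + A - (1 + √3) * u / 2 + (1 + √3) * ρ ^ 2 - A * u / 2 +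
        A * ρ ^ 2 := by
    rw [hA]; ring
  rw [e1]
  have e2 : (1 + √3) + A - (1 + √3) * u / 2 = 1 + √3 - √3 / 3 * u + (1 / 2 - √3 / 6) * w +
      √3 * (3 / 2 * ρ ^ 2) := by
    rw [hA]; ring
  have h7 : √3 * ρ ^ 2 ≤ 18 / 10 * ρ ^ 2 := mul_le_mul_of_nonneg_right h5 hρ2
  have h8 := (abs_le.1 hAu).1
  linarith

/-- Upper bound for one edge. `s` is the mean of the six squared edges, `d i j = ‖P i - P j‖² / s - 1`,
`|d| ≤ ρ ≤ 1/100`, the sum of the six `d` is `0`. Proof. By `norm_sq_NN`,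
`‖N l‖² = s² (3/4 + σ_l / 2 + q_l)`, `σ_l` the sum of the three `d` of the face, `|q_l| ≤ 9/4 ρ²`, so by
`√y ≤ (y + 3/4) / √3` (AM-GM): `‖N l‖ ≤ s (√3/2 + σ_l / (2√3) + 9/(4√3) ρ²)`. By `norm_sq_NN_add`,
`‖N l + N m‖² ≤ s² (1 + d j k) (1 + d l m)`, so `‖N l + N m‖ ≤ s (1 + (d j k + d l m) / 2)` (AM-GM).
`1 / ‖P k - P j‖ = s^(-1/2) (1 + d j k)^(-1/2) ≤ s^(-1/2) (1 - d j k / 2 + ρ²)`.
The faces opposite to `l` and `m` are the two faces containing the edge `j k`, so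
`σ_l + σ_m = 2 d j k + (the other four) = d j k - d l m` (the sum of all six is `0`). The product is
`√s (√3 + 1 + (d j k - d l m) / (2 √3) + (d j k + d l m) / 2 + 3 ρ²) (1 - d j k / 2 + ρ²)`, and
`(d j k - d l m) / (2√3) + (d j k + d l m)/2 - (1 + √3)/2 d j k = -d j k / √3 + (1/2 - 1/(2√3)) d l m`;
all other terms are at most `20 ρ²`. -/
theorem LT_le {P : Fin 4 → E3} {s ρ : ℝ} (hs : 0 < s) (hρ0 : 0 ≤ ρ) (hρ : ρ ≤ 1 / 100)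
    (hd : ∀ i j, i ≠ j → |‖P i - P j‖ ^ 2 - s| ≤ ρ * s)
    (hsum : ‖P 0 - P 1‖ ^ 2 + ‖P 0 - P 2‖ ^ 2 + ‖P 0 - P 3‖ ^ 2 + ‖P 1 - P 2‖ ^ 2 +
      ‖P 1 - P 3‖ ^ 2 + ‖P 2 - P 3‖ ^ 2 = 6 * s) {j k l m : Fin 4}
    (hjk : j ≠ k) (hjl : j ≠ l) (hjm : j ≠ m) (hkl : k ≠ l) (hkm : k ≠ m) (hlm : l ≠ m) :
    LT P (NN P) j k l m ≤ √s * (1 + √3 - 1 / √3 * (‖P j - P k‖ ^ 2 / s - 1) +
      (1 / 2 - 1 / (2 * √3)) * (‖P l - P m‖ ^ 2 / s - 1) + 20 * ρ ^ 2) := by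
  obtain ⟨h3, h4, h5⟩ := First_sqrt3
  have h30 : (0:ℝ) < √3 := by linarith
  have hsum' := First_sum6 hsum hjk hjl hjm hkl hkm hlm
  have hr : 0 < √s := Real.sqrt_pos.2 hs
  have hr2 : √s ^ 2 = s := Real.sq_sqrt hs.le
  -- the two faces
  have hNl := First_face_le hs (norm_sq_NN P hjl.symm hkl.symm hlm hjk hjm hkm rfl rfl rfl)
    (hd j k hjk) (hd j m hjm) (hd k m hkm)
  have hNm := First_face_le hs (norm_sq_NN P hjm.symm hkm.symm hlm.symm hjk hjl hkl rfl rfl rfl)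
    (hd j k hjk) (hd j l hjl) (hd k l hkl)
  have hadd := norm_sq_NN_add P hjk hjl hjm hkl hkm hlm
  set u := ‖P j - P k‖ ^ 2 / s - 1 with hu
  set w := ‖P l - P m‖ ^ 2 / s - 1 with hw
  have hu1 : ‖P j - P k‖ ^ 2 = s * (1 + u) := by rw [hu]; field_simp; ring
  have hw1 : ‖P l - P m‖ ^ 2 = s * (1 + w) := by rw [hw]; field_simp; ring
  have hua : |u| ≤ ρ := by
    have h := hd j k hjk
    have h' : ‖P j - P k‖ ^ 2 - s = u * s := by rw [hu1]; ring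
    rw [h', abs_mul, abs_of_pos hs] at h
    exact le_of_mul_le_mul_right h hs
  have hwa : |w| ≤ ρ := by
    have h := hd l m hlm
    have h' : ‖P l - P m‖ ^ 2 - s = w * s := by rw [hw1]; ring
    rw [h', abs_mul, abs_of_pos hs] at h
    exact le_of_mul_le_mul_right h hs
  have hu' := abs_le.1 hua
  have hw' := abs_le.1 hwa
  have hD2 : ‖P k - P j‖ ^ 2 = √s ^ 2 * (1 + u) := by rw [norm_sub_rev, hu1, hr2]
  have hD : 0 < ‖P k - P j‖ := by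
    have h : 0 < ‖P k - P j‖ ^ 2 := by
      rw [hD2]; apply mul_pos (by positivity); linarith
    exact lt_of_le_of_ne (norm_nonneg _) (fun h0 => by rw [← h0] at h; norm_num at h)
  have hS : ‖NN P l + NN P m‖ ≤ s * (1 + (u + w) / 2) := by
    apply le_of_sq_le_sq ?_ (mul_nonneg hs.le (by linarith))
    rw [hadd, norm_sub_rev (P k) (P j), norm_sub_rev (P m) (P l), hu1, hw1]
    have h6 : s * (1 + u) * (s * (1 + w)) ≤ (s * (1 + (u + w) / 2)) ^ 2 := by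
      have : (s * (1 + (u + w) / 2)) ^ 2 - s * (1 + u) * (s * (1 + w)) =
        (s * (u - w) / 2) ^ 2 := by ring
      linarith [sq_nonneg (s * (u - w) / 2)]
    linarith [sq_nonneg ((‖P k - P l‖ ^ 2 + ‖P j - P m‖ ^ 2 - ‖P k - P m‖ ^ 2 -
      ‖P j - P l‖ ^ 2) / 2)]
  have hnum : ‖NN P l‖ + ‖NN P m‖ + ‖NN P l + NN P m‖ ≤
      s * (√3 * (1 + 3 / 2 * ρ ^ 2) + √3 / 6 * (u - w) + (1 + (u + w) / 2)) := by
    have h7 : (‖P j - P k‖ ^ 2 + ‖P j - P m‖ ^ 2 + ‖P k - P m‖ ^ 2 - 3 * s) +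
        (‖P j - P k‖ ^ 2 + ‖P j - P l‖ ^ 2 + ‖P k - P l‖ ^ 2 - 3 * s) = s * (u - w) := by
      have : ‖P j - P m‖ ^ 2 + ‖P k - P m‖ ^ 2 + ‖P j - P l‖ ^ 2 + ‖P k - P l‖ ^ 2 =
        6 * s - s * (1 + u) - s * (1 + w) := by rw [← hu1, ← hw1]; linarith
      rw [hu1]; linarith
    have h8 : √3 * (s * (1 / 2 + 3 / 4 * ρ ^ 2) + (‖P j - P k‖ ^ 2 + ‖P j - P m‖ ^ 2 +
        ‖P k - P m‖ ^ 2 - 3 * s) / 6) + √3 * (s * (1 / 2 + 3 / 4 * ρ ^ 2) + (‖P j - P k‖ ^ 2 +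
        ‖P j - P l‖ ^ 2 + ‖P k - P l‖ ^ 2 - 3 * s) / 6) =
        s * (√3 * (1 + 3 / 2 * ρ ^ 2)) + √3 / 6 * (s * (u - w)) := by
      rw [← h7]; ring
    calc ‖NN P l‖ + ‖NN P m‖ + ‖NN P l + NN P m‖ ≤ s * (√3 * (1 + 3 / 2 * ρ ^ 2)) +
        √3 / 6 * (s * (u - w)) + s * (1 + (u + w) / 2) := by rw [← h8]; linarith
      _ = _ := by ring
  have hrec := First_recip hD hρ hua hD2
  have hB : 0 ≤ √3 * (1 + 3 / 2 * ρ ^ 2) + √3 / 6 * (u - w) + (1 + (u + w) / 2) := by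
    have h9 : 0 ≤ √3 * ρ ^ 2 := by positivity
    linarith [mul_le_mul_of_nonneg_left (by linarith : -(1 / 50) ≤ u - w)
      (by linarith : 0 ≤ √3 / 6)]
  have hprod := First_prod hρ0 hρ hua hwa
  have e3 : 1 / √3 = √3 / 3 := by
    rw [div_eq_div_iff h30.ne' (by norm_num)]; linarith
  have e4 : 1 / (2 * √3) = √3 / 6 := by
    rw [div_eq_div_iff (by positivity) (by norm_num)]; linarith
  rw [e3, e4, LT, div_le_iff₀ hD]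
  calc ‖NN P l‖ + ‖NN P m‖ + ‖NN P l + NN P m‖ ≤
      s * (√3 * (1 + 3 / 2 * ρ ^ 2) + √3 / 6 * (u - w) + (1 + (u + w) / 2)) := hnum
    _ = √s * (√3 * (1 + 3 / 2 * ρ ^ 2) + √3 / 6 * (u - w) + (1 + (u + w) / 2)) * √s := by
      nth_rewrite 1 [← hr2]; ring
    _ ≤ √s * (√3 * (1 + 3 / 2 * ρ ^ 2) + √3 / 6 * (u - w) + (1 + (u + w) / 2)) *
        ((1 - u / 2 + ρ ^ 2) * ‖P k - P j‖) :=
      mul_le_mul_of_nonneg_left hrec (mul_nonneg hr.le hB)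
    _ = √s * ((√3 * (1 + 3 / 2 * ρ ^ 2) + √3 / 6 * (u - w) + (1 + (u + w) / 2)) *
        (1 - u / 2 + ρ ^ 2)) * ‖P k - P j‖ := by ring
    _ ≤ √s * (1 + √3 - √3 / 3 * u + (1 / 2 - √3 / 6) * w + 20 * ρ ^ 2) * ‖P k - P j‖ := by
      apply mul_le_mul_of_nonneg_right _ hD.le
      exact mul_le_mul_of_nonneg_left hprod hr.le

/-- Lower bound for the surface area. `‖N l‖ = s (√3/2) √(1 + t_l)`, `t_l = 2/3 σ_l + 4/3 q_l`,
`|t_l| ≤ 2 ρ + 3 ρ² ≤ 3 ρ`, `√(1 + t) ≥ 1 + t/2 - t²/2` for `|t| ≤ 1/2`. The sum of the `σ_l` is twice the sum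
of all `d`, i.e. `0`. -/
theorem F0_ge {P : Fin 4 → E3} {s ρ : ℝ} (hs : 0 < s) (hρ0 : 0 ≤ ρ) (hρ : ρ ≤ 1 / 100)
    (hd : ∀ i j, i ≠ j → |‖P i - P j‖ ^ 2 - s| ≤ ρ * s)
    (hsum : ‖P 0 - P 1‖ ^ 2 + ‖P 0 - P 2‖ ^ 2 + ‖P 0 - P 3‖ ^ 2 + ‖P 1 - P 2‖ ^ 2 +
      ‖P 1 - P 3‖ ^ 2 + ‖P 2 - P 3‖ ^ 2 = 6 * s) :
    s * √3 * (1 - 20 * ρ ^ 2) ≤ F0 (NN P) := by
  obtain ⟨h3, h4, h5⟩ := First_sqrt3
  have key : ∀ j k l m : Fin 4, j ≠ k → j ≠ l → j ≠ m → k ≠ l → k ≠ m → l ≠ m →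
      √3 / 2 * (s * (1 - 6 * ρ ^ 2) + (‖P k - P l‖ ^ 2 + ‖P k - P m‖ ^ 2 + ‖P l - P m‖ ^ 2 -
        3 * s) / 3) ≤ ‖NN P j‖ := by
    intro j k l m hjk hjl hjm hkl hkm hlm
    exact First_face_ge hs hρ0 hρ (norm_nonneg _) (norm_sq_NN P hjk hjl hjm hkl hkm hlm rfl rfl rfl)
      (hd k l hkl) (hd k m hkm) (hd l m hlm)
  have k0 := key 0 1 2 3 (by decide) (by decide) (by decide) (by decide) (by decide) (by decide)
  have k1 := key 1 0 2 3 (by decide) (by decide) (by decide) (by decide) (by decide) (by decide)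
  have k2 := key 2 0 1 3 (by decide) (by decide) (by decide) (by decide) (by decide) (by decide)
  have k3 := key 3 0 1 2 (by decide) (by decide) (by decide) (by decide) (by decide) (by decide)
  have h6 : √3 / 2 * (4 * (s * (1 - 6 * ρ ^ 2)) + (2 * (‖P 0 - P 1‖ ^ 2 + ‖P 0 - P 2‖ ^ 2 +
      ‖P 0 - P 3‖ ^ 2 + ‖P 1 - P 2‖ ^ 2 + ‖P 1 - P 3‖ ^ 2 + ‖P 2 - P 3‖ ^ 2) - 12 * s) / 3) ≤
      ‖NN P 0‖ + ‖NN P 1‖ + ‖NN P 2‖ + ‖NN P 3‖ := by linarith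
  rw [hsum] at h6
  have h7 : 0 ≤ √3 * (s * ρ ^ 2) := by positivity
  rw [F0]
  linarith

/-- Upper bound for the surface area (crude). -/
theorem F0_le {P : Fin 4 → E3} (hd : ∀ i j, i ≠ j → |‖P i - P j‖ ^ 2 - 1| ≤ 1 / 10 ^ 8) :
    F0 (NN P) ≤ √3 * (1 + 1 / 10 ^ 6) := by
  obtain ⟨h3, h4, h5⟩ := First_sqrt3
  have hd' : ∀ i j, i ≠ j → |‖P i - P j‖ ^ 2 - 1| ≤ 1 / 10 ^ 8 * 1 := by
    intro i j h; rw [mul_one]; exact hd i j h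
  have key : ∀ j k l m : Fin 4, j ≠ k → j ≠ l → j ≠ m → k ≠ l → k ≠ m → l ≠ m →
      ‖NN P j‖ ≤ √3 * (1 / 2 + 1 / 10 ^ 7) := by
    intro j k l m hjk hjl hjm hkl hkm hlm
    have h6 := First_face_le one_pos (norm_sq_NN P hjk hjl hjm hkl hkm hlm rfl rfl rfl)
      (hd' k l hkl) (hd' k m hkm) (hd' l m hlm)
    refine h6.trans (mul_le_mul_of_nonneg_left ?_ (by linarith))
    have h7 := (abs_le.1 (hd k l hkl)).2
    have h8 := (abs_le.1 (hd k m hkm)).2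
    have h9 := (abs_le.1 (hd l m hlm)).2
    norm_num at h7 h8 h9 ⊢
    linarith
  have k0 := key 0 1 2 3 (by decide) (by decide) (by decide) (by decide) (by decide) (by decide)
  have k1 := key 1 0 2 3 (by decide) (by decide) (by decide) (by decide) (by decide) (by decide)
  have k2 := key 2 0 1 3 (by decide) (by decide) (by decide) (by decide) (by decide) (by decide)
  have k3 := key 3 0 1 2 (by decide) (by decide) (by decide) (by decide) (by decide) (by decide)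
  rw [F0]
  have h30 : (0:ℝ) < √3 := by linarith
  norm_num at k0 k1 k2 k3 ⊢
  linarith

end SanLoc
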