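/-
MP_72c0ec_gt, helper9: a weighted mean of the perimeters along the edges.
-/
import Pool.Agent.H.MP_72c0ec_gt.Loc.First

set_option autoImplicit false

namespace SanLoc

open San SanSym MeasureTheory Set Metric Real

theorem Weigh_sum (L d w : Fin 6 → ℝ) (i₀ : Fin 6) {q c a b e : ℝ}
    (hL : ∀ i, L i ≤ q * (c - a * d i + b * d i.rev + e))
    (hsum : d 0 + d 1 + d 2 + d 3 + d 4 + d 5 = 0)
    (hw : ∀ i, w i = (1 - 1 / 1000) / 6 + if i = i₀ then 1 / 1000 else 0) :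
    w 0 * L 0 + w 1 * L 1 + w 2 * L 2 + w 3 * L 3 + w 4 * L 4 + w 5 * L 5 ≤
      q * (c + e + 1 / 1000 * (-a * d i₀ + b * d i₀.rev)) := by
  have h0 : L 0 ≤ q * (c - a * d 0 + b * d 5 + e) := hL 0
  have h1 : L 1 ≤ q * (c - a * d 1 + b * d 4 + e) := hL 1
  have h2 : L 2 ≤ q * (c - a * d 2 + b * d 3 + e) := hL 2
  have h3 : L 3 ≤ q * (c - a * d 3 + b * d 2 + e) := hL 3
  have h4 : L 4 ≤ q * (c - a * d 4 + b * d 1 + e) := hL 4
  have h5 : L 5 ≤ q * (c - a * d 5 + b * d 0 + e) := hL 5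
  rw [hw 0, hw 1, hw 2, hw 3, hw 4, hw 5]
  fin_cases i₀
  · change ((1 - 1 / 1000) / 6 + 1 / 1000) * L 0 + ((1 - 1 / 1000) / 6 + 0) * L 1 +
      ((1 - 1 / 1000) / 6 + 0) * L 2 + ((1 - 1 / 1000) / 6 + 0) * L 3 +
      ((1 - 1 / 1000) / 6 + 0) * L 4 + ((1 - 1 / 1000) / 6 + 0) * L 5 ≤
      q * (c + e + 1 / 1000 * (-a * d 0 + b * d 5))
    linear_combination ((1 - 1 / 1000) / 6) * (h0 + h1 + h2 + h3 + h4 + h5) +
      (1 / 1000) * h0 + (q * (1 - 1 / 1000) / 6 * (b - a)) * hsum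
  · change ((1 - 1 / 1000) / 6 + 0) * L 0 + ((1 - 1 / 1000) / 6 + 1 / 1000) * L 1 +
      ((1 - 1 / 1000) / 6 + 0) * L 2 + ((1 - 1 / 1000) / 6 + 0) * L 3 +
      ((1 - 1 / 1000) / 6 + 0) * L 4 + ((1 - 1 / 1000) / 6 + 0) * L 5 ≤
      q * (c + e + 1 / 1000 * (-a * d 1 + b * d 4))
    linear_combination ((1 - 1 / 1000) / 6) * (h0 + h1 + h2 + h3 + h4 + h5) +
      (1 / 1000) * h1 + (q * (1 - 1 / 1000) / 6 * (b - a)) * hsum
  · change ((1 - 1 / 1000) / 6 + 0) * L 0 + ((1 - 1 / 1000) / 6 + 0) * L 1 +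
      ((1 - 1 / 1000) / 6 + 1 / 1000) * L 2 + ((1 - 1 / 1000) / 6 + 0) * L 3 +
      ((1 - 1 / 1000) / 6 + 0) * L 4 + ((1 - 1 / 1000) / 6 + 0) * L 5 ≤
      q * (c + e + 1 / 1000 * (-a * d 2 + b * d 3))
    linear_combination ((1 - 1 / 1000) / 6) * (h0 + h1 + h2 + h3 + h4 + h5) +
      (1 / 1000) * h2 + (q * (1 - 1 / 1000) / 6 * (b - a)) * hsum
  · change ((1 - 1 / 1000) / 6 + 0) * L 0 + ((1 - 1 / 1000) / 6 + 0) * L 1 +
      ((1 - 1 / 1000) / 6 + 0) * L 2 + ((1 - 1 / 1000) / 6 + 1 / 1000) * L 3 +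
      ((1 - 1 / 1000) / 6 + 0) * L 4 + ((1 - 1 / 1000) / 6 + 0) * L 5 ≤
      q * (c + e + 1 / 1000 * (-a * d 3 + b * d 2))
    linear_combination ((1 - 1 / 1000) / 6) * (h0 + h1 + h2 + h3 + h4 + h5) +
      (1 / 1000) * h3 + (q * (1 - 1 / 1000) / 6 * (b - a)) * hsum
  · change ((1 - 1 / 1000) / 6 + 0) * L 0 + ((1 - 1 / 1000) / 6 + 0) * L 1 +
      ((1 - 1 / 1000) / 6 + 0) * L 2 + ((1 - 1 / 1000) / 6 + 0) * L 3 +
      ((1 - 1 / 1000) / 6 + 1 / 1000) * L 4 + ((1 - 1 / 1000) / 6 + 0) * L 5 ≤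
      q * (c + e + 1 / 1000 * (-a * d 4 + b * d 1))
    linear_combination ((1 - 1 / 1000) / 6) * (h0 + h1 + h2 + h3 + h4 + h5) +
      (1 / 1000) * h4 + (q * (1 - 1 / 1000) / 6 * (b - a)) * hsum
  · change ((1 - 1 / 1000) / 6 + 0) * L 0 + ((1 - 1 / 1000) / 6 + 0) * L 1 +
      ((1 - 1 / 1000) / 6 + 0) * L 2 + ((1 - 1 / 1000) / 6 + 0) * L 3 +
      ((1 - 1 / 1000) / 6 + 0) * L 4 + ((1 - 1 / 1000) / 6 + 1 / 1000) * L 5 ≤
      q * (c + e + 1 / 1000 * (-a * d 5 + b * d 0))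
    linear_combination ((1 - 1 / 1000) / 6) * (h0 + h1 + h2 + h3 + h4 + h5) +
      (1 / 1000) * h5 + (q * (1 - 1 / 1000) / 6 * (b - a)) * hsum

theorem Weigh_final {s ρ D dr F : ℝ} (hs : 0 < s) (hρ0 : 0 ≤ ρ) (hρ : ρ ≤ 2 / 10 ^ 7)
    (hD : D = ρ / 5) (hdr : dr ≤ D) (hF : s * √3 * (1 - 20 * ρ ^ 2) ≤ F) :
    √s * (1 + √3 + 20 * ρ ^ 2 + 1 / 1000 * (-(1 / √3) * D + (1 / 2 - 1 / (2 * √3)) * dr)) ≤
      √((2 + 4 / √3) * F) := by
  have h3 : √3 * √3 = 3 := Real.mul_self_sqrt (by norm_num)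
  have h3p : 0 < √3 := by positivity
  have h3l : (1.732 : ℝ) ≤ √3 := Real.le_sqrt_of_sq_le (by norm_num)
  have h3u : √3 ≤ 1.733 := by
    rw [Real.sqrt_le_left (by norm_num)]; norm_num
  have hinv : 1 / √3 = √3 / 3 := by
    field_simp
    nlinarith
  have hinv2 : 1 / (2 * √3) = √3 / 6 := by
    field_simp
    nlinarith
  have hinv4 : 4 / √3 = 4 * √3 / 3 := by
    field_simp
    nlinarith
  have hq : 0 < √s := Real.sqrt_pos.2 hs
  have hqq : √s * √s = s := Real.mul_self_sqrt hs.le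
  have hρ2 : ρ ^ 2 ≤ ρ * (2 / 10 ^ 7) := by nlinarith
  have h1 : 0 ≤ 1 - 20 * ρ ^ 2 := by nlinarith
  have h1' : 1 - 20 * ρ ^ 2 ≤ 1 := by nlinarith [sq_nonneg ρ]
  have hR : √s * ((1 + √3) * (1 - 20 * ρ ^ 2)) ≤ √((2 + 4 / √3) * F) := by
    apply Real.le_sqrt_of_sq_le
    have hc : 0 ≤ 2 + 4 / √3 := by positivity
    have h2 : (2 + 4 / √3) * (s * √3 * (1 - 20 * ρ ^ 2)) ≤ (2 + 4 / √3) * F :=
      mul_le_mul_of_nonneg_left hF hc
    refine le_trans ?_ h2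
    have h4 : (2 + 4 / √3) * (s * √3 * (1 - 20 * ρ ^ 2)) =
        s * (1 + √3) ^ 2 * (1 - 20 * ρ ^ 2) := by
      rw [hinv4]
      linear_combination (s * (1 - 20 * ρ ^ 2) / 3) * h3
    have h5 : (√s * ((1 + √3) * (1 - 20 * ρ ^ 2))) ^ 2 =
        s * (1 + √3) ^ 2 * ((1 - 20 * ρ ^ 2) * (1 - 20 * ρ ^ 2)) := by
      linear_combination ((1 + √3) ^ 2 * (1 - 20 * ρ ^ 2) ^ 2) * hqq
    rw [h4, h5]
    refine mul_le_mul_of_nonneg_left ?_ (by positivity)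
    nlinarith
  refine le_trans (mul_le_mul_of_nonneg_left ?_ hq.le) hR
  rw [hinv, hinv2]
  have hb : 0 ≤ 1 / 2 - √3 / 6 := by linarith
  have h6 : (1 / 2 - √3 / 6) * dr ≤ (1 / 2 - √3 / 6) * D := mul_le_mul_of_nonneg_left hdr hb
  have h7 : 0 ≤ D := by rw [hD]; positivity
  have h8 : -(√3 / 3) * D + (1 / 2 - √3 / 6) * D ≤ -(36 / 100) * D := by nlinarith
  have h9 : √3 * ρ ^ 2 ≤ 1.733 * ρ ^ 2 := mul_le_mul_of_nonneg_right h3u (sq_nonneg ρ)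
  have h10 : (1 + √3) * (1 - 20 * ρ ^ 2) = 1 + √3 - 20 * ρ ^ 2 - 20 * (√3 * ρ ^ 2) := by ring
  rw [h10]
  rw [hD] at h6 h8 ⊢
  linarith

/-- **Weights.** `201/1200 = 1/6 + 5/6 * 1/1000`. Proof. Let `s` be the mean of the six squared edges,
`d_i = ‖edge_i‖² / s - 1` (`i = 0, ..., 5` for the edges `01, 02, 03, 12, 13, 23`, opposite edge `5 - i`),
`ρ = max |d_i|`. Then `|s - 1| ≤ 10⁻⁸`, `ρ ≤ 3 · 10⁻⁸` and `Σ d_i = 0`. Let `i₀` be an index with `d` maximal,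
`D = d_{i₀}`: `D ≥ ρ / 5` (if `-ρ` is attained then the five others sum up to `ρ`). With `θ = 1/1000` take
`w_i = (1 - θ) / 6`, plus `θ` for `i = i₀`. By `LT_le` and `Σ_i (-1/√3 d_i + (1/2 - 1/(2√3)) d_{5-i}) = 0`,
`Σ w_i LT_i ≤ √s (1 + √3 + θ (-1/√3 D + (1/2 - 1/(2√3)) d_{5 - i₀}) + 20 ρ²)
≤ √s (1 + √3 - θ (√3/2 - 1/2) D + 20 ρ²) ≤ √s (1 + √3 - ρ / 20000 + 20 ρ²)`
(`(√3 - 1)/2 ≥ 0.36`, `D ≥ ρ/5`; if `d_{5-i₀} ≤ D` use it with the nonnegative factor).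
On the other side `(2 + 4/√3) √3 = (1 + √3)²`, so by `F0_ge`
`√((2 + 4/√3) F0) ≥ √s (1 + √3) √(1 - 20 ρ²) ≥ √s (1 + √3) (1 - 20 ρ²)`. Since
`20 ρ² + 20 (1 + √3) ρ² ≤ 80 ρ² ≤ ρ / 20000`, the claim follows. -/
theorem weights {P : Fin 4 → E3} (hd : ∀ i j, i ≠ j → |‖P i - P j‖ ^ 2 - 1| ≤ 1 / 10 ^ 8) :
    ∃ w : Fin 6 → ℝ, (∀ i, 0 ≤ w i) ∧ (∀ i, w i ≤ 201 / 1200) ∧
      w 0 + w 1 + w 2 + w 3 + w 4 + w 5 = 1 ∧
      w 0 * LT P (NN P) 0 1 2 3 + w 1 * LT P (NN P) 0 2 1 3 + w 2 * LT P (NN P) 0 3 1 2 +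
        w 3 * LT P (NN P) 1 2 0 3 + w 4 * LT P (NN P) 1 3 0 2 + w 5 * LT P (NN P) 2 3 0 1 ≤
        √((2 + 4 / √3) * F0 (NN P)) := by
  set x : Fin 6 → ℝ := ![‖P 0 - P 1‖ ^ 2, ‖P 0 - P 2‖ ^ 2, ‖P 0 - P 3‖ ^ 2, ‖P 1 - P 2‖ ^ 2,
    ‖P 1 - P 3‖ ^ 2, ‖P 2 - P 3‖ ^ 2] with hx
  have hx1 : ∀ i, |x i - 1| ≤ 1 / 10 ^ 8 := by
    intro i
    fin_cases i
    · exact hd 0 1 (by decide)
    · exact hd 0 2 (by decide)
    · exact hd 0 3 (by decide)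
    · exact hd 1 2 (by decide)
    · exact hd 1 3 (by decide)
    · exact hd 2 3 (by decide)
  set s : ℝ := (x 0 + x 1 + x 2 + x 3 + x 4 + x 5) / 6 with hsdef
  have hx0 := fun i => abs_le.1 (hx1 i)
  have hs1 : 1 - 1 / 10 ^ 8 ≤ s := by
    have h0 := (hx0 0).1
    have h1 := (hx0 1).1
    have h2 := (hx0 2).1
    have h3 := (hx0 3).1
    have h4 := (hx0 4).1
    have h5 := (hx0 5).1
    rw [hsdef]
    linarith
  have hs2 : s ≤ 1 + 1 / 10 ^ 8 := by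
    have h0 := (hx0 0).2
    have h1 := (hx0 1).2
    have h2 := (hx0 2).2
    have h3 := (hx0 3).2
    have h4 := (hx0 4).2
    have h5 := (hx0 5).2
    rw [hsdef]
    linarith
  have hs : 0 < s := by
    have : (0 : ℝ) < 1 - 1 / 10 ^ 8 := by norm_num
    linarith
  set d : Fin 6 → ℝ := fun i => x i / s - 1 with hddef
  have hds : ∀ i, d i * s = x i - s := by
    intro i
    simp only [hddef]
    field_simp
  have hsumd : d 0 + d 1 + d 2 + d 3 + d 4 + d 5 = 0 := by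
    have h6 : (d 0 + d 1 + d 2 + d 3 + d 4 + d 5) * s = 0 := by
      have h0 := hds 0
      have h1 := hds 1
      have h2 := hds 2
      have h3 := hds 3
      have h4 := hds 4
      have h5 := hds 5
      have h7 : x 0 + x 1 + x 2 + x 3 + x 4 + x 5 = 6 * s := by rw [hsdef]; ring
      linarith
    rcases mul_eq_zero.1 h6 with h | h
    · exact h
    · exact absurd h hs.ne'
  obtain ⟨i₀, hi₀⟩ := Finite.exists_max d
  set D : ℝ := d i₀ with hD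
  have hD0 : 0 ≤ D := by
    have h0 := hi₀ 0
    have h1 := hi₀ 1
    have h2 := hi₀ 2
    have h3 := hi₀ 3
    have h4 := hi₀ 4
    have h5 := hi₀ 5
    linarith
  have hDu : D ≤ 3 / 10 ^ 8 := by
    have h1 := hds i₀
    have h2 := (hx0 i₀).2
    have h3 : D * s ≤ 2 / 10 ^ 8 := by
      have : D * s = x i₀ - s := h1
      rw [this]
      linarith
    have h4 : D * (1 - 1 / 10 ^ 8) ≤ D * s := mul_le_mul_of_nonneg_left hs1 hD0
    have h5 : D * (2 / 3) ≤ D * (1 - 1 / 10 ^ 8) := mul_le_mul_of_nonneg_left (by norm_num) hD0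
    linarith
  have hdD : ∀ i, |d i| ≤ 5 * D := by
    intro i
    have h0 := hi₀ 0
    have h1 := hi₀ 1
    have h2 := hi₀ 2
    have h3 := hi₀ 3
    have h4 := hi₀ 4
    have h5 := hi₀ 5
    rw [abs_le]
    refine ⟨?_, by linarith [hi₀ i]⟩
    fin_cases i
    · change -(5 * D) ≤ d 0
      linarith
    · change -(5 * D) ≤ d 1
      linarith
    · change -(5 * D) ≤ d 2
      linarith
    · change -(5 * D) ≤ d 3
      linarith
    · change -(5 * D) ≤ d 4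
      linarith
    · change -(5 * D) ≤ d 5
      linarith
  have hxs : ∀ i, |x i - s| ≤ 5 * D * s := by
    intro i
    rw [← hds i, abs_mul, abs_of_pos hs]
    exact mul_le_mul_of_nonneg_right (hdD i) hs.le
  have hd' : ∀ i j, i ≠ j → |‖P i - P j‖ ^ 2 - s| ≤ 5 * D * s := by
    have e0 : |‖P 0 - P 1‖ ^ 2 - s| ≤ 5 * D * s := hxs 0
    have e1 : |‖P 0 - P 2‖ ^ 2 - s| ≤ 5 * D * s := hxs 1
    have e2 : |‖P 0 - P 3‖ ^ 2 - s| ≤ 5 * D * s := hxs 2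
    have e3 : |‖P 1 - P 2‖ ^ 2 - s| ≤ 5 * D * s := hxs 3
    have e4 : |‖P 1 - P 3‖ ^ 2 - s| ≤ 5 * D * s := hxs 4
    have e5 : |‖P 2 - P 3‖ ^ 2 - s| ≤ 5 * D * s := hxs 5
    intro i j hij
    fin_cases i <;> fin_cases j
    · exact absurd rfl hij
    · exact e0
    · exact e1
    · exact e2
    · change |‖P 1 - P 0‖ ^ 2 - s| ≤ 5 * D * s
      rw [norm_sub_rev]; exact e0
    · exact absurd rfl hij
    · exact e3
    · exact e4
    · change |‖P 2 - P 0‖ ^ 2 - s| ≤ 5 * D * s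
      rw [norm_sub_rev]; exact e1
    · change |‖P 2 - P 1‖ ^ 2 - s| ≤ 5 * D * s
      rw [norm_sub_rev]; exact e3
    · exact absurd rfl hij
    · exact e5
    · change |‖P 3 - P 0‖ ^ 2 - s| ≤ 5 * D * s
      rw [norm_sub_rev]; exact e2
    · change |‖P 3 - P 1‖ ^ 2 - s| ≤ 5 * D * s
      rw [norm_sub_rev]; exact e4
    · change |‖P 3 - P 2‖ ^ 2 - s| ≤ 5 * D * s
      rw [norm_sub_rev]; exact e5
    · exact absurd rfl hij
  have hsum6 : ‖P 0 - P 1‖ ^ 2 + ‖P 0 - P 2‖ ^ 2 + ‖P 0 - P 3‖ ^ 2 + ‖P 1 - P 2‖ ^ 2 +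
      ‖P 1 - P 3‖ ^ 2 + ‖P 2 - P 3‖ ^ 2 = 6 * s := by
    have h7 : x 0 + x 1 + x 2 + x 3 + x 4 + x 5 = 6 * s := by rw [hsdef]; ring
    exact h7
  have hρ0 : 0 ≤ 5 * D := by linarith
  have hρ : 5 * D ≤ 1 / 100 := by
    have : (3 : ℝ) / 10 ^ 8 ≤ 1 / 1000 := by norm_num
    linarith
  have hρ' : 5 * D ≤ 2 / 10 ^ 7 := by
    have : (3 : ℝ) / 10 ^ 8 * 5 ≤ 2 / 10 ^ 7 := by norm_num
    linarith
  set L : Fin 6 → ℝ := ![LT P (NN P) 0 1 2 3, LT P (NN P) 0 2 1 3, LT P (NN P) 0 3 1 2,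
    LT P (NN P) 1 2 0 3, LT P (NN P) 1 3 0 2, LT P (NN P) 2 3 0 1] with hLdef
  have hL : ∀ i, L i ≤ √s * (1 + √3 - 1 / √3 * d i + (1 / 2 - 1 / (2 * √3)) * d i.rev +
      20 * (5 * D) ^ 2) := by
    intro i
    fin_cases i
    · exact LT_le hs hρ0 hρ hd' hsum6 (j := 0) (k := 1) (l := 2) (m := 3) (by decide) (by decide)
        (by decide) (by decide) (by decide) (by decide)
    · exact LT_le hs hρ0 hρ hd' hsum6 (j := 0) (k := 2) (l := 1) (m := 3) (by decide) (by decide)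
        (by decide) (by decide) (by decide) (by decide)
    · exact LT_le hs hρ0 hρ hd' hsum6 (j := 0) (k := 3) (l := 1) (m := 2) (by decide) (by decide)
        (by decide) (by decide) (by decide) (by decide)
    · exact LT_le hs hρ0 hρ hd' hsum6 (j := 1) (k := 2) (l := 0) (m := 3) (by decide) (by decide)
        (by decide) (by decide) (by decide) (by decide)
    · exact LT_le hs hρ0 hρ hd' hsum6 (j := 1) (k := 3) (l := 0) (m := 2) (by decide) (by decide)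
        (by decide) (by decide) (by decide) (by decide)
    · exact LT_le hs hρ0 hρ hd' hsum6 (j := 2) (k := 3) (l := 0) (m := 1) (by decide) (by decide)
        (by decide) (by decide) (by decide) (by decide)
  refine ⟨fun i => (1 - 1 / 1000) / 6 + if i = i₀ then 1 / 1000 else 0, ?_, ?_, ?_, ?_⟩
  · intro i
    dsimp only
    split_ifs <;> norm_num
  · intro i
    dsimp only
    split_ifs <;> norm_num
  · fin_cases i₀ <;> norm_num [Fin.ext_iff]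
  · have h1 := Weigh_sum L d (fun i => (1 - 1 / 1000) / 6 + if i = i₀ then 1 / 1000 else 0) i₀
      hL hsumd (fun _ => rfl)
    refine le_trans h1 ?_
    have h2 := F0_ge hs hρ0 hρ hd' hsum6
    exact Weigh_final hs hρ0 hρ' (by ring) (hi₀ i₀.rev) h2

end SanLoc
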