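/-
MP_72c0ec_gt, helper9: the local theorem for the situation `Loc`.
-/
import Pool.Agent.H.MP_72c0ec_gt.Loc.Gain
import Pool.Agent.H.MP_72c0ec_gt.Loc.AreaT
import Pool.Agent.H.MP_72c0ec_gt.Loc.TetT
import Pool.Agent.H.MP_72c0ec_gt.Loc.Weigh
import Pool.Agent.H.MP_72c0ec_gt.Loc.PickB

set_option autoImplicit false

namespace SanLoc

open San SanSym MeasureTheory Set Metric Real

theorem minShadow_nonneg_of {K : Set E3} (hK : IsCompact K) {p : E3} (hp : p ∈ K) :
    0 ≤ minShadow K := by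
  rw [← minShadow_translate hK ⟨p, hp⟩ p]
  exact SanSym.minShadow_nonneg (hK.image (by fun_prop)) ⟨p, hp, sub_self p⟩

/-- An orthonormal basis of the plane orthogonal to a vector. -/
theorem exists_pair (a : E3) :
    ∃ e₁ e₂ : E3, Orthonormal ℝ ![e₁, e₂] ∧ (inner ℝ e₁ a : ℝ) = 0 ∧ (inner ℝ e₂ a : ℝ) = 0 := by
  obtain ⟨f, hf⟩ := exists_frame a
  refine ⟨f 0, f 1, orthonormal_pair (f.norm_eq_one 0) (f.norm_eq_one 1)
    (by rw [inner_f]; simp), ?_, ?_⟩
  · rw [hf, inner_smul_right, inner_f]; simp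
  · rw [hf, inner_smul_right, inner_f]; simp

theorem ne_of_near {P N : Fin 4 → E3} {v : ℝ} (h : Near (1 / 10 ^ 5) P N v) {j k : Fin 4}
    (hjk : j ≠ k) : P k ≠ P j := by
  intro e
  have h1 := h.ee j k hjk
  rw [e, sub_self, norm_zero] at h1
  norm_num at h1

/-- The minimal shadow is at most the shadow along an edge. -/
theorem min_le_edge {K : Set E3} {P : Fin 4 → E3} (h : Loc K P (NN P) (tv P)) {j k l m : Fin 4}
    (hjk : j ≠ k) (hjl : j ≠ l) (hjm : j ≠ m) (hkl : k ≠ l) (hkm : k ≠ m) (hlm : l ≠ m) :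
    minShadow K ≤ LT P (NN P) j k l m + dL K P (NN P) j k l m := by
  obtain ⟨e₁, e₂, he, h1, h2⟩ := exists_pair (P k - P j)
  rw [← perim_T P hjk hjl hjm hkl hkm hlm (ne_of_near h.near hjk) he h1 h2,
    ← perim_eq h hjk hjl hjm hkl hkm hlm he h1 h2]
  exact SanSym.minShadow_le h.comp ⟨_, h.mem 0⟩ he

theorem dL_nonneg {K : Set E3} {P N : Fin 4 → E3} {v : ℝ} (h : Loc K P N v) (j k l m : Fin 4) :
    0 ≤ dL K P N j k l m := by
  have hn : ∀ i : Fin 4, ∀ p q : E3, 0 ≤ J (gg K (P i)) p q 0 1 := fun i p q =>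
    J_nonneg (gg_sublin h.comp (h.mem i)).nonneg p q zero_le_one
  unfold dL
  have a1 := hn j (N l) (N m)
  have a2 := hn j (N m) (N l)
  have a3 := hn l (N m) (N j + N k)
  have a4 := hn l (N j + N k) (N m)
  have a5 := hn m (N l) (N j + N k)
  have a6 := hn m (N j + N k) (N l)
  linarith

theorem GG_nonneg {K : Set E3} {P N : Fin 4 → E3} {v : ℝ} (h : Loc K P N v) : 0 ≤ GG K P N := by
  unfold GG
  have a1 := HH_nonneg h 0 1 2 3
  have a2 := HH_nonneg h 0 2 1 3
  have a3 := HH_nonneg h 0 3 1 2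
  have a4 := HH_nonneg h 1 2 0 3
  have a5 := HH_nonneg h 1 3 0 2
  have a6 := HH_nonneg h 2 3 0 1
  linarith

/-- Crude upper bound of the density. -/
theorem Tri3.wt_le {A B C : E3} (h : Tri3 A B C) {μ : ℝ} (h0 : 0 ≤ μ) (h1 : μ ≤ 1) :
    Wt A B μ ≤ 2 := by
  have ha := abs_le.mp h.a
  have hb := abs_le.mp h.b
  have hab := abs_le.mp h.ab
  have e1 : ‖A + μ • B‖ ^ 2 = ‖A‖ ^ 2 + 2 * (μ * inner ℝ A B) + μ ^ 2 * ‖B‖ ^ 2 := by
    rw [norm_add_sq_real, inner_smul_right, norm_smul, mul_pow, Real.norm_eq_abs, sq_abs]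
  have e2 : (3 / 5 : ℝ) ≤ ‖A + μ • B‖ ^ 2 := by
    rw [e1]
    have t1 : μ * (-(1 / 4) - 1 / 10 ^ 5) ≤ μ * inner ℝ A B :=
      mul_le_mul_of_nonneg_left (by linarith) h0
    have t2 : μ ^ 2 * (3 / 4 - 1 / 10 ^ 5) ≤ μ ^ 2 * ‖B‖ ^ 2 :=
      mul_le_mul_of_nonneg_left (by linarith) (sq_nonneg _)
    nlinarith [sq_nonneg (μ - 1 / 3)]
  have e3 : (3 / 4 : ℝ) ≤ ‖A + μ • B‖ := by
    have := norm_nonneg (A + μ • B)
    nlinarith
  have e4 : (27 / 64 : ℝ) ≤ ‖A + μ • B‖ ^ 3 := by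
    calc (27 / 64 : ℝ) = (3 / 4) ^ 3 := by norm_num
      _ ≤ _ := pow_le_pow_left₀ (by norm_num) e3 3
  have e5 : wd A B ≤ 27 / 32 := by
    unfold wd
    rw [Real.sqrt_le_left (by norm_num)]
    have t1 : ‖A‖ ^ 2 * ‖B‖ ^ 2 ≤ (3 / 4 + 1 / 10 ^ 5) * (3 / 4 + 1 / 10 ^ 5) :=
      mul_le_mul (by linarith) (by linarith) (sq_nonneg _) (by norm_num)
    nlinarith [sq_nonneg (inner ℝ A B : ℝ)]
  unfold Wt
  rw [div_le_iff₀ (by linarith)]
  linarith

theorem HH_le {K : Set E3} {P N : Fin 4 → E3} {v : ℝ} (h : Loc K P N v) {j k l m : Fin 4}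
    (hjl : j ≠ l) (hjm : j ≠ m) (hkl : k ≠ l) (hkm : k ≠ m) (hlm : l ≠ m) :
    HH K P N j k l m ≤ 1 / 100 := by
  have key : ∀ l m : Fin 4, j ≠ l → j ≠ m → k ≠ l → k ≠ m → l ≠ m →
      J (Mx K (P j) (P k)) (N l) (N m) 0 1 ≤ 1 / 200 := by
    intro l m hjl hjm hkl hkm hlm
    have ht := tri3 h.near hlm hjl.symm hjm.symm
    have hcont := J_cont (Mx_continuous h.comp (h.mem j) (h.mem k)) ht.wd_pos
    unfold J
    have h1 : ∫ μ in (0:ℝ)..1, Mx K (P j) (P k) (N l + μ • N m) * Wt (N l) (N m) μ ≤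
        ∫ μ in (0:ℝ)..1, (1 / 200 : ℝ) := by
      refine intervalIntegral.integral_mono_on zero_le_one (hcont.intervalIntegrable _ _)
        (by simp) fun μ hμ => ?_
      have b1 := Mx_small h hjl.symm hkl.symm hjm.symm hkm.symm hμ.1 hμ.2
      have b2 := ht.wt_le hμ.1 hμ.2
      have b3 := Mx_nonneg h.comp (h.mem j) (h.mem k) (N l + μ • N m)
      have b4 := Wt_nonneg (N l) (N m) μ
      calc _ ≤ 4 / 10 ^ 8 * 2 := mul_le_mul b1 b2 b4 (by norm_num)
        _ ≤ 1 / 200 := by norm_num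
    rw [intervalIntegral.integral_const] at h1
    simpa using h1
  unfold HH
  have a1 := key l m hjl hjm hkl hkm hlm
  have a2 := key m l hjm hjl hkm hkl hlm.symm
  linarith

theorem GG_le {K : Set E3} {P N : Fin 4 → E3} {v : ℝ} (h : Loc K P N v) :
    GG K P N ≤ 1 / 10 := by
  unfold GG
  have a1 := HH_le h (j := 0) (k := 1) (l := 2) (m := 3) (by decide) (by decide) (by decide)
    (by decide) (by decide)
  have a2 := HH_le h (j := 0) (k := 2) (l := 1) (m := 3) (by decide) (by decide) (by decide)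
    (by decide) (by decide)
  have a3 := HH_le h (j := 0) (k := 3) (l := 1) (m := 2) (by decide) (by decide) (by decide)
    (by decide) (by decide)
  have a4 := HH_le h (j := 1) (k := 2) (l := 0) (m := 3) (by decide) (by decide) (by decide)
    (by decide) (by decide)
  have a5 := HH_le h (j := 1) (k := 3) (l := 0) (m := 2) (by decide) (by decide) (by decide)
    (by decide) (by decide)
  have a6 := HH_le h (j := 2) (k := 3) (l := 0) (m := 1) (by decide) (by decide) (by decide)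
    (by decide) (by decide)
  linarith

/-- The integral of a continuous nonnegative function which is positive at the left end. -/
theorem J_pos {g : E3 → ℝ} (hg : Continuous g) (h0 : ∀ v, 0 ≤ g v) {p q : E3} (h : 0 < wd p q)
    (hp : 0 < g p) : 0 < J g p q 0 1 := by
  have hcont := J_cont hg h
  unfold J
  refine intervalIntegral.integral_pos zero_lt_one hcont.continuousOn
    (fun μ _ => mul_nonneg (h0 _) (Wt_nonneg _ _ _)) ⟨0, ⟨le_refl _, zero_le_one⟩, ?_⟩
  rw [zero_smul, add_zero]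
  refine mul_pos hp ?_
  unfold Wt
  have := norm_pos_of_wd h 0
  positivity

theorem HH_pos {K : Set E3} {P N : Fin 4 → E3} {v : ℝ} (h : Loc K P N v) {j l : Fin 4}
    (k m : Fin 4) (hjl : j ≠ l) (hjm : j ≠ m) (hlm : l ≠ m) (hpos : 0 < gg K (P j) (N l)) :
    0 < HH K P N j k l m := by
  have ht := tri3 h.near hlm hjl.symm hjm.symm
  have h1 : 0 < J (Mx K (P j) (P k)) (N l) (N m) 0 1 :=
    J_pos (Mx_continuous h.comp (h.mem j) (h.mem k)) (Mx_nonneg h.comp (h.mem j) (h.mem k))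
      ht.wd_pos (hpos.trans_le (gg_le_Mx K _ _ _))
  have h2 : 0 ≤ J (Mx K (P j) (P k)) (N m) (N l) 0 1 :=
    J_nonneg (Mx_nonneg h.comp (h.mem j) (h.mem k)) _ _ zero_le_one
  unfold HH
  linarith

theorem HH_comm {K : Set E3} {P N : Fin 4 → E3} (j k l m : Fin 4) :
    HH K P N j k l m = HH K P N j k m l := by
  unfold HH
  rw [add_comm]

/-- If the gain vanishes then `K` is the tetrahedron. -/
theorem GG_pos {K : Set E3} {P N : Fin 4 → E3} {v : ℝ} (h : Loc K P N v)
    (hne : K ≠ convexHull ℝ (range P)) : 0 < GG K P N := by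
  obtain ⟨x, hx, j, l, hlj, hpos⟩ := exists_outside h hne
  have hg : 0 < gg K (P j) (N l) := by
    refine hpos.trans_le ?_
    rw [real_inner_comm]
    exact le_gg h.comp _ _ hx
  have a1 := HH_nonneg h 0 1 2 3
  have a2 := HH_nonneg h 0 2 1 3
  have a3 := HH_nonneg h 0 3 1 2
  have a4 := HH_nonneg h 1 2 0 3
  have a5 := HH_nonneg h 1 3 0 2
  have a6 := HH_nonneg h 2 3 0 1
  have s01 : HH K P N 1 0 2 3 = HH K P N 0 1 2 3 :=
    HH_symm h (by decide) (by decide) (by decide) (by decide)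
  have s02 : HH K P N 2 0 1 3 = HH K P N 0 2 1 3 :=
    HH_symm h (by decide) (by decide) (by decide) (by decide)
  have s03 : HH K P N 3 0 1 2 = HH K P N 0 3 1 2 :=
    HH_symm h (by decide) (by decide) (by decide) (by decide)
  have s12 : HH K P N 2 1 0 3 = HH K P N 1 2 0 3 :=
    HH_symm h (by decide) (by decide) (by decide) (by decide)
  have s13 : HH K P N 3 1 0 2 = HH K P N 1 3 0 2 :=
    HH_symm h (by decide) (by decide) (by decide) (by decide)
  have c1 := HH_comm (K := K) (P := P) (N := N) 0 1 2 3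
  have c2 := HH_comm (K := K) (P := P) (N := N) 1 0 2 3
  have c3 := HH_comm (K := K) (P := P) (N := N) 2 0 1 3
  have c4 := HH_comm (K := K) (P := P) (N := N) 3 0 1 2
  unfold GG
  have main : ∀ j l : Fin 4, l ≠ j → 0 < gg K (P j) (N l) →
      0 < HH K P N 0 1 2 3 ∨ 0 < HH K P N 0 2 1 3 ∨ 0 < HH K P N 0 3 1 2 ∨
      0 < HH K P N 1 2 0 3 ∨ 0 < HH K P N 1 3 0 2 ∨ 0 < HH K P N 2 3 0 1 := by
    intro j l hlj hg
    fin_cases j <;> fin_cases l
    · exact absurd rfl hlj
    · right; left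
      exact HH_pos h 2 3 (by decide) (by decide) (by decide) hg
    · left
      exact HH_pos h 1 3 (by decide) (by decide) (by decide) hg
    · left
      rw [c1]
      exact HH_pos h 1 2 (by decide) (by decide) (by decide) hg
    · right; right; right; left
      exact HH_pos h 2 3 (by decide) (by decide) (by decide) hg
    · exact absurd rfl hlj
    · left
      rw [← s01]
      exact HH_pos h 0 3 (by decide) (by decide) (by decide) hg
    · left
      rw [← s01, c2]
      exact HH_pos h 0 2 (by decide) (by decide) (by decide) hg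
    · right; right; right; left
      rw [← s12]
      exact HH_pos h 1 3 (by decide) (by decide) (by decide) hg
    · right; left
      rw [← s02]
      exact HH_pos h 0 3 (by decide) (by decide) (by decide) hg
    · exact absurd rfl hlj
    · right; left
      rw [← s02, c3]
      exact HH_pos h 0 1 (by decide) (by decide) (by decide) hg
    · right; right; right; right; left
      rw [← s13]
      exact HH_pos h 1 2 (by decide) (by decide) (by decide) hg
    · right; right; left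
      rw [← s03]
      exact HH_pos h 0 2 (by decide) (by decide) (by decide) hg
    · right; right; left
      rw [← s03, c4]
      exact HH_pos h 0 1 (by decide) (by decide) (by decide) hg
    · exact absurd rfl hlj
  rcases main j l hlj hg with q | q | q | q | q | q <;> linarith

/-- Elementary inequality. -/
theorem core_num {m G S F : ℝ} (hm : 0 ≤ m) (hG : 0 ≤ G) (hG1 : G ≤ 1 / 10) (hF : 0 ≤ F)
    (hF1 : F ≤ √3 * (1 + 1 / 10 ^ 6))
    (h1 : m ≤ √((2 + 4 / √3) * F) + 201 / 1200 * (191 / 100) * G)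
    (h2 : F + 4 / (3 * π) * (99 / 100) * G ≤ S) :
    m ^ 2 ≤ (2 + 4 / √3) * S ∧ (0 < G → m ^ 2 < (2 + 4 / √3) * S) := by
  have hs0 : 0 < √(3:ℝ) := Real.sqrt_pos.2 (by norm_num)
  have hs : √(3:ℝ) ^ 2 = 3 := Real.sq_sqrt (by norm_num)
  obtain ⟨r, hr⟩ : ∃ r, r = √(3:ℝ) := ⟨_, rfl⟩
  rw [← hr] at hs0 hs hF1 h1 ⊢
  have hr1 : r ≤ 1.7321 := by nlinarith
  have hr2 : 1.732 ≤ r := by nlinarith
  have hc1 : (4.309 : ℝ) ≤ 2 + 4 / r := by
    have : (2.309 : ℝ) ≤ 4 / r := by
      rw [le_div_iff₀ hs0]; nlinarith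
    linarith
  have hc2 : 2 + 4 / r ≤ 4.3096 := by
    have : 4 / r ≤ 2.3096 := by
      rw [div_le_iff₀ hs0]; nlinarith
    linarith
  obtain ⟨c, hc⟩ : ∃ c, c = 2 + 4 / r := ⟨_, rfl⟩
  rw [← hc] at hc1 hc2 h1 ⊢
  have hpi : (0.42 : ℝ) ≤ 4 / (3 * π) * (99 / 100) := by
    have h3 := pi_lt_d4
    have h4 := pi_pos
    rw [div_mul_eq_mul_div, le_div_iff₀ (by positivity)]
    nlinarith
  have hS : F + 0.42 * G ≤ S := by
    have := mul_le_mul_of_nonneg_right hpi hG
    linarith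
  have hcF : 0 ≤ c * F := by positivity
  obtain ⟨A, hA⟩ : ∃ A, A = √(c * F) := ⟨_, rfl⟩
  have hA0 : 0 ≤ A := by rw [hA]; exact Real.sqrt_nonneg _
  have hA2 : A ^ 2 = c * F := by rw [hA]; exact Real.sq_sqrt hcF
  rw [← hA] at h1
  have hA1 : A ≤ 2.7325 := by
    have hF2 : F ≤ 1.7321 * (1 + 1 / 10 ^ 6) := by nlinarith
    have : A ^ 2 ≤ 2.7325 ^ 2 := by
      rw [hA2]
      calc c * F ≤ 4.3096 * (1.7321 * (1 + 1 / 10 ^ 6)) :=
            mul_le_mul hc2 hF2 hF (by norm_num)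
        _ ≤ 2.7325 ^ 2 := by norm_num
    nlinarith
  obtain ⟨κ, hκ⟩ : ∃ κ : ℝ, κ = 201 / 1200 * (191 / 100) := ⟨_, rfl⟩
  have hκ1 : κ ≤ 0.32 := by rw [hκ]; norm_num
  have hκ0 : 0 ≤ κ := by rw [hκ]; norm_num
  rw [← hκ] at h1
  have hm2 : m ^ 2 ≤ (A + κ * G) ^ 2 := pow_le_pow_left₀ hm h1 2
  have hexp : (A + κ * G) ^ 2 = c * F + (2 * A * κ + κ ^ 2 * G) * G := by
    rw [← hA2]; ring
  have hb : 2 * A * κ + κ ^ 2 * G ≤ 1.78 := by
    have t1 : A * κ ≤ 2.7325 * 0.32 := mul_le_mul hA1 hκ1 hκ0 (by norm_num)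
    have t2 : κ ^ 2 ≤ 0.32 ^ 2 := pow_le_pow_left₀ hκ0 hκ1 2
    have t3 : κ ^ 2 * G ≤ 0.32 ^ 2 * (1 / 10) := mul_le_mul t2 hG1 hG (by norm_num)
    nlinarith
  have hgain : (2 * A * κ + κ ^ 2 * G) * G ≤ 1.78 * G := mul_le_mul_of_nonneg_right hb hG
  have hcS : c * F + 1.8 * G ≤ c * S := by
    have t1 : c * (F + 0.42 * G) ≤ c * S := mul_le_mul_of_nonneg_left hS (by linarith)
    have t2 : 4.309 * (0.42 * G) ≤ c * (0.42 * G) :=
      mul_le_mul_of_nonneg_right hc1 (by positivity)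
    nlinarith
  constructor
  · nlinarith
  · intro hpos
    nlinarith

/-- **The local theorem** for the situation `Loc`. -/
theorem core {K : Set E3} {P : Fin 4 → E3} (h : Loc K P (NN P) (tv P))
    (hd : ∀ i j, i ≠ j → |‖P i - P j‖ ^ 2 - 1| ≤ 1 / 10 ^ 8) :
    minShadow K ^ 2 ≤ (2 + 4 / √3) * surfaceArea K ∧
      (minShadow K ^ 2 = (2 + 4 / √3) * surfaceArea K →
        K = convexHull ℝ (range P) ∧ ∀ i j, i ≠ j → ‖P i - P j‖ = ‖P 0 - P 1‖) := by
  obtain ⟨w, hw0, hw1, hws, hwL⟩ := weights hd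
  have hG := GG_nonneg h
  have hG1 := GG_le h
  have hF : 0 ≤ F0 (NN P) := by
    unfold F0
    positivity
  have hF1 := F0_le hd
  have hm := minShadow_nonneg_of h.comp (h.mem 0)
  have htot := total h
  have hgain := gain h
  have hT := surfaceArea_T_ge P
  have e0 := min_le_edge h (j := 0) (k := 1) (l := 2) (m := 3) (by decide) (by decide) (by decide)
    (by decide) (by decide) (by decide)
  have e1 := min_le_edge h (j := 0) (k := 2) (l := 1) (m := 3) (by decide) (by decide) (by decide)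
    (by decide) (by decide) (by decide)
  have e2 := min_le_edge h (j := 0) (k := 3) (l := 1) (m := 2) (by decide) (by decide) (by decide)
    (by decide) (by decide) (by decide)
  have e3 := min_le_edge h (j := 1) (k := 2) (l := 0) (m := 3) (by decide) (by decide) (by decide)
    (by decide) (by decide) (by decide)
  have e4 := min_le_edge h (j := 1) (k := 3) (l := 0) (m := 2) (by decide) (by decide) (by decide)
    (by decide) (by decide) (by decide)
  have e5 := min_le_edge h (j := 2) (k := 3) (l := 0) (m := 1) (by decide) (by decide) (by decide)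
    (by decide) (by decide) (by decide)
  have d0 := dL_nonneg h 0 1 2 3
  have d1 := dL_nonneg h 0 2 1 3
  have d2 := dL_nonneg h 0 3 1 2
  have d3 := dL_nonneg h 1 2 0 3
  have d4 := dL_nonneg h 1 3 0 2
  have d5 := dL_nonneg h 2 3 0 1
  have hmain : minShadow K ≤ √((2 + 4 / √3) * F0 (NN P)) +
      201 / 1200 * (191 / 100) * GG K P (NN P) := by
    have f0 := mul_le_mul_of_nonneg_left e0 (hw0 0)
    have f1 := mul_le_mul_of_nonneg_left e1 (hw0 1)
    have f2 := mul_le_mul_of_nonneg_left e2 (hw0 2)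
    have f3 := mul_le_mul_of_nonneg_left e3 (hw0 3)
    have f4 := mul_le_mul_of_nonneg_left e4 (hw0 4)
    have f5 := mul_le_mul_of_nonneg_left e5 (hw0 5)
    have g0 := mul_le_mul_of_nonneg_right (hw1 0) d0
    have g1 := mul_le_mul_of_nonneg_right (hw1 1) d1
    have g2 := mul_le_mul_of_nonneg_right (hw1 2) d2
    have g3 := mul_le_mul_of_nonneg_right (hw1 3) d3
    have g4 := mul_le_mul_of_nonneg_right (hw1 4) d4
    have g5 := mul_le_mul_of_nonneg_right (hw1 5) d5
    have hsum : minShadow K = w 0 * minShadow K + w 1 * minShadow K + w 2 * minShadow K +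
        w 3 * minShadow K + w 4 * minShadow K + w 5 * minShadow K := by
      have : w 0 * minShadow K + w 1 * minShadow K + w 2 * minShadow K +
        w 3 * minShadow K + w 4 * minShadow K + w 5 * minShadow K =
        (w 0 + w 1 + w 2 + w 3 + w 4 + w 5) * minShadow K := by ring
      rw [this, hws, one_mul]
    rw [mul_add] at f0 f1 f2 f3 f4 f5
    have htot' := mul_le_mul_of_nonneg_left htot (by norm_num : (0:ℝ) ≤ 201 / 1200)
    linarith
  have hS : F0 (NN P) + 4 / (3 * π) * (99 / 100) * GG K P (NN P) ≤ surfaceArea K := by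
    linarith
  obtain ⟨c1, c2⟩ := core_num hm hG hG1 hF hF1 hmain hS
  refine ⟨c1, fun heq => ?_⟩
  have hK : K = convexHull ℝ (range P) := by
    by_contra hne
    exact absurd heq (c2 (GG_pos h hne)).ne
  refine ⟨hK, ?_⟩
  obtain ⟨t1, t2⟩ := tet_bound h.near.pos
  refine t2 ?_
  rw [← hK]
  rw [← hK] at t1 hT
  have hc0 : (0:ℝ) ≤ 2 + 4 / √3 := by positivity
  have := mul_le_mul_of_nonneg_left hT hc0
  linarith

end SanLoc
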