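/-
MP_72c0ec_gt, helper9: behaviour under dilations.
-/
import Pool.Agent.H.MP_72c0ec_gt.Loc.Base

set_option autoImplicit false

namespace SanLoc

open San SanSym MeasureTheory Set Metric Real
open scoped Pointwise

theorem supp_dil {K : Set E3} (hK : IsCompact K) (hne : K.Nonempty) {t : ℝ} (ht : 0 ≤ t) (v : E3) :
    supp (t • K) v = t * supp K v := by
  obtain ⟨x, hx, hx1, hx2⟩ := exists_supp hK hne v
  have hg : IsGreatest ((fun y : E3 => (inner ℝ y v : ℝ)) '' (t • K)) (t * supp K v) := by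
    refine ⟨⟨t • x, ⟨x, hx, rfl⟩, ?_⟩, ?_⟩
    · simp only [inner_smul_left]
      rw [hx1]; rfl
    · rintro _ ⟨_, ⟨y, hy, rfl⟩, rfl⟩
      simp only [inner_smul_left]
      exact mul_le_mul_of_nonneg_left (hx2 y hy) ht
  exact hg.csSup_eq

theorem shadowPerimeter_dil {K : Set E3} (hK : IsCompact K) (hne : K.Nonempty) {t : ℝ}
    (ht : 0 ≤ t) (e₁ e₂ : E3) :
    shadowPerimeter (t • K) e₁ e₂ = t * shadowPerimeter K e₁ e₂ := by
  unfold shadowPerimeter
  simp only [supp_dil hK hne ht]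
  rw [intervalIntegral.integral_const_mul]

theorem minShadow_dil {K : Set E3} (hK : IsCompact K) (hne : K.Nonempty) {t : ℝ} (ht : 0 < t) :
    minShadow (t • K) = t * minShadow K := by
  unfold minShadow
  rw [← smul_eq_mul, ← Real.sInf_smul_of_nonneg ht.le]
  congr 1
  ext L
  constructor
  · rintro ⟨e₁, e₂, he, rfl⟩
    refine ⟨_, ⟨e₁, e₂, he, rfl⟩, ?_⟩
    show t * _ = _
    rw [shadowPerimeter_dil hK hne ht.le]
  · rintro ⟨_, ⟨e₁, e₂, he, rfl⟩, rfl⟩
    refine ⟨e₁, e₂, he, ?_⟩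
    show t * _ = _
    rw [shadowPerimeter_dil hK hne ht.le]

theorem surfaceArea_dil (K : Set E3) {t : ℝ} (ht : 0 < t) :
    surfaceArea (t • K) = t ^ 2 * surfaceArea K := by
  have h : ∀ u : sphere (0:E3) 1, volume (shadow (t • K) (u : E3)) =
      ENNReal.ofReal (t ^ 2) * volume (shadow K (u : E3)) := by
    intro u
    have hset : shadow (t • K) (u : E3) = t • shadow K (u : E3) := by
      unfold shadow
      ext y
      constructor
      · rintro ⟨_, ⟨x, hx, rfl⟩, rfl⟩
        exact ⟨_, ⟨x, hx, rfl⟩, by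
          show t • _ = _
          rw [← map_smul]⟩
      · rintro ⟨_, ⟨x, hx, rfl⟩, rfl⟩
        exact ⟨t • x, ⟨x, hx, rfl⟩, by
          show _ = t • _
          rw [← map_smul]⟩
    rw [hset, Measure.addHaar_smul, finrank_perp u, abs_of_pos (by positivity)]
  unfold surfaceArea
  rw [lintegral_congr h, lintegral_const_mul' _ _ ENNReal.ofReal_ne_top, ENNReal.toReal_mul,
    ENNReal.toReal_ofReal (by positivity)]
  ring

end SanLoc
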