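/-
MP_72c0ec_gt, helper9: the local theorem.
-/
import Pool.Agent.H.MP_72c0ec_gt.Loc.Core
import Pool.Agent.H.MP_72c0ec_gt.Loc.Scale
import Pool.Agent.H.MP_72c0ec_gt.Loc.AreaEq

set_option autoImplicit false

namespace SanLoc

open San SanSym MeasureTheory Set Metric Real
open scoped Pointwise

theorem inner_of_edges {a b : E3} {s : ℝ} (ha : ‖a‖ = s) (hb : ‖b‖ = s) (hab : ‖a - b‖ = s) :
    (inner ℝ a b : ℝ) = s ^ 2 / 2 := by
  have h := norm_sub_sq_real a b
  rw [ha, hb, hab] at h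
  linarith

/-- The volume of a regular tetrahedron. -/
theorem tv_sq_reg {V : Fin 4 → E3} {s : ℝ} (hV : ∀ i j, i ≠ j → ‖V i - V j‖ = s) :
    tv V ^ 2 = s ^ 6 / 2 := by
  have h1 := hV 1 0 (by decide)
  have h2 := hV 2 0 (by decide)
  have h3 := hV 3 0 (by decide)
  have h12 : ‖(V 1 - V 0) - (V 2 - V 0)‖ = s := by
    rw [sub_sub_sub_cancel_right]; exact hV 1 2 (by decide)
  have h23 : ‖(V 2 - V 0) - (V 3 - V 0)‖ = s := by
    rw [sub_sub_sub_cancel_right]; exact hV 2 3 (by decide)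
  have h31 : ‖(V 3 - V 0) - (V 1 - V 0)‖ = s := by
    rw [sub_sub_sub_cancel_right]; exact hV 3 1 (by decide)
  rw [tv_sq, inner_of_edges h1 h2 h12, inner_of_edges h2 h3 h23, inner_of_edges h3 h1 h31, h1, h2,
    h3]
  ring

/-- The vertices of a regular tetrahedron can be ordered such that the volume is positive. -/
theorem exists_oriented {V : Fin 4 → E3} {s : ℝ} (hs : 0 < s)
    (hV : ∀ i j, i ≠ j → ‖V i - V j‖ = s) :
    ∃ σ : Equiv.Perm (Fin 4), 0 < tv (V ∘ σ) := by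
  have h1 := tv_sq_reg hV
  have h2 : tv V ≠ 0 := by
    intro h
    rw [h] at h1
    have : 0 < s ^ 6 / 2 := by positivity
    linarith
  rcases lt_or_gt_of_ne h2 with h | h
  · refine ⟨Equiv.swap 0 1, ?_⟩
    rw [tv_swap]
    linarith
  · exact ⟨Equiv.refl _, h⟩

theorem range_comp_perm (V : Fin 4 → E3) (σ : Equiv.Perm (Fin 4)) : range (V ∘ σ) = range V :=
  σ.surjective.range_comp V

/-- Regular tetrahedra attain equality. -/
theorem reg_eq {W : Fin 4 → E3} {s : ℝ} (hs : 0 < s) (hW : ∀ i j, i ≠ j → ‖W i - W j‖ = s) :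
    minShadow (convexHull ℝ (range W)) ^ 2 =
      (2 + 4 / √3) * surfaceArea (convexHull ℝ (range W)) := by
  obtain ⟨σ, hσ⟩ := exists_oriented hs hW
  have hreg : ∀ i j, i ≠ j → ‖(W ∘ σ) i - (W ∘ σ) j‖ = ‖(W ∘ σ) 0 - (W ∘ σ) 1‖ := by
    intro i j hij
    simp only [Function.comp_apply]
    rw [hW _ _ (σ.injective.ne hij), hW _ _ (σ.injective.ne (by decide))]
  rw [← range_comp_perm W σ]
  have h1 := tet_equality hσ hreg
  have h2 := surfaceArea_T_le hσ
  have h3 := surfaceArea_T_ge (W ∘ σ)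
  rw [h1, le_antisymm h2 h3]

/-- The theorem for edges of length `1`. -/
theorem unit_case {K : Set E3} (hK : IsCompact K) (hKc : Convex ℝ K) {V : Fin 4 → E3}
    (hV : ∀ i j, i ≠ j → ‖V i - V j‖ = 1)
    (h1 : ∀ x ∈ K, ∃ y ∈ convexHull ℝ (range V), ‖x - y‖ ≤ 1 / 10 ^ 14)
    (h2 : ∀ i, ∃ x ∈ K, ‖x - V i‖ ≤ 1 / 10 ^ 14) :
    minShadow K ^ 2 ≤ (2 + 4 / √3) * surfaceArea K ∧
      (minShadow K ^ 2 = (2 + 4 / √3) * surfaceArea K →
        ∃ (W : Fin 4 → E3) (s : ℝ), 0 < s ∧ (∀ i j, i ≠ j → ‖W i - W j‖ = s) ∧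
          K = convexHull ℝ (range W)) := by
  obtain ⟨σ, hσ⟩ := exists_oriented one_pos hV
  obtain ⟨P, hP, hPe⟩ := loc_exists (V := V ∘ σ) (fun i j hij => hV _ _ (σ.injective.ne hij)) hσ
    hK hKc (by rw [range_comp_perm]; exact h1) (fun i => h2 (σ i))
  obtain ⟨c1, c2⟩ := core hP hPe
  refine ⟨c1, fun heq => ?_⟩
  obtain ⟨k1, k2⟩ := c2 heq
  refine ⟨P, ‖P 0 - P 1‖, ?_, k2, k1⟩
  exact norm_pos_iff.2 (sub_ne_zero.2 (ne_of_near hP.near (by decide)))

/-- **The regular tetrahedron is a strict local maximum.** -/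
theorem local_max {K : Set E3} (hK : IsCompact K) (hKc : Convex ℝ K) (hne : K.Nonempty)
    {V : Fin 4 → E3} {l : ℝ} (hl : 0 < l) (hV : ∀ i j, i ≠ j → dist (V i) (V j) = l)
    (hclose : hausdorffDist K (convexHull ℝ (range V)) < l / 10 ^ 14) :
    minShadow K ^ 2 ≤ (2 + 4 / √3) * cauchyArea K ∧
      (minShadow K ^ 2 = (2 + 4 / √3) * cauchyArea K ↔
        ∃ (W : Fin 4 → E3) (s : ℝ), 0 < s ∧ (∀ i j, i ≠ j → dist (W i) (W j) = s) ∧
          K = convexHull ℝ (range W)) := by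
  rw [cauchyArea_eq]
  have hTc : IsCompact (convexHull ℝ (range V)) := (finite_range V).isCompact_convexHull (𝕜 := ℝ)
  have hTne : (convexHull ℝ (range V)).Nonempty := (range_nonempty V).convexHull
  have hfin : hausdorffEDist K (convexHull ℝ (range V)) ≠ ⊤ :=
    hausdorffEDist_ne_top_of_nonempty_of_bounded hne hTne hK.isBounded hTc.isBounded
  have hl' : 0 < l⁻¹ := inv_pos.2 hl
  have hK' : IsCompact (l⁻¹ • K) := hK.smul l⁻¹
  have hKc' : Convex ℝ (l⁻¹ • K) := hKc.smul l⁻¹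
  have key := unit_case hK' hKc' (V := fun i => l⁻¹ • V i) (fun i j hij => by
      rw [← smul_sub, norm_smul, ← dist_eq_norm, hV i j hij, norm_inv, Real.norm_of_nonneg hl.le,
        inv_mul_cancel₀ hl.ne'])
    (by
      rintro _ ⟨x, hx, rfl⟩
      obtain ⟨y, hy, hxy⟩ := exists_dist_lt_of_hausdorffDist_lt hx hclose hfin
      refine ⟨l⁻¹ • y, ?_, ?_⟩
      · have : range (fun i => l⁻¹ • V i) = l⁻¹ • range V := by
          ext z
          constructor
          · rintro ⟨i, rfl⟩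
            exact ⟨V i, ⟨i, rfl⟩, rfl⟩
          · rintro ⟨_, ⟨i, rfl⟩, rfl⟩
            exact ⟨i, rfl⟩
        rw [this, convexHull_smul]
        exact ⟨y, hy, rfl⟩
      · show ‖l⁻¹ • x - l⁻¹ • y‖ ≤ _
        rw [← smul_sub, norm_smul, ← dist_eq_norm, norm_inv, Real.norm_of_nonneg hl.le,
          inv_mul_le_iff₀ hl]
        rw [mul_one_div]
        exact hxy.le)
    (by
      intro i
      have hi : V i ∈ convexHull ℝ (range V) := subset_convexHull ℝ _ ⟨i, rfl⟩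
      obtain ⟨x, hx, hxi⟩ := exists_dist_lt_of_hausdorffDist_lt' hi hclose hfin
      refine ⟨l⁻¹ • x, ⟨x, hx, rfl⟩, ?_⟩
      show ‖l⁻¹ • x - l⁻¹ • V i‖ ≤ _
      rw [← smul_sub, norm_smul, ← dist_eq_norm, norm_inv, Real.norm_of_nonneg hl.le,
        inv_mul_le_iff₀ hl]
      rw [mul_one_div]
      exact hxi.le)
  rw [minShadow_dil hK hne hl', surfaceArea_dil K hl'] at key
  have hsq : 0 < l⁻¹ ^ 2 := by positivity
  obtain ⟨k1, k2⟩ := key
  refine ⟨?_, fun heq => ?_, ?_⟩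
  · have : l⁻¹ ^ 2 * minShadow K ^ 2 ≤ l⁻¹ ^ 2 * ((2 + 4 / √3) * surfaceArea K) := by
      linarith
    exact le_of_mul_le_mul_left this hsq
  · obtain ⟨W, s, hs, hW, hKW⟩ := k2 (by rw [mul_pow, heq]; ring)
    refine ⟨fun i => l • W i, l * s, by positivity, fun i j hij => ?_, ?_⟩
    · rw [dist_eq_norm, ← smul_sub, norm_smul, hW i j hij, Real.norm_of_nonneg hl.le]
    · have h3 : range (fun i => l • W i) = l • range W := by
        ext z
        constructor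
        · rintro ⟨i, rfl⟩
          exact ⟨W i, ⟨i, rfl⟩, rfl⟩
        · rintro ⟨_, ⟨i, rfl⟩, rfl⟩
          exact ⟨i, rfl⟩
      rw [h3, convexHull_smul, ← hKW, smul_smul, mul_inv_cancel₀ hl.ne', one_smul]
  · rintro ⟨W, s, hs, hW, rfl⟩
    exact reg_eq hs fun i j hij => by rw [← dist_eq_norm]; exact hW i j hij

end SanLoc
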